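import Pool.Agent.Ovl.Targets6
import Pool.Agent.Ovl.MAS2

/-!
# OVL-MIX: the covering theorem, a mixture of small loss and of loss with slack
-/

set_option autoImplicit false

open MeasureTheory Set Filter
open scoped Pointwise Topology

namespace Pool.Agent.Ovl

open Pool.Agent.Rog (E SymBody)

namespace MIX_

open MAS2_

/-- Markov's inequality for a bounded measurable function on `K`. -/
lemma markov {n : ℕ} {K : Set (E n)} (hKc : IsCompact K) (f : E n → ℝ) (hf : Measurable f)
    (h0 : ∀ y, 0 ≤ f y) (B : ℝ) (hB : ∀ y, f y ≤ B) (s : ℝ) (hs : 0 ≤ s) :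
    s * volume.real {y | y ∈ K ∧ s < f y} ≤ ∫ y in K, f y := by
  have hintg : IntegrableOn f K volume := by
    refine Measure.integrableOn_of_bounded (M := B) hKc.measure_lt_top.ne
      hf.aestronglyMeasurable ?_
    refine Eventually.of_forall (fun y => ?_)
    rw [Real.norm_eq_abs, abs_of_nonneg (h0 _)]
    exact hB _
  have h1 := mul_meas_ge_le_integral_of_nonneg (μ := volume.restrict K)
    (f := f) (Eventually.of_forall (fun y => h0 _)) hintg s
  refine le_trans ?_ h1
  refine mul_le_mul_of_nonneg_left ?_ hs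
  rw [measureReal_def, measureReal_def, Measure.restrict_apply
    (measurableSet_le measurable_const hf)]
  refine ENNReal.toReal_mono ?_ ?_
  · exact ((measure_mono inter_subset_right).trans_lt hKc.measure_lt_top).ne
  · exact measure_mono (fun y hy => ⟨hy.2.le, hy.1⟩)

/-- `26 log (36 / 38) ≤ - 1`. -/
lemma log_ratio2 : (1 : ℝ) ≤ 26 * Real.log (38 / 36) := by
  have h : Real.exp 1 ≤ (38 / 36) ^ 26 := by
    have := Real.exp_one_lt_d9
    refine this.le.trans ?_
    norm_num
  have h1 : (1 : ℝ) ≤ Real.log ((38 / 36) ^ 26) := by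
    rw [Real.le_log_iff_exp_le (by positivity)]
    exact h
  rw [Real.log_pow] at h1
  push_cast at h1
  linarith

/-- `26 log 36 + 1 ≤ 48 log 7.5`. -/
lemma log_ratio3 : 26 * Real.log 36 + 1 ≤ 48 * Real.log 7.5 := by
  have h1 : Real.exp 1 * 36 ^ 26 ≤ 7.5 ^ 48 := by
    have := Real.exp_one_lt_d9
    refine (mul_le_mul_of_nonneg_right this.le (by positivity)).trans ?_
    norm_num
  have h2 := Real.log_le_log (by positivity) h1
  rw [Real.log_mul (Real.exp_pos 1).ne' (by positivity), Real.log_exp, Real.log_pow,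
    Real.log_pow] at h2
  push_cast at h2
  linarith

end MIX_

open MAS2_ MIX_

theorem p_MIX (hL : T_LOSS) (hV : T_LEV) (hR : T_ROB2) (hT : T_TAILT) (hS : T_LR) : T_MIX := by
  intro d Θ T K hd hΘ hΘd hK hKc hKi hI1 hI2
  obtain ⟨h0, -, -, hmono, hmeas, -, -⟩ := hL d K hK hKc
  have hK0 : (0 : E d) ∈ K := interior_subset hKi
  have hKne : (interior K).Nonempty := ⟨0, hKi⟩
  set V := volume.real K with hVdef
  have hVpos : 0 < V := by
    rw [hVdef, measureReal_def]
    exact ENNReal.toReal_pos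
      (ne_of_gt (lt_of_lt_of_le (isOpen_interior.measure_pos volume hKne)
        (measure_mono interior_subset))) hKc.measure_lt_top.ne
  have hd0 : (0 : ℝ) < d := by
    have : (2 : ℝ) ≤ d := by exact_mod_cast hd
    linarith
  have hd1 : (1 : ℝ) ≤ d := by
    have : (2 : ℝ) ≤ d := by exact_mod_cast hd
    linarith
  set r : ℝ := 1 / (48 * d) with hr
  have hr0 : 0 ≤ r := by positivity
  obtain ⟨g0, gmeas, gchain, glast⟩ := hS d K hK hKc hK0 r hr0
  -- logarithms
  set L := Real.log (512 * Θ) with hLdef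
  set M := Real.log (38 * Θ) with hMdef
  have hM36 : M = Real.log (38 / 36) + Real.log (36 * Θ) := by
    rw [hMdef, ← Real.log_mul (by norm_num) (by positivity)]
    congr 1
    ring
  have hl36Θ : 0 < Real.log (36 * Θ) := Real.log_pos (by linarith)
  have hlr2 := log_ratio2
  have hM0 : 0 < M := by
    rw [hM36]
    have : 0 < Real.log (38 / 36) := by
      have : 0 < 26 * Real.log (38 / 36) := lt_of_lt_of_le one_pos hlr2
      linarith
    linarith
  have hML : M ≤ L := Real.log_le_log (by positivity) (by linarith)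
  have hLpos : 0 < L := hM0.trans_le hML
  -- the number of steps
  set k := ⌈26 * Real.log (36 * Θ)⌉₊ with hk
  have hk1 : 1 ≤ k := by
    rw [hk, Nat.one_le_ceil_iff]
    positivity
  have hk2 : 26 * Real.log (36 * Θ) ≤ k := Nat.le_ceil _
  have hk3' : (k : ℝ) ≤ 26 * Real.log (36 * Θ) + 1 :=
    (Nat.ceil_lt_add_one (by positivity : 0 ≤ 26 * Real.log (36 * Θ))).le
  have hk3 : (k : ℝ) ≤ 26 * M := by
    rw [hM36]
    linarith
  have hkd : (k : ℝ) ≤ d := hk3.trans hΘd
  have hk0 : (0 : ℝ) < k := by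
    have : (1 : ℝ) ≤ k := by exact_mod_cast hk1
    linarith
  set R : ℝ := k * r with hRdef
  have hR0 : 0 ≤ R := by positivity
  have hRd : R * d = k / 48 := by
    rw [hRdef, hr]
    field_simp
  have hR48 : R ≤ 1 / 48 := by
    rw [hRdef, hr, mul_one_div, div_le_div_iff₀ (by positivity) (by norm_num)]
    linarith
  have h1R : 0 < 1 + R := by linarith
  -- `(1 + R) ^ d`
  have hpow : (1 + R) ^ d ≤ Real.exp (k / 48) := by
    have h1 : 1 + R ≤ Real.exp R := by
      have := Real.add_one_le_exp R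
      linarith
    calc (1 + R) ^ d ≤ (Real.exp R) ^ d := pow_le_pow_left₀ h1R.le h1 d
      _ = Real.exp (d * R) := by rw [← Real.exp_nat_mul]
      _ = Real.exp (k / 48) := by rw [← hRd]; congr 1; ring
  have hpow1 : (1 : ℝ) ≤ (1 + R) ^ d := one_le_pow₀ (by linarith)
  have hpow2 : (1 + R) ^ d ≤ 7.5 * Θ := by
    refine hpow.trans ?_
    rw [← Real.le_log_iff_exp_le (by positivity), Real.log_mul (by norm_num) (by positivity)]
    have h1 := log_ratio3
    have h2 : Real.log (36 * Θ) = Real.log 36 + Real.log Θ :=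
      Real.log_mul (by norm_num) (by positivity)
    have h3 : 0 ≤ Real.log Θ := Real.log_nonneg hΘ
    rw [h2] at hk3'
    linarith
  have hPpos : 0 < (1 + R) ^ d := by positivity
  set ω : ℝ := 1 / 2 / (1 + R) ^ d with hω
  have hω0 : 0 < ω := by positivity
  have hω2 : ω ≤ 1 / 2 := by
    rw [hω, div_le_iff₀ hPpos]
    linarith
  set s : ℝ := (k / (2 * d)) / (1 + R) with hs
  have hs0 : 0 ≤ s := by positivity
  have hs1 : s ≤ 1 := by
    rw [hs, div_le_one h1R, div_le_iff₀ (by positivity)]
    nlinarith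
  -- the maps
  set T' : E d →L[ℝ] E d := (1 / (d : ℝ)) • (ContinuousLinearMap.id ℝ (E d) - T) with hT'
  have hT'y : ∀ y, T' y = (1 / (d : ℝ)) • (y - T y) := fun y => by
    rw [hT']
    simp
  set s0 : ℝ := 4 * (1 / (760 * L ^ 2)) * V with hs0def
  have hs0pos : 0 < s0 := by positivity
  have hm1 : Measurable (fun y : E d => loss K (T' y)) := hmeas.comp T'.continuous.measurable
  have hmk1 := markov hKc (fun y => loss K (T' y)) hm1 (fun y => (h0 _).1) V (fun y => (h0 _).2)
    s0 hs0pos.le
  have hM4 : volume.real {y | y ∈ K ∧ s0 < loss K (T' y)} * 4 ≤ V := by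
    have h1 : ∫ y in K, loss K (T' y) ≤ V ^ 2 / (760 * L ^ 2) := by
      rw [le_div_iff₀ (by positivity)]
      simp only [hT'y]
      linarith
    have h2 : V ^ 2 / (760 * L ^ 2) = s0 * (V / 4) := by
      rw [hs0def]
      field_simp
    have h3 := hmk1.trans (h1.trans h2.le)
    have h4 := le_of_mul_le_mul_left h3 hs0pos
    linarith
  obtain ⟨j, hj1, hj2⟩ := exists_j (512 * Θ) (by linarith)
  have htail := hT d K T' s0 j hK hKc hs0pos.le hM4
  set τ : ℝ := 2 ^ (j + 1) - 1 with hτ
  have hτ0 : 0 ≤ τ := by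
    have : (1 : ℝ) ≤ 2 ^ (j + 1) := one_le_pow₀ (by norm_num)
    rw [hτ]
    linarith
  -- the second integral
  set b2 : ℝ := 1 / (2 * 10 ^ 5 * Θ ^ 2 * M) with hb2
  have hb2pos : 0 < b2 := by positivity
  set c : ℝ := 512 * Θ * b2 * V with hc
  have hcpos : 0 < c := by positivity
  have hm2 : Measurable (fun y : E d => lossr K r ((1 / (d : ℝ)) • T y)) := by
    refine gmeas.comp ?_
    exact (T.continuous.const_smul (1 / (d : ℝ))).measurable
  have hmk2 := markov hKc (fun y => lossr K r ((1 / (d : ℝ)) • T y)) hm2 (fun y => (g0 _).1) V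
    (fun y => (g0 _).2) c hcpos.le
  have hM5 : volume.real {y | y ∈ K ∧ c < lossr K r ((1 / (d : ℝ)) • T y)} * (512 * Θ) ≤ V := by
    have h1 : ∫ y in K, lossr K r ((1 / (d : ℝ)) • T y) ≤ b2 * V ^ 2 := by
      rw [hb2, one_div_mul_eq_div, le_div_iff₀ (by positivity)]
      linarith
    have h2 : b2 * V ^ 2 = c * (V / (512 * Θ)) := by
      rw [hc]
      field_simp
    have h3 := hmk2.trans (h1.trans h2.le)
    have h4 := le_of_mul_le_mul_left h3 hcpos
    rwa [le_div_iff₀ (by positivity)] at h4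
  have hM6 : volume.real {y | y ∈ K ∧ τ * s0 < loss K (T' y)} * (512 * Θ) ≤ V :=
    (mul_le_mul_of_nonneg_left hj1 measureReal_nonneg).trans htail
  -- the first good event
  have hgood1 : ∀ y, loss K (T' y) ≤ τ * s0 → loss K ((2 * s) • (y - T y)) ≤ (1 - ω) * V := by
    intro y hy
    have h1 : (2 * s) • (y - T y) = (1 / (1 + R)) • ((k : ℝ) • T' y) := by
      rw [hT'y, smul_smul, smul_smul]
      congr 1
      rw [hs]
      field_simp
    rw [h1]
    have h2 : loss K ((1 / (1 + R)) • ((k : ℝ) • T' y)) ≤ loss K ((k : ℝ) • T' y) := by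
      refine hmono _ _ (by positivity) ?_
      rw [div_le_one h1R]
      linarith
    have h3 : loss K ((k : ℝ) • T' y) ≤ k * loss K (T' y) := by
      obtain ⟨-, -, hadd, -⟩ := hL d K hK hKc
      exact loss_nsmul hadd _ k hk1
    have h4 : (k : ℝ) * loss K (T' y) ≤ (26 * M) * (τ * s0) :=
      mul_le_mul hk3 hy (h0 _).1 (by positivity)
    have h5 : τ * (45 / 41) ≤ 4 * L := (mul_le_mul_of_nonneg_left log_three hτ0).trans hj2
    have h6 : (26 * M) * (τ * s0) ≤ V / 2 := by
      have h7 : (26 * M) * (τ * s0) = τ * (104 / 760) * (M / L ^ 2) * V := by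
        rw [hs0def]
        field_simp
        ring
      rw [h7]
      have h8 : M / L ^ 2 ≤ 1 / L := by
        rw [div_le_div_iff₀ (by positivity) hLpos]
        nlinarith
      have h9 : τ * (104 / 760) * (M / L ^ 2) ≤ 1 / 2 := by
        calc τ * (104 / 760) * (M / L ^ 2) ≤ τ * (104 / 760) * (1 / L) :=
              mul_le_mul_of_nonneg_left h8 (by positivity)
          _ = (τ * (104 / 760)) / L := by ring
          _ ≤ 1 / 2 := by
              rw [div_le_div_iff₀ hLpos (by norm_num)]
              linarith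
      nlinarith
    nlinarith
  -- the second good event
  have hgood2 : ∀ y, lossr K r ((1 / (d : ℝ)) • T y) ≤ c →
      loss K ((2 * s) • T y) ≤ (1 - ω) * V := by
    intro y hy
    have h1 := gchain k ((1 / (d : ℝ)) • T y)
    have h2 := (hS d K hK hKc hK0 R hR0).2.2.2 ((k : ℝ) • (1 / (d : ℝ)) • T y)
    have h3 : (1 / (1 + R)) • ((k : ℝ) • (1 / (d : ℝ)) • T y) = (2 * s) • T y := by
      rw [smul_smul, smul_smul]
      congr 1
      rw [hs]
      field_simp
    rw [h3] at h2
    have h4 : (k : ℝ) * (1 + R) ^ d * lossr K r ((1 / (d : ℝ)) • T y) ≤ V / 2 := by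
      calc (k : ℝ) * (1 + R) ^ d * lossr K r ((1 / (d : ℝ)) • T y)
          ≤ (26 * M) * (7.5 * Θ) * c := by
            refine mul_le_mul (mul_le_mul hk3 hpow2 hPpos.le (by positivity)) hy (g0 _).1
              (by positivity)
        _ = (26 * 7.5 * 512 / (2 * 10 ^ 5)) * V := by
            rw [hc, hb2]
            field_simp
        _ ≤ V / 2 := by
            have : (26 * 7.5 * 512 / (2 * 10 ^ 5) : ℝ) ≤ 1 / 2 := by norm_num
            nlinarith
    have h5 : lossr K R ((k : ℝ) • (1 / (d : ℝ)) • T y) ≤ V / 2 := h1.trans h4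
    have h6 : V / 2 ≤ (1 + R) ^ d * (V - loss K ((2 * s) • T y)) := by linarith
    have h7 : ω * V ≤ V - loss K ((2 * s) • T y) := by
      rw [hω, div_mul_eq_mul_div, div_le_iff₀ hPpos]
      linarith
    linarith
  -- conclusion
  refine hR d Θ s ω K hd hΘ hs0 hs1 hω0 (by linarith) ?_ hK hKc hKne ?_
  · -- the exponent
    have h1 : (4 / 49) * (k : ℝ) ≤ s * d / 6 := by
      have h2 : s * d / 6 = k / (12 * (1 + R)) := by
        rw [hs]
        field_simp
        norm_num
      rw [h2, le_div_iff₀ (by positivity)]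
      nlinarith
    have h3 : Real.exp (-(s * d / 6)) ≤ Real.exp (-((4 / 49) * (k : ℝ))) :=
      Real.exp_le_exp.2 (by linarith)
    have h4 : 36 * Θ ≤ Real.exp ((4 / 49 - 1 / 24) * (k : ℝ)) := by
      rw [← Real.log_le_iff_le_exp (by positivity)]
      nlinarith
    have h5 : (1 / 4) * Real.exp (-(k / 24 : ℝ)) ≤ ω ^ 2 := by
      have h6 : (1 / 2) * Real.exp (-(k / 48 : ℝ)) ≤ ω := by
        rw [hω, Real.exp_neg, ← div_eq_mul_inv]
        exact div_le_div_of_nonneg_left (by norm_num) hPpos hpow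
      have h7 : (1 / 4) * Real.exp (-(k / 24 : ℝ)) = ((1 / 2) * Real.exp (-(k / 48 : ℝ))) ^ 2 := by
        rw [mul_pow, ← Real.exp_nat_mul]
        congr 1
        · norm_num
        · congr 1
          push_cast
          ring
      rw [h7]
      exact pow_le_pow_left₀ (by positivity) h6 2
    refine le_trans ?_ h5
    calc 9 * Θ * Real.exp (-(s * d / 6)) ≤ 9 * Θ * Real.exp (-((4 / 49) * (k : ℝ))) :=
          mul_le_mul_of_nonneg_left h3 (by positivity)
      _ = (1 / 4) * (36 * Θ) * Real.exp (-((4 / 49) * (k : ℝ))) := by ring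
      _ ≤ (1 / 4) * Real.exp ((4 / 49 - 1 / 24) * (k : ℝ)) * Real.exp (-((4 / 49) * (k : ℝ))) :=
          mul_le_mul_of_nonneg_right (mul_le_mul_of_nonneg_left h4 (by norm_num))
            (Real.exp_pos _).le
      _ = (1 / 4) * Real.exp (-(k / 24 : ℝ)) := by
          rw [mul_assoc, ← Real.exp_add]
          congr 2
          ring
  · have hsub : {y | y ∈ K ∧ (1 - ω) * V < loss K (s • y)} ⊆
        {y | y ∈ K ∧ τ * s0 < loss K (T' y)} ∪
          {y | y ∈ K ∧ c < lossr K r ((1 / (d : ℝ)) • T y)} := by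
      rintro y ⟨hy, hy2⟩
      by_contra hcon
      rw [mem_union, not_or] at hcon
      have h1 : loss K (T' y) ≤ τ * s0 := by
        by_contra h
        exact hcon.1 ⟨hy, not_le.1 h⟩
      have h2 : lossr K r ((1 / (d : ℝ)) • T y) ≤ c := by
        by_contra h
        exact hcon.2 ⟨hy, not_le.1 h⟩
      have h3 := hV d K hK hKc ((1 - ω) * V) (1 / 2) (1 / 2) ((2 * s) • (y - T y))
        ((2 * s) • T y) (by norm_num) (by norm_num) (by norm_num) (hgood1 y h1) (hgood2 y h2)
      have h4 : (1 / 2 : ℝ) • (2 * s) • (y - T y) + (1 / 2 : ℝ) • (2 * s) • T y = s • y := by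
        rw [← smul_add, ← smul_add, sub_add_cancel, smul_smul]
        congr 1
        ring
      rw [h4] at h3
      exact absurd hy2 (not_lt.2 h3)
    have h1 : volume.real {y | y ∈ K ∧ (1 - ω) * V < loss K (s • y)} ≤
        volume.real {y | y ∈ K ∧ τ * s0 < loss K (T' y)} +
          volume.real {y | y ∈ K ∧ c < lossr K r ((1 / (d : ℝ)) • T y)} := by
      refine le_trans ?_ (measureReal_union_le _ _)
      rw [measureReal_def, measureReal_def]
      refine ENNReal.toReal_mono ?_ (measure_mono hsub)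
      exact ((measure_mono (union_subset (fun y hy => hy.1) (fun y hy => hy.1))).trans_lt
        hKc.measure_lt_top).ne
    have h2 := mul_le_mul_of_nonneg_right h1 (by positivity : (0 : ℝ) ≤ 256 * Θ)
    refine h2.trans ?_
    linarith

end Pool.Agent.Ovl
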