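import Pool.Agent.Ovl.Targets11
import Pool.Agent.Ovl.BLK
import Pool.Agent.Ovl.MIX
import Pool.Agent.Rog.POLB

/-!
# Bodies with a retraction
-/

set_option autoImplicit false

open MeasureTheory Set Filter
open scoped Pointwise Topology

namespace Pool.Agent.Ovl

open Pool.Agent.Rog (E SymBody)

namespace BLQ_

/-- Joint measurability. -/
lemma measF {d : ℕ} (K : Set (E d)) (T : E d →L[ℝ] E d) :
    Measurable (fun p : E d × E d => max 0 (fderiv ℝ (gauge K) p.2 (T p.1) - 1 / 40)) := by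
  have h1 : Measurable (fun p : E d × E d => (fderiv ℝ (gauge K) p.2, T p.1)) :=
    ((measurable_fderiv ℝ (gauge K)).comp measurable_snd).prodMk
      (T.continuous.measurable.comp measurable_fst)
  have h2 : Measurable (fun p : (E d →L[ℝ] ℝ) × E d => p.1 p.2) :=
    isBoundedBilinearMap_apply.continuous.measurable
  exact measurable_const.max ((h2.comp h1).sub measurable_const)

/-- The average of the loss with slack. -/
lemma main_int {d : ℕ} (hd : 1 ≤ d) {K : Set (E d)} (hcv : Convex ℝ K) (hc : IsCompact K)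
    (h0 : (0 : E d) ∈ interior K) (hS : T_LR) (hU : T_GSUB) (hG : T_GAU)
    (T : E d →L[ℝ] E d) (hT : ∀ y ∈ K, T y ∈ K) (ε : ℝ)
    (hε : ∀ z : E d, volume.real {y | y ∈ K ∧ 1 / 40 < |fderiv ℝ (gauge K) z (T y)|} ≤
      ε * volume.real K) :
    ∫ y in K, lossr K (1 / (40 * d)) ((1 / (d : ℝ)) • T y) ≤ 10 * ε * volume.real K ^ 2 := by
  have hd0 : (0 : ℝ) < d := by exact_mod_cast hd
  have h0K : (0 : E d) ∈ K := interior_subset h0
  have hfin : volume K ≠ ⊤ := hc.measure_lt_top.ne
  have hKm : MeasurableSet K := hc.measurableSet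
  have : IsFiniteMeasure (volume.restrict K) := ⟨by
    rw [Measure.restrict_apply_univ]; exact hc.measure_lt_top⟩
  obtain ⟨hL0, hLm, -, -⟩ := hS d K hcv hc h0K (1 / (40 * d)) (by positivity)
  have hFm := measF K T
  -- bound on K
  have hF1 : ∀ y ∈ K, ∀ z : E d, max 0 (fderiv ℝ (gauge K) z (T y) - 1 / 40) ≤ 1 := by
    intro y hy z
    have := hU d K hcv hc h0 z (T y) (hT y hy)
    exact max_le (by norm_num) (by linarith)
  have hFint : Integrable (fun p : E d × E d => max 0 (fderiv ℝ (gauge K) p.2 (T p.1) - 1 / 40))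
      ((volume.restrict K).prod (volume.restrict K)) := by
    refine Integrable.of_bound hFm.aestronglyMeasurable 1 ?_
    rw [Measure.prod_restrict]
    filter_upwards [ae_restrict_mem (hKm.prod hKm)] with p hp
    rw [Real.norm_of_nonneg (le_max_left _ _)]
    exact hF1 p.1 hp.1 p.2
  have hstep : ∀ y ∈ K, lossr K (1 / (40 * d)) ((1 / (d : ℝ)) • T y) ≤
      10 * ∫ z in K, max 0 (fderiv ℝ (gauge K) z (T y) - 1 / 40) := by
    intro y hy
    have h1 := hG d K (1 / (40 * d)) ((1 / (d : ℝ)) • T y) hd hcv hc h0 (by positivity) (by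
      rw [smul_smul, mul_one_div_cancel hd0.ne', one_smul]
      exact hT y hy)
    have h2 : ∀ z : E d, max 0 (fderiv ℝ (gauge K) z ((1 / (d : ℝ)) • T y) - 1 / (40 * d)) =
        (1 / (d : ℝ)) * max 0 (fderiv ℝ (gauge K) z (T y) - 1 / 40) := by
      intro z
      rw [map_smul, smul_eq_mul, mul_max_of_nonneg _ _ (by positivity), mul_zero]
      have h3 : 1 / (d : ℝ) * fderiv ℝ (gauge K) z (T y) - 1 / (40 * d) =
          1 / (d : ℝ) * (fderiv ℝ (gauge K) z (T y) - 1 / 40) := by
        field_simp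
      rw [h3]
    simp only [h2, integral_const_mul] at h1
    refine h1.trans (le_of_eq ?_)
    rw [← mul_assoc, mul_assoc 10 (d : ℝ) (1 / (d : ℝ)), mul_one_div_cancel hd0.ne', mul_one]
  have hgint : Integrable (fun y => 10 * ∫ z in K, max 0 (fderiv ℝ (gauge K) z (T y) - 1 / 40))
      (volume.restrict K) := (hFint.integral_prod_left).const_mul 10
  have hA : ∫ y in K, lossr K (1 / (40 * d)) ((1 / (d : ℝ)) • T y) ≤
      ∫ y in K, 10 * ∫ z in K, max 0 (fderiv ℝ (gauge K) z (T y) - 1 / 40) := by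
    refine integral_mono_of_nonneg (ae_of_all _ fun y => (hL0 _).1) hgint ?_
    filter_upwards [ae_restrict_mem hKm] with y hy using hstep y hy
  refine hA.trans ?_
  rw [integral_const_mul, integral_integral_swap (f := fun y z =>
    max 0 (fderiv ℝ (gauge K) z (T y) - 1 / 40)) hFint]
  have hB : ∀ z : E d, ∫ y in K, max 0 (fderiv ℝ (gauge K) z (T y) - 1 / 40) ≤
      ε * volume.real K := by
    intro z
    refine le_trans ?_ (hε z)
    have hSm : MeasurableSet {y | y ∈ K ∧ 1 / 40 < |fderiv ℝ (gauge K) z (T y)|} := by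
      have hm1 : Measurable (fun y : E d => |fderiv ℝ (gauge K) z (T y)|) :=
        (((fderiv ℝ (gauge K) z).continuous.comp T.continuous).abs).measurable
      have hm2 : MeasurableSet {y : E d | 1 / 40 < |fderiv ℝ (gauge K) z (T y)|} :=
        measurableSet_lt measurable_const hm1
      exact hKm.inter hm2
    have hb1 : ∀ y ∈ K, max 0 (fderiv ℝ (gauge K) z (T y) - 1 / 40) ≤
        {y | y ∈ K ∧ 1 / 40 < |fderiv ℝ (gauge K) z (T y)|}.indicator (fun _ => (1 : ℝ)) y := by
      intro y hy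
      by_cases h : 1 / 40 < |fderiv ℝ (gauge K) z (T y)|
      · rw [indicator_of_mem (show y ∈ {y | y ∈ K ∧ 1 / 40 < |fderiv ℝ (gauge K) z (T y)|}
          from ⟨hy, h⟩)]
        exact hF1 y hy z
      · rw [indicator_of_notMem (fun hh => h hh.2)]
        have := (le_abs_self (fderiv ℝ (gauge K) z (T y))).trans (not_lt.mp h)
        exact max_le le_rfl (by linarith)
    have hii : Integrable ({y | y ∈ K ∧ 1 / 40 < |fderiv ℝ (gauge K) z (T y)|}.indicator
        (fun _ => (1 : ℝ))) (volume.restrict K) :=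
      (integrable_const (1 : ℝ)).indicator hSm
    calc ∫ y in K, max 0 (fderiv ℝ (gauge K) z (T y) - 1 / 40)
        ≤ ∫ y in K, {y | y ∈ K ∧ 1 / 40 < |fderiv ℝ (gauge K) z (T y)|}.indicator
            (fun _ => (1 : ℝ)) y := by
          refine integral_mono_of_nonneg (ae_of_all _ fun y => le_max_left _ _) hii ?_
          filter_upwards [ae_restrict_mem hKm] with y hy using hb1 y hy
      _ = volume.real {y | y ∈ K ∧ 1 / 40 < |fderiv ℝ (gauge K) z (T y)|} := by
          rw [integral_indicator_const _ hSm, smul_eq_mul, mul_one, measureReal_def,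
            Measure.restrict_apply hSm, measureReal_def]
          congr 2
          ext y
          constructor
          · intro h
            exact h.1
          · intro h
            exact ⟨h, h.1⟩
  have hC : ∫ z in K, ∫ y in K, max 0 (fderiv ℝ (gauge K) z (T y) - 1 / 40) ≤
      ∫ z in K, ε * volume.real K := by
    refine integral_mono_of_nonneg (ae_of_all _ fun z => integral_nonneg fun y =>
      le_max_left _ _) (integrable_const _) (ae_of_all _ fun z => hB z)
  rw [setIntegral_const, smul_eq_mul] at hC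
  nlinarith

end BLQ_

open BLK_ in
theorem p_BLQ (hL : T_LOSS) (hB : T_BMO) (hF : T_FPQ) (hS : T_LR) (hU : T_GSUB) (hG : T_GAU)
    (hC : T_LCT) (hY : T_ROB3) (hN : T_NUMQ) : T_BLQ := by
  intro d F K hd hFd hcv hc h0 hP hwid
  have hd' : (10 ^ 4 : ℝ) ≤ d := by exact_mod_cast hd
  have hd0 : (0 : ℝ) < d := by linarith
  have hd1 : 1 ≤ d := by omega
  have hint : (interior K).Nonempty := ⟨0, h0⟩
  have h0K : (0 : E d) ∈ K := interior_subset h0
  have hVpos : 0 < volume.real K :=
    ENNReal.toReal_pos (Measure.measure_pos_of_nonempty_interior _ hint).ne'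
      hc.measure_lt_top.ne
  have hld : 0 < Real.log d := Real.log_pos (by linarith)
  obtain ⟨hl0, -⟩ := hL d K hcv hc
  obtain ⟨Θ, hΘ⟩ : ∃ Θ : ℝ, Θ = 3 * d * Real.log (8 * d + 2) := ⟨_, rfl⟩
  obtain ⟨m, hm⟩ : ∃ m : ℕ, m = ⌈120 * Real.log d⌉₊ := ⟨_, rfl⟩
  obtain ⟨R, hRd⟩ : ∃ R : ℝ, R = m * (1 / (40 * d)) := ⟨_, rfl⟩
  obtain ⟨s, hs⟩ : ∃ s : ℝ, s = m / (2 * d * (1 + R)) := ⟨_, rfl⟩
  obtain ⟨hΘ1, hm1, hR0, hs0, hs4, hn3, hn4, hn5, hn6⟩ := hN d m Θ s R hd hΘ hm hRd hs
  have hΘ0 : 0 < Θ := by linarith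
  have hR1 : 0 < 1 + R := by linarith
  obtain ⟨ee, hee⟩ : ∃ ee : ℝ, ee = (3 : ℝ) ^ (-(2500 * Real.log d * (1 / 40) / 8)) := ⟨_, rfl⟩
  have hee0 : 0 < ee := by
    rw [hee]
    exact Real.rpow_pos_of_pos (by norm_num) _
  rw [← hee] at hn5
  -- (a)
  have ha := hF d F K (1 / (1536 * Θ)) (1 / 600) (1 / 50) (2 * s) hd1 hcv hc hint hP
    (by positivity) (by norm_num) (by norm_num) (by norm_num) (by norm_num) (by linarith)
    (by linarith) (hn3 F.card hFd)
  -- (b)
  have hT : ∀ y ∈ K, tF F y ∈ K := fun y hy => hP y hy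
  have hε : ∀ z : E d, volume.real {y | y ∈ K ∧ 1 / 40 < |fderiv ℝ (gauge K) z (tF F y)|} ≤
      3 * ee * volume.real K := by
    intro z
    have hφ : ∀ y : E d, inner ℝ ((InnerProductSpace.toDual ℝ (E d)).symm
        (fderiv ℝ (gauge K) z)) y = fderiv ℝ (gauge K) z y := by
      intro y
      exact InnerProductSpace.toDual_symm_apply
    obtain ⟨k, hk, hk0, hk1⟩ := hwid ((InnerProductSpace.toDual ℝ (E d)).symm
        (fderiv ℝ (gauge K) z))
    simp only [hφ] at hk0 hk1
    have hk2 := hU d K hcv hc h0 z k hk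
    have hk3 : (2500 * Real.log d) ^ 2 *
        ∫ y in K, (((fderiv ℝ (gauge K) z).comp (tF F)) y) ^ 2 ≤ volume.real K := by
      simp only [ContinuousLinearMap.comp_apply, tF_apply]
      refine hk1.trans ?_
      have h1 : (fderiv ℝ (gauge K) z k) ^ 2 ≤ 1 := by nlinarith
      nlinarith
    have h1 := hC d K ((fderiv ℝ (gauge K) z).comp (tF F)) (2500 * Real.log d) (1 / 40) hcv hc
      (by positivity) (by norm_num) hk3
    simp only [ContinuousLinearMap.comp_apply] at h1
    rw [← hee] at h1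
    exact h1
  have hI := BLQ_.main_int hd1 hcv hc h0 hS hU hG (tF F) hT (3 * ee) hε
  obtain ⟨hr0, hrm, hrmul, -⟩ := hS d K hcv hc h0K (1 / (40 * d)) (by positivity)
  obtain ⟨-, -, -, hRovl⟩ := hS d K hcv hc h0K R hR0
  have hcont : Continuous (fun y : E d => (1 / (d : ℝ)) • tF F y) := by
    have := (tF F).continuous
    fun_prop
  have hfm : Measurable (fun y : E d => lossr K (1 / (40 * d)) ((1 / (d : ℝ)) • tF F y)) :=
    hrm.comp hcont.measurable
  have hmk := MIX_.markov hc (fun y : E d => lossr K (1 / (40 * d)) ((1 / (d : ℝ)) • tF F y)) hfm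
    (fun y => (hr0 _).1) (volume.real K) (fun y => (hr0 _).2)
    (512 * Θ * (30 * ee) * volume.real K) (by positivity)
  have hb : volume.real {y | y ∈ K ∧ 512 * Θ * (30 * ee) * volume.real K <
      lossr K (1 / (40 * d)) ((1 / (d : ℝ)) • tF F y)} * (512 * Θ) ≤ volume.real K := by
    have h1 := hmk.trans hI
    have h2 : (30 * ee * volume.real K) * (volume.real {y | y ∈ K ∧
        512 * Θ * (30 * ee) * volume.real K <
        lossr K (1 / (40 * d)) ((1 / (d : ℝ)) • tF F y)} * (512 * Θ)) ≤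
        (30 * ee * volume.real K) * volume.real K := by
      refine le_trans (le_of_eq ?_) (h1.trans (le_of_eq ?_))
      · ring
      · ring
    exact le_of_mul_le_mul_left h2 (by positivity)
  -- (c)
  obtain ⟨ω, hω⟩ : ∃ ω : ℝ, ω = (1 / 2 * (1 - 2 * (2 * s) * (1 / 50)) +
    1 / 2 * (1 / 2 / (1 + R) ^ d) ^ ((1 : ℝ) / d)) ^ d := ⟨_, rfl⟩
  rw [← hω] at hn4
  have hb0 : 0 ≤ (1 / 2 / (1 + R) ^ d : ℝ) ^ ((1 : ℝ) / d) := Real.rpow_nonneg (by positivity) _
  have hb1 : (1 / 2 / (1 + R) ^ d : ℝ) ^ ((1 : ℝ) / d) ≤ 1 := by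
    refine Real.rpow_le_one (by positivity) ?_ (by positivity)
    rw [div_le_one (by positivity)]
    have h1 : (1 : ℝ) ≤ (1 + R) ^ d := one_le_pow₀ (by linarith)
    linarith
  have hω0 : 0 < ω := by
    rw [hω]
    refine pow_pos ?_ d
    linarith
  have hω1 : ω ≤ 1 := by
    rw [hω]
    refine pow_le_one₀ ?_ ?_
    · linarith
    · linarith
  have hsub : {y | y ∈ K ∧ (1 - ω) * volume.real K < loss K (s • y)} ⊆
      {y | y ∈ K ∧ volume.real K - loss K ((2 * s) • mix F y 0) <
        (1 - 2 * (2 * s) * (1 / 50)) ^ d * volume.real K} ∪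
      {y | y ∈ K ∧ 512 * Θ * (30 * ee) * volume.real K <
        lossr K (1 / (40 * d)) ((1 / (d : ℝ)) • tF F y)} := by
    rintro y ⟨hy, hy2⟩
    by_contra hcon
    simp only [mem_union, mem_setOf_eq, not_or, not_and, not_lt] at hcon
    have hc1 := hcon.1 hy
    have hc2 := hcon.2 hy
    have hp0 : 0 < 1 - 2 * (2 * s) * (1 / 50) := by linarith
    -- the part outside F
    have h1 := hrmul m ((1 / (d : ℝ)) • tF F y)
    rw [← hRd] at h1
    have h2 : m * (1 + R) ^ d * lossr K (1 / (40 * d)) ((1 / (d : ℝ)) • tF F y) ≤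
        1 / 2 * volume.real K := by
      calc m * (1 + R) ^ d * lossr K (1 / (40 * d)) ((1 / (d : ℝ)) • tF F y)
          ≤ m * (1 + R) ^ d * (512 * Θ * (30 * ee) * volume.real K) :=
            mul_le_mul_of_nonneg_left hc2 (by positivity)
        _ = (m * (1 + R) ^ d * (512 * Θ * (30 * ee))) * volume.real K := by ring
        _ ≤ 1 / 2 * volume.real K := mul_le_mul_of_nonneg_right hn5 hVpos.le
    have h3 := hRovl ((m : ℝ) • ((1 / (d : ℝ)) • tF F y))
    have h4 : (1 / (1 + R)) • ((m : ℝ) • ((1 / (d : ℝ)) • tF F y)) = (2 * s) • tF F y := by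
      rw [smul_smul, smul_smul]
      congr 1
      rw [hs]
      field_simp
    rw [h4] at h3
    have h5 : 1 / 2 / (1 + R) ^ d * volume.real K ≤
        volume.real K - loss K ((2 * s) • tF F y) := by
      have h6 : 1 / 2 * volume.real K ≤
          (1 + R) ^ d * (volume.real K - loss K ((2 * s) • tF F y)) := by linarith
      rw [div_mul_eq_mul_div, div_le_iff₀ (by positivity)]
      linarith
    have hu : loss K ((2 * s) • mix F y 0) < volume.real K := by
      have : 0 < (1 - 2 * (2 * s) * (1 / 50)) ^ d * volume.real K := by positivity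
      linarith
    have hv : loss K ((2 * s) • tF F y) < volume.real K := by
      have : 0 < 1 / 2 / (1 + R) ^ d * volume.real K := by positivity
      linarith
    have h7 := hB d K ((2 * s) • mix F y 0) ((2 * s) • tF F y) (1 / 2) (1 / 2) hd1 hcv hc
      (by norm_num) (by norm_num) (by norm_num) hu hv
    have h8 : (1 / 2 : ℝ) • ((2 * s) • mix F y 0) + (1 / 2 : ℝ) • ((2 * s) • tF F y) =
        s • y := by
      rw [smul_smul, smul_smul, tF_apply, ← smul_add, mix_add]
      congr 1
      ring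
    rw [h8] at h7
    have h9 := comb hd1 hVpos.le hp0.le (by positivity)
      (sub_nonneg.mpr (hl0 (s • y)).2) hc1 h5 h7
    rw [← hω] at h9
    linarith
  have hfin : volume ({y | y ∈ K ∧ volume.real K - loss K ((2 * s) • mix F y 0) <
        (1 - 2 * (2 * s) * (1 / 50)) ^ d * volume.real K} ∪
      {y | y ∈ K ∧ 512 * Θ * (30 * ee) * volume.real K <
        lossr K (1 / (40 * d)) ((1 / (d : ℝ)) • tF F y)}) ≠ ⊤ := by
    refine ((measure_mono ?_).trans_lt hc.measure_lt_top).ne
    rintro y (hy | hy)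
    · exact hy.1
    · exact hy.1
  have hmono := (measureReal_mono hsub hfin).trans (measureReal_union_le _ _)
  have htail : volume.real {y | y ∈ K ∧ (1 - ω) * volume.real K < loss K (s • y)} *
      (256 * Θ) ≤ volume.real K := by
    have h1 := mul_le_mul_of_nonneg_right hmono (by positivity : (0 : ℝ) ≤ 256 * Θ)
    have h2 : 3 * (1 / (1536 * Θ)) * volume.real K * (256 * Θ) = volume.real K / 2 := by
      field_simp
      ring
    have h3 := mul_le_mul_of_nonneg_right ha (by positivity : (0 : ℝ) ≤ 256 * Θ)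
    rw [h2] at h3
    rw [add_mul] at h1
    linarith
  obtain ⟨P, hPc, hPK⟩ := hY d Θ s ω K (by omega) hΘ1 hs0 (by linarith) hω0 hω1 hn4 hcv hc hint
    htail
  exact ⟨P, hPc.trans hn6, hPK⟩

end Pool.Agent.Ovl
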