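import Mathlib
import Pool.Agent.Rog.Defs
import Pool.Agent.HRL.Targets
import Pool.Agent.HRP.Targets
import Pool.Agent.ShadowA.Targets

/-!
# Hadwiger's covering problem and small translations of random points (MP_eba1ef_gt)

Targets (jobs OVL-*).  `n` (or `d`) is the dimension, `K` the convex body.
-/

set_option autoImplicit false

open MeasureTheory Set Filter
open scoped Pointwise Topology

namespace Pool.Agent.Ovl

open Pool.Agent.Rog (E SymBody)

/-- The volume of the part of `K` which leaves `K` under the translation by `v`. -/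
noncomputable def loss {n : ℕ} (K : Set (E n)) (v : E n) : ℝ :=
  volume.real {x | x ∈ K ∧ x + v ∉ K}

/-- The pairs `(x, y)` of points of `K` for which `x + c y` is not in `K`. -/
def esc {n : ℕ} (K : Set (E n)) (c : ℝ) : Set (E n × E n) :=
  {p | p.1 ∈ K ∧ p.2 ∈ K ∧ p.1 + c • p.2 ∉ K}

/-- `K` is covered by at most `N` translates of its interior. -/
def Cov {n : ℕ} (K : Set (E n)) (N : ℝ) : Prop :=
  ∃ T : Finset (E n), (T.card : ℝ) ≤ N ∧ K ⊆ ⋃ t ∈ T, (fun x => t + x) '' interior K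

/-- Basic properties of `loss`. -/
def T_LOSS : Prop := ∀ (n : ℕ) (K : Set (E n)), Convex ℝ K → IsCompact K →
  (∀ v, 0 ≤ loss K v ∧ loss K v ≤ volume.real K) ∧
  (∀ v, loss K (-v) = loss K v) ∧
  (∀ u v, loss K (u + v) ≤ loss K u + loss K v) ∧
  (∀ (s : ℝ) (v : E n), 0 ≤ s → s ≤ 1 → loss K (s • v) ≤ loss K v) ∧
  Measurable (fun v => loss K v) ∧
  MeasurableSet {p : E n × E n | p.1 ∈ K ∧ p.2 ∈ K ∧ p.1 + p.2 ∈ K} ∧
  (∀ c : ℝ, MeasurableSet (esc K c) ∧ ∫ y in K, loss K (c • y) = volume.real (esc K c))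

/-- A large symmetric body in a translate of `K`. -/
def T_SYMB : Prop := ∀ (n : ℕ) (K : Set (E n)), Convex ℝ K → IsCompact K → (interior K).Nonempty →
  ∃ (c : E n) (L : Set (E n)), SymBody L ∧ (∀ x ∈ L, c + x ∈ K) ∧
    volume.real K ≤ 2 ^ n * volume.real L

/-- From greedy steps to a covering by translates of the interior. -/
def T_COV : Prop := ∀ (d : ℕ) (K : Set (E d)) (κ : ℝ), 2 ≤ d → Convex ℝ K → IsCompact K →
  (interior K).Nonempty → 0 < κ →
  (∀ U : Finset (E d), U.Nonempty → (∀ x ∈ U, x ∈ K) →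
    ∃ z : E d, κ * U.card ≤ (({x | x ∈ U ∧ x - z ∈ (1 - 1 / (d : ℝ)) • K} : Set (E d)).ncard : ℝ))
  → Cov K (1 + 1 / κ * (d * Real.log (8 * d + 2)))

/-- The core: a spread out family of points gives a contradiction. -/
def T_CORE : Prop := ∀ (d : ℕ) (Θ q a t : ℝ) (K : Set (E d)) (U : Finset (E d)), Convex ℝ K →
  IsCompact K → (interior K).Nonempty → 1 ≤ Θ → 1 / 2 ≤ q → q < 1 → a = q / (1 + q) → 0 ≤ t →
  t ≤ 1 → 16 * Θ * (1 - a * t) ^ d ≤ 1 →
  volume.real {y | y ∈ K ∧ volume.real K < 12 * loss K (t • y)} * (256 * Θ) ≤ volume.real K →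
  U.Nonempty → (∀ x ∈ U, x ∈ K) →
  (∀ z : E d, (({x | x ∈ U ∧ x - z ∈ q • K} : Set (E d)).ncard : ℝ) ≤ Θ * a ^ d * U.card) → False

/-- The covering theorem, tail form. -/
def T_ROB : Prop := ∀ (d : ℕ) (Θ t : ℝ) (K : Set (E d)), 2 ≤ d → 1 ≤ Θ → 0 ≤ t → t ≤ 1 →
  3 * Real.log (16 * Θ) ≤ t * d → Convex ℝ K → IsCompact K → (interior K).Nonempty →
  volume.real {y | y ∈ K ∧ volume.real K < 12 * loss K (t • y)} * (256 * Θ) ≤ volume.real K →
  Cov K (1 + Real.exp 1 * 2 ^ d / Θ * (d * Real.log (8 * d + 2)))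

/-- The tails of the loss (a form of Borell's lemma). -/
def T_TAIL : Prop := ∀ (n : ℕ) (K : Set (E n)) (c s : ℝ) (j : ℕ), Convex ℝ K → IsCompact K →
  0 ≤ s → volume.real {y | y ∈ K ∧ s < loss K (c • y)} * 4 ≤ volume.real K →
  volume.real {y | y ∈ K ∧ (2 ^ (j + 1) - 1) * s < loss K (c • y)} * 3 ^ (2 ^ j) ≤ volume.real K

/-- The covering theorem, average form. -/
def T_MAS : Prop := ∀ (d : ℕ) (Θ : ℝ) (K : Set (E d)), 2 ≤ d → 1 ≤ Θ →
  3 * Real.log (256 * Θ) ≤ d → Convex ℝ K → IsCompact K → (interior K).Nonempty →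
  528 * Real.log (256 * Θ) ^ 2 * volume.real (esc K (1 / (d : ℝ))) ≤ volume.real K ^ 2 →
  Cov K (1 + Real.exp 1 * 2 ^ d / Θ * (d * Real.log (8 * d + 2)))

/-- The covering theorem: at most `2 ^ d` translates. -/
def T_POW : Prop := ∀ (d : ℕ) (K : Set (E d)), 100 ≤ d → Convex ℝ K → IsCompact K →
  (interior K).Nonempty →
  5000 * Real.log d ^ 2 * volume.real (esc K (1 / (d : ℝ))) ≤ volume.real K ^ 2 → Cov K (2 ^ d)

/-- The `L ^ 1` norm of a difference of a Lipschitz function. -/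
def T_LIP : Prop := ∀ (n : ℕ) (f : E n → ℝ) (C : NNReal), LipschitzWith C f →
  HasCompactSupport f → ∀ v : E n, ∫ x, |f (x + v) - f x| ≤ ∫ x, |fderiv ℝ f x v|

/-- A cut-off function between `K` and `K + ε W`. -/
def T_DST : Prop := ∀ (n : ℕ) (K W : Set (E n)) (ε : ℝ), Convex ℝ K → IsCompact K →
  (interior K).Nonempty → Convex ℝ W → IsCompact W → (0 : E n) ∈ interior W → 0 < ε →
  ∃ (f : E n → ℝ) (C : NNReal), LipschitzWith C f ∧ HasCompactSupport f ∧
    (∀ x, 0 ≤ f x ∧ f x ≤ 1) ∧ (∀ x ∈ K, f x = 1) ∧ (∀ x, x ∉ K + ε • W → f x = 0) ∧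
    (∀ x, ∀ w ∈ W, -(fderiv ℝ f x w) * ε ≤ 1) ∧
    (∀ᵐ x, x ∉ (K + ε • W) \ K → fderiv ℝ f x = 0)

/-- The average loss is bounded by the relative content of the boundary.  `T` is a linear map, the
translations are `s T y`, `y ∈ K`. -/
def T_GRA : Prop := ∀ (n : ℕ) (K W : Set (E n)) (T : E n →L[ℝ] E n) (s ε : ℝ), Convex ℝ K →
  IsCompact K → (interior K).Nonempty → Convex ℝ W → IsCompact W → (0 : E n) ∈ interior W →
  0 ≤ s → 0 < ε →
  (∀ (θ : E n) (c : ℝ), (∀ w ∈ W, inner ℝ θ w ≤ c) →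
    ∫ y in K, |inner ℝ θ (T y)| ≤ c * volume.real K) →
  2 * ∫ y in K, loss K (s • T y) ≤
    volume.real K * ((s / ε + 2) * (volume.real (K + ε • W) - volume.real K))

/-- Bodies with large width (compared with the standard deviation) in all directions. -/
def T_WID : Prop := ∀ (d : ℕ) (A : ℝ) (K : Set (E d)), 1 ≤ d → 0 < A → Convex ℝ K →
  IsCompact K → (0 : E d) ∈ interior K →
  (∀ θ : E d, ∃ k ∈ K, 0 ≤ inner ℝ θ k ∧
    A ^ 2 * ∫ y in K, (inner ℝ θ y) ^ 2 ≤ volume.real K * (inner ℝ θ k) ^ 2) →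
  2 * A * volume.real (esc K (1 / (d : ℝ))) ≤ volume.real K ^ 2

/-- The surface area version. -/
def T_SUR : Prop := ∀ (d : ℕ) (σ S : ℝ) (K : Set (E d)), 1 ≤ d → 0 < σ → Convex ℝ K →
  IsCompact K → (interior K).Nonempty →
  (∀ θ : E d, ∫ y in K, (inner ℝ θ y) ^ 2 ≤ σ ^ 2 * ‖θ‖ ^ 2 * volume.real K) →
  Tendsto (fun ε : ℝ => (volume.real (Metric.cthickening ε K) - volume.real K) / ε)
    (𝓝[>] 0) (𝓝 S) →
  2 * d * volume.real (esc K (1 / (d : ℝ))) ≤ σ * S * volume.real K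

end Pool.Agent.Ovl
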