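import Mathlib
import Pool.Agent.Ovl.Targets

/-!
# Basic properties of the loss under a translation
-/

set_option autoImplicit false

open MeasureTheory Set Filter
open scoped Pointwise Topology

namespace Pool.Agent.Ovl

open Pool.Agent.Rog (E SymBody)

namespace LOSS_

variable {n : ℕ} {K : Set (E n)}

lemma meas_set (hK : MeasurableSet K) (v : E n) : MeasurableSet {x | x ∈ K ∧ x + v ∉ K} :=
  hK.inter ((measurable_add_const v) hK).compl

lemma vol_ne_top (hK : IsCompact K) (P : E n → Prop) : volume {x | x ∈ K ∧ P x} ≠ ⊤ :=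
  ((measure_mono (fun x hx => hx.1)).trans_lt hK.measure_lt_top).ne

lemma loss_eq (hc : IsCompact K) (v : E n) :
    loss K v = volume.real K - volume.real {x | x ∈ K ∧ x + v ∈ K} := by
  have hK : MeasurableSet K := hc.measurableSet
  have h1 : K = {x | x ∈ K ∧ x + v ∉ K} ∪ {x | x ∈ K ∧ x + v ∈ K} := by
    ext x
    simp only [mem_union, mem_setOf_eq]
    tauto
  have h2 : Disjoint {x | x ∈ K ∧ x + v ∉ K} {x | x ∈ K ∧ x + v ∈ K} := by
    rw [Set.disjoint_left]
    intro x hx hx'
    exact hx.2 hx'.2
  have h3 : MeasurableSet {x | x ∈ K ∧ x + v ∈ K} := hK.inter ((measurable_add_const v) hK)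
  have h4 := measureReal_union (μ := volume) h2 h3 (vol_ne_top hc _) (vol_ne_top hc _)
  rw [← h1] at h4
  unfold loss
  linarith

lemma real_preimage_add (s : Set (E n)) (u : E n) :
    volume.real ((fun x => x + u) ⁻¹' s) = volume.real s := by
  unfold Measure.real
  rw [measure_preimage_add_right]

lemma loss_neg (hc : IsCompact K) (v : E n) : loss K (-v) = loss K v := by
  rw [loss_eq hc, loss_eq hc]
  congr 1
  rw [← real_preimage_add {x | x ∈ K ∧ x + v ∈ K} (-v)]
  congr 1
  ext x
  simp only [mem_setOf_eq, mem_preimage, neg_add_cancel_right]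
  tauto

lemma loss_add (hc : IsCompact K) (u v : E n) : loss K (u + v) ≤ loss K u + loss K v := by
  have h1 : {x | x ∈ K ∧ x + (u + v) ∉ K} ⊆
      {x | x ∈ K ∧ x + u ∉ K} ∪ (fun x => x + u) ⁻¹' {x | x ∈ K ∧ x + v ∉ K} := by
    intro x hx
    by_cases h : x + u ∈ K
    · right
      refine ⟨h, ?_⟩
      have := hx.2
      rwa [← add_assoc] at this
    · left
      exact ⟨hx.1, h⟩
  have h2 : volume ((fun x => x + u) ⁻¹' {x | x ∈ K ∧ x + v ∉ K}) ≠ ⊤ := by
    rw [measure_preimage_add_right]
    exact vol_ne_top hc _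
  unfold loss
  calc volume.real {x | x ∈ K ∧ x + (u + v) ∉ K}
      ≤ volume.real ({x | x ∈ K ∧ x + u ∉ K} ∪
          (fun x => x + u) ⁻¹' {x | x ∈ K ∧ x + v ∉ K}) :=
        measureReal_mono h1 (measure_union_lt_top (vol_ne_top hc _).lt_top h2.lt_top).ne
    _ ≤ volume.real {x | x ∈ K ∧ x + u ∉ K} +
          volume.real ((fun x => x + u) ⁻¹' {x | x ∈ K ∧ x + v ∉ K}) :=
        measureReal_union_le _ _
    _ = _ := by rw [real_preimage_add]

lemma loss_mono (hcv : Convex ℝ K) (hc : IsCompact K) {s : ℝ} (v : E n) (h0 : 0 ≤ s)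
    (h1 : s ≤ 1) : loss K (s • v) ≤ loss K v := by
  unfold loss
  apply measureReal_mono _ (vol_ne_top hc _)
  intro x hx
  refine ⟨hx.1, fun h => hx.2 ?_⟩
  have h2 := hcv hx.1 h (a := 1 - s) (b := s) (by linarith) h0 (by ring)
  have h3 : (1 - s) • x + s • (x + v) = x + s • v := by
    rw [smul_add, sub_smul, one_smul]
    abel
  rwa [h3] at h2

end LOSS_

open LOSS_ in
theorem p_LOSS : T_LOSS := by
  intro n K hcv hc
  have hK : MeasurableSet K := hc.measurableSet
  have hlt : volume K < ⊤ := hc.measure_lt_top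
  have hset : MeasurableSet {p : E n × E n | p.2 ∈ K ∧ p.2 + p.1 ∉ K} :=
    (measurable_snd hK).inter ((measurable_snd.add measurable_fst) hK).compl
  have hmeas : Measurable (fun v : E n => volume {x | x ∈ K ∧ x + v ∉ K}) :=
    measurable_measure_prodMk_left hset
  refine ⟨fun v => ⟨measureReal_nonneg, measureReal_mono (fun x hx => hx.1) hlt.ne⟩,
    loss_neg hc, loss_add hc, fun s v h0 h1 => loss_mono hcv hc v h0 h1,
    hmeas.ennreal_toReal, ?_, ?_⟩
  · exact (measurable_fst hK).inter
      ((measurable_snd hK).inter ((measurable_fst.add measurable_snd) hK))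
  · intro c
    have he : MeasurableSet (esc K c) :=
      (measurable_fst hK).inter ((measurable_snd hK).inter
        ((measurable_fst.add (measurable_snd.const_smul c)) hK).compl)
    refine ⟨he, ?_⟩
    have hm2 : Measurable (fun y : E n => volume {x | x ∈ K ∧ x + c • y ∉ K}) :=
      hmeas.comp (measurable_const_smul c)
    have h1 : ∫ y in K, loss K (c • y) =
        (∫⁻ y in K, volume {x | x ∈ K ∧ x + c • y ∉ K}).toReal := by
      rw [← integral_toReal hm2.aemeasurable]
      · rfl
      · exact Eventually.of_forall fun y => (vol_ne_top hc _).lt_top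
    rw [h1]
    unfold Measure.real
    congr 1
    rw [Measure.volume_eq_prod, Measure.prod_apply_symm he, ← lintegral_indicator hK]
    apply lintegral_congr
    intro y
    by_cases hy : y ∈ K
    · rw [indicator_of_mem hy]
      congr 1
      ext x
      simp only [esc, mem_setOf_eq, mem_preimage]
      tauto
    · rw [indicator_of_notMem hy]
      have : (fun x => (x, y)) ⁻¹' esc K c = ∅ := by
        ext x
        simp only [esc, mem_setOf_eq, mem_preimage, mem_empty_iff_false]
        tauto
      rw [this, measure_empty]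

end Pool.Agent.Ovl
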