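import Pool.Agent.Ovl.Targets3
import Pool.Agent.Ovl.LOSS
import Pool.Agent.Rog.Targets

/-!
# The level sets of the loss are convex (Brunn-Minkowski)
-/

set_option autoImplicit false

open MeasureTheory Set Filter
open scoped Pointwise Topology

namespace Pool.Agent.Ovl

open Pool.Agent.Rog (E SymBody)

namespace LEV_

variable {n : ℕ} {K : Set (E n)}

/-- the part of `K` which stays in `K` -/
def S (K : Set (E n)) (w : E n) : Set (E n) := {x | x ∈ K ∧ x + w ∈ K}

lemma comb (a b : ℝ) (x y u v : E n) :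
    a • x + b • y + (a • u + b • v) = a • (x + u) + b • (y + v) := by
  rw [smul_add, smul_add]
  abel

lemma S_cpt (hK : IsCompact K) (w : E n) : IsCompact (S K w) := by
  have h : IsClosed ((fun x : E n => x + w) ⁻¹' K) :=
    hK.isClosed.preimage (continuous_id.add continuous_const)
  exact hK.inter_right h

lemma S_add (hK : Convex ℝ K) {a b : ℝ} (ha : 0 ≤ a) (hb : 0 ≤ b) (hab : a + b = 1)
    {x y u v : E n} (hx : x ∈ S K u) (hy : y ∈ S K v) :
    a • x + b • y ∈ S K (a • u + b • v) := by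
  refine ⟨hK hx.1 hy.1 ha hb hab, ?_⟩
  rw [comb]
  exact hK hx.2 hy.2 ha hb hab

lemma S_cvx (hK : Convex ℝ K) (w : E n) : Convex ℝ (S K w) := by
  intro x hx y hy a b ha hb hab
  have h := S_add hK ha hb hab hx hy
  have e : a • w + b • w = w := by rw [← add_smul, hab, one_smul]
  rwa [e] at h

end LEV_

open LEV_ in
theorem p_LEV (hL : T_LOSS) (hB : Pool.Agent.Rog.T_BMI) : T_LEV := by
  intro n K hKc hK c a b u v ha hb hab hu hv
  clear hL
  rcases Nat.eq_zero_or_pos n with h0 | hn
  · subst h0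
    have e : a • u + b • v = u := Subsingleton.elim _ _
    rw [e]
    exact hu
  rw [LOSS_.loss_eq hK] at hu hv ⊢
  change volume.real K - volume.real (S K u) ≤ c at hu
  change volume.real K - volume.real (S K v) ≤ c at hv
  change volume.real K - volume.real (S K (a • u + b • v)) ≤ c
  set m : ℝ := volume.real K - c with hm
  have hu' : m ≤ volume.real (S K u) := by linarith
  have hv' : m ≤ volume.real (S K v) := by linarith
  suffices h : m ≤ volume.real (S K (a • u + b • v)) by linarith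
  rcases le_or_gt m 0 with hm0 | hm0
  · exact hm0.trans measureReal_nonneg
  have hne : ∀ w, m ≤ volume.real (S K w) → (S K w).Nonempty := by
    intro w hw
    by_contra hcon
    rw [Set.not_nonempty_iff_eq_empty] at hcon
    rw [hcon, measureReal_empty] at hw
    linarith
  have hn0 : (0 : ℝ) < 1 / (n : ℝ) := by
    have : (0 : ℝ) < n := by exact_mod_cast hn
    positivity
  have key := hB n (S K u) (S K v) hn (S_cpt hK u) (S_cvx hKc u) (hne u hu') (S_cpt hK v)
    (S_cvx hKc v) (hne v hv') a b ha hb hab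
  have hsub : a • S K u + b • S K v ⊆ S K (a • u + b • v) := by
    rintro z ⟨p, ⟨x, hx, rfl⟩, q, ⟨y, hy, rfl⟩, rfl⟩
    exact S_add hKc ha hb hab hx hy
  have h1 : volume.real (a • S K u + b • S K v) ≤ volume.real (S K (a • u + b • v)) :=
    measureReal_mono hsub (S_cpt hK _).measure_lt_top.ne
  have h2 : m ^ (1 / (n : ℝ)) ≤ volume.real (S K (a • u + b • v)) ^ (1 / (n : ℝ)) := by
    have e1 : m ^ (1 / (n : ℝ)) ≤ volume.real (S K u) ^ (1 / (n : ℝ)) :=
      Real.rpow_le_rpow hm0.le hu' hn0.le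
    have e2 : m ^ (1 / (n : ℝ)) ≤ volume.real (S K v) ^ (1 / (n : ℝ)) :=
      Real.rpow_le_rpow hm0.le hv' hn0.le
    calc m ^ (1 / (n : ℝ)) = a * m ^ (1 / (n : ℝ)) + b * m ^ (1 / (n : ℝ)) := by
          rw [← add_mul, hab, one_mul]
      _ ≤ a * volume.real (S K u) ^ (1 / (n : ℝ)) + b * volume.real (S K v) ^ (1 / (n : ℝ)) :=
          add_le_add (mul_le_mul_of_nonneg_left e1 ha) (mul_le_mul_of_nonneg_left e2 hb)
      _ ≤ volume.real (a • S K u + b • S K v) ^ (1 / (n : ℝ)) := key
      _ ≤ _ := Real.rpow_le_rpow measureReal_nonneg h1 hn0.le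
  exact (Real.rpow_le_rpow_iff hm0.le measureReal_nonneg hn0).1 h2

end Pool.Agent.Ovl
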