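import Pool.Agent.Ovl.Targets10
import Pool.Agent.Ovl.LEV

/-!
# Brunn-Minkowski for the overlaps
-/

set_option autoImplicit false

open MeasureTheory Set Filter
open scoped Pointwise Topology

namespace Pool.Agent.Ovl

open Pool.Agent.Rog (E SymBody)

namespace BMO_

variable {n : ℕ} {K : Set (E n)}

/-- the overlap is the volume of the part of `K` which stays in `K` -/
lemma over_eq (hK : IsCompact K) (w : E n) :
    volume.real K - loss K w = volume.real (LEV_.S K w) := by
  rw [LOSS_.loss_eq hK]
  change volume.real K - (volume.real K - volume.real (LEV_.S K w)) = _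
  ring

lemma S_ne (hK : IsCompact K) {w : E n} (hw : loss K w < volume.real K) :
    (LEV_.S K w).Nonempty := by
  by_contra hcon
  rw [Set.not_nonempty_iff_eq_empty] at hcon
  have h := over_eq hK w
  rw [hcon, measureReal_empty] at h
  linarith

end BMO_

open LEV_ BMO_ in
theorem p_BMO (hL : T_LOSS) (hB : Pool.Agent.Rog.T_BMI) : T_BMO := by
  intro n K u v a b hn hKc hK ha hb hab hu hv
  clear hL
  have hn0 : (0 : ℝ) < 1 / (n : ℝ) := by
    have : (0 : ℝ) < n := by exact_mod_cast hn
    positivity
  rw [over_eq hK, over_eq hK, over_eq hK]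
  have key := hB n (S K u) (S K v) hn (S_cpt hK u) (S_cvx hKc u) (S_ne hK hu) (S_cpt hK v)
    (S_cvx hKc v) (S_ne hK hv) a b ha hb hab
  have hsub : a • S K u + b • S K v ⊆ S K (a • u + b • v) := by
    rintro z ⟨p, ⟨x, hx, rfl⟩, q, ⟨y, hy, rfl⟩, rfl⟩
    exact S_add hKc ha hb hab hx hy
  have h1 : volume.real (a • S K u + b • S K v) ≤ volume.real (S K (a • u + b • v)) :=
    measureReal_mono hsub (S_cpt hK _).measure_lt_top.ne
  exact key.trans (Real.rpow_le_rpow measureReal_nonneg h1 hn0.le)

end Pool.Agent.Ovl
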