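import Pool.Agent.Ovl.Targets

/-!
# The core of the covering theorem (job OVL-CORE)
-/

set_option autoImplicit false

open MeasureTheory Set
open scoped Pointwise

namespace Pool.Agent.Ovl

open Pool.Agent.Rog (E)
open Pool.Agent.HRL (H)

namespace CORE_

lemma vol_smul_real {n : ℕ} (K : Set (E n)) {r : ℝ} (hr : 0 ≤ r) :
    volume.real (r • K) = r ^ n * volume.real K := by
  rw [measureReal_def, Measure.addHaar_smul, ENNReal.toReal_mul, measureReal_def,
    finrank_euclideanSpace_fin, abs_of_nonneg (by positivity),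
    ENNReal.toReal_ofReal (by positivity)]

/-- One step of the chain. -/
lemma star (hT : Pool.Agent.HRL.T_TR) (d : ℕ) (M S : Set (E d)) (ι : Type) [Fintype ι]
    [Nonempty ι] (v : ι → E d) (a ϑ R : ℝ) (hM : IsCompact M) (hMpos : 0 < volume.real M)
    (ha : 0 < a) (hϑ : 0 < ϑ) (hR : 0 < R) (hincl : ∀ i, H M a (v i) ⊆ M)
    (hEn : ∑ i, ∑ j, volume.real (H M a (v i) ∩ H M a (v j)) ≤
      ϑ * (a ^ d) ^ 2 * (Fintype.card ι : ℝ) ^ 2 * volume.real M)
    (hS : MeasurableSet S) (hSM : S ⊆ M) :
    ∑ i, volume.real {w | w ∈ M ∧ a • (v i + w) ∈ S} ≤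
      (Fintype.card ι : ℝ) * (ϑ * R * volume.real S + 1 / R * volume.real M) := by
  have h := hT d 1 M S ι v a ϑ R hM hMpos ha hϑ hR hincl hEn hS hSM
  have h2 : ∑ p : Fin 1 → ι, volume.real
      {w | w ∈ M ∧ (∑ j : Fin 1, a ^ ((j : ℕ) + 1) • v (p j)) + a ^ 1 • w ∈ S} =
      ∑ i, volume.real {w | w ∈ M ∧ a • (v i + w) ∈ S} := by
    refine Fintype.sum_equiv (Equiv.funUnique (Fin 1) ι) _ _ fun p => ?_
    congr 1
    ext w
    simp [smul_add]
  rw [h2] at h
  simpa using h

end CORE_

open CORE_ in
theorem p_CORE (hL : T_LOSS) (hE : Pool.Agent.HRL.T_EN) (hT : Pool.Agent.HRL.T_TR) : T_CORE := by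
  classical
  intro d Θ q a t K U hK hc hKint hΘ hq hq1 ha ht0 ht1 hnum hB hU hUK hcount
  obtain ⟨hL0, hLneg, hLadd, hLmono, hLmeas, -, -⟩ := hL d K hK hc
  have hq0 : 0 < q := by linarith
  have ha0 : 0 < a := by rw [ha]; positivity
  have ha1 : a < 1 := by
    rw [ha, div_lt_one (by linarith)]; linarith
  have hΘ0 : 0 < Θ := by linarith
  set M : Set (E d) := q • K with hM
  have hMc : IsCompact M := hc.smul q
  have hKpos : 0 < volume.real K := by
    rw [measureReal_def]
    refine ENNReal.toReal_pos ?_ hc.measure_lt_top.ne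
    intro h
    exact (isOpen_interior.measure_pos volume hKint).ne' (measure_mono_null interior_subset h)
  have hMvol : volume.real M = q ^ d * volume.real K := vol_smul_real K hq0.le
  have hMpos : 0 < volume.real M := by rw [hMvol]; positivity
  have : Nonempty U := hU.to_subtype
  have hcard : (Fintype.card U : ℝ) = (U.card : ℝ) := by rw [Fintype.card_coe]
  have hZ0 : 0 < (Fintype.card U : ℝ) := by
    rw [hcard]
    exact_mod_cast hU.card_pos
  set Z : ℝ := (Fintype.card U : ℝ) with hZ
  set v : U → E d := fun i => (i : E d) with hv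
  have hvK : ∀ i, v i ∈ K := fun i => hUK _ i.2
  -- inclusion
  have hincl : ∀ i, H M a (v i) ⊆ M := by
    rintro i _ ⟨_, ⟨x, hx, rfl⟩, rfl⟩
    have h1 : v i + q • x ∈ (1 + q) • K := by
      rw [hK.add_smul zero_le_one hq0.le]
      exact add_mem_add (by simpa using hvK i) (smul_mem_smul_set hx)
    obtain ⟨y, hy, hye⟩ := h1
    refine ⟨y, hy, ?_⟩
    simp only at hye ⊢
    rw [← hye, smul_smul, ha]
    congr 1
    field_simp
  -- energy
  have hEN' := hE d M U v a (Θ * a ^ d) hMc ha0 (by positivity) (by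
    intro z
    have h1 : (({i | v i - z ∈ M} : Set U).ncard) =
        (((fun i : U => (i : E d)) '' {i | v i - z ∈ M})).ncard :=
      (Set.ncard_image_of_injective _ Subtype.val_injective).symm
    rw [h1, Fintype.card_coe]
    refine le_trans (Nat.cast_le.mpr (Set.ncard_le_ncard ?_ ?_)) (hcount z)
    · rintro _ ⟨i, hi, rfl⟩
      exact ⟨i.2, hi⟩
    · exact U.finite_toSet.subset (fun x hx => hx.1))
  have hEn : ∑ i, ∑ j, volume.real (H M a (v i) ∩ H M a (v j)) ≤
      Θ * (a ^ d) ^ 2 * (Fintype.card U : ℝ) ^ 2 * volume.real M := by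
    refine hEN'.trans (le_of_eq ?_)
    ring
  -- the exceptional set
  set B : Set (E d) := {y | y ∈ K ∧ volume.real K < 12 * loss K (t • y)} with hBdef
  have hBm : MeasurableSet B := by
    apply hc.measurableSet.inter
    exact measurableSet_lt measurable_const
      (((hLmeas.comp (measurable_const_smul t))).const_mul 12)
  have hBK : B ⊆ K := fun y hy => hy.1
  have hBM : q • B ⊆ M := smul_set_mono hBK
  have hqBm : MeasurableSet (q • B) := hBm.const_smul₀ q
  have hB1 : volume.real (q • B) * (256 * Θ) ≤ volume.real M := by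
    rw [vol_smul_real B hq0.le, hMvol, mul_assoc]
    exact mul_le_mul_of_nonneg_left hB (by positivity)
  have hB0 : 0 ≤ volume.real (q • B) := measureReal_nonneg
  have hB2 : volume.real (q • B) * 256 ≤ volume.real M := by
    refine le_trans ?_ hB1
    have := mul_le_mul_of_nonneg_left hΘ (by positivity : 0 ≤ volume.real (q • B) * 256)
    linarith
  have hst1 := star hT d M (q • B) U v a Θ 16 hMc hMpos ha0 hΘ0 (by norm_num) hincl hEn hqBm hBM
  have hst1' : ∑ i, volume.real {w | w ∈ M ∧ a • (v i + w) ∈ q • B} ≤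
      Z * (volume.real M / 8) := by
    refine hst1.trans (mul_le_mul_of_nonneg_left ?_ hZ0.le)
    linarith
  -- bad indices
  set bad : Finset U := Finset.univ.filter fun i => ∀ w ∈ M, w ∈ q • B ∨ a • (v i + w) ∈ q • B
    with hbad
  have hMfin : ∀ s : Set (E d), s ⊆ M → volume s ≠ ⊤ := fun s hs =>
    ((measure_mono hs).trans_lt hMc.measure_lt_top).ne
  have hbadc : (bad.card : ℝ) ≤ 32 / 255 * Z := by
    have h1 : (bad.card : ℝ) * (255 / 256 * volume.real M) ≤ Z * (volume.real M / 8) := by
      refine le_trans ?_ hst1'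
      rw [← nsmul_eq_mul, ← Finset.sum_const]
      refine le_trans (Finset.sum_le_sum fun p hp => ?_) (Finset.sum_le_sum_of_subset_of_nonneg
        (Finset.subset_univ bad) fun _ _ _ => measureReal_nonneg)
      have hp' := (Finset.mem_filter.mp hp).2
      have hsub : M ⊆ q • B ∪ {w | w ∈ M ∧ a • (v p + w) ∈ q • B} := by
        intro w hw
        rcases hp' w hw with h | h
        · exact Or.inl h
        · exact Or.inr ⟨hw, h⟩
      have h2 : volume.real M ≤ volume.real (q • B) +
          volume.real {w | w ∈ M ∧ a • (v p + w) ∈ q • B} := by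
        refine (measureReal_mono hsub ?_).trans (measureReal_union_le _ _)
        exact hMfin _ (union_subset hBM fun w hw => hw.1)
      linarith
    have h2 : (bad.card : ℝ) * (255 / 256 * volume.real M) ≤
        (32 / 255 * Z) * (255 / 256 * volume.real M) := by linarith
    exact le_of_mul_le_mul_right h2 (by positivity)
  -- the second set
  set S : Set (E d) := ((1 - a * t) • M) ∩ M with hS
  have hat : 0 ≤ 1 - a * t := by nlinarith
  have hSm : MeasurableSet S := (hMc.smul _).measurableSet.inter hMc.measurableSet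
  have hSv : volume.real S ≤ (1 - a * t) ^ d * volume.real M := by
    rw [← vol_smul_real M hat]
    exact measureReal_mono inter_subset_left (hMc.smul _).measure_lt_top.ne
  have hst2 := star hT d M S U v a Θ 4 hMc hMpos ha0 hΘ0 (by norm_num) hincl hEn hSm
    inter_subset_right
  have hst2' : ∑ i, volume.real {w | w ∈ M ∧ a • (v i + w) ∈ S} ≤ Z * (volume.real M / 2) := by
    refine hst2.trans (mul_le_mul_of_nonneg_left ?_ hZ0.le)
    have h1 : Θ * 4 * volume.real S ≤ Θ * 4 * ((1 - a * t) ^ d * volume.real M) :=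
      mul_le_mul_of_nonneg_left hSv (by positivity)
    have h2 : Θ * 4 * ((1 - a * t) ^ d * volume.real M) ≤ volume.real M / 4 := by
      have := mul_le_mul_of_nonneg_right hnum hMpos.le
      linarith
    linarith
  -- good indices
  have hgood : ∀ i : U, i ∉ bad →
      3 / 4 * volume.real M ≤ volume.real {w | w ∈ M ∧ a • (v i + w) ∈ S} := by
    intro i hi
    simp only [hbad, Finset.mem_filter, Finset.mem_univ, true_and, not_forall, not_or] at hi
    obtain ⟨w, hw, hwB, hwB2⟩ := hi
    obtain ⟨y, hy, rfl⟩ := hw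
    obtain ⟨m, hm, hme⟩ := hincl i ⟨q • y, smul_mem_smul_set hy, rfl⟩
    simp only at hwB hwB2 hme
    have hyB : 12 * loss K (t • y) ≤ volume.real K := by
      by_contra hcon
      exact hwB (smul_mem_smul_set ⟨hy, not_le.1 hcon⟩)
    have hmB : 12 * loss K (t • m) ≤ volume.real K := by
      by_contra hcon
      apply hwB2
      rw [← hme]
      exact smul_mem_smul_set ⟨hm, not_le.1 hcon⟩
    have hvi : v i = (1 + q) • m - q • y := by
      have h1 : a • (v i + q • y) = a • ((1 + q) • m) := by
        rw [← hme, smul_smul, ha]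
        congr 1
        field_simp
      have h2 := smul_right_injective (E d) ha0.ne' h1
      rw [← h2]; abel
    have hloss : loss K (t • v i) ≤ volume.real K / 4 := by
      have e : t • v i = (t • m + q • (t • m)) + -(q • (t • y)) := by
        rw [hvi]; module
      have h1 := hLadd (t • m + q • (t • m)) (-(q • (t • y)))
      have h2 := hLadd (t • m) (q • (t • m))
      have h3 := hLmono q (t • m) hq0.le hq1.le
      have h4 := hLmono q (t • y) hq0.le hq1.le
      rw [hLneg] at h1
      rw [e]
      linarith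
    -- the points staying in `K`
    have hsplit : volume.real K ≤ volume.real {x | x ∈ K ∧ x + t • v i ∈ K} +
        loss K (t • v i) := by
      have hsub : K ⊆ {x | x ∈ K ∧ x + t • v i ∈ K} ∪ {x | x ∈ K ∧ x + t • v i ∉ K} := by
        intro x hx
        by_cases h : x + t • v i ∈ K
        · exact Or.inl ⟨hx, h⟩
        · exact Or.inr ⟨hx, h⟩
      refine (measureReal_mono hsub ?_).trans (measureReal_union_le _ _)
      refine ((measure_mono (union_subset (fun x hx => hx.1) (fun x hx => hx.1))).trans_lt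
        hc.measure_lt_top).ne
    have hstay : 3 / 4 * volume.real M ≤
        volume.real (q • {x | x ∈ K ∧ x + t • v i ∈ K}) := by
      rw [vol_smul_real {x | x ∈ K ∧ x + t • v i ∈ K} hq0.le, hMvol]
      have h1 : 3 / 4 * volume.real K ≤ volume.real {x | x ∈ K ∧ x + t • v i ∈ K} := by
        linarith
      calc 3 / 4 * (q ^ d * volume.real K) = q ^ d * (3 / 4 * volume.real K) := by ring
        _ ≤ _ := mul_le_mul_of_nonneg_left h1 (by positivity)
    refine hstay.trans (measureReal_mono ?_ (hMfin _ fun w hw => hw.1))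
    rintro _ ⟨x, ⟨hx, hxv⟩, rfl⟩
    simp only
    have hwM : q • x ∈ M := smul_mem_smul_set hx
    have hin : a • (v i + q • x) ∈ M := hincl i ⟨q • x, hwM, rfl⟩
    refine ⟨hwM, ?_, hin⟩
    have hqt : 0 ≤ 1 - q * t := by nlinarith
    have h1 : v i + q • x ∈ ((1 - q * t) + q) • K := by
      rw [hK.add_smul hqt hq0.le]
      refine ⟨(1 - q * t) • v i, smul_mem_smul_set (hvK i), q • (x + t • v i),
        smul_mem_smul_set hxv, ?_⟩
      simp only
      module
    obtain ⟨z, hz, hze⟩ := h1
    refine ⟨q • z, smul_mem_smul_set hz, ?_⟩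
    simp only at hze ⊢
    rw [← hze, smul_smul, smul_smul]
    congr 1
    rw [ha]
    field_simp
    ring
  have hlow : (223 / 255 * Z) * (3 / 4 * volume.real M) ≤
      ∑ i, volume.real {w | w ∈ M ∧ a • (v i + w) ∈ S} := by
    have h1 : ∑ i ∈ badᶜ, 3 / 4 * volume.real M ≤
        ∑ i, volume.real {w | w ∈ M ∧ a • (v i + w) ∈ S} := by
      refine le_trans (Finset.sum_le_sum fun p hp => hgood p (Finset.mem_compl.mp hp))
        (Finset.sum_le_sum_of_subset_of_nonneg (Finset.subset_univ _)
          fun _ _ _ => measureReal_nonneg)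
    refine le_trans ?_ h1
    rw [Finset.sum_const, nsmul_eq_mul]
    have h2 : (badᶜ.card : ℝ) = Z - bad.card := by
      rw [Finset.card_compl, Nat.cast_sub (Finset.card_le_univ _)]
    rw [h2]
    apply mul_le_mul_of_nonneg_right _ (by positivity)
    linarith
  have hZM : 0 < Z * volume.real M := by positivity
  nlinarith [hlow.trans hst2']

end Pool.Agent.Ovl
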