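import Mathlib
import Pool.Agent.Ovl.Targets

/-!
# Hadwiger's covering problem and small translations of random points: sharper forms
-/

set_option autoImplicit false

open MeasureTheory Set Filter
open scoped Pointwise Topology

namespace Pool.Agent.Ovl

open Pool.Agent.Rog (E SymBody)

/-- The sets `{v | loss K v ≤ c}` are convex. -/
def T_LEV : Prop := ∀ (n : ℕ) (K : Set (E n)), Convex ℝ K → IsCompact K →
  ∀ (c a b : ℝ) (u v : E n), 0 ≤ a → 0 ≤ b → a + b = 1 → loss K u ≤ c → loss K v ≤ c →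
  loss K (a • u + b • v) ≤ c

/-- The core, sharper form. -/
def T_CORE2 : Prop := ∀ (d : ℕ) (Θ q a s ω : ℝ) (K : Set (E d)) (U : Finset (E d)), Convex ℝ K →
  IsCompact K → (interior K).Nonempty → 1 ≤ Θ → 1 / 2 ≤ q → q < 1 → a = q / (1 + q) → 0 ≤ s →
  s ≤ 1 → 0 < ω → ω ≤ 1 → 6 * Θ * (1 - a * (s / 3)) ^ d ≤ ω ^ 2 →
  volume.real {y | y ∈ K ∧ (1 - ω) * volume.real K < loss K (s • y)} * (256 * Θ) ≤
    volume.real K →
  U.Nonempty → (∀ x ∈ U, x ∈ K) →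
  (∀ z : E d, (({x | x ∈ U ∧ x - z ∈ q • K} : Set (E d)).ncard : ℝ) ≤ Θ * a ^ d * U.card) → False

/-- The covering theorem, tail form: small overlaps suffice. -/
def T_ROB2 : Prop := ∀ (d : ℕ) (Θ s ω : ℝ) (K : Set (E d)), 2 ≤ d → 1 ≤ Θ → 0 ≤ s → s ≤ 1 →
  0 < ω → ω ≤ 1 → 9 * Θ * Real.exp (-(s * d / 6)) ≤ ω ^ 2 → Convex ℝ K → IsCompact K →
  (interior K).Nonempty →
  volume.real {y | y ∈ K ∧ (1 - ω) * volume.real K < loss K (s • y)} * (256 * Θ) ≤
    volume.real K →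
  Cov K (1 + Real.exp 1 * 2 ^ d / Θ * (d * Real.log (8 * d + 2)))

/-- The covering theorem, average form. -/
def T_MAS2 : Prop := ∀ (d : ℕ) (Θ : ℝ) (K : Set (E d)), 2 ≤ d → 1 ≤ Θ →
  6 * Real.log (256 * Θ) ≤ d → Convex ℝ K → IsCompact K → (interior K).Nonempty →
  175 * Real.log (256 * Θ) ^ 2 * volume.real (esc K (1 / (d : ℝ))) ≤ volume.real K ^ 2 →
  Cov K (1 + Real.exp 1 * 2 ^ d / Θ * (d * Real.log (8 * d + 2)))

/-- At most `2 ^ d` translates, average form. -/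
def T_POW2 : Prop := ∀ (d : ℕ) (K : Set (E d)), 100 ≤ d → Convex ℝ K → IsCompact K →
  (interior K).Nonempty →
  1600 * Real.log d ^ 2 * volume.real (esc K (1 / (d : ℝ))) ≤ volume.real K ^ 2 → Cov K (2 ^ d)

/-- At most `2 ^ d` translates, tail form. -/
def T_POW3 : Prop := ∀ (d : ℕ) (K : Set (E d)), 200 ≤ d → Convex ℝ K → IsCompact K →
  (interior K).Nonempty →
  volume.real {y | y ∈ K ∧ volume.real {x | x ∈ K ∧ x + (36 * Real.log d / d) • y ∈ K} <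
    volume.real K / (d : ℝ) ^ (3 / 2 : ℝ)} * d ^ 3 ≤ volume.real K → Cov K (2 ^ d)

end Pool.Agent.Ovl
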