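import Pool.Agent.Ovl.CORE
import Pool.Agent.Ovl.Targets3

/-!
# The core of the covering theorem, sharper form (job OVL-CORE2)
-/

set_option autoImplicit false

open MeasureTheory Set
open scoped Pointwise

namespace Pool.Agent.Ovl

open Pool.Agent.Rog (E)
open Pool.Agent.HRL (H)

open CORE_ in
theorem p_CORE2 (hL : T_LOSS) (hV : T_LEV) (hE : Pool.Agent.HRL.T_EN)
    (hT : Pool.Agent.HRL.T_TR) : T_CORE2 := by
  classical
  intro d Θ q a s ω K U hK hc hKint hΘ hq hq1 ha hs0 hs1 hω0 hω1 hnum hB hU hUK hcount
  set t : ℝ := s / 3 with ht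
  have ht0 : 0 ≤ t := by rw [ht]; positivity
  have ht1 : t ≤ 1 := by rw [ht]; linarith
  obtain ⟨hL0, hLneg, hLadd, hLmono, hLmeas, -, -⟩ := hL d K hK hc
  have hq0 : 0 < q := by linarith
  have ha0 : 0 < a := by rw [ha]; positivity
  have ha1 : a < 1 := by
    rw [ha, div_lt_one (by linarith)]; linarith
  have hΘ0 : 0 < Θ := by linarith
  set M : Set (E d) := q • K with hM
  have hMc : IsCompact M := hc.smul q
  have hKpos : 0 < volume.real K := by
    rw [measureReal_def]
    refine ENNReal.toReal_pos ?_ hc.measure_lt_top.ne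
    intro h
    exact (isOpen_interior.measure_pos volume hKint).ne' (measure_mono_null interior_subset h)
  have hMvol : volume.real M = q ^ d * volume.real K := vol_smul_real K hq0.le
  have hMpos : 0 < volume.real M := by rw [hMvol]; positivity
  have : Nonempty U := hU.to_subtype
  have hcard : (Fintype.card U : ℝ) = (U.card : ℝ) := by rw [Fintype.card_coe]
  have hZ0 : 0 < (Fintype.card U : ℝ) := by
    rw [hcard]
    exact_mod_cast hU.card_pos
  set Z : ℝ := (Fintype.card U : ℝ) with hZ
  set v : U → E d := fun i => (i : E d) with hv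
  have hvK : ∀ i, v i ∈ K := fun i => hUK _ i.2
  -- inclusion
  have hincl : ∀ i, H M a (v i) ⊆ M := by
    rintro i _ ⟨_, ⟨x, hx, rfl⟩, rfl⟩
    have h1 : v i + q • x ∈ (1 + q) • K := by
      rw [hK.add_smul zero_le_one hq0.le]
      exact add_mem_add (by simpa using hvK i) (smul_mem_smul_set hx)
    obtain ⟨y, hy, hye⟩ := h1
    refine ⟨y, hy, ?_⟩
    simp only at hye ⊢
    rw [← hye, smul_smul, ha]
    congr 1
    field_simp
  -- energy
  have hEN' := hE d M U v a (Θ * a ^ d) hMc ha0 (by positivity) (by
    intro z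
    have h1 : (({i | v i - z ∈ M} : Set U).ncard) =
        (((fun i : U => (i : E d)) '' {i | v i - z ∈ M})).ncard :=
      (Set.ncard_image_of_injective _ Subtype.val_injective).symm
    rw [h1, Fintype.card_coe]
    refine le_trans (Nat.cast_le.mpr (Set.ncard_le_ncard ?_ ?_)) (hcount z)
    · rintro _ ⟨i, hi, rfl⟩
      exact ⟨i.2, hi⟩
    · exact U.finite_toSet.subset (fun x hx => hx.1))
  have hEn : ∑ i, ∑ j, volume.real (H M a (v i) ∩ H M a (v j)) ≤
      Θ * (a ^ d) ^ 2 * (Fintype.card U : ℝ) ^ 2 * volume.real M := by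
    refine hEN'.trans (le_of_eq ?_)
    ring
  -- the exceptional set
  set B : Set (E d) := {y | y ∈ K ∧ (1 - ω) * volume.real K < loss K (s • y)} with hBdef
  have hBm : MeasurableSet B := by
    apply hc.measurableSet.inter
    exact measurableSet_lt measurable_const
      (hLmeas.comp (measurable_const_smul s))
  have hBK : B ⊆ K := fun y hy => hy.1
  have hBM : q • B ⊆ M := smul_set_mono hBK
  have hqBm : MeasurableSet (q • B) := hBm.const_smul₀ q
  have hB1 : volume.real (q • B) * (256 * Θ) ≤ volume.real M := by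
    rw [vol_smul_real B hq0.le, hMvol, mul_assoc]
    exact mul_le_mul_of_nonneg_left hB (by positivity)
  have hB0 : 0 ≤ volume.real (q • B) := measureReal_nonneg
  have hB2 : volume.real (q • B) * 256 ≤ volume.real M := by
    refine le_trans ?_ hB1
    have := mul_le_mul_of_nonneg_left hΘ (by positivity : 0 ≤ volume.real (q • B) * 256)
    linarith
  have hst1 := star hT d M (q • B) U v a Θ 16 hMc hMpos ha0 hΘ0 (by norm_num) hincl hEn hqBm hBM
  have hst1' : ∑ i, volume.real {w | w ∈ M ∧ a • (v i + w) ∈ q • B} ≤
      Z * (volume.real M / 8) := by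
    refine hst1.trans (mul_le_mul_of_nonneg_left ?_ hZ0.le)
    linarith
  -- bad indices
  set bad : Finset U := Finset.univ.filter fun i => ∀ w ∈ M, w ∈ q • B ∨ a • (v i + w) ∈ q • B
    with hbad
  have hMfin : ∀ s : Set (E d), s ⊆ M → volume s ≠ ⊤ := fun s hs =>
    ((measure_mono hs).trans_lt hMc.measure_lt_top).ne
  have hbadc : (bad.card : ℝ) ≤ 32 / 255 * Z := by
    have h1 : (bad.card : ℝ) * (255 / 256 * volume.real M) ≤ Z * (volume.real M / 8) := by
      refine le_trans ?_ hst1'
      rw [← nsmul_eq_mul, ← Finset.sum_const]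
      refine le_trans (Finset.sum_le_sum fun p hp => ?_) (Finset.sum_le_sum_of_subset_of_nonneg
        (Finset.subset_univ bad) fun _ _ _ => measureReal_nonneg)
      have hp' := (Finset.mem_filter.mp hp).2
      have hsub : M ⊆ q • B ∪ {w | w ∈ M ∧ a • (v p + w) ∈ q • B} := by
        intro w hw
        rcases hp' w hw with h | h
        · exact Or.inl h
        · exact Or.inr ⟨hw, h⟩
      have h2 : volume.real M ≤ volume.real (q • B) +
          volume.real {w | w ∈ M ∧ a • (v p + w) ∈ q • B} := by
        refine (measureReal_mono hsub ?_).trans (measureReal_union_le _ _)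
        exact hMfin _ (union_subset hBM fun w hw => hw.1)
      linarith
    have h2 : (bad.card : ℝ) * (255 / 256 * volume.real M) ≤
        (32 / 255 * Z) * (255 / 256 * volume.real M) := by linarith
    exact le_of_mul_le_mul_right h2 (by positivity)
  -- the second set
  set S : Set (E d) := ((1 - a * t) • M) ∩ M with hS
  have hat : 0 ≤ 1 - a * t := by nlinarith
  have hSm : MeasurableSet S := (hMc.smul _).measurableSet.inter hMc.measurableSet
  have hSv : volume.real S ≤ (1 - a * t) ^ d * volume.real M := by
    rw [← vol_smul_real M hat]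
    exact measureReal_mono inter_subset_left (hMc.smul _).measure_lt_top.ne
  have hR : 0 < 5 / (2 * ω) := by positivity
  have hst2 := star hT d M S U v a Θ (5 / (2 * ω)) hMc hMpos ha0 hΘ0 hR hincl hEn hSm
    inter_subset_right
  have hst2' : ∑ i, volume.real {w | w ∈ M ∧ a • (v i + w) ∈ S} ≤
      Z * (49 / 60 * ω * volume.real M) := by
    refine hst2.trans (mul_le_mul_of_nonneg_left ?_ hZ0.le)
    have h1 : Θ * volume.real S ≤ Θ * ((1 - a * t) ^ d * volume.real M) :=
      mul_le_mul_of_nonneg_left hSv (by positivity)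
    have h2 : Θ * ((1 - a * t) ^ d * volume.real M) ≤ ω ^ 2 / 6 * volume.real M := by
      have := mul_le_mul_of_nonneg_right hnum hMpos.le
      linarith
    have h3 : Θ * (5 / (2 * ω)) * volume.real S = 5 / (2 * ω) * (Θ * volume.real S) := by ring
    have h4 : 5 / (2 * ω) * (Θ * volume.real S) ≤
        5 / (2 * ω) * (ω ^ 2 / 6 * volume.real M) :=
      mul_le_mul_of_nonneg_left (h1.trans h2) hR.le
    have h5 : 5 / (2 * ω) * (ω ^ 2 / 6 * volume.real M) = 5 / 12 * ω * volume.real M := by
      field_simp
      ring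
    have h6 : 1 / (5 / (2 * ω)) * volume.real M = 2 / 5 * ω * volume.real M := by
      field_simp
    rw [h3, h6]
    linarith
  -- good indices
  have hgood : ∀ i : U, i ∉ bad →
      ω * volume.real M ≤ volume.real {w | w ∈ M ∧ a • (v i + w) ∈ S} := by
    intro i hi
    simp only [hbad, Finset.mem_filter, Finset.mem_univ, true_and, not_forall, not_or] at hi
    obtain ⟨w, hw, hwB, hwB2⟩ := hi
    obtain ⟨y, hy, rfl⟩ := hw
    obtain ⟨m, hm, hme⟩ := hincl i ⟨q • y, smul_mem_smul_set hy, rfl⟩
    simp only at hwB hwB2 hme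
    have hyB : loss K (s • y) ≤ (1 - ω) * volume.real K := by
      by_contra hcon
      exact hwB (smul_mem_smul_set ⟨hy, not_le.1 hcon⟩)
    have hmB : loss K (s • m) ≤ (1 - ω) * volume.real K := by
      by_contra hcon
      apply hwB2
      rw [← hme]
      exact smul_mem_smul_set ⟨hm, not_le.1 hcon⟩
    have hvi : v i = (1 + q) • m - q • y := by
      have h1 : a • (v i + q • y) = a • ((1 + q) • m) := by
        rw [← hme, smul_smul, ha]
        congr 1
        field_simp
      have h2 := smul_right_injective (E d) ha0.ne' h1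
      rw [← h2]; abel
    have hloss : loss K (t • v i) ≤ (1 - ω) * volume.real K := by
      have hy' : loss K (-(s • y)) ≤ (1 - ω) * volume.real K := by
        rw [hLneg]
        exact hyB
      have h0 : loss K (0 : E d) ≤ (1 - ω) * volume.real K := by
        have e0 : loss K (0 : E d) = 0 := by
          unfold loss
          have : {x | x ∈ K ∧ x + 0 ∉ K} = (∅ : Set (E d)) := by
            ext x
            simp
          rw [this, measureReal_empty]
        rw [e0]
        have : 0 ≤ 1 - ω := by linarith
        positivity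
      have hd : 0 < 1 + 2 * q := by linarith
      have h1 := hV d K hK hc ((1 - ω) * volume.real K) ((1 + q) / (1 + 2 * q))
        (q / (1 + 2 * q)) (s • m) (-(s • y)) (by positivity) (by positivity)
        (by field_simp; ring) hmB hy'
      have h2 := hV d K hK hc ((1 - ω) * volume.real K) ((1 + 2 * q) / 3)
        (1 - (1 + 2 * q) / 3) _ 0 (by positivity) (by linarith) (by ring) h1 h0
      have e : t • v i = ((1 + 2 * q) / 3) • (((1 + q) / (1 + 2 * q)) • (s • m) +
          (q / (1 + 2 * q)) • (-(s • y))) + (1 - (1 + 2 * q) / 3) • (0 : E d) := by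
        rw [hvi, ht]
        match_scalars
        · field_simp
        · field_simp
      rw [e]
      exact h2
    -- the points staying in `K`
    have hsplit : volume.real K ≤ volume.real {x | x ∈ K ∧ x + t • v i ∈ K} +
        loss K (t • v i) := by
      have hsub : K ⊆ {x | x ∈ K ∧ x + t • v i ∈ K} ∪ {x | x ∈ K ∧ x + t • v i ∉ K} := by
        intro x hx
        by_cases h : x + t • v i ∈ K
        · exact Or.inl ⟨hx, h⟩
        · exact Or.inr ⟨hx, h⟩
      refine (measureReal_mono hsub ?_).trans (measureReal_union_le _ _)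
      refine ((measure_mono (union_subset (fun x hx => hx.1) (fun x hx => hx.1))).trans_lt
        hc.measure_lt_top).ne
    have hstay : ω * volume.real M ≤
        volume.real (q • {x | x ∈ K ∧ x + t • v i ∈ K}) := by
      rw [vol_smul_real {x | x ∈ K ∧ x + t • v i ∈ K} hq0.le, hMvol]
      have h1 : ω * volume.real K ≤ volume.real {x | x ∈ K ∧ x + t • v i ∈ K} := by
        linarith
      calc ω * (q ^ d * volume.real K) = q ^ d * (ω * volume.real K) := by ring
        _ ≤ _ := mul_le_mul_of_nonneg_left h1 (by positivity)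
    refine hstay.trans (measureReal_mono ?_ (hMfin _ fun w hw => hw.1))
    rintro _ ⟨x, ⟨hx, hxv⟩, rfl⟩
    simp only
    have hwM : q • x ∈ M := smul_mem_smul_set hx
    have hin : a • (v i + q • x) ∈ M := hincl i ⟨q • x, hwM, rfl⟩
    refine ⟨hwM, ?_, hin⟩
    have hqt : 0 ≤ 1 - q * t := by nlinarith
    have h1 : v i + q • x ∈ ((1 - q * t) + q) • K := by
      rw [hK.add_smul hqt hq0.le]
      refine ⟨(1 - q * t) • v i, smul_mem_smul_set (hvK i), q • (x + t • v i),
        smul_mem_smul_set hxv, ?_⟩
      simp only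
      module
    obtain ⟨z, hz, hze⟩ := h1
    refine ⟨q • z, smul_mem_smul_set hz, ?_⟩
    simp only at hze ⊢
    rw [← hze, smul_smul, smul_smul]
    congr 1
    rw [ha]
    field_simp
    ring
  have hlow : (223 / 255 * Z) * (ω * volume.real M) ≤
      ∑ i, volume.real {w | w ∈ M ∧ a • (v i + w) ∈ S} := by
    have h1 : ∑ i ∈ badᶜ, ω * volume.real M ≤
        ∑ i, volume.real {w | w ∈ M ∧ a • (v i + w) ∈ S} := by
      refine le_trans (Finset.sum_le_sum fun p hp => hgood p (Finset.mem_compl.mp hp))
        (Finset.sum_le_sum_of_subset_of_nonneg (Finset.subset_univ _)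
          fun _ _ _ => measureReal_nonneg)
    refine le_trans ?_ h1
    rw [Finset.sum_const, nsmul_eq_mul]
    have h2 : (badᶜ.card : ℝ) = Z - bad.card := by
      rw [Finset.card_compl, Nat.cast_sub (Finset.card_le_univ _)]
    rw [h2]
    apply mul_le_mul_of_nonneg_right _ (by positivity)
    linarith
  have hZM : 0 < Z * (ω * volume.real M) := by positivity
  have hfin := hlow.trans hst2'
  have e1 : (223 / 255 * Z) * (ω * volume.real M) = 223 / 255 * (Z * (ω * volume.real M)) := by
    ring
  have e2 : Z * (49 / 60 * ω * volume.real M) = 49 / 60 * (Z * (ω * volume.real M)) := by ring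
  rw [e1, e2] at hfin
  linarith

end Pool.Agent.Ovl
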