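import Mathlib
import Pool.Agent.Ovl.Targets
import Pool.Agent.Rog.MAXN

/-!
# Target COV: from greedy steps to a covering
-/

set_option autoImplicit false

open MeasureTheory Set
open scoped Pointwise

namespace Pool.Agent.Ovl

open Pool.Agent.Rog (E SymBody)

namespace COV_

lemma exists_max {n : ℕ} {K S : Set (E n)} {r : ℝ} (hK : SymBody K) (B : ℕ)
    (hbd : ∀ X : Finset (E n), (∀ x ∈ X, x ∈ S) →
      (∀ x ∈ X, ∀ y ∈ X, x ≠ y → x - y ∉ r • K) → X.card ≤ B) :
    ∃ X : Finset (E n), (∀ x ∈ X, x ∈ S) ∧ (∀ x ∈ X, ∀ y ∈ X, x ≠ y → x - y ∉ r • K) ∧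
      ∀ z ∈ S, ∃ x ∈ X, z - x ∈ r • K := by
  classical
  have h0 := Pool.Agent.Rog.MAXN_.zero_mem hK
  have hex : ∃ X : Finset (E n), ((∀ x ∈ X, x ∈ S) ∧
      (∀ x ∈ X, ∀ y ∈ X, x ≠ y → x - y ∉ r • K)) ∧ ∀ Y : Finset (E n), (∀ x ∈ Y, x ∈ S) →
      (∀ x ∈ Y, ∀ y ∈ Y, x ≠ y → x - y ∉ r • K) → Y.card ≤ X.card := by
    have hfin : {m : ℕ | ∃ X : Finset (E n), ((∀ x ∈ X, x ∈ S) ∧
        (∀ x ∈ X, ∀ y ∈ X, x ≠ y → x - y ∉ r • K)) ∧ X.card = m}.Finite := by
      refine (Set.finite_Iic B).subset ?_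
      rintro m ⟨X, ⟨h1, h2⟩, rfl⟩
      exact hbd X h1 h2
    have hne : {m : ℕ | ∃ X : Finset (E n), ((∀ x ∈ X, x ∈ S) ∧
        (∀ x ∈ X, ∀ y ∈ X, x ≠ y → x - y ∉ r • K)) ∧ X.card = m}.Nonempty :=
      ⟨0, ∅, ⟨by simp, by simp⟩, by simp⟩
    obtain ⟨m, ⟨X, hX, hXm⟩, hmax⟩ := Set.exists_max_image _ id hfin hne
    refine ⟨X, hX, fun Y h1 h2 => ?_⟩
    have := hmax Y.card ⟨Y, ⟨h1, h2⟩, rfl⟩
    simp only [id] at this
    omega
  obtain ⟨X, ⟨hX1, hX2⟩, hmax⟩ := hex
  refine ⟨X, hX1, hX2, fun z hz => ?_⟩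
  by_contra hcon
  push Not at hcon
  have hzX : z ∉ X := by
    intro hzX
    apply hcon z hzX
    rw [sub_self]
    exact ⟨0, h0, smul_zero r⟩
  have hneg : ∀ x : E n, x ∈ r • K → -x ∈ r • K := by
    rintro x ⟨k, hk, rfl⟩
    exact ⟨-k, hK.symm k hk, by simp only [smul_neg]⟩
  have hle := hmax (insert z X) (by
    intro x hx
    rcases Finset.mem_insert.1 hx with rfl | hx
    · exact hz
    · exact hX1 x hx) (by
    intro x hx y hy hxy
    rcases Finset.mem_insert.1 hx with hx1 | hx1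
    · rcases Finset.mem_insert.1 hy with hy1 | hy1
      · exact absurd (hx1.trans hy1.symm) hxy
      · rw [hx1]; exact hcon y hy1
    · rcases Finset.mem_insert.1 hy with hy1 | hy1
      · intro h
        apply hcon x hx1
        have := hneg _ h
        rwa [neg_sub, hy1] at this
      · exact hX2 x hx1 y hy1 hxy)
  rw [Finset.card_insert_of_notMem hzX] at hle
  omega

lemma vol_smul {n : ℕ} (K : Set (E n)) {r : ℝ} (hr : 0 ≤ r) :
    volume.real (r • K) = r ^ n * volume.real K := by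
  rw [measureReal_def, Measure.addHaar_smul, ENNReal.toReal_mul, measureReal_def,
    finrank_euclideanSpace_fin, abs_of_nonneg (by positivity),
    ENNReal.toReal_ofReal (by positivity)]

lemma vol_trans {n : ℕ} (K : Set (E n)) (x : E n) : volume.real (x +ᵥ K) = volume.real K := by
  rw [measureReal_def, measure_vadd volume x K, measureReal_def]

lemma pack {n : ℕ} {K L : Set (E n)} {c : E n} {e : ℝ} (hK : Convex ℝ K) (hc : IsCompact K)
    (hL : SymBody L) (hLK : ∀ x ∈ L, c + x ∈ K) (hv : volume.real K ≤ 2 ^ n * volume.real L)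
    (he : 0 < e) (X : Finset (E n)) (hX : ∀ x ∈ X, x ∈ K)
    (hsep : ∀ x ∈ X, ∀ z ∈ X, x ≠ z → x - z ∉ e • L) :
    (X.card : ℝ) ≤ (2 * (2 + e) / e) ^ n := by
  classical
  have he2 : (0 : ℝ) < e / 2 := by positivity
  have hpos : 0 < volume.real L := by
    rw [measureReal_def]
    exact ENNReal.toReal_pos (MeasureTheory.Measure.measure_pos_of_nonempty_interior _ hL.int).ne'
      hL.cpt.measure_lt_top.ne
  have hmeas : ∀ x ∈ X, MeasurableSet (x +ᵥ ((e / 2) • L)) := by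
    intro x _
    exact (((hL.cpt.smul (e / 2)).vadd x)).measurableSet
  have hdisj : Set.PairwiseDisjoint (X : Set (E n)) (fun x => x +ᵥ ((e / 2) • L)) := by
    intro x hx z hz hxz
    rw [Function.onFun, Set.disjoint_left]
    intro p hp hp'
    obtain ⟨_, ⟨a, ha, rfl⟩, h1⟩ := hp
    obtain ⟨_, ⟨b, hb, rfl⟩, h2⟩ := hp'
    apply hsep x hx z hz hxz
    refine ⟨(1 / 2 : ℝ) • b + (1 / 2 : ℝ) • (-a), hL.cvx hb (hL.symm a ha) (by norm_num)
      (by norm_num) (by norm_num), ?_⟩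
    simp only [vadd_eq_add] at h1 h2
    have h3 : x - z = (e / 2) • b - (e / 2) • a := by
      have : x + (e / 2) • a = z + (e / 2) • b := by rw [h1, h2]
      rw [sub_eq_sub_iff_add_eq_add]
      rw [this, add_comm]
    show e • ((1 / 2 : ℝ) • b + (1 / 2 : ℝ) • (-a)) = x - z
    rw [h3]
    module
  have hsub : (⋃ x ∈ X, x +ᵥ ((e / 2) • L)) ⊆ (-((e / 2) • c)) +ᵥ ((1 + e / 2) • K) := by
    intro p hp
    simp only [Set.mem_iUnion] at hp
    obtain ⟨x, hx, ⟨_, ⟨l, hl, rfl⟩, hqp⟩⟩ := hp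
    simp only [vadd_eq_add] at hqp
    have hadd := hK.add_smul zero_le_one he2.le
    refine ⟨x + (e / 2) • (c + l), ?_, ?_⟩
    · rw [hadd]
      exact Set.add_mem_add ⟨x, hX x hx, one_smul ℝ x⟩ ⟨c + l, hLK l hl, rfl⟩
    · simp only [vadd_eq_add]
      rw [← hqp]
      module
  have hfin : volume ((-((e / 2) • c)) +ᵥ ((1 + e / 2) • K)) ≠ ⊤ :=
    ((hc.smul (1 + e / 2)).vadd (-((e / 2) • c))).measure_lt_top.ne
  have h1 : volume.real (⋃ x ∈ X, x +ᵥ ((e / 2) • L)) =
      ∑ x ∈ X, volume.real (x +ᵥ ((e / 2) • L)) :=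
    measureReal_biUnion_finset hdisj hmeas
      (fun x _ => ((hL.cpt.smul (e / 2)).vadd x).measure_lt_top.ne)
  have h2 : ∑ x ∈ X, volume.real (x +ᵥ ((e / 2) • L)) =
      X.card * ((e / 2) ^ n * volume.real L) := by
    rw [Finset.sum_congr rfl (fun x _ => by rw [vol_trans, vol_smul L he2.le])]
    rw [Finset.sum_const, nsmul_eq_mul]
  have h3 := measureReal_mono hsub hfin
  rw [h1, h2, vol_trans, vol_smul K (by positivity)] at h3
  have h4 : (X.card * (e / 2) ^ n) * volume.real L ≤ ((1 + e / 2) ^ n * 2 ^ n) * volume.real L := by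
    calc (X.card * (e / 2) ^ n) * volume.real L
        = X.card * ((e / 2) ^ n * volume.real L) := by ring
      _ ≤ (1 + e / 2) ^ n * volume.real K := h3
      _ ≤ (1 + e / 2) ^ n * (2 ^ n * volume.real L) :=
          mul_le_mul_of_nonneg_left hv (by positivity)
      _ = _ := by ring
  have h5 := le_of_mul_le_mul_right h4 hpos
  have h6 : (2 * (2 + e) / e) ^ n * (e / 2) ^ n = (1 + e / 2) ^ n * 2 ^ n := by
    rw [← mul_pow, ← mul_pow]
    congr 1
    field_simp
  rw [← h6] at h5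
  exact le_of_mul_le_mul_right h5 (by positivity)

end COV_

open COV_ in
theorem p_COV (hS : T_SYMB) (hG : Pool.Agent.HRP.T_GRD) : T_COV := by
  classical
  intro d K κ hd hK hc hint hκ hgr
  obtain ⟨c, L, hL, hLK, hv⟩ := hS d K hK hc hint
  have hd2 : (2 : ℝ) ≤ d := by exact_mod_cast hd
  have hd0 : (0 : ℝ) < d := by linarith
  set e : ℝ := 1 / (2 * d) with hedef
  set q : ℝ := 1 - 1 / d with hqdef
  have he : 0 < e := by positivity
  have hq : 0 ≤ q := by
    rw [hqdef, sub_nonneg, div_le_one hd0]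
    linarith
  have hqe : 0 < 1 - q - e := by
    have : (1 : ℝ) / (2 * d) < 1 / d := by
      rw [div_lt_div_iff₀ (by positivity) hd0]
      linarith
    rw [hqdef, hedef]
    linarith
  have hpk : ∀ X : Finset (E d), (∀ x ∈ X, x ∈ K) →
      (∀ x ∈ X, ∀ y ∈ X, x ≠ y → x - y ∉ e • L) → (X.card : ℝ) ≤ (8 * d + 2) ^ d := by
    intro X h1 h2
    refine (pack hK hc hL hLK hv he X h1 h2).trans (le_of_eq ?_)
    congr 1
    rw [hedef]
    field_simp
    ring
  obtain ⟨X, hX1, hX2, hX3⟩ := exists_max (S := K) (r := e) hL ⌊(8 * (d : ℝ) + 2) ^ d⌋₊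
    (fun X h1 h2 => Nat.le_floor (hpk X h1 h2))
  have hXne : X.Nonempty := by
    obtain ⟨k, hk⟩ := hint
    obtain ⟨x, hx, _⟩ := hX3 k (interior_subset hk)
    exact ⟨x, hx⟩
  obtain ⟨T, hT, hTc⟩ := hG d (q • K) X κ hκ hXne
    (fun U hU hne => hgr U hne fun x hx => hX1 x (hU hx))
  obtain ⟨p, hp⟩ := hint
  refine ⟨T.image (fun z => z - e • c - (1 - q - e) • p), ?_, ?_⟩
  · have hlogX : Real.log X.card ≤ d * Real.log (8 * d + 2) := by
      rw [← Real.log_pow]
      exact Real.log_le_log (by exact_mod_cast hXne.card_pos) (hpk X hX1 hX2)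
    have h1 : ((T.image (fun z => z - e • c - (1 - q - e) • p)).card : ℝ) ≤ T.card := by
      exact_mod_cast Finset.card_image_le
    calc ((T.image (fun z => z - e • c - (1 - q - e) • p)).card : ℝ) ≤ T.card := h1
      _ ≤ 1 + Real.log X.card / κ := hT
      _ = 1 + 1 / κ * Real.log X.card := by ring
      _ ≤ 1 + 1 / κ * (d * Real.log (8 * d + 2)) := by
          have := mul_le_mul_of_nonneg_left hlogX (by positivity : (0 : ℝ) ≤ 1 / κ)
          linarith
  · intro k hk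
    obtain ⟨x, hx, l, hl, hlx⟩ := hX3 k hk
    obtain ⟨z, hz, m, hm, hmx⟩ := hTc x hx
    simp only at hlx hmx
    simp only [mem_iUnion, exists_prop]
    refine ⟨z - e • c - (1 - q - e) • p, Finset.mem_image_of_mem _ hz,
      (1 - q - e) • p + (q • m + e • (c + l)), ?_, ?_⟩
    · have h1 : q • m + e • (c + l) ∈ (q + e) • K := by
        rw [hK.add_smul hq he.le]
        exact Set.add_mem_add ⟨m, hm, rfl⟩ ⟨c + l, hLK l hl, rfl⟩
      obtain ⟨w, hw, hwe⟩ := h1
      simp only at hwe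
      rw [← hwe]
      exact hK.combo_interior_self_mem_interior hp hw hqe (by positivity) (by ring)
    · simp only
      have h2 : k = z + q • m + e • l := by
        rw [hlx, hmx]
        abel
      rw [h2]
      module

end Pool.Agent.Ovl
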