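import Pool.Agent.Ovl.Targets

/-!
# A cut-off function between `K` and `K + ε W`
-/

set_option autoImplicit false

open MeasureTheory Set Filter
open scoped Pointwise Topology NNReal

namespace Pool.Agent.Ovl

open Pool.Agent.Rog (E)

namespace DST_

variable {n : ℕ} {K W : Set (E n)}

/-- the distance to `K` with respect to `W` -/
noncomputable def del (K W : Set (E n)) (x : E n) : ℝ := sInf ((fun k => gauge W (x - k)) '' K)

theorem del_le {x k : E n} (hk : k ∈ K) : del K W x ≤ gauge W (x - k) :=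
  csInf_le ⟨0, by rintro _ ⟨k, -, rfl⟩; exact gauge_nonneg _⟩ ⟨k, hk, rfl⟩

theorem del_nonneg (hne : K.Nonempty) (x : E n) : 0 ≤ del K W x :=
  le_csInf (hne.image _) (by rintro _ ⟨k, -, rfl⟩; exact gauge_nonneg _)

theorem exists_del (hK : IsCompact K) (hne : K.Nonempty) (hW : Convex ℝ W) (h0 : W ∈ 𝓝 (0 : E n))
    (x : E n) : ∃ k ∈ K, gauge W (x - k) = del K W x := by
  have hc : Continuous fun k : E n => gauge W (x - k) :=
    (continuous_gauge hW h0).comp (continuous_const.sub continuous_id)
  have h1 : IsCompact ((fun k => gauge W (x - k)) '' K) := hK.image hc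
  obtain ⟨k, hk, h2⟩ := h1.sInf_mem (hne.image _)
  exact ⟨k, hk, h2⟩

theorem del_add_le (hK : IsCompact K) (hne : K.Nonempty) (hW : Convex ℝ W)
    (h0 : W ∈ 𝓝 (0 : E n)) (x y : E n) : del K W (x + y) ≤ del K W x + gauge W y := by
  obtain ⟨k, hk, h1⟩ := exists_del hK hne hW h0 x
  have h2 : gauge W (x + y - k) ≤ gauge W (x - k) + gauge W y := by
    have e : x + y - k = (x - k) + y := by abel
    rw [e]
    exact gauge_add_le hW (absorbent_nhds_zero h0) _ _
  linarith [del_le (W := W) (x := x + y) hk]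

theorem del_self (hne : K.Nonempty) {x : E n} (hx : x ∈ K) : del K W x = 0 := by
  refine le_antisymm ?_ (del_nonneg hne x)
  have := del_le (W := W) (x := x) hx
  rwa [sub_self, gauge_zero] at this

theorem mem_of_del_lt (hK : IsCompact K) (hne : K.Nonempty) (hW : Convex ℝ W)
    (h0 : W ∈ 𝓝 (0 : E n)) {ε : ℝ} (hε : 0 < ε) {x : E n} (h : del K W x < ε) :
    x ∈ K + ε • W := by
  obtain ⟨k, hk, h1⟩ := exists_del hK hne hW h0 x
  refine ⟨k, hk, x - k, ?_, add_sub_cancel k x⟩
  refine (mem_smul_set_iff_inv_smul_mem₀ hε.ne' _ _).2 ?_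
  refine setOfPred_gauge_lt_one_subset_self hW (mem_of_mem_nhds h0) (absorbent_nhds_zero h0) ?_
  show gauge W (ε⁻¹ • (x - k)) < 1
  rw [gauge_smul_of_nonneg (inv_nonneg.2 hε.le), smul_eq_mul, h1, inv_mul_lt_one₀ hε]
  exact h

/-- the cut-off function -/
noncomputable def cut (K W : Set (E n)) (ε : ℝ) (x : E n) : ℝ := max 0 (1 - del K W x / ε)

end DST_

open DST_ in
theorem p_DST : T_DST := by
  intro n K W ε hKc hK hKi hWc hW hWi hε
  have h0 : W ∈ 𝓝 (0 : E n) := mem_interior_iff_mem_nhds.1 hWi
  have hne : K.Nonempty := hKi.mono interior_subset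
  obtain ⟨r, hr, hball⟩ := Metric.mem_nhds_iff.1 h0
  set ρ : ℝ≥0 := ⟨r, hr.le⟩ with hρ
  have hρ0 : 0 < ρ := hr
  have hgl : LipschitzWith ρ⁻¹ (gauge W) := hWc.lipschitzWith_gauge hρ0 hball
  have hdl : LipschitzWith ρ⁻¹ (del K W) := by
    refine LipschitzWith.of_le_add_mul _ fun x y => ?_
    have h1 := del_add_le hK hne hWc h0 y (x - y)
    have h2 := hgl.dist_le_mul (x - y) 0
    rw [gauge_zero, Real.dist_eq, sub_zero, abs_of_nonneg (gauge_nonneg _), dist_zero_right,
      ← dist_eq_norm] at h2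
    have e : y + (x - y) = x := by abel
    rw [e] at h1
    linarith
  set f := cut K W ε with hf
  have hfl : LipschitzWith (ρ⁻¹ * Real.toNNReal ε⁻¹) f := by
    refine LipschitzWith.of_le_add_mul _ fun x y => ?_
    have h1 := hdl.dist_le_mul y x
    rw [Real.dist_eq, dist_comm] at h1
    have h2 : del K W y - del K W x ≤ ↑ρ⁻¹ * dist x y := (le_abs_self _).trans h1
    have h3 : (del K W y - del K W x) / ε ≤ ((ρ⁻¹ : ℝ≥0) : ℝ) * dist x y / ε :=
      div_le_div_of_nonneg_right h2 hε.le
    have h4 : ((ρ⁻¹ * Real.toNNReal ε⁻¹ : ℝ≥0) : ℝ) * dist x y =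
        ((ρ⁻¹ : ℝ≥0) : ℝ) * dist x y / ε := by
      rw [NNReal.coe_mul, Real.coe_toNNReal _ (inv_nonneg.2 hε.le)]
      ring
    rw [h4]
    have h5 : 1 - del K W x / ε ≤ (1 - del K W y / ε) + ((ρ⁻¹ : ℝ≥0) : ℝ) * dist x y / ε := by
      have : (del K W y - del K W x) / ε = del K W y / ε - del K W x / ε := by ring
      linarith
    have h6 : 0 ≤ ((ρ⁻¹ : ℝ≥0) : ℝ) * dist x y / ε := by positivity
    show max 0 (1 - del K W x / ε) ≤ max 0 (1 - del K W y / ε) + _
    refine max_le ?_ ?_
    · linarith [le_max_left (0 : ℝ) (1 - del K W y / ε)]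
    · linarith [le_max_right (0 : ℝ) (1 - del K W y / ε)]
  have hone : ∀ x ∈ K, f x = 1 := by
    intro x hx
    show max 0 (1 - del K W x / ε) = 1
    rw [del_self hne hx, zero_div, sub_zero]
    exact max_eq_right zero_le_one
  have hzero : ∀ x, x ∉ K + ε • W → f x = 0 := by
    intro x hx
    have h1 : ε ≤ del K W x := not_lt.1 fun h => hx (mem_of_del_lt hK hne hWc h0 hε h)
    have h2 : 1 ≤ del K W x / ε := (one_le_div hε).2 h1
    exact max_eq_left (by linarith)
  have hcpt : IsCompact (K + ε • W) := hK.add (hW.smul ε)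
  refine ⟨f, _, hfl, HasCompactSupport.intro hcpt hzero, fun x => ⟨le_max_left _ _, ?_⟩, hone,
    hzero, ?_, ?_⟩
  · refine max_le zero_le_one ?_
    have : 0 ≤ del K W x / ε := div_nonneg (del_nonneg hne x) hε.le
    linarith
  · intro x w hw
    by_cases hd : DifferentiableAt ℝ f x
    · have h1 : HasDerivAt (fun t : ℝ => f (x + t • w)) (fderiv ℝ f x w) 0 := by
        have h2 : HasFDerivAt f (fderiv ℝ f x) (x + (0 : ℝ) • w) := by
          rw [zero_smul, add_zero]; exact hd.hasFDerivAt
        have h3 : HasDerivAt (fun t : ℝ => x + t • w) w 0 := by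
          have := ((hasDerivAt_id (0 : ℝ)).smul_const w).const_add x
          simpa using this
        exact h2.comp_hasDerivAt (0 : ℝ) h3
      have h4 : ∀ t : ℝ, 0 < t → f x - t / ε ≤ f (x + t • w) := by
        intro t ht
        have h5 := del_add_le hK hne hWc h0 x (t • w)
        rw [gauge_smul_of_nonneg ht.le, smul_eq_mul] at h5
        have h6 : t * gauge W w ≤ t := by
          have := gauge_le_one_of_mem hw
          nlinarith
        have h7 : del K W (x + t • w) / ε ≤ del K W x / ε + t / ε := by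
          rw [← add_div]
          exact div_le_div_of_nonneg_right (by linarith) hε.le
        have h8 : 0 < t / ε := div_pos ht hε
        show max 0 (1 - del K W x / ε) - t / ε ≤ max 0 (1 - del K W (x + t • w) / ε)
        rw [sub_le_iff_le_add]
        refine max_le ?_ ?_
        · linarith [le_max_left (0 : ℝ) (1 - del K W (x + t • w) / ε)]
        · linarith [le_max_right (0 : ℝ) (1 - del K W (x + t • w) / ε)]
      have h9 : -(1 / ε) ≤ fderiv ℝ f x w := by
        have h10 := h1.tendsto_slope_zero_right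
        refine ge_of_tendsto h10 ?_
        filter_upwards [self_mem_nhdsWithin] with t ht
        have ht' : 0 < t := ht
        have h11 := h4 t ht'
        simp only [zero_add, zero_smul, add_zero, smul_eq_mul]
        rw [← sub_nonneg]
        have e1 : t⁻¹ * (f (x + t • w) - f x) - -(1 / ε) =
            t⁻¹ * (f (x + t • w) - (f x - t / ε)) := by
          field_simp
          ring
        rw [e1]
        exact mul_nonneg (inv_nonneg.2 ht'.le) (sub_nonneg.2 h11)
      have h12 : -(fderiv ℝ f x w) ≤ 1 / ε := by linarith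
      calc -(fderiv ℝ f x w) * ε ≤ 1 / ε * ε := by
            exact mul_le_mul_of_nonneg_right h12 hε.le
        _ = 1 := by field_simp
    · rw [fderiv_zero_of_not_differentiableAt hd]
      simp
  · have h1 : volume (frontier K) = 0 := hKc.addHaar_frontier volume
    have h2 : ∀ᵐ x ∂(volume : Measure (E n)), x ∉ frontier K := measure_eq_zero_iff_ae_notMem.1 h1
    filter_upwards [h2] with x hx hx2
    by_cases hxK : x ∈ K
    · have hxi : x ∈ interior K := by
        by_contra h
        exact hx ⟨subset_closure hxK, h⟩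
      have h3 : f =ᶠ[𝓝 x] fun _ => 1 := by
        filter_upwards [mem_interior_iff_mem_nhds.1 hxi] with y hy using hone y hy
      rw [h3.fderiv_eq, fderiv_const_apply]
    · have h4 : x ∉ K + ε • W := fun h => hx2 ⟨h, hxK⟩
      have h3 : f =ᶠ[𝓝 x] fun _ => 0 := by
        filter_upwards [hcpt.isClosed.isOpen_compl.mem_nhds h4] with y hy using hzero y hy
      rw [h3.fderiv_eq, fderiv_const_apply]

end Pool.Agent.Ovl
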