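import Mathlib
import Pool.Agent.Ovl.Targets

/-!
# Hadwiger's covering problem and small translations of random points: unconditional bodies
-/

set_option autoImplicit false

open MeasureTheory Set Filter
open scoped Pointwise Topology

namespace Pool.Agent.Ovl

open Pool.Agent.Rog (E SymBody)

/-- `K` is symmetric with respect to the coordinate hyperplanes. -/
def Unc {n : ℕ} (K : Set (E n)) : Prop := ∀ x ∈ K, ∀ y : E n, (∀ j, |y j| = |x j|) → y ∈ K

/-- The loss in a coordinate direction of an unconditional body. -/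
def T_HSP : Prop := ∀ (n : ℕ) (K : Set (E n)) (i : Fin n) (c : ℝ), Convex ℝ K → IsCompact K →
  (interior K).Nonempty → Unc K → 0 ≤ c →
  ∫ y in K, loss K ((c * y i) • EuclideanSpace.single i (1 : ℝ)) ≤ c * volume.real K ^ 2

/-- Unconditional bodies between two balls. -/
def T_UNC : Prop := ∀ (d : ℕ) (A D : ℝ) (K : Set (E d)), 1 ≤ d → 0 < A → Convex ℝ K →
  IsCompact K → Unc K → Metric.closedBall 0 1 ⊆ K → K ⊆ Metric.closedBall 0 D →
  volume.real (esc K (1 / (d : ℝ))) ≤ (A ^ 2 * D ^ 2 / d + 1 / (2 * A)) * volume.real K ^ 2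

end Pool.Agent.Ovl
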