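import Mathlib
import Pool.Agent.Ovl.Targets
import Pool.Agent.Ovl.Targets2
import Pool.Agent.Ovl.Targets3

/-!
# Hadwiger's covering problem and small translations: translations with slack
-/

set_option autoImplicit false

open MeasureTheory Set Filter
open scoped Pointwise Topology

namespace Pool.Agent.Ovl

open Pool.Agent.Rog (E SymBody)

/-- The volume of the part of `K` which leaves `(1 + r) K` under the translation by `v`. -/
noncomputable def lossr {n : ℕ} (K : Set (E n)) (r : ℝ) (v : E n) : ℝ :=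
  volume.real {x | x ∈ K ∧ x + v ∉ (1 + r) • K}

/-- Basic properties of `lossr`. -/
def T_LR : Prop := ∀ (n : ℕ) (K : Set (E n)), Convex ℝ K → IsCompact K → (0 : E n) ∈ K →
  ∀ r : ℝ, 0 ≤ r →
  (∀ v, 0 ≤ lossr K r v ∧ lossr K r v ≤ volume.real K) ∧
  Measurable (fun v => lossr K r v) ∧
  (∀ (m : ℕ) (v : E n), lossr K (m * r) ((m : ℝ) • v) ≤ m * (1 + m * r) ^ n * lossr K r v) ∧
  (∀ v : E n, volume.real K - lossr K r v ≤
    (1 + r) ^ n * (volume.real K - loss K ((1 / (1 + r)) • v)))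

/-- The tails of the loss, with a linear map. -/
def T_TAILT : Prop := ∀ (n : ℕ) (K : Set (E n)) (T : E n →L[ℝ] E n) (s : ℝ) (j : ℕ),
  Convex ℝ K → IsCompact K → 0 ≤ s →
  volume.real {y | y ∈ K ∧ s < loss K (T y)} * 4 ≤ volume.real K →
  volume.real {y | y ∈ K ∧ (2 ^ (j + 1) - 1) * s < loss K (T y)} * 3 ^ (2 ^ j) ≤ volume.real K

/-- The derivative of the gauge is at most one on `K`. -/
def T_GSUB : Prop := ∀ (n : ℕ) (K : Set (E n)), Convex ℝ K → IsCompact K →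
  (0 : E n) ∈ interior K → ∀ z : E n, ∀ k ∈ K, fderiv ℝ (gauge K) z k ≤ 1

/-- The loss with slack is bounded by the mean of the positive part of the derivative of the
gauge. -/
def T_GAU : Prop := ∀ (n : ℕ) (K : Set (E n)) (r : ℝ) (v : E n), 1 ≤ n → Convex ℝ K →
  IsCompact K → (0 : E n) ∈ interior K → 0 ≤ r → (n : ℝ) • v ∈ K →
  lossr K r v ≤ 10 * n * ∫ z in K, max 0 (fderiv ℝ (gauge K) z v - r)

/-- The tails of linear functionals on `K`. -/
def T_LCT : Prop := ∀ (n : ℕ) (K : Set (E n)) (φ : E n →L[ℝ] ℝ) (A γ : ℝ), Convex ℝ K →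
  IsCompact K → 0 < A → 0 ≤ γ → A ^ 2 * ∫ y in K, (φ y) ^ 2 ≤ volume.real K →
  volume.real {y | y ∈ K ∧ γ < |φ y|} ≤ 3 * (3 : ℝ) ^ (-(A * γ / 8)) * volume.real K

/-- The covering theorem: a mixture of small loss and of loss with slack. -/
def T_MIX : Prop := ∀ (d : ℕ) (Θ : ℝ) (T : E d →L[ℝ] E d) (K : Set (E d)), 2 ≤ d → 1 ≤ Θ →
  26 * Real.log (38 * Θ) ≤ d → Convex ℝ K → IsCompact K → (0 : E d) ∈ interior K →
  760 * Real.log (512 * Θ) ^ 2 * ∫ y in K, loss K ((1 / (d : ℝ)) • (y - T y)) ≤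
    volume.real K ^ 2 →
  2 * 10 ^ 5 * Θ ^ 2 * Real.log (38 * Θ) *
    ∫ y in K, lossr K (1 / (48 * d)) ((1 / (d : ℝ)) • T y) ≤ volume.real K ^ 2 →
  Cov K (1 + Real.exp 1 * 2 ^ d / Θ * (d * Real.log (8 * d + 2)))

/-- Bodies of width at least `2500 log d` standard deviations in all directions. -/
def T_WID2 : Prop := ∀ (d : ℕ) (K : Set (E d)), 400 ≤ d → Convex ℝ K → IsCompact K →
  (0 : E d) ∈ interior K →
  (∀ θ : E d, ∃ k ∈ K, 0 ≤ inner ℝ θ k ∧
    (2500 * Real.log d) ^ 2 * ∫ y in K, (inner ℝ θ y) ^ 2 ≤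
      volume.real K * (inner ℝ θ k) ^ 2) → Cov K (2 ^ d)

/-- Unconditional bodies between two balls. -/
def T_UNC2 : Prop := ∀ (d : ℕ) (D : ℝ) (K : Set (E d)), 400 ≤ d → Convex ℝ K → IsCompact K →
  Unc K → Metric.closedBall 0 1 ⊆ K → K ⊆ Metric.closedBall 0 D →
  3 * 10 ^ 5 * Real.log d ^ 2 * D ≤ √d → Cov K (2 ^ d)

end Pool.Agent.Ovl
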