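import Mathlib
import Pool.Agent.Ovl.Targets
import Pool.Agent.Ovl.Targets3

/-!
# Hadwiger's covering problem and overlaps: sharp tail forms and norm forms
-/

set_option autoImplicit false

open MeasureTheory Set Filter
open scoped Pointwise Topology

namespace Pool.Agent.Ovl

open Pool.Agent.Rog (E SymBody)

/-- The covering theorem, tail form, general bodies. -/
def T_ROB3 : Prop := ∀ (d : ℕ) (Θ s ω : ℝ) (K : Set (E d)), 2 ≤ d → 1 ≤ Θ → 0 ≤ s → s ≤ 1 →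
  0 < ω → ω ≤ 1 → 9 * Θ * (1 - s / 6) ^ d ≤ ω ^ 2 → Convex ℝ K → IsCompact K →
  (interior K).Nonempty →
  volume.real {y | y ∈ K ∧ (1 - ω) * volume.real K < loss K (s • y)} * (256 * Θ) ≤
    volume.real K →
  Cov K (1 + Real.exp 1 * 2 ^ d / Θ * (d * Real.log (8 * d + 2)))

/-- The covering theorem, tail form, symmetric bodies. -/
def T_SYM3 : Prop := ∀ (d : ℕ) (Θ s ω : ℝ) (K : Set (E d)), 2 ≤ d → 1 ≤ Θ → 0 ≤ s → s ≤ 1 →
  3 * Θ * (1 - s / 4) ^ d ≤ ω → SymBody K →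
  volume.real {y | y ∈ K ∧ (1 - ω) * volume.real K < loss K (s • y)} * (4 * Θ) ≤
    volume.real K →
  Cov K (1 + Real.exp 1 * 2 ^ d / Θ * (d * Real.log (8 * d + 2)))

/-- At most `2 ^ d` translates, general bodies. -/
def T_POW4 : Prop := ∀ (d : ℕ) (s : ℝ) (K : Set (E d)), 400 ≤ d → 0 ≤ s → s ≤ 1 →
  Convex ℝ K → IsCompact K → (interior K).Nonempty →
  volume.real {y | y ∈ K ∧ volume.real {x | x ∈ K ∧ x + s • y ∈ K} <
    d * √((1 - s / 6) ^ d) * volume.real K} * (d : ℝ) ^ 3 ≤ volume.real K → Cov K (2 ^ d)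

/-- At most `2 ^ d` translates, symmetric bodies. -/
def T_SYM4 : Prop := ∀ (d : ℕ) (s : ℝ) (K : Set (E d)), 400 ≤ d → 0 ≤ s → s ≤ 1 → SymBody K →
  volume.real {y | y ∈ K ∧ volume.real {x | x ∈ K ∧ x + s • y ∈ K} <
    (d : ℝ) ^ 2 * (1 - s / 4) ^ d * volume.real K} * (d : ℝ) ^ 2 ≤ volume.real K → Cov K (2 ^ d)

/-- The norm form, symmetric bodies. -/
def T_NRM : Prop := ∀ (d : ℕ) (t : ℝ) (K : Set (E d)), 400 ≤ d → 4 * Real.log d ≤ t * d →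
  t ≤ 1 / 2 → SymBody K →
  volume.real {p : E d × E d | p.1 ∈ K ∧ p.2 ∈ K ∧
    p.1 + t • p.2 ∉ (1 + t / 2 - 2 * Real.log d / d) • K} * (2 * (d : ℝ) ^ 2) ≤
      volume.real K ^ 2 → Cov K (2 ^ d)

/-- The norm form, general bodies. -/
def T_NRMG : Prop := ∀ (d : ℕ) (t : ℝ) (K : Set (E d)), 400 ≤ d → 24 * Real.log d ≤ t * d →
  t ≤ 1 → Convex ℝ K → IsCompact K → (interior K).Nonempty → (0 : E d) ∈ K →
  volume.real {p : E d × E d | p.1 ∈ K ∧ p.2 ∈ K ∧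
    p.1 + t • p.2 ∉ (1 + t / 12 - 2 * Real.log d / d) • K} * (d : ℝ) ^ 3 ≤
      volume.real K ^ 2 → Cov K (2 ^ d)

/-- Bodies of small circumradius, at most `2 ^ d` translates. -/
def T_RAD2 : Prop := ∀ (d : ℕ) (σ r ρ R : ℝ) (K : Set (E d)), 400 ≤ d → 0 < σ →
  0 ≤ r → 0 ≤ ρ → 0 < R → R ^ 2 + r ^ 2 + 8 * σ * R ≤ 4 * ρ ^ 2 → Convex ℝ K → IsCompact K →
  (interior K).Nonempty → K ⊆ Metric.closedBall 0 R →
  (∀ θ : E d, ∫ y in K, (inner ℝ θ y) ^ 2 ≤ σ ^ 2 * ‖θ‖ ^ 2 * volume.real K) →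
  8 * volume.real {y | y ∈ K ∧ r < ‖y‖} ≤ volume.real K →
  volume.real {y | y ∈ K ∧ ‖y‖ ≤ ρ} * (d : ℝ) ^ 3 ≤ volume.real K → Cov K (2 ^ d)

/-- Bodies with small signed sums, at most `2 ^ d` translates. -/
def T_SGN : Prop := ∀ (d N : ℕ) (D : ℝ) (K L : Set (E d)), 400 ≤ d → 1 ≤ N → 1 ≤ D →
  34 * 4 ^ N * Real.log (500 * N * (d * D) ^ 2) ≤ N * d → Convex ℝ K → IsCompact K →
  SymBody L → L ⊆ K → K ⊆ D • L →
  volume.real {w : Fin N → E d | (∀ i, w i ∈ K) ∧ 1 / 10 * (N : ℝ) <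
      (∑ s : Fin N → Bool, gauge L (∑ j, (if s j then (1 : ℝ) else -1) • w j)) / 2 ^ N} *
    (80 * D * (320 * N * (d * D) ^ 2) ^ N) ≤ volume.real K ^ N → Cov K (2 ^ d)

end Pool.Agent.Ovl
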