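import Mathlib
import Pool.Agent.Ovl.Targets
import Pool.Agent.Ovl.Targets2
import Pool.Agent.Ovl.Targets6

/-!
# Hadwiger's covering problem and small translations: general unconditional bodies
-/

set_option autoImplicit false

open MeasureTheory Set Filter
open scoped Pointwise Topology

namespace Pool.Agent.Ovl

open Pool.Agent.Rog (E SymBody)

/-- Second and first moments of a coordinate of an unconditional body. -/
def T_LSQ : Prop := ∀ (n : ℕ) (K : Set (E n)) (i : Fin n), Convex ℝ K → IsCompact K → Unc K →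
  (∫ y in K, (y i) ^ 2) * volume.real K ≤ 49 * (∫ y in K, |y i|) ^ 2

/-- The vector of the mean absolute values of the coordinates is in `K`. -/
def T_MU : Prop := ∀ (n : ℕ) (K : Set (E n)) (y : E n), Convex ℝ K → IsCompact K →
  (interior K).Nonempty → Unc K → (∀ i, |y i| * volume.real K ≤ ∫ x in K, |x i|) → y ∈ K

/-- Unconditional bodies for which most coordinates are typically much smaller than their
maximum. -/
def T_UNC3 : Prop := ∀ (d : ℕ) (K : Set (E d)) (F : Finset (Fin d)), 400 ≤ d → Convex ℝ K →
  IsCompact K → (interior K).Nonempty → Unc K → 10 ^ 4 * Real.log d ^ 2 * F.card ≤ d →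
  (∀ i, i ∉ F → ∃ k ∈ K,
    (5 * 10 ^ 7 * Real.log d ^ 2) ^ 2 * ∫ y in K, (y i) ^ 2 ≤ volume.real K * (k i) ^ 2) →
  Cov K (2 ^ d)

end Pool.Agent.Ovl
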