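import Mathlib
import Pool.Agent.Ovl.Targets
import Pool.Agent.Ovl.Targets2
import Pool.Agent.Ovl.Targets6
import Pool.Agent.Ovl.Targets7
import Pool.Agent.Ovl.Targets8

/-!
# Hadwiger's covering problem and small translations: bodies with a reflection symmetry
-/

set_option autoImplicit false

open MeasureTheory Set Filter
open scoped Pointwise Topology

namespace Pool.Agent.Ovl

open Pool.Agent.Rog (E SymBody)

/-- The vector with the coordinates of `y` in `F` and those of `x` outside `F`. -/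
def mix {n : ℕ} (F : Finset (Fin n)) (y x : E n) : E n :=
  WithLp.toLp 2 fun i => if i ∈ F then y i else x i

/-- `K` is invariant under the change of the signs of the coordinates in `F`. -/
def Refl {n : ℕ} (F : Finset (Fin n)) (K : Set (E n)) : Prop := ∀ x ∈ K, mix F (-x) x ∈ K

/-- Brunn-Minkowski for the overlaps. -/
def T_BMO : Prop := ∀ (n : ℕ) (K : Set (E n)) (u v : E n) (a b : ℝ), 1 ≤ n → Convex ℝ K →
  IsCompact K → 0 ≤ a → 0 ≤ b → a + b = 1 → loss K u < volume.real K →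
  loss K v < volume.real K →
  a * (volume.real K - loss K u) ^ ((1 : ℝ) / n) + b * (volume.real K - loss K v) ^ ((1 : ℝ) / n) ≤
    (volume.real K - loss K (a • u + b • v)) ^ ((1 : ℝ) / n)

/-- Exchange of the coordinates in `F` between two random points of `K`. -/
def T_SWP : Prop := ∀ (n : ℕ) (F : Finset (Fin n)) (K : Set (E n)) (δ l : ℝ), Convex ℝ K →
  IsCompact K → (∀ x ∈ K, mix F x 0 ∈ K ∧ mix F 0 x ∈ K) → 0 < δ → 0 < l → l < 1 →
  volume.real {y | y ∈ K ∧ volume.real {x | x ∈ K ∧ mix F y x ∈ K} <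
    1 / 2 * δ ^ 2 * (l ^ F.card * (1 - l) ^ (n - F.card)) * volume.real K} ≤
    3 * δ * volume.real K

/-- The loss for half of the part of `y` in `F`. -/
def T_HLF : Prop := ∀ (n : ℕ) (F : Finset (Fin n)) (K : Set (E n)) (y : E n), Convex ℝ K →
  IsCompact K → Refl F K →
  volume.real K * volume.real {x | x ∈ K ∧ mix F y x ∈ K} ≤
    (2 ^ F.card * (volume.real K - loss K ((1 / 2 : ℝ) • mix F y 0))) ^ 2

/-- The loss for small multiples of the part of a random point in `F`. -/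
def T_FPT : Prop := ∀ (n : ℕ) (F : Finset (Fin n)) (K : Set (E n)) (δ l ε s : ℝ), 1 ≤ n →
  SymBody K → Refl F K → 0 < δ → 0 < l → l < 1 → 0 ≤ ε → ε < 1 → 0 ≤ s → s ≤ 1 / 2 →
  (1 - ε) ^ (2 * n) * 2 ^ (2 * F.card + 1) ≤ δ ^ 2 * (l ^ F.card * (1 - l) ^ (n - F.card)) →
  volume.real {y | y ∈ K ∧ volume.real K - loss K (s • mix F y 0) <
    (1 - 2 * s * ε) ^ n * volume.real K} ≤ 3 * δ * volume.real K

/-- Numerical facts for `T_BLK`. -/
def T_NUMB : Prop := ∀ (d m : ℕ) (Θ s R : ℝ), 10 ^ 4 ≤ d → Θ = 3 * d * Real.log (8 * d + 2) →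
  m = ⌈60 * Real.log d⌉₊ → R = m * (1 / (16 * d)) → s = m / (2 * d * (1 + R)) →
  1 ≤ Θ ∧ 1 ≤ m ∧ 0 ≤ R ∧ 0 ≤ s ∧ s ≤ 1 / 4 ∧
  (∀ k : ℕ, 60 * k ≤ d → (1 - 3 / 50 : ℝ) ^ (2 * d) * 2 ^ (2 * k + 1) ≤
    (1 / (24 * Θ)) ^ 2 * ((1 / 60) ^ k * (1 - 1 / 60) ^ (d - k))) ∧
  3 * Θ * (1 - s / 4) ^ d ≤ (1 / 2 * (1 - 2 * (2 * s) * (3 / 50)) +
    1 / 2 * (1 / 2 / (1 + R) ^ d) ^ ((1 : ℝ) / d)) ^ d ∧
  m * (1 + R) ^ d * (8 * Θ * (30 * (3 : ℝ) ^ (-(1000 * Real.log d * (1 / 16) / 8)))) ≤ 1 / 2 ∧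
  1 + Real.exp 1 * 2 ^ d / Θ * (d * Real.log (8 * d + 2)) ≤ 2 ^ d

/-- Symmetric bodies with a reflection symmetry whose fixed space has small codimension and has
large width (compared with the standard deviation). -/
def T_BLK : Prop := ∀ (d : ℕ) (F : Finset (Fin d)) (K : Set (E d)), 10 ^ 4 ≤ d →
  60 * F.card ≤ d → SymBody K → Refl F K →
  (∀ θ : E d, ∃ k ∈ K, 0 ≤ inner ℝ θ k ∧
    (1000 * Real.log d) ^ 2 * ∫ y in K, (inner ℝ θ (mix F 0 y)) ^ 2 ≤
      volume.real K * (inner ℝ θ k) ^ 2) → Cov K (2 ^ d)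

/-- Unconditional bodies between two balls. -/
def T_UNC4 : Prop := ∀ (d : ℕ) (D : ℝ) (K : Set (E d)), 400 ≤ d → Convex ℝ K → IsCompact K →
  Unc K → Metric.closedBall 0 1 ⊆ K → K ⊆ Metric.closedBall 0 D →
  8000 * Real.log d * D ≤ √d → Cov K (2 ^ d)

/-- Unconditional bodies for which most coordinates are typically much smaller than their
maximum. -/
def T_UNC5 : Prop := ∀ (d : ℕ) (K : Set (E d)) (F : Finset (Fin d)), 10 ^ 4 ≤ d → Convex ℝ K →
  IsCompact K → (interior K).Nonempty → Unc K → 60 * F.card ≤ d →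
  (∀ i, i ∉ F → ∃ k ∈ K,
    (7 * 10 ^ 6 * Real.log d ^ 2) ^ 2 * ∫ y in K, (y i) ^ 2 ≤ volume.real K * (k i) ^ 2) →
  Cov K (2 ^ d)

end Pool.Agent.Ovl
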