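import Mathlib
import Pool.Agent.Ovl.Targets
import Pool.Agent.Ovl.Targets2
import Pool.Agent.Ovl.Targets6
import Pool.Agent.Ovl.Targets7
import Pool.Agent.Ovl.Targets10

/-!
# Hadwiger's covering problem and small translations: bodies with a linear retraction
-/

set_option autoImplicit false

open MeasureTheory Set Filter
open scoped Pointwise Topology

namespace Pool.Agent.Ovl

open Pool.Agent.Rog (E SymBody)

/-- Exchange of the coordinates in `F` between two random points of `K`; `K` is mapped into itself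
by the projection which forgets the coordinates in `F`. -/
def T_SWQ : Prop := ∀ (n : ℕ) (F : Finset (Fin n)) (K : Set (E n)) (δ l : ℝ), Convex ℝ K →
  IsCompact K → (∀ x ∈ K, mix F 0 x ∈ K) → 0 < δ → 0 < l → l < 1 →
  volume.real {y | y ∈ K ∧ volume.real {x | x ∈ K ∧ mix F y x ∈ K} <
    1 / 2 * δ ^ 2 * (l ^ F.card * (1 - l) ^ (n - F.card)) * volume.real K} ≤
    3 * δ * volume.real K

/-- The loss for half of the part of `y` in `F`. -/
def T_HFQ : Prop := ∀ (n : ℕ) (F : Finset (Fin n)) (K : Set (E n)) (y : E n), Convex ℝ K →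
  IsCompact K → (∀ x ∈ K, mix F 0 x ∈ K) →
  volume.real {x | x ∈ K ∧ mix F y x ∈ K} ≤
    2 ^ F.card * (volume.real K - loss K ((1 / 2 : ℝ) • mix F y 0))

/-- The loss for small multiples of the part of a random point in `F`. -/
def T_FPQ : Prop := ∀ (n : ℕ) (F : Finset (Fin n)) (K : Set (E n)) (δ l ε s : ℝ), 1 ≤ n →
  Convex ℝ K → IsCompact K → (interior K).Nonempty → (∀ x ∈ K, mix F 0 x ∈ K) →
  0 < δ → 0 < l → l < 1 → 0 ≤ ε → ε < 1 → 0 ≤ s → s ≤ 1 / 2 →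
  (1 - ε) ^ n * 2 ^ (F.card + 1) ≤ δ ^ 2 * (l ^ F.card * (1 - l) ^ (n - F.card)) →
  volume.real {y | y ∈ K ∧ volume.real K - loss K (s • mix F y 0) <
    (1 - 2 * s * ε) ^ n * volume.real K} ≤ 3 * δ * volume.real K

/-- Numerical facts for `T_BLQ`. -/
def T_NUMQ : Prop := ∀ (d m : ℕ) (Θ s R : ℝ), 10 ^ 4 ≤ d → Θ = 3 * d * Real.log (8 * d + 2) →
  m = ⌈120 * Real.log d⌉₊ → R = m * (1 / (40 * d)) → s = m / (2 * d * (1 + R)) →
  1 ≤ Θ ∧ 1 ≤ m ∧ 0 ≤ R ∧ 0 ≤ s ∧ s ≤ 1 / 4 ∧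
  (∀ k : ℕ, 600 * k ≤ d → (1 - 1 / 50 : ℝ) ^ d * 2 ^ (k + 1) ≤
    (1 / (1536 * Θ)) ^ 2 * ((1 / 600) ^ k * (1 - 1 / 600) ^ (d - k))) ∧
  9 * Θ * (1 - s / 6) ^ d ≤ ((1 / 2 * (1 - 2 * (2 * s) * (1 / 50)) +
    1 / 2 * (1 / 2 / (1 + R) ^ d) ^ ((1 : ℝ) / d)) ^ d) ^ 2 ∧
  m * (1 + R) ^ d * (512 * Θ * (30 * (3 : ℝ) ^ (-(2500 * Real.log d * (1 / 40) / 8)))) ≤ 1 / 2 ∧
  1 + Real.exp 1 * 2 ^ d / Θ * (d * Real.log (8 * d + 2)) ≤ 2 ^ d

/-- Convex bodies with a coordinate projection of small corank into themselves, whose width is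
large compared with the standard deviation of the projection of a random point. -/
def T_BLQ : Prop := ∀ (d : ℕ) (F : Finset (Fin d)) (K : Set (E d)), 10 ^ 4 ≤ d →
  600 * F.card ≤ d → Convex ℝ K → IsCompact K → (0 : E d) ∈ interior K →
  (∀ x ∈ K, mix F 0 x ∈ K) →
  (∀ θ : E d, ∃ k ∈ K, 0 ≤ inner ℝ θ k ∧
    (2500 * Real.log d) ^ 2 * ∫ y in K, (inner ℝ θ (mix F 0 y)) ^ 2 ≤
      volume.real K * (inner ℝ θ k) ^ 2) → Cov K (2 ^ d)

end Pool.Agent.Ovl
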