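import Mathlib
import Pool.Agent.Ovl.Targets11
import Pool.Agent.Ovl.LOSS
import Pool.Agent.Ovl.FPT

/-!
# The loss for small multiples of the part of a random point in `F`, bodies with a retraction
-/

set_option autoImplicit false

open MeasureTheory Set Filter
open scoped Pointwise Topology

namespace Pool.Agent.Ovl

open Pool.Agent.Rog (E SymBody)

open FPT_ in
theorem p_FPQ (hL : T_LOSS) (hB : T_BMO) (hW : T_SWQ) (hH : T_HFQ) : T_FPQ := by
  intro n F K δ l ε s hn hcvx hcpt hint hP hδ hl0 hl1 hε0 hε1 hs0 hs1 hnum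
  set V := volume.real K with hV
  have hVpos : 0 < V := by
    rw [hV]
    refine ENNReal.toReal_pos ?_ hcpt.measure_lt_top.ne
    exact (lt_of_lt_of_le (isOpen_interior.measure_pos volume hint)
      (measure_mono interior_subset)).ne'
  have hsw := hW n F K δ l hcvx hcpt hP hδ hl0 hl1
  refine le_trans ?_ hsw
  refine measureReal_mono ?_ (LOSS_.vol_ne_top hcpt _)
  intro y hy
  obtain ⟨hyK, hy2⟩ := hy
  refine ⟨hyK, ?_⟩
  by_contra hbad
  push Not at hbad
  refine absurd hy2 (not_lt.mpr ?_)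
  have hh := hH n F K y hcvx hcpt hP
  set O := V - loss K ((1 / 2 : ℝ) • mix F y 0) with hO
  have hloss := (hL n K hcvx hcpt).1
  -- the overlap for one half
  have h1ε : 0 < 1 - ε := by linarith
  have hOge : (1 - ε) ^ n * V ≤ O := by
    have hk : (0 : ℝ) < 2 ^ F.card := by positivity
    have h1 : 2 ^ F.card * ((1 - ε) ^ n * V) ≤ 2 ^ F.card * O := by
      refine le_trans ?_ hh
      refine le_trans ?_ hbad
      have h3 : 2 ^ F.card * ((1 - ε) ^ n * V) =
          1 / 2 * V * ((1 - ε) ^ n * 2 ^ (F.card + 1)) := by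
        ring
      rw [h3]
      calc 1 / 2 * V * ((1 - ε) ^ n * 2 ^ (F.card + 1))
          ≤ 1 / 2 * V * (δ ^ 2 * (l ^ F.card * (1 - l) ^ (n - F.card))) :=
            mul_le_mul_of_nonneg_left hnum (by positivity)
        _ = 1 / 2 * δ ^ 2 * (l ^ F.card * (1 - l) ^ (n - F.card)) * V := by ring
    exact le_of_mul_le_mul_left h1 hk
  have hOpos : 0 < O := lt_of_lt_of_le (by positivity) hOge
  -- Brunn-Minkowski
  have hbm := hB n K 0 ((1 / 2 : ℝ) • mix F y 0) (1 - 2 * s) (2 * s) hn hcvx hcpt (by linarith)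
    (by linarith) (by ring) (by rw [loss_zero]; exact hVpos) (by rw [hO] at hOpos; linarith)
  rw [loss_zero, sub_zero] at hbm
  have he : (1 - 2 * s) • (0 : E n) + (2 * s) • ((1 / 2 : ℝ) • mix F y 0) = s • mix F y 0 := by
    rw [smul_zero, zero_add, smul_smul]
    congr 1
    ring
  rw [he] at hbm
  have hnn : (n : ℝ) ≠ 0 := by
    have : (1 : ℝ) ≤ n := by exact_mod_cast hn
    positivity
  have hn0 : 0 < (1 : ℝ) / n := by
    have : (1 : ℝ) ≤ n := by exact_mod_cast hn
    positivity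
  have hroot : ∀ t : ℝ, 0 ≤ t → (t ^ n * V) ^ ((1 : ℝ) / n) = t * V ^ ((1 : ℝ) / n) := by
    intro t ht
    rw [Real.mul_rpow (by positivity) hVpos.le]
    congr 1
    rw [← Real.rpow_natCast, ← Real.rpow_mul ht, mul_one_div_cancel hnn, Real.rpow_one]
  have h5 : (1 - ε) * V ^ ((1 : ℝ) / n) ≤ O ^ ((1 : ℝ) / n) := by
    rw [← hroot (1 - ε) h1ε.le]
    exact Real.rpow_le_rpow (by positivity) hOge hn0.le
  have hsε : 0 ≤ 1 - 2 * s * ε := by nlinarith
  have h6 : ((1 - 2 * s * ε) ^ n * V) ^ ((1 : ℝ) / n) ≤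
      (V - loss K (s • mix F y 0)) ^ ((1 : ℝ) / n) := by
    rw [hroot _ hsε]
    refine le_trans ?_ hbm
    have h7 : 2 * s * ((1 - ε) * V ^ ((1 : ℝ) / n)) ≤ 2 * s * O ^ ((1 : ℝ) / n) :=
      mul_le_mul_of_nonneg_left h5 (by linarith)
    have h8 : (1 - 2 * s * ε) * V ^ ((1 : ℝ) / n) =
        (1 - 2 * s) * V ^ ((1 : ℝ) / n) + 2 * s * ((1 - ε) * V ^ ((1 : ℝ) / n)) := by ring
    rw [h8]
    linarith
  have h9 : 0 ≤ V - loss K (s • mix F y 0) := by
    have := (hloss (s • mix F y 0)).2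
    linarith
  exact (Real.rpow_le_rpow_iff (by positivity) h9 hn0).mp h6

end Pool.Agent.Ovl
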