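import Pool.Agent.Ovl.Targets6

/-!
# The loss with slack and the derivative of the gauge
-/

set_option autoImplicit false

open MeasureTheory Set Filter
open scoped Pointwise Topology ENNReal

namespace Pool.Agent.Ovl

open Pool.Agent.Rog (E SymBody)

theorem p_GSUB : T_GSUB := by
  intro n K hc hK h0 z k hk
  by_cases hd : DifferentiableAt ℝ (gauge K) z
  · have hn : K ∈ 𝓝 (0 : E n) := mem_interior_iff_mem_nhds.1 h0
    have h1 := (hd.hasFDerivAt.hasLineDerivAt k).tendsto_slope_zero_right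
    refine le_of_tendsto h1 ?_
    filter_upwards [self_mem_nhdsWithin] with t ht
    have ht' : 0 < t := ht
    have h2 := gauge_add_le hc (absorbent_nhds_zero hn) z (t • k)
    rw [gauge_smul_of_nonneg ht'.le, smul_eq_mul] at h2
    have h3 : gauge K k ≤ 1 := gauge_le_one_of_mem hk
    rw [smul_eq_mul, inv_mul_le_iff₀ ht']
    nlinarith
  · rw [fderiv_zero_of_not_differentiableAt hd]
    simp

theorem GAU_convex {n : ℕ} {K : Set (E n)} (hc : Convex ℝ K) (h0 : (0 : E n) ∈ interior K)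
    {z : E n} (v : E n) (hd : DifferentiableAt ℝ (gauge K) z) :
    gauge K z - fderiv ℝ (gauge K) z v ≤ gauge K (z - v) := by
  have hn : K ∈ 𝓝 (0 : E n) := mem_interior_iff_mem_nhds.1 h0
  have h1 := (hd.hasFDerivAt.hasLineDerivAt (-v)).tendsto_slope_zero_right
  have h2 : fderiv ℝ (gauge K) z (-v) ≤ gauge K (z - v) - gauge K z := by
    refine le_of_tendsto h1 ?_
    filter_upwards [self_mem_nhdsWithin, Ioc_mem_nhdsGT (zero_lt_one' ℝ)] with t ht ht1
    have ht' : 0 < t := ht
    have h2 := gauge_add_le hc (absorbent_nhds_zero hn) ((1 - t) • z) (t • (z - v))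
    rw [gauge_smul_of_nonneg ht'.le, gauge_smul_of_nonneg (sub_nonneg.2 ht1.2), smul_eq_mul,
      smul_eq_mul] at h2
    have h3 : (1 - t) • z + t • (z - v) = z + t • -v := by
      rw [sub_smul, one_smul, smul_sub, smul_neg]
      abel
    rw [h3] at h2
    rw [smul_eq_mul, inv_mul_le_iff₀ ht']
    nlinarith
  rw [map_neg] at h2
  linarith

theorem GAU_hom1 {n : ℕ} {K : Set (E n)} {c : ℝ} (hc : 0 < c) {z : E n} {L : E n →L[ℝ] ℝ}
    (h : HasFDerivAt (gauge K) L (c • z)) : HasFDerivAt (gauge K) L z := by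
  have h1 : HasFDerivAt (fun y : E n => c • y) (c • ContinuousLinearMap.id ℝ (E n)) z :=
    (hasFDerivAt_id z).const_smul c
  have h2 := (h.comp z h1).const_smul c⁻¹
  have h3 : c⁻¹ • (gauge K ∘ fun y : E n => c • y) = gauge K := by
    funext y
    simp only [Pi.smul_apply, Function.comp_apply, smul_eq_mul]
    rw [gauge_smul_of_nonneg hc.le, smul_eq_mul, ← mul_assoc, inv_mul_cancel₀ hc.ne', one_mul]
  have h4 : c⁻¹ • L.comp (c • ContinuousLinearMap.id ℝ (E n)) = L := by
    ext y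
    show c⁻¹ • L (c • y) = L y
    rw [map_smul, smul_eq_mul, smul_eq_mul, ← mul_assoc, inv_mul_cancel₀ hc.ne', one_mul]
  rw [h4] at h2
  have h5 : HasFDerivAt (c⁻¹ • (gauge K ∘ fun y : E n => c • y)) L z := h2
  rwa [h3] at h5

theorem GAU_hom {n : ℕ} {K : Set (E n)} {c : ℝ} (hc : 0 < c) (z : E n) :
    fderiv ℝ (gauge K) (c • z) = fderiv ℝ (gauge K) z := by
  by_cases hd : DifferentiableAt ℝ (gauge K) (c • z)
  · exact (GAU_hom1 hc hd.hasFDerivAt).fderiv.symm
  · rw [fderiv_zero_of_not_differentiableAt hd, fderiv_zero_of_not_differentiableAt]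
    intro hd'
    apply hd
    have h1 : HasFDerivAt (gauge K) (fderiv ℝ (gauge K) z) (c⁻¹ • (c • z)) := by
      rw [inv_smul_smul₀ hc.ne']
      exact hd'.hasFDerivAt
    exact (GAU_hom1 (inv_pos.2 hc) h1).differentiableAt

theorem GAU_mem {n : ℕ} {K : Set (E n)} (hc : Convex ℝ K) (hK : IsCompact K)
    (h0 : (0 : E n) ∈ interior K) {c : ℝ} (hc0 : 0 < c) (z : E n) :
    z ∈ c • K ↔ gauge K z ≤ c := by
  have hn : K ∈ 𝓝 (0 : E n) := mem_interior_iff_mem_nhds.1 h0
  constructor
  · exact fun h => gauge_le_of_mem hc0.le h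
  · intro h
    rw [mem_smul_set_iff_inv_smul_mem₀ hc0.ne']
    have h1 : gauge K (c⁻¹ • z) ≤ 1 := by
      rw [gauge_smul_of_nonneg (inv_pos.2 hc0).le, smul_eq_mul, inv_mul_le_iff₀ hc0, mul_one]
      exact h
    rw [gauge_le_one_iff_mem_closure hc hn, hK.isClosed.closure_eq] at h1
    exact h1

/-- the length of the set of scales -/
theorem GAU_len {a g r : ℝ} (hr : 0 ≤ r) :
    volume (Ioc (0 : ℝ) 1 ∩ {t : ℝ | t * (1 + r) < a ∧ a ≤ t * (1 + g)}) ≤
      ENNReal.ofReal (max 0 (g - r)) := by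
  rcases Set.eq_empty_or_nonempty (Ioc (0 : ℝ) 1 ∩ {t : ℝ | t * (1 + r) < a ∧ a ≤ t * (1 + g)})
    with h | ⟨t₀, ⟨ht0, ht1⟩, ht2, ht3⟩
  · rw [h, measure_empty]
    exact zero_le
  have hgr : r < g := by nlinarith
  have hg1 : 0 < 1 + g := by linarith
  have hr1 : 0 < 1 + r := by linarith
  have hsub : Ioc (0 : ℝ) 1 ∩ {t : ℝ | t * (1 + r) < a ∧ a ≤ t * (1 + g)} ⊆
      Icc (a / (1 + g)) (min 1 (a / (1 + r))) := by
    rintro t ⟨⟨h1, h2⟩, h3, h4⟩
    refine ⟨?_, le_min h2 ?_⟩
    · rw [div_le_iff₀ hg1]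
      exact h4
    · rw [le_div_iff₀ hr1]
      exact h3.le
  refine (measure_mono hsub).trans ?_
  rw [Real.volume_Icc]
  refine ENNReal.ofReal_le_ofReal (le_trans ?_ (le_max_right _ _))
  rcases le_total a (1 + r) with ha | ha
  · have h1 : a / (1 + r) - a / (1 + g) ≤ g - r := by
      have h2 : a / (1 + r) - a / (1 + g) = a / (1 + r) * ((g - r) / (1 + g)) := by
        field_simp
        ring
      rw [h2]
      have h3 : a / (1 + r) ≤ 1 := by
        rw [div_le_one hr1]
        exact ha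
      have h4 : (g - r) / (1 + g) ≤ g - r := by
        rw [div_le_iff₀ hg1]
        nlinarith
      have h5 : 0 ≤ (g - r) / (1 + g) := div_nonneg (by linarith) hg1.le
      nlinarith
    have := min_le_right (1 : ℝ) (a / (1 + r))
    linarith
  · have h1 : 1 - a / (1 + g) ≤ g - r := by
      have h2 : (1 + r) / (1 + g) ≤ a / (1 + g) := by gcongr
      have h3 : 1 - (1 + r) / (1 + g) ≤ g - r := by
        have h4 : 1 - (1 + r) / (1 + g) = (g - r) / (1 + g) := by
          field_simp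
          ring
        rw [h4, div_le_iff₀ hg1]
        nlinarith
      linarith
    have := min_le_left (1 : ℝ) (a / (1 + r))
    linarith

theorem GAU_lint (n : ℕ) : ∫⁻ t in Ioc (0 : ℝ) 1, ENNReal.ofReal (t ^ n) =
    ENNReal.ofReal (1 / ((n : ℝ) + 1)) := by
  have h1 : IntervalIntegrable (fun t : ℝ => t ^ n) volume 0 1 :=
    (continuous_pow n).intervalIntegrable 0 1
  rw [intervalIntegrable_iff_integrableOn_Ioc_of_le zero_le_one] at h1
  rw [← ofReal_integral_eq_lintegral_ofReal h1]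
  · rw [← intervalIntegral.integral_of_le zero_le_one, integral_pow]
    simp
  · rw [Filter.EventuallyLE, ae_restrict_iff' measurableSet_Ioc]
    refine Eventually.of_forall fun t ht => ?_
    exact pow_nonneg ht.1.le n

theorem GAU_pow {n : ℕ} (hn : 1 ≤ n) : (1 + 1 / (n : ℝ)) ^ n ≤ 3 := by
  have hn0 : (0 : ℝ) < n := by exact_mod_cast hn
  have h1 : 1 + 1 / (n : ℝ) ≤ Real.exp (1 / n) := by
    linarith [Real.add_one_le_exp (1 / (n : ℝ))]
  have h2 : (1 + 1 / (n : ℝ)) ^ n ≤ Real.exp (1 / n) ^ n :=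
    pow_le_pow_left₀ (by positivity) h1 n
  rw [← Real.exp_nat_mul, mul_one_div_cancel hn0.ne'] at h2
  linarith [Real.exp_one_lt_d9]

theorem p_GAU (hG : T_GSUB) : T_GAU := by
  intro n K r v hn hc hK h0 hr hv
  have hKn : K ∈ 𝓝 (0 : E n) := mem_interior_iff_mem_nhds.1 h0
  have hn0 : (0 : ℝ) < n := by exact_mod_cast hn
  have hNc : Continuous (gauge K) := continuous_gauge hc hKn
  set g : E n → ℝ := fun z => fderiv ℝ (gauge K) z v with hg
  have hgm : Measurable g := measurable_fderiv_apply_const ℝ (gauge K) v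
  have hg1 : ∀ z, g z ≤ 1 / n := by
    intro z
    have h1 := hG n K hc hK h0 z _ hv
    rw [map_smul, smul_eq_mul] at h1
    rw [le_div_iff₀ hn0, mul_comm]
    exact h1
  have hgh : ∀ c : ℝ, 0 < c → ∀ z, g (c • z) = g z := fun c hc z => by
    simp only [hg]
    rw [GAU_hom hc]
  set c : ℝ := 1 + 1 / n with hcdef
  have hc0 : 0 < c := by positivity
  set W : Set (E n) := {z | 1 + r < gauge K z ∧ gauge K z ≤ 1 + g z} with hW
  set H : E n → ℝ := fun z => max 0 (g z - r) with hH
  have hHm : Measurable H := measurable_const.max (hgm.sub_const r)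
  have hH0 : ∀ z, 0 ≤ H z := fun z => le_max_left _ _
  -- translation
  have s1 : volume {x | x ∈ K ∧ x + v ∉ (1 + r) • K} ≤ volume W := by
    have e1 : {x | x ∈ K ∧ x + v ∉ (1 + r) • K} =
        (fun x => x + v) ⁻¹' {z | z - v ∈ K ∧ z ∉ (1 + r) • K} := by
      ext x
      simp
    rw [e1, measure_preimage_add_right]
    refine measure_mono_ae ?_
    obtain ⟨C, hC⟩ := hc.lipschitz_gauge hKn
    filter_upwards [hC.ae_differentiableAt] with z hz hzS
    obtain ⟨h1, h2⟩ := hzS
    have h3 := GAU_convex hc h0 v hz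
    have h4 : gauge K (z - v) ≤ 1 := gauge_le_one_of_mem h1
    have h5 : ¬ gauge K z ≤ 1 + r := fun h => h2 ((GAU_mem hc hK h0 (by linarith) z).2 h)
    refine ⟨not_le.1 h5, ?_⟩
    simp only [hg]
    linarith
  -- the product set
  set S : Set (ℝ × E n) := {p | p.1 * (1 + r) < gauge K p.2 ∧
    gauge K p.2 ≤ p.1 * (1 + g p.2)} with hS
  have hSm : MeasurableSet S := by
    refine MeasurableSet.inter ?_ ?_
    · exact measurableSet_lt (measurable_fst.mul_const _) (hNc.measurable.comp measurable_snd)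
    · exact measurableSet_le (hNc.measurable.comp measurable_snd)
        (measurable_fst.mul ((hgm.comp measurable_snd).const_add 1))
  have s2 : ∀ t ∈ Ioc (0 : ℝ) 1, volume (Prod.mk t ⁻¹' S) = ENNReal.ofReal (t ^ n) * volume W := by
    rintro t ⟨ht0, ht1⟩
    have e1 : Prod.mk t ⁻¹' S = t • W := by
      ext z
      rw [mem_smul_set_iff_inv_smul_mem₀ ht0.ne']
      show t * (1 + r) < gauge K z ∧ gauge K z ≤ t * (1 + g z) ↔
        1 + r < gauge K (t⁻¹ • z) ∧ gauge K (t⁻¹ • z) ≤ 1 + g (t⁻¹ • z)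
      rw [gauge_smul_of_nonneg (inv_pos.2 ht0).le, smul_eq_mul, hgh _ (inv_pos.2 ht0),
        lt_inv_mul_iff₀ ht0, inv_mul_le_iff₀ ht0]
    rw [e1, Measure.addHaar_smul, finrank_euclideanSpace_fin, abs_of_nonneg (pow_nonneg ht0.le n)]
  have s3 : ∫⁻ t in Ioc (0 : ℝ) 1, volume (Prod.mk t ⁻¹' S) =
      ENNReal.ofReal (1 / ((n : ℝ) + 1)) * volume W := by
    rw [setLIntegral_congr_fun measurableSet_Ioc s2, lintegral_mul_const, GAU_lint]
    exact (measurable_id.pow_const n).ennreal_ofReal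
  have s4 : ∫⁻ t in Ioc (0 : ℝ) 1, volume (Prod.mk t ⁻¹' S) =
      ∫⁻ z : E n, (volume.restrict (Ioc (0 : ℝ) 1)) ((fun t => (t, z)) ⁻¹' S) := by
    rw [← Measure.prod_apply hSm, Measure.prod_apply_symm hSm]
  have s5 : ∀ z : E n, (volume.restrict (Ioc (0 : ℝ) 1)) ((fun t => (t, z)) ⁻¹' S) ≤
      (c • K).indicator (fun z => ENNReal.ofReal (H z)) z := by
    intro z
    rw [Measure.restrict_apply (measurable_prodMk_right hSm), inter_comm]
    by_cases hz : z ∈ c • K
    · rw [indicator_of_mem hz]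
      exact GAU_len (a := gauge K z) (g := g z) hr
    · rw [indicator_of_notMem hz]
      apply le_of_eq
      convert measure_empty (μ := (volume : Measure ℝ))
      rw [eq_empty_iff_forall_notMem]
      rintro t ⟨⟨ht0, ht1⟩, ht2, ht3⟩
      apply hz
      rw [GAU_mem hc hK h0 hc0]
      have h1 := hg1 z
      have h2 : gauge K z ≤ t * (1 + g z) := ht3
      have h3 : t * (1 + g z) ≤ t * c := mul_le_mul_of_nonneg_left (by rw [hcdef]; linarith) ht0.le
      nlinarith
  have hcK : IsCompact (c • K) := hK.smul c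
  have hint : ∀ A : Set (E n), IsCompact A → IntegrableOn H A := by
    intro A hA
    refine Measure.integrableOn_of_bounded (M := 1 / n) hA.measure_lt_top.ne
      hHm.aestronglyMeasurable ?_
    refine Eventually.of_forall fun z => ?_
    rw [Real.norm_of_nonneg (hH0 z)]
    exact max_le (by positivity) (by linarith [hg1 z])
  have s6 : ∫⁻ z : E n, (c • K).indicator (fun z => ENNReal.ofReal (H z)) z =
      ENNReal.ofReal (c ^ n * ∫ z in K, H z) := by
    rw [lintegral_indicator hcK.measurableSet, ← ofReal_integral_eq_lintegral_ofReal (hint _ hcK)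
      (Eventually.of_forall hH0)]
    congr 1
    have h1 := Measure.setIntegral_comp_smul_of_pos (volume : Measure (E n)) H K hc0
    have h2 : ∀ z, H (c • z) = H z := fun z => by
      simp only [hH]
      rw [hgh c hc0]
    simp only [h2] at h1
    rw [finrank_euclideanSpace_fin, smul_eq_mul] at h1
    rw [h1, ← mul_assoc, mul_inv_cancel₀ (pow_pos hc0 n).ne', one_mul]
  have s7 : ENNReal.ofReal (1 / ((n : ℝ) + 1)) * volume W ≤
      ENNReal.ofReal (c ^ n * ∫ z in K, H z) := by
    rw [← s3, s4, ← s6]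
    exact lintegral_mono s5
  have hI : 0 ≤ ∫ z in K, H z := integral_nonneg hH0
  have s8 : volume W ≤ ENNReal.ofReal (((n : ℝ) + 1) * (c ^ n * ∫ z in K, H z)) := by
    have h1 : volume W = ENNReal.ofReal ((n : ℝ) + 1) *
        (ENNReal.ofReal (1 / ((n : ℝ) + 1)) * volume W) := by
      rw [← mul_assoc, ← ENNReal.ofReal_mul (by positivity), mul_one_div_cancel (by positivity),
        ENNReal.ofReal_one, one_mul]
    rw [h1, ENNReal.ofReal_mul (by positivity)]
    exact mul_le_mul_right s7 _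
  have s9 : lossr K r v ≤ ((n : ℝ) + 1) * (c ^ n * ∫ z in K, H z) := by
    unfold lossr
    rw [measureReal_def]
    exact ENNReal.toReal_le_of_le_ofReal (by positivity) (s1.trans s8)
  refine s9.trans ?_
  have h1 : c ^ n ≤ 3 := GAU_pow hn
  have h2 : (n : ℝ) + 1 ≤ 2 * n := by
    have : (1 : ℝ) ≤ n := by exact_mod_cast hn
    linarith
  have h3 : c ^ n * ∫ z in K, H z ≤ 3 * ∫ z in K, H z := mul_le_mul_of_nonneg_right h1 hI
  calc ((n : ℝ) + 1) * (c ^ n * ∫ z in K, H z) ≤ (2 * n) * (3 * ∫ z in K, H z) :=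
        mul_le_mul h2 h3 (by positivity) (by positivity)
    _ ≤ 10 * n * ∫ z in K, H z := by nlinarith [mul_nonneg hn0.le hI]

end Pool.Agent.Ovl
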