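import Mathlib
import Pool.Agent.Ovl.Targets
import Pool.Agent.HRL.NU

/-!
# The covering theorem, tail form (job OVL-ROB)
-/

set_option autoImplicit false

open MeasureTheory Set Filter
open scoped Pointwise Topology

namespace Pool.Agent.Ovl

open Pool.Agent.Rog (E SymBody)

namespace ROB_

/-- `1 ≤ a ^ d (e 2 ^ d)` -/
theorem one_le {D q a : ℝ} {d : ℕ} (hd : (d : ℝ) = D) (hD : 2 ≤ D) (hq : q = 1 - 1 / D)
    (ha : a = q / (1 + q)) (ha0 : 0 ≤ a) : 1 ≤ a ^ d * (Real.exp 1 * 2 ^ d) := by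
  have h1 := Pool.Agent.HRL.NU_.two_a hD hq ha
  have h2 := Pool.Agent.HRL.NU_.pow_le hD d
  have h3 : ((d : ℝ)) / (2 * (D - 1)) ≤ 1 := by
    rw [hd, div_le_one (by linarith)]
    linarith
  have h4 : (1 + 1 / (2 * (D - 1))) ^ d ≤ Real.exp 1 := h2.trans (Real.exp_le_exp.mpr h3)
  calc (1 : ℝ) = (2 * a * (1 + 1 / (2 * (D - 1)))) ^ d := by rw [h1, one_pow]
    _ = a ^ d * 2 ^ d * (1 + 1 / (2 * (D - 1))) ^ d := by rw [mul_pow, mul_pow]; ring
    _ ≤ a ^ d * 2 ^ d * Real.exp 1 := by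
        apply mul_le_mul_of_nonneg_left h4
        positivity
    _ = a ^ d * (Real.exp 1 * 2 ^ d) := by ring

end ROB_

theorem p_ROB (hC : T_COV) (hK : T_CORE) : T_ROB := by
  intro d Θ t K hd hΘ ht0 ht1 hlog hconv hcomp hint hvol
  have hD : (2 : ℝ) ≤ d := by exact_mod_cast hd
  have hD0 : (0 : ℝ) < d := by linarith
  obtain ⟨q, hq⟩ : ∃ q : ℝ, q = 1 - 1 / (d : ℝ) := ⟨_, rfl⟩
  obtain ⟨a, ha⟩ : ∃ a : ℝ, a = q / (1 + q) := ⟨_, rfl⟩
  have hinv : 1 / (d : ℝ) ≤ 1 / 2 := one_div_le_one_div_of_le (by norm_num) hD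
  have hinv0 : 0 < 1 / (d : ℝ) := by positivity
  have hq2 : 1 / 2 ≤ q := by rw [hq]; linarith
  have hq1 : q < 1 := by rw [hq]; linarith
  have ha3 : 1 / 3 ≤ a := by
    rw [ha, div_le_div_iff₀ (by norm_num) (by linarith)]
    linarith
  have ha0 : 0 < a := by linarith
  have ha1 : a ≤ 1 := by
    rw [ha, div_le_one (by linarith)]
    linarith
  have hone := ROB_.one_le rfl hD hq ha ha0.le
  have hΘ0 : 0 < Θ := by linarith
  have hat0 : 0 ≤ a * t := mul_nonneg ha0.le ht0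
  have hat1 : a * t ≤ 1 := mul_le_one₀ ha1 ht0 ht1
  have hsmall : 16 * Θ * (1 - a * t) ^ d ≤ 1 := by
    have h1 : 1 - a * t ≤ Real.exp (-(a * t)) := by
      have := Real.add_one_le_exp (-(a * t))
      linarith
    have h2 : (1 - a * t) ^ d ≤ Real.exp (-Real.log (16 * Θ)) := by
      refine (pow_le_pow_left₀ (by linarith) h1 d).trans ?_
      rw [← Real.exp_nat_mul]
      apply Real.exp_le_exp.mpr
      have h3 : 1 / 3 * (t * d) ≤ a * (t * d) :=
        mul_le_mul_of_nonneg_right ha3 (mul_nonneg ht0 hD0.le)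
      nlinarith
    rw [Real.exp_neg, Real.exp_log (by linarith)] at h2
    calc 16 * Θ * (1 - a * t) ^ d ≤ 16 * Θ * (16 * Θ)⁻¹ :=
          mul_le_mul_of_nonneg_left h2 (by linarith)
      _ = 1 := mul_inv_cancel₀ (by positivity)
  have hκ : 0 < Θ * a ^ d := by positivity
  have hcov := hC d K (Θ * a ^ d) hd hconv hcomp hint hκ (by
    intro U hU hUK
    by_contra hcon
    push Not at hcon
    refine hK d Θ q a t K U hconv hcomp hint hΘ hq2 hq1 ha ht0 ht1 hsmall hvol hU hUK ?_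
    intro z
    rw [hq]
    exact (hcon z).le)
  obtain ⟨T, hT, hTK⟩ := hcov
  refine ⟨T, hT.trans ?_, hTK⟩
  have hl : 0 ≤ (d : ℝ) * Real.log (8 * d + 2) :=
    mul_nonneg hD0.le (Real.log_nonneg (by linarith))
  have h5 : 1 / (Θ * a ^ d) ≤ Real.exp 1 * 2 ^ d / Θ := by
    rw [div_le_div_iff₀ hκ hΘ0]
    nlinarith
  have := mul_le_mul_of_nonneg_right h5 hl
  linarith

end Pool.Agent.Ovl
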