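import Pool.Agent.Ovl.Targets4
import Pool.Agent.Ovl.CORE
import Pool.Agent.Ovl.ROB

/-!
# The general principle (job OVL-GEN)
-/

set_option autoImplicit false

open MeasureTheory Set
open scoped Pointwise

namespace Pool.Agent.Ovl

open Pool.Agent.Rog (E)
open Pool.Agent.HRL (H)

namespace GEN_

open CORE_

/-- `(1 - λ) ^ d ≥ 4 / 9` for `λ = 1 / (2 d - 1)` -/
lemma pow_bound {d : ℕ} (hd : 2 ≤ d) :
    4 / 9 ≤ (2 * ((d : ℝ) - 1) / (2 * d - 1)) ^ d := by
  have hD : (2 : ℝ) ≤ d := by exact_mod_cast hd
  have h1 : (1 + 1 / (2 * ((d : ℝ) - 1))) ^ d ≤ 9 / 4 := by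
    rcases Nat.eq_or_lt_of_le hd with h2 | h2
    · rw [← h2]; norm_num
    · have hD3 : (3 : ℝ) ≤ d := by exact_mod_cast h2
      refine (Pool.Agent.HRL.NU_.pow_le hD d).trans ?_
      have h3 : ((d : ℝ)) / (2 * (d - 1)) ≤ 3 / 4 := by
        rw [div_le_div_iff₀ (by linarith) (by norm_num)]
        linarith
      refine (Real.exp_le_exp.mpr h3).trans ?_
      have h4 : Real.exp (3 / 4) ^ 4 ≤ (9 / 4 : ℝ) ^ 4 := by
        rw [← Real.exp_nat_mul]
        have h5 : ((4 : ℕ) : ℝ) * (3 / 4) = ((3 : ℕ) : ℝ) * 1 := by norm_num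
        rw [h5, Real.exp_nat_mul]
        have h6 : Real.exp 1 ≤ 2.72 := by
          have := Real.exp_one_lt_d9
          linarith
        refine (pow_le_pow_left₀ (Real.exp_pos 1).le h6 3).trans ?_
        norm_num
      exact le_of_pow_le_pow_left₀ (by norm_num) (by norm_num) h4
  have h2 : 2 * ((d : ℝ) - 1) / (2 * d - 1) * (1 + 1 / (2 * ((d : ℝ) - 1))) = 1 := by
    have h3 : (2 : ℝ) * d - 1 ≠ 0 := by linarith
    have h4 : (d : ℝ) - 1 ≠ 0 := by linarith
    field_simp
    ring
  have h3 : (2 * ((d : ℝ) - 1) / (2 * d - 1)) ^ d *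
      (1 + 1 / (2 * ((d : ℝ) - 1))) ^ d = 1 := by rw [← mul_pow, h2, one_pow]
  have h4 : 0 ≤ (2 * ((d : ℝ) - 1) / (2 * d - 1)) ^ d := by
    apply pow_nonneg
    apply div_nonneg <;> linarith
  nlinarith [mul_le_mul_of_nonneg_left h1 h4]

end GEN_

open CORE_ GEN_ in
theorem p_GEN (hC : T_COV) (hE : Pool.Agent.HRL.T_EN) (hT : Pool.Agent.HRL.T_TR) : T_GEN := by
  classical
  intro d Θ K S hd hΘ hK hc hKint hSm0 hSK hS64 hmid
  have hD : (2 : ℝ) ≤ d := by exact_mod_cast hd
  have hD0 : (0 : ℝ) < d := by linarith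
  obtain ⟨q, hq⟩ : ∃ q : ℝ, q = 1 - 1 / (d : ℝ) := ⟨_, rfl⟩
  obtain ⟨a, ha⟩ : ∃ a : ℝ, a = q / (1 + q) := ⟨_, rfl⟩
  have hinv : 1 / (d : ℝ) ≤ 1 / 2 := one_div_le_one_div_of_le (by norm_num) hD
  have hinv0 : 0 < 1 / (d : ℝ) := by positivity
  have hq2 : 1 / 2 ≤ q := by rw [hq]; linarith
  have hq1 : q < 1 := by rw [hq]; linarith
  have hq0 : 0 < q := by linarith
  have ha0 : 0 < a := by rw [ha]; positivity
  have hone := ROB_.one_le rfl hD hq ha ha0.le
  have hΘ0 : 0 < Θ := by linarith
  have hκ : 0 < Θ * a ^ d := by positivity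
  have hcov := hC d K (Θ * a ^ d) hd hK hc hKint hκ (by
    intro U hU hUK
    by_contra hcon
    push Not at hcon
    have hcount : ∀ z : E d, (({x | x ∈ U ∧ x - z ∈ q • K} : Set (E d)).ncard : ℝ) ≤
        Θ * a ^ d * U.card := by
      intro z
      rw [hq]
      exact (hcon z).le
    set M : Set (E d) := q • K with hM
    have hMc : IsCompact M := hc.smul q
    have hKpos : 0 < volume.real K := by
      rw [measureReal_def]
      refine ENNReal.toReal_pos ?_ hc.measure_lt_top.ne
      intro h
      exact (isOpen_interior.measure_pos volume hKint).ne' (measure_mono_null interior_subset h)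
    have hMvol : volume.real M = q ^ d * volume.real K := vol_smul_real K hq0.le
    have hMpos : 0 < volume.real M := by rw [hMvol]; positivity
    have : Nonempty U := hU.to_subtype
    have hcard : (Fintype.card U : ℝ) = (U.card : ℝ) := by rw [Fintype.card_coe]
    have hZ0 : 0 < (Fintype.card U : ℝ) := by
      rw [hcard]
      exact_mod_cast hU.card_pos
    set Z : ℝ := (Fintype.card U : ℝ) with hZ
    set v : U → E d := fun i => (i : E d) with hv
    have hvK : ∀ i, v i ∈ K := fun i => hUK _ i.2
    -- inclusion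
    have hincl : ∀ i, H M a (v i) ⊆ M := by
      rintro i _ ⟨_, ⟨x, hx, rfl⟩, rfl⟩
      have h1 : v i + q • x ∈ (1 + q) • K := by
        rw [hK.add_smul zero_le_one hq0.le]
        exact add_mem_add (by simpa using hvK i) (smul_mem_smul_set hx)
      obtain ⟨y, hy, hye⟩ := h1
      refine ⟨y, hy, ?_⟩
      simp only at hye ⊢
      rw [← hye, smul_smul, ha]
      congr 1
      field_simp
    -- energy
    have hEN' := hE d M U v a (Θ * a ^ d) hMc ha0 (by positivity) (by
      intro z
      have h1 : (({i | v i - z ∈ M} : Set U).ncard) =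
          (((fun i : U => (i : E d)) '' {i | v i - z ∈ M})).ncard :=
        (Set.ncard_image_of_injective _ Subtype.val_injective).symm
      rw [h1, Fintype.card_coe]
      refine le_trans (Nat.cast_le.mpr (Set.ncard_le_ncard ?_ ?_)) (hcount z)
      · rintro _ ⟨i, hi, rfl⟩
        exact ⟨i.2, hi⟩
      · exact U.finite_toSet.subset (fun x hx => hx.1))
    have hEn : ∑ i, ∑ j, volume.real (H M a (v i) ∩ H M a (v j)) ≤
        Θ * (a ^ d) ^ 2 * (Fintype.card U : ℝ) ^ 2 * volume.real M := by
      refine hEN'.trans (le_of_eq ?_)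
      ring
    -- the set `q S` is rarely hit
    have hqS : MeasurableSet (q • S) := hSm0.const_smul₀ q
    have hqSM : q • S ⊆ M := smul_set_mono hSK
    have hqSv : volume.real (q • S) * (64 * Θ) ≤ volume.real M := by
      rw [vol_smul_real S hq0.le, hMvol]
      calc q ^ d * volume.real S * (64 * Θ) = q ^ d * (64 * Θ * volume.real S) := by ring
        _ ≤ q ^ d * volume.real K := mul_le_mul_of_nonneg_left hS64 (by positivity)
    have hst := star hT d M (q • S) U v a Θ 8 hMc hMpos ha0 hΘ0 (by norm_num) hincl hEn hqS hqSM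
    have hst' : ∑ i, volume.real {w | w ∈ M ∧ a • (v i + w) ∈ q • S} ≤
        Z * (volume.real M / 4) := by
      refine hst.trans (mul_le_mul_of_nonneg_left ?_ hZ0.le)
      linarith
    -- but each point hits it often
    have hlow : ∀ i : U, 7 / 16 * volume.real M ≤
        volume.real {w | w ∈ M ∧ a • (v i + w) ∈ q • S} := by
      intro i
      set x : E d := v i with hx
      set B : Set (E d) := {y | y ∈ K ∧ (1 / 2 : ℝ) • (x + y) ∉ S} with hB
      have hBv : 4 * volume.real B ≤ volume.real K := hmid x (hvK i)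
      obtain ⟨μ, hμ⟩ : ∃ μ : ℝ, μ = 2 * ((d : ℝ) - 1) / (2 * d - 1) := ⟨_, rfl⟩
      have hμ0 : 0 ≤ μ := by
        rw [hμ]
        apply div_nonneg <;> linarith
      have hμ1 : μ ≤ 1 := by
        rw [hμ, div_le_one (by linarith)]
        linarith
      have hμq : μ * (1 + q) = 2 * q := by
        have h3 : (2 : ℝ) * d - 1 ≠ 0 := by linarith
        rw [hμ, hq]
        field_simp
        ring
      have hμd : 4 / 9 ≤ μ ^ d := by
        rw [hμ]
        exact pow_bound hd
      set A : Set (E d) := {y | y ∈ K ∧ (1 - μ) • x + μ • y ∈ B} with hA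
      have hAv : μ ^ d * volume.real A ≤ volume.real B := by
        rw [← vol_smul_real A hμ0]
        have h1 : μ • A ⊆ (fun z => (1 - μ) • x + z) ⁻¹' B := by
          rintro _ ⟨y, hy, rfl⟩
          exact hy.2
        have h2 : volume.real ((fun z => (1 - μ) • x + z) ⁻¹' B) = volume.real B := by
          rw [measureReal_def, measureReal_def, measure_preimage_add]
        rw [← h2]
        refine measureReal_mono h1 ?_
        rw [measure_preimage_add]
        exact ((measure_mono (fun y hy => hy.1)).trans_lt hc.measure_lt_top).ne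
      have hA0 : 0 ≤ volume.real A := measureReal_nonneg
      have hAv' : volume.real A ≤ 9 / 16 * volume.real K := by
        have h1 := mul_le_mul_of_nonneg_right hμd hA0
        linarith
      have hsub : M ⊆ q • A ∪ {w | w ∈ M ∧ a • (x + w) ∈ q • S} := by
        rintro _ ⟨y, hy, rfl⟩
        by_cases h : y ∈ A
        · exact Or.inl (smul_mem_smul_set h)
        · right
          refine ⟨smul_mem_smul_set hy, ?_⟩
          have hyK : (1 - μ) • x + μ • y ∈ K :=
            hK (hvK i) hy (by linarith) hμ0 (by ring)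
          have h1 : (1 / 2 : ℝ) • (x + ((1 - μ) • x + μ • y)) ∈ S := by
            by_contra hcon2
            exact h ⟨hy, hyK, hcon2⟩
          refine ⟨_, h1, ?_⟩
          simp only
          have hq3 : 1 + q ≠ 0 := by linarith
          have e2 : q * (1 / 2) * (2 - μ) = a := by
            rw [ha]
            have : μ = 2 * q / (1 + q) := by
              rw [eq_div_iff hq3]; exact hμq
            rw [this]
            field_simp
            ring
          have e3 : q * (1 / 2) * μ = a * q := by
            rw [ha]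
            have : μ = 2 * q / (1 + q) := by
              rw [eq_div_iff hq3]; exact hμq
            rw [this]
            field_simp
          calc q • (1 / 2 : ℝ) • (x + ((1 - μ) • x + μ • y)) =
              (q * (1 / 2) * (2 - μ)) • x + (q * (1 / 2) * μ) • y := by module
            _ = a • (x + q • y) := by
              rw [e2, e3]
              module
      have h5 : volume.real M ≤ volume.real (q • A) +
          volume.real {w | w ∈ M ∧ a • (x + w) ∈ q • S} := by
        refine (measureReal_mono hsub ?_).trans (measureReal_union_le _ _)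
        refine ((measure_mono (union_subset (smul_set_mono fun y hy => hy.1)
          fun w hw => hw.1)).trans_lt hMc.measure_lt_top).ne
      rw [vol_smul_real A hq0.le] at h5
      have h6 : q ^ d * volume.real A ≤ 9 / 16 * volume.real M := by
        rw [hMvol]
        calc q ^ d * volume.real A ≤ q ^ d * (9 / 16 * volume.real K) :=
              mul_le_mul_of_nonneg_left hAv' (by positivity)
          _ = 9 / 16 * (q ^ d * volume.real K) := by ring
      linarith
    have hsum : Z * (7 / 16 * volume.real M) ≤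
        ∑ i, volume.real {w | w ∈ M ∧ a • (v i + w) ∈ q • S} := by
      have h1 : ∑ _i : U, 7 / 16 * volume.real M ≤
          ∑ i, volume.real {w | w ∈ M ∧ a • (v i + w) ∈ q • S} :=
        Finset.sum_le_sum fun i _ => hlow i
      rw [Finset.sum_const, nsmul_eq_mul, Finset.card_univ] at h1
      exact h1
    have hZM : 0 < Z * volume.real M := by positivity
    nlinarith [hsum.trans hst'])
  obtain ⟨T, hT', hTK⟩ := hcov
  refine ⟨T, hT'.trans ?_, hTK⟩
  have hl : 0 ≤ (d : ℝ) * Real.log (8 * d + 2) :=
    mul_nonneg hD0.le (Real.log_nonneg (by linarith))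
  have h5 : 1 / (Θ * a ^ d) ≤ Real.exp 1 * 2 ^ d / Θ := by
    rw [div_le_div_iff₀ hκ hΘ0]
    nlinarith
  have := mul_le_mul_of_nonneg_right h5 hl
  linarith

end Pool.Agent.Ovl
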