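import Mathlib
import Pool.Agent.Ovl.Targets10
import Pool.Agent.Ovl.LOSS

/-!
# OVL-HLF: the loss for half of the part of a vector in the coordinates of a reflection
-/

set_option autoImplicit false

open MeasureTheory Set Filter
open scoped Pointwise Topology

namespace Pool.Agent.Ovl

open Pool.Agent.Rog (E SymBody)

namespace HLF_

variable {n : ℕ}

lemma mix_apply (F : Finset (Fin n)) (y x : E n) (i : Fin n) :
    mix F y x i = if i ∈ F then y i else x i := rfl

lemma mix_cont (F : Finset (Fin n)) (y : E n) : Continuous (fun x : E n => mix F y x) := by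
  unfold mix
  refine (PiLp.continuous_toLp 2 _).comp ?_
  refine continuous_pi fun i => ?_
  by_cases h : i ∈ F
  · simp only [h, if_true]
    exact continuous_const
  · simp only [h, if_false]
    fun_prop

/-- the diagonal map: half in the coordinates of `F` -/
noncomputable def D (F : Finset (Fin n)) : E n →ₗ[ℝ] E n where
  toFun x := WithLp.toLp 2 fun i => (if i ∈ F then (1 / 2 : ℝ) else 1) * x i
  map_add' x y := by
    ext i
    simp [mul_add]
  map_smul' c x := by
    ext i
    simp [mul_left_comm]

lemma D_apply (F : Finset (Fin n)) (x : E n) (i : Fin n) :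
    D F x i = (if i ∈ F then (1 / 2 : ℝ) else 1) * x i := rfl

lemma det_D (F : Finset (Fin n)) : LinearMap.det (D F) = (1 / 2 : ℝ) ^ F.card := by
  rw [← LinearMap.det_toMatrix (EuclideanSpace.basisFun (Fin n) ℝ).toBasis]
  have h : LinearMap.toMatrix (EuclideanSpace.basisFun (Fin n) ℝ).toBasis
      (EuclideanSpace.basisFun (Fin n) ℝ).toBasis (D F) =
      Matrix.diagonal (fun i => if i ∈ F then (1 / 2 : ℝ) else 1) := by
    ext i j
    rw [LinearMap.toMatrix_apply]
    simp only [OrthonormalBasis.coe_toBasis, OrthonormalBasis.coe_toBasis_repr_apply,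
      EuclideanSpace.basisFun_apply, EuclideanSpace.basisFun_repr, D_apply]
    by_cases hij : i = j
    · subst hij
      simp
    · rw [Matrix.diagonal_apply_ne _ hij]
      simp [hij]
  rw [h, Matrix.det_diagonal, Finset.prod_ite, Finset.prod_const, Finset.prod_const_one, mul_one]
  congr 2
  ext i
  simp

/-- the image of the set under the affine map -/
lemma vol_le (F : Finset (Fin n)) (w : E n) (H S : Set (E n)) (hS : volume S ≠ ⊤)
    (h : ∀ a ∈ H, D F a + w ∈ S) : volume.real H ≤ 2 ^ F.card * volume.real S := by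
  have h1 : D F '' H ⊆ (fun x => x + w) ⁻¹' S := by
    rintro _ ⟨a, ha, rfl⟩
    exact h a ha
  have h2 : volume (D F '' H) ≤ volume S := by
    refine (measure_mono h1).trans ?_
    rw [measure_preimage_add_right]
  rw [Measure.addHaar_image_linearMap, det_D, abs_of_pos (by positivity)] at h2
  have h3 := ENNReal.toReal_mono hS h2
  rw [ENNReal.toReal_mul, ENNReal.toReal_ofReal (by positivity)] at h3
  change (1 / 2 : ℝ) ^ F.card * volume.real H ≤ volume.real S at h3
  have h4 : (2 : ℝ) ^ F.card * (1 / 2) ^ F.card = 1 := by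
    rw [← mul_pow]
    norm_num
  calc volume.real H = 2 ^ F.card * ((1 / 2 : ℝ) ^ F.card * volume.real H) := by
        rw [← mul_assoc, h4, one_mul]
    _ ≤ 2 ^ F.card * volume.real S := by gcongr

end HLF_

open HLF_ in
theorem p_HLF (hL : T_LOSS) (hP : Pool.Agent.ShadowA.T_PLB) : T_HLF := by
  intro n F K y hK hc hR
  clear hL
  have hKm : MeasurableSet K := hc.measurableSet
  have hlt : volume K < ⊤ := hc.measure_lt_top
  set B : Set (E n) := {x | x ∈ K ∧ mix F y x ∈ K} with hB
  set H : Set (E n) := {a | a ∈ K ∧ mix F ((1 / 2 : ℝ) • y) a ∈ K} with hH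
  set v : E n := (1 / 2 : ℝ) • mix F y 0 with hv
  set S : Set (E n) := {x | x ∈ K ∧ x + v ∈ K} with hS
  have hBm : MeasurableSet B := hKm.inter ((mix_cont F y).measurable hKm)
  have hHm : MeasurableSet H := hKm.inter ((mix_cont F _).measurable hKm)
  have hBt : volume B ≠ ⊤ := ((measure_mono (fun x hx => hx.1)).trans_lt hlt).ne
  have hHt : volume H ≠ ⊤ := ((measure_mono (fun x hx => hx.1)).trans_lt hlt).ne
  have hSt : volume S ≠ ⊤ := ((measure_mono (fun x hx => hx.1)).trans_lt hlt).ne
  have hmid : ∀ x ∈ K, ∀ z ∈ K, (1 / 2 : ℝ) • (x + z) ∈ K := by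
    intro x hx z hz
    have h := hK hx hz (a := 1 / 2) (b := 1 / 2) (by norm_num) (by norm_num) (by norm_num)
    rwa [← smul_add] at h
  have hzero : ∀ a ∈ K, mix F 0 a ∈ K := by
    intro a ha
    have h := hmid a ha _ (hR a ha)
    convert h using 1
    ext i
    rw [mix_apply]
    simp only [PiLp.smul_apply, PiLp.add_apply, mix_apply, smul_eq_mul]
    split_ifs
    · simp
    · ring
  have key : ∀ x ∈ K, ∀ z ∈ B, (1 / 2 : ℝ) • (x + z) ∈ H := by
    intro x hx z hz
    refine ⟨hmid x hx z hz.1, ?_⟩
    have h := hmid _ (hzero x hx) _ hz.2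
    convert h using 1
    ext i
    rw [mix_apply]
    simp only [PiLp.smul_apply, PiLp.add_apply, mix_apply, smul_eq_mul]
    split_ifs
    · simp
    · ring
  have h1 := hP n K B H hKm hBm hHm key
  have h2 : volume.real K * volume.real B ≤ volume.real H ^ 2 := by
    have := ENNReal.toReal_mono (ENNReal.pow_ne_top hHt) h1
    rwa [ENNReal.toReal_mul, ENNReal.toReal_pow] at this
  have h3 : volume.real H ≤ 2 ^ F.card * volume.real S := by
    refine vol_le F (-(1 / 2 : ℝ) • v) H S hSt ?_
    intro a ha
    have h4 : mix F (-((1 / 2 : ℝ) • y)) a ∈ K := by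
      have h := hR _ ha.2
      convert h using 1
      ext i
      simp only [mix_apply, PiLp.neg_apply, PiLp.smul_apply, smul_eq_mul]
      split_ifs
      · rfl
      · rfl
    refine ⟨?_, ?_⟩
    · have h := hmid a ha.1 _ h4
      convert h using 1
      ext i
      simp only [PiLp.smul_apply, PiLp.add_apply, mix_apply, smul_eq_mul, D_apply, hv,
        PiLp.neg_apply, PiLp.zero_apply]
      split_ifs
      · ring
      · ring
    · have h := hmid a ha.1 _ ha.2
      convert h using 1
      ext i
      simp only [PiLp.smul_apply, PiLp.add_apply, mix_apply, smul_eq_mul, D_apply, hv,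
        PiLp.neg_apply, PiLp.zero_apply]
      split_ifs
      · ring
      · ring
  have h5 : volume.real K - loss K v = volume.real S := by
    rw [LOSS_.loss_eq hc]
    ring
  rw [h5]
  refine h2.trans ?_
  have h6 : 0 ≤ volume.real H := measureReal_nonneg
  gcongr

end Pool.Agent.Ovl
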