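import Pool.Agent.Ovl.Targets6

/-!
# The tails of linear functionals (OVL-LCT)
-/

set_option autoImplicit false

open MeasureTheory Set Filter
open scoped Pointwise Topology

namespace Pool.Agent.Ovl

open Pool.Agent.Rog (E SymBody)

/-- The iteration of the midpoint inequality. -/
theorem LCT_iter (hP : Pool.Agent.ShadowA.T_PLB) {n : ℕ} {K : Set (E n)}
    (φ : E n →L[ℝ] ℝ) {s : ℝ} (hK : Convex ℝ K) (hKc : IsCompact K)
    (h4 : volume.real {y | y ∈ K ∧ s < |φ y|} * 4 ≤ volume.real K) (j : ℕ) :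
    volume.real {y | y ∈ K ∧ (2 ^ (j + 1) - 1) * s < |φ y|} * 3 ^ (2 ^ j) ≤ volume.real K := by
  have hKm : MeasurableSet K := hKc.isClosed.measurableSet
  have hfin : volume K ≠ ⊤ := hKc.measure_lt_top.ne
  have hm : Measurable (fun y : E n => |φ y|) := (continuous_abs.comp φ.continuous).measurable
  set A : Set (E n) := {y | y ∈ K ∧ |φ y| ≤ s} with hA
  set G : ℕ → Set (E n) := fun j => {y | y ∈ K ∧ (2 ^ (j + 1) - 1) * s < |φ y|} with hG
  have hAm : MeasurableSet A := hKm.inter (hm measurableSet_Iic)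
  have hGm : ∀ j, MeasurableSet (G j) := fun j =>
    hKm.inter (hm (measurableSet_Ioi (a := (2 ^ (j + 1) - 1) * s)))
  have hAK : A ⊆ K := fun y hy => hy.1
  have hGK : ∀ j, G j ⊆ K := fun j y hy => hy.1
  have hAf : volume A ≠ ⊤ := ((measure_mono hAK).trans_lt hKc.measure_lt_top).ne
  have hGf : ∀ j, volume (G j) ≠ ⊤ := fun j =>
    ((measure_mono (hGK j)).trans_lt hKc.measure_lt_top).ne
  have hG0 : G 0 = {y | y ∈ K ∧ s < |φ y|} := by
    ext y
    simp only [hG, Set.mem_ofPred_eq]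
    norm_num
  have hsum : volume.real K = volume.real A + volume.real (G 0) := by
    have hu : K = A ∪ G 0 := by
      rw [hG0]
      ext y
      simp only [hA, Set.mem_union, Set.mem_ofPred_eq]
      constructor
      · intro hy
        rcases le_or_gt (|φ y|) s with h | h
        · exact Or.inl ⟨hy, h⟩
        · exact Or.inr ⟨hy, h⟩
      · rintro (h | h) <;> exact h.1
    have hd : Disjoint A (G 0) := by
      rw [hG0, Set.disjoint_left]
      intro y hy hy2
      exact absurd hy.2 (not_le.mpr hy2.2)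
    conv_lhs => rw [hu]
    exact measureReal_union hd (hGm 0) hAf (hGf 0)
  have hA0 : 0 ≤ volume.real A := measureReal_nonneg
  have key : ∀ i, volume.real A * volume.real (G (i + 1)) ≤ volume.real (G i) ^ 2 := by
    intro i
    have h1 := hP n A (G (i + 1)) (G i) hAm (hGm _) (hGm _) (by
      intro y hy z hz
      refine ⟨?_, ?_⟩
      · have := hK hy.1 hz.1 (a := 1 / 2) (b := 1 / 2) (by norm_num) (by norm_num) (by norm_num)
        rwa [← smul_add] at this
      · have h3 := hz.2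
        have h4 := hy.2
        have e : φ ((1 / 2 : ℝ) • (y + z)) = (1 / 2) * (φ y + φ z) := by
          rw [map_smul, map_add, smul_eq_mul]
        have h2 : |φ z| ≤ 2 * |φ ((1 / 2 : ℝ) • (y + z))| + |φ y| := by
          rw [e, abs_mul, abs_of_nonneg (by norm_num : (0 : ℝ) ≤ 1 / 2)]
          have h6 : |φ z| ≤ |φ y + φ z| + |φ y| := by
            have := abs_sub (φ y + φ z) (φ y)
            rwa [add_sub_cancel_left] at this
          linarith
        have h5 : ((2 : ℝ) ^ (i + 1 + 1) - 1) * s = 2 * (((2 : ℝ) ^ (i + 1) - 1) * s) + s := by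
          ring
        rw [h5] at h3
        linarith)
    have h2 := ENNReal.toReal_mono (ENNReal.pow_ne_top (hGf i)) h1
    rw [ENNReal.toReal_mul, ENNReal.toReal_pow] at h2
    exact h2
  have main : ∀ i, volume.real (G i) * 3 ^ (2 ^ i) ≤ volume.real A := by
    intro i
    induction i with
    | zero =>
      rw [← hG0] at h4
      norm_num
      linarith
    | succ i ih =>
      rcases hA0.eq_or_lt with h | h
      · have hK0 : volume.real K ≤ 0 := by
          rw [← hG0] at h4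
          have := measureReal_nonneg (μ := volume) (s := G 0)
          linarith
        have h5 : volume.real (G (i + 1)) ≤ volume.real K :=
          measureReal_mono (hGK _) hfin
        have h6 : volume.real (G (i + 1)) = 0 :=
          le_antisymm (h5.trans hK0) measureReal_nonneg
        rw [h6, zero_mul]
        exact hA0
      · have h5 := key i
        have h6 : (volume.real (G i) * 3 ^ (2 ^ i)) ^ 2 ≤ volume.real A ^ 2 :=
          pow_le_pow_left₀ (by positivity) ih 2
        have h7 : (3 : ℝ) ^ (2 ^ (i + 1)) = (3 ^ (2 ^ i)) ^ 2 := by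
          rw [← pow_mul, ← pow_succ]
        have h8 : volume.real A * (volume.real (G (i + 1)) * 3 ^ (2 ^ (i + 1))) ≤
            volume.real A * volume.real A := by
          rw [h7]
          calc volume.real A * (volume.real (G (i + 1)) * (3 ^ (2 ^ i)) ^ 2)
              = volume.real A * volume.real (G (i + 1)) * (3 ^ (2 ^ i)) ^ 2 := by ring
            _ ≤ volume.real (G i) ^ 2 * (3 ^ (2 ^ i)) ^ 2 :=
                mul_le_mul_of_nonneg_right h5 (by positivity)
            _ = (volume.real (G i) * 3 ^ (2 ^ i)) ^ 2 := by ring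
            _ ≤ volume.real A ^ 2 := h6
            _ = volume.real A * volume.real A := by ring
        exact le_of_mul_le_mul_left h8 h
  exact (main j).trans (measureReal_mono hAK hfin)

/-- Chebyshev's inequality. -/
theorem LCT_cheb {n : ℕ} {K : Set (E n)} (φ : E n →L[ℝ] ℝ) {A : ℝ}
    (hKc : IsCompact K) (hA : 0 < A) (h : A ^ 2 * ∫ y in K, (φ y) ^ 2 ≤ volume.real K) :
    volume.real {y | y ∈ K ∧ 2 / A < |φ y|} * 4 ≤ volume.real K := by
  have hKm : MeasurableSet K := hKc.isClosed.measurableSet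
  have hm : Measurable (fun y : E n => |φ y|) := (continuous_abs.comp φ.continuous).measurable
  have hsub : {y | y ∈ K ∧ 2 / A < |φ y|} ⊆ K := fun y hy => hy.1
  have hSm : MeasurableSet {y | y ∈ K ∧ 2 / A < |φ y|} := hKm.inter (hm measurableSet_Ioi)
  have hSf : volume {y | y ∈ K ∧ 2 / A < |φ y|} ≠ ⊤ :=
    ((measure_mono hsub).trans_lt hKc.measure_lt_top).ne
  have hint : IntegrableOn (fun y : E n => (φ y) ^ 2) K :=
    ((φ.continuous.pow 2).continuousOn).integrableOn_compact hKc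
  have h1 : ∫ y in {y | y ∈ K ∧ 2 / A < |φ y|}, (φ y) ^ 2 ≤ ∫ y in K, (φ y) ^ 2 :=
    setIntegral_mono_set hint (ae_of_all _ fun y => sq_nonneg _) (ae_of_all _ hsub)
  have h2 : (2 / A) ^ 2 * volume.real {y | y ∈ K ∧ 2 / A < |φ y|} ≤
      ∫ y in {y | y ∈ K ∧ 2 / A < |φ y|}, (φ y) ^ 2 := by
    have h3 : ∫ _ in {y | y ∈ K ∧ 2 / A < |φ y|}, (2 / A) ^ 2 =
        volume.real {y | y ∈ K ∧ 2 / A < |φ y|} * (2 / A) ^ 2 := by
      rw [setIntegral_const, smul_eq_mul]
    rw [mul_comm, ← h3]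
    refine setIntegral_mono_on (integrableOn_const hSf) (hint.mono_set hsub) hSm fun y hy => ?_
    rw [← sq_abs (φ y)]
    exact pow_le_pow_left₀ (by positivity) hy.2.le 2
  have h3 : A ^ 2 * ((2 / A) ^ 2 * volume.real {y | y ∈ K ∧ 2 / A < |φ y|}) ≤
      volume.real K :=
    (mul_le_mul_of_nonneg_left (h2.trans h1) (by positivity)).trans h
  have h4 : A ^ 2 * ((2 / A) ^ 2 * volume.real {y | y ∈ K ∧ 2 / A < |φ y|}) =
      volume.real {y | y ∈ K ∧ 2 / A < |φ y|} * 4 := by
    field_simp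
    ring
  rwa [h4] at h3

theorem p_LCT (hP : Pool.Agent.ShadowA.T_PLB) : T_LCT := by
  intro n K φ A γ hK hKc hA hγ h
  have hfin : volume K ≠ ⊤ := hKc.measure_lt_top.ne
  have hK0 : 0 ≤ volume.real K := measureReal_nonneg
  have hsub : {y | y ∈ K ∧ γ < |φ y|} ⊆ K := fun y hy => hy.1
  rcases le_or_gt (A * γ) 8 with h8 | h8
  · have h1 : volume.real {y | y ∈ K ∧ γ < |φ y|} ≤ volume.real K :=
      measureReal_mono hsub hfin
    have h2 : (1 : ℝ) ≤ 3 * (3 : ℝ) ^ (-(A * γ / 8)) := by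
      have h3 : (3 : ℝ) ^ (-(1 : ℝ)) ≤ (3 : ℝ) ^ (-(A * γ / 8)) :=
        Real.rpow_le_rpow_of_exponent_le (by norm_num) (by linarith)
      rw [Real.rpow_neg_one] at h3
      linarith
    calc volume.real {y | y ∈ K ∧ γ < |φ y|} ≤ 1 * volume.real K := by rw [one_mul]; exact h1
      _ ≤ _ := mul_le_mul_of_nonneg_right h2 hK0
  · have h4 := LCT_cheb φ hKc hA h
    obtain ⟨m, hm1, hm2⟩ := exists_nat_pow_near (x := A * γ / 2 + 1) (y := (2 : ℝ))
      (by linarith) (by norm_num)
    obtain ⟨j, rfl⟩ : ∃ j, m = j + 1 := by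
      cases m with
      | zero => norm_num at hm2; linarith
      | succ j => exact ⟨j, rfl⟩
    have h5 := LCT_iter hP φ hK hKc h4 j
    have hincl : {y | y ∈ K ∧ γ < |φ y|} ⊆ {y | y ∈ K ∧ (2 ^ (j + 1) - 1) * (2 / A) < |φ y|} := by
      intro y hy
      refine ⟨hy.1, lt_of_le_of_lt ?_ hy.2⟩
      have h6 : (2 : ℝ) ^ (j + 1) - 1 ≤ A * γ / 2 := by linarith
      calc ((2 : ℝ) ^ (j + 1) - 1) * (2 / A) ≤ A * γ / 2 * (2 / A) :=
            mul_le_mul_of_nonneg_right h6 (by positivity)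
        _ = γ := by field_simp
    have hsub2 : {y | y ∈ K ∧ (2 ^ (j + 1) - 1) * (2 / A) < |φ y|} ⊆ K := fun y hy => hy.1
    have h7 : volume.real {y | y ∈ K ∧ γ < |φ y|} ≤
        volume.real {y | y ∈ K ∧ (2 ^ (j + 1) - 1) * (2 / A) < |φ y|} :=
      measureReal_mono hincl ((measure_mono hsub2).trans_lt hKc.measure_lt_top).ne
    have h8' : (0 : ℝ) < 3 ^ (2 ^ j) := by positivity
    have h9 : volume.real {y | y ∈ K ∧ (2 ^ (j + 1) - 1) * (2 / A) < |φ y|} ≤
        volume.real K / 3 ^ (2 ^ j) := by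
      rw [le_div_iff₀ h8']
      exact h5
    have h10 : ((3 : ℝ) ^ (2 ^ j))⁻¹ ≤ 3 * (3 : ℝ) ^ (-(A * γ / 8)) := by
      have e1 : ((3 : ℝ) ^ (2 ^ j))⁻¹ = (3 : ℝ) ^ (-((2 : ℝ) ^ j)) := by
        rw [Real.rpow_neg (by norm_num), ← Real.rpow_natCast]
        push_cast
        rfl
      have e2 : 3 * (3 : ℝ) ^ (-(A * γ / 8)) = (3 : ℝ) ^ (1 + -(A * γ / 8)) := by
        rw [Real.rpow_add (by norm_num), Real.rpow_one]
      rw [e1, e2]
      refine Real.rpow_le_rpow_of_exponent_le (by norm_num) ?_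
      have h11 : (2 : ℝ) ^ (j + 1 + 1) = 4 * 2 ^ j := by ring
      rw [h11] at hm2
      linarith
    calc volume.real {y | y ∈ K ∧ γ < |φ y|} ≤ volume.real K / 3 ^ (2 ^ j) := h7.trans h9
      _ = ((3 : ℝ) ^ (2 ^ j))⁻¹ * volume.real K := by rw [div_eq_inv_mul]
      _ ≤ _ := mul_le_mul_of_nonneg_right h10 hK0

end Pool.Agent.Ovl
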