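import Mathlib
import Pool.Agent.Ovl.Targets6
import Pool.Agent.Ovl.LOSS

/-!
# Basic properties of the loss with slack
-/

set_option autoImplicit false

open MeasureTheory Set Filter
open scoped Pointwise Topology

namespace Pool.Agent.Ovl

open Pool.Agent.Rog (E SymBody)

namespace LR_

open LOSS_

variable {n : ℕ} {K : Set (E n)}

lemma real_smul (c : ℝ) (hc : 0 ≤ c) (A : Set (E n)) :
    volume.real (c • A) = c ^ n * volume.real A := by
  unfold Measure.real
  rw [Measure.addHaar_smul, finrank_euclideanSpace_fin, ENNReal.toReal_mul,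
    ENNReal.toReal_ofReal (abs_nonneg _), abs_of_nonneg (pow_nonneg hc n)]

lemma smul_ne_top (hA : volume K ≠ ⊤) (c : ℝ) : volume (c • K) ≠ ⊤ := by
  rw [Measure.addHaar_smul]
  exact ENNReal.mul_ne_top ENNReal.ofReal_ne_top hA

lemma step (hcv : Convex ℝ K) (hc : IsCompact K) {r : ℝ} (hr : 0 ≤ r) (m : ℕ) (v : E n) :
    lossr K ((m + 1) * r) (((m : ℝ) + 1) • v) ≤
      lossr K (m * r) ((m : ℝ) • v) + (1 + m * r) ^ n * lossr K r v := by
  set a : ℝ := m * r with ha
  have ha0 : 0 ≤ a := by positivity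
  set A : Set (E n) := {x | x ∈ K ∧ x + v ∉ (1 + r) • K} with hA
  have hAt : volume A ≠ ⊤ := vol_ne_top hc _
  have hsub : {x | x ∈ K ∧ x + ((m : ℝ) + 1) • v ∉ (1 + ((m : ℝ) + 1) * r) • K} ⊆
      {x | x ∈ K ∧ x + (m : ℝ) • v ∉ (1 + a) • K} ∪
        (fun x => x + (m : ℝ) • v) ⁻¹' ((1 + a) • A) := by
    rintro x ⟨hx, hx2⟩
    by_cases h : x + (m : ℝ) • v ∈ (1 + a) • K
    · right
      obtain ⟨y, hy, hyx⟩ := h
      refine ⟨y, ⟨hy, fun hyv => hx2 ?_⟩, hyx⟩
      obtain ⟨k, hk, hky⟩ := hyv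
      simp only at hyx hky
      have hpos : 0 < 1 + ((m : ℝ) + 1) * r := by positivity
      refine ⟨(a / (1 + ((m : ℝ) + 1) * r)) • y + ((1 + r) / (1 + ((m : ℝ) + 1) * r)) • k,
        hcv hy hk (by positivity) (by positivity) ?_, ?_⟩
      · rw [← add_div, div_eq_one_iff_eq hpos.ne', ha]
        ring
      · simp only
        have e1 : a • y + y = x + (m : ℝ) • v := by
          rw [← hyx, add_smul, one_smul]
          abel
        rw [smul_add, smul_smul, smul_smul, mul_div_cancel₀ _ hpos.ne',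
          mul_div_cancel₀ _ hpos.ne', hky, add_smul (m : ℝ) 1 v, one_smul, ← add_assoc, e1,
          add_assoc]
    · left
      exact ⟨hx, h⟩
  have h2 : volume ((fun x => x + (m : ℝ) • v) ⁻¹' ((1 + a) • A)) ≠ ⊤ := by
    rw [measure_preimage_add_right]
    exact smul_ne_top hAt _
  unfold lossr
  calc volume.real {x | x ∈ K ∧ x + ((m : ℝ) + 1) • v ∉ (1 + ((m : ℝ) + 1) * r) • K}
      ≤ volume.real ({x | x ∈ K ∧ x + (m : ℝ) • v ∉ (1 + a) • K} ∪
        (fun x => x + (m : ℝ) • v) ⁻¹' ((1 + a) • A)) :=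
        measureReal_mono hsub (measure_union_lt_top (vol_ne_top hc _).lt_top h2.lt_top).ne
    _ ≤ volume.real {x | x ∈ K ∧ x + (m : ℝ) • v ∉ (1 + a) • K} +
          volume.real ((fun x => x + (m : ℝ) • v) ⁻¹' ((1 + a) • A)) :=
        measureReal_union_le _ _
    _ = _ := by rw [real_preimage_add, real_smul _ (by positivity)]

lemma chain (hcv : Convex ℝ K) (hc : IsCompact K) {r : ℝ} (hr : 0 ≤ r) (m : ℕ) (v : E n) :
    lossr K (m * r) ((m : ℝ) • v) ≤ m * (1 + m * r) ^ n * lossr K r v := by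
  have hl0 : 0 ≤ lossr K r v := measureReal_nonneg
  induction m with
  | zero =>
    unfold lossr
    simp
  | succ m ih =>
    have h1 := step hcv hc hr m v
    push_cast
    refine h1.trans ?_
    have h2 : (1 + (m : ℝ) * r) ^ n ≤ (1 + ((m : ℝ) + 1) * r) ^ n :=
      pow_le_pow_left₀ (by positivity) (by nlinarith) n
    have h3 : (m : ℝ) * (1 + m * r) ^ n * lossr K r v ≤
        m * (1 + ((m : ℝ) + 1) * r) ^ n * lossr K r v := by gcongr
    have h4 : (1 + (m : ℝ) * r) ^ n * lossr K r v ≤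
        (1 + ((m : ℝ) + 1) * r) ^ n * lossr K r v := by gcongr
    have h5 : ((m : ℝ) + 1) * (1 + ((m : ℝ) + 1) * r) ^ n * lossr K r v =
        m * (1 + ((m : ℝ) + 1) * r) ^ n * lossr K r v +
          (1 + ((m : ℝ) + 1) * r) ^ n * lossr K r v := by ring
    rw [h5]
    linarith

lemma lossr_eq (hc : IsCompact K) (r : ℝ) (v : E n) :
    volume.real K - lossr K r v = volume.real {x | x ∈ K ∧ x + v ∈ (1 + r) • K} := by
  have hK : MeasurableSet K := hc.measurableSet
  have hrK : MeasurableSet ((1 + r) • K) := (hc.smul (1 + r)).measurableSet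
  have h1 : K = {x | x ∈ K ∧ x + v ∉ (1 + r) • K} ∪ {x | x ∈ K ∧ x + v ∈ (1 + r) • K} := by
    ext x
    simp only [mem_union, mem_ofPred_eq]
    tauto
  have h2 : Disjoint {x | x ∈ K ∧ x + v ∉ (1 + r) • K} {x | x ∈ K ∧ x + v ∈ (1 + r) • K} := by
    rw [Set.disjoint_left]
    intro x hx hx'
    exact hx.2 hx'.2
  have h3 : MeasurableSet {x | x ∈ K ∧ x + v ∈ (1 + r) • K} :=
    hK.inter ((measurable_add_const v) hrK)
  have h4 := measureReal_union (μ := volume) h2 h3 (vol_ne_top hc _) (vol_ne_top hc _)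
  rw [← h1] at h4
  unfold lossr
  linarith

lemma last (hcv : Convex ℝ K) (hc : IsCompact K) (h0 : (0 : E n) ∈ K) {r : ℝ} (hr : 0 ≤ r)
    (v : E n) : volume.real K - lossr K r v ≤
      (1 + r) ^ n * (volume.real K - loss K ((1 / (1 + r)) • v)) := by
  rw [lossr_eq hc, loss_eq hc, sub_sub_cancel, ← real_smul _ (by positivity)]
  have hr1 : 0 < 1 + r := by linarith
  refine measureReal_mono ?_ (smul_ne_top (vol_ne_top hc _) _)
  rintro x ⟨hx, k, hk, hkx⟩
  simp only at hkx
  refine ⟨(1 / (1 + r)) • x, ⟨?_, ?_⟩, ?_⟩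
  · have h1 := hcv h0 hx (a := 1 - 1 / (1 + r)) (b := 1 / (1 + r)) (by
      rw [sub_nonneg, div_le_one hr1]
      linarith) (by positivity) (by ring)
    rwa [smul_zero, zero_add] at h1
  · rw [← smul_add, ← hkx, smul_smul, one_div, inv_mul_cancel₀ hr1.ne', one_smul]
    exact hk
  · simp only
    rw [smul_smul, mul_one_div_cancel hr1.ne', one_smul]

end LR_

open LOSS_ LR_ in
theorem p_LR (_hL : T_LOSS) : T_LR := by
  intro n K hcv hc h0 r hr
  have hK : MeasurableSet K := hc.measurableSet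
  have hrK : MeasurableSet ((1 + r) • K) := (hc.smul (1 + r)).measurableSet
  have hlt : volume K < ⊤ := hc.measure_lt_top
  have hset : MeasurableSet {p : E n × E n | p.2 ∈ K ∧ p.2 + p.1 ∉ (1 + r) • K} :=
    (measurable_snd hK).inter ((measurable_snd.add measurable_fst) hrK).compl
  have hmeas : Measurable (fun v : E n => volume {x | x ∈ K ∧ x + v ∉ (1 + r) • K}) :=
    measurable_measure_prodMk_left hset
  exact ⟨fun v => ⟨measureReal_nonneg, measureReal_mono (fun x hx => hx.1) hlt.ne⟩,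
    hmeas.ennreal_toReal, fun m v => chain hcv hc hr m v, fun v => last hcv hc h0 hr v⟩

end Pool.Agent.Ovl
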