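import Pool.Agent.Ovl.Targets2
import Pool.Agent.Rog.Targets
import Pool.Agent.ShadowA.PLB

/-!
# The loss of an unconditional body in a coordinate direction (T_HSP)
-/

set_option autoImplicit false

open MeasureTheory Set Filter
open scoped Pointwise Topology ENNReal

namespace Pool.Agent.Ovl

open Pool.Agent.Rog (E SymBody)

namespace HSP_

variable {n : ℕ}

lemma coord (x : E n) (i j : Fin n) (s : ℝ) :
    (x + s • EuclideanSpace.single i (1 : ℝ) : E n) j = x j + if j = i then s else 0 := by
  by_cases h : j = i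
  · subst h; simp
  · simp [h]

lemma mem_of_coord {K : Set (E n)} (hc : Convex ℝ K) (hu : Unc K) {x : E n} (hx : x ∈ K)
    (i : Fin n) (s : ℝ) (h : |x i + s| ≤ |x i|) :
    x + s • EuclideanSpace.single i (1 : ℝ) ∈ K := by
  have hr : x + (-2 * x i) • EuclideanSpace.single i (1 : ℝ) ∈ K := by
    refine hu x hx _ fun j => ?_
    rw [coord]
    by_cases hj : j = i
    · subst hj; simp only [if_true]
      rw [show x j + -2 * x j = -(x j) by ring, abs_neg]
    · simp [hj]
  by_cases h0 : x i = 0
  · have : s = 0 := by simpa [h0] using h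
    simpa [this] using hx
  · have habs : |x i + s| ^ 2 ≤ |x i| ^ 2 := by
      have := abs_nonneg (x i + s); gcongr
    rw [sq_abs, sq_abs] at habs
    have hpos : 0 < x i ^ 2 := by positivity
    have hs2 : s * (2 * x i + s) ≤ 0 := by nlinarith
    set l : ℝ := -s / (2 * x i) with hl
    have hl1 : s = -2 * l * x i := by rw [hl]; field_simp
    have hl2 : l * (1 - l) * (x i ^ 2) ≥ 0 := by
      rw [hl1] at hs2; nlinarith
    have hl3 : 0 ≤ l * (1 - l) := by
      by_contra hcon; push Not at hcon; nlinarith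
    have hl0 : 0 ≤ l := by
      by_contra hcon; push Not at hcon; nlinarith
    have hl4 : l ≤ 1 := by
      by_contra hcon; push Not at hcon; nlinarith
    have := hc hx hr (sub_nonneg.2 hl4) hl0 (by ring)
    convert this using 1
    rw [smul_add, smul_smul, ← add_assoc, ← add_smul, hl1]
    congr 1
    · rw [sub_add_cancel, one_smul]
    · ring_nf

lemma meas_coord (i : Fin n) : Measurable fun x : E n => x i := by fun_prop

lemma meas_gt {K : Set (E n)} (hK : IsCompact K) (i : Fin n) (t : ℝ) :
    MeasurableSet {x | x ∈ K ∧ t < x i} :=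
  hK.measurableSet.inter (measurableSet_lt measurable_const (meas_coord i))

lemma meas_lt {K : Set (E n)} (hK : IsCompact K) (i : Fin n) (t : ℝ) :
    MeasurableSet {x | x ∈ K ∧ x i < t} :=
  hK.measurableSet.inter (measurableSet_lt (meas_coord i) measurable_const)

lemma meas_abs {K : Set (E n)} (hK : IsCompact K) (i : Fin n) (t : ℝ) :
    MeasurableSet {x | x ∈ K ∧ |x i| ≤ t} :=
  hK.measurableSet.inter (measurableSet_le (meas_coord i).abs measurable_const)

lemma fin_of {K : Set (E n)} (hK : IsCompact K) {A : Set (E n)} (h : A ⊆ K) : volume A ≠ ∞ :=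
  ne_top_of_le_ne_top hK.measure_lt_top.ne (measure_mono h)

/-- Decomposition by the absolute value of the coordinate. -/
lemma decomp {K : Set (E n)} (hK : IsCompact K) (i : Fin n) {t : ℝ} (ht : 0 ≤ t) :
    volume.real K = volume.real {x | x ∈ K ∧ |x i| ≤ t} +
      (volume.real {x | x ∈ K ∧ t < x i} + volume.real {x | x ∈ K ∧ x i < -t}) := by
  have h1 : K = {x | x ∈ K ∧ |x i| ≤ t} ∪ ({x | x ∈ K ∧ t < x i} ∪ {x | x ∈ K ∧ x i < -t}) := by
    ext x; simp only [mem_union, mem_ofPred_eq]
    constructor
    · intro hx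
      rcases le_or_gt (|x i|) t with h | h
      · exact Or.inl ⟨hx, h⟩
      · rcases lt_abs.1 h with h | h
        · exact Or.inr (Or.inl ⟨hx, h⟩)
        · exact Or.inr (Or.inr ⟨hx, by linarith⟩)
    · rintro (h | h | h) <;> exact h.1
  have d1 : Disjoint {x | x ∈ K ∧ t < x i} {x | x ∈ K ∧ x i < -t} := by
    rw [Set.disjoint_left]; rintro x ⟨_, h⟩ ⟨_, h'⟩; linarith
  have d2 : Disjoint {x | x ∈ K ∧ |x i| ≤ t}
      ({x | x ∈ K ∧ t < x i} ∪ {x | x ∈ K ∧ x i < -t}) := by
    rw [Set.disjoint_left]; rintro x ⟨_, h⟩ (⟨_, h'⟩ | ⟨_, h'⟩)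
    · have := (abs_le.1 h).2; linarith
    · have := (abs_le.1 h).1; linarith
  conv_lhs => rw [h1]
  rw [measureReal_union d2 ((meas_gt hK i t).union (meas_lt hK i (-t)))
    (fin_of hK fun x hx => hx.1)
    (fin_of hK (by rintro x (h | h) <;> exact h.1)),
    measureReal_union d1 (meas_lt hK i (-t)) (fin_of hK fun x hx => hx.1)
    (fin_of hK fun x hx => hx.1)]

lemma loss_pos {K : Set (E n)} (hc : Convex ℝ K) (hK : IsCompact K) (hu : Unc K)
    (i : Fin n) {s : ℝ} (hs : 0 ≤ s) :
    loss K (s • EuclideanSpace.single i (1 : ℝ)) ≤ volume.real {x | x ∈ K ∧ |x i| ≤ s / 2} := by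
  set e : E n := EuclideanSpace.single i (1 : ℝ) with he
  have hPm : MeasurableSet {x | x ∈ K ∧ x + s • e ∈ K} :=
    hK.measurableSet.inter (hK.measurableSet.preimage (measurable_add_const (s • e)))
  have hQm : MeasurableSet {x | x ∈ K ∧ x + s • e ∉ K} :=
    hK.measurableSet.inter (hK.measurableSet.preimage (measurable_add_const (s • e))).compl
  have h1 : volume.real K = volume.real {x | x ∈ K ∧ x + s • e ∈ K} + loss K (s • e) := by
    have hd : Disjoint {x | x ∈ K ∧ x + s • e ∈ K} {x | x ∈ K ∧ x + s • e ∉ K} := by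
      rw [Set.disjoint_left]; rintro x ⟨_, h⟩ ⟨_, h'⟩; exact h' h
    have hu : K = {x | x ∈ K ∧ x + s • e ∈ K} ∪ {x | x ∈ K ∧ x + s • e ∉ K} := by
      ext x; simp only [mem_union, mem_ofPred_eq]; tauto
    unfold loss
    conv_lhs => rw [hu]
    exact measureReal_union hd hQm (fin_of hK fun x hx => hx.1) (fin_of hK fun x hx => hx.1)
  have h2 := decomp hK i (t := s / 2) (by positivity)
  have h3 : volume.real {x | x ∈ K ∧ s / 2 < x i} + volume.real {x | x ∈ K ∧ x i < -(s / 2)} ≤
      volume.real {x | x ∈ K ∧ x + s • e ∈ K} := by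
    have ht : volume.real {x | x ∈ K ∧ s / 2 < x i} =
        volume.real ((fun x => x + s • e) ⁻¹' {x | x ∈ K ∧ s / 2 < x i}) := by
      unfold Measure.real; rw [measure_preimage_add_right]
    have hB : (fun x => x + s • e) ⁻¹' {x | x ∈ K ∧ s / 2 < x i} ⊆
        {x | x ∈ K ∧ x + s • e ∈ K} := by
      rintro x ⟨hx, hxi⟩
      refine ⟨?_, hx⟩
      have hxi' : s / 2 < (x + s • e) i := hxi
      have := mem_of_coord hc hu hx i (-s) (by
        rw [abs_of_pos (a := (x + s • e) i) (by linarith), abs_le]
        constructor <;> linarith)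
      rw [neg_smul, add_neg_cancel_right] at this
      exact this
    have hA : {x | x ∈ K ∧ x i < -(s / 2)} ⊆ {x | x ∈ K ∧ x + s • e ∈ K} := by
      rintro x ⟨hx, hxi⟩
      refine ⟨hx, mem_of_coord hc hu hx i s ?_⟩
      rw [abs_of_neg (a := x i) (by linarith), abs_le]
      constructor <;> linarith
    have hd : Disjoint ((fun x => x + s • e) ⁻¹' {x | x ∈ K ∧ s / 2 < x i})
        {x | x ∈ K ∧ x i < -(s / 2)} := by
      rw [Set.disjoint_left]; rintro x ⟨_, h⟩ ⟨_, h'⟩
      have h2 : s / 2 < (x + s • e) i := h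
      rw [he, coord] at h2
      simp only [if_true] at h2
      linarith
    rw [ht, ← measureReal_union hd (meas_lt hK i _)
      (fin_of hK fun x hx => (hB hx).1) (fin_of hK fun x hx => hx.1)]
    exact measureReal_mono (union_subset hB hA) (fin_of hK fun x hx => hx.1)
  linarith

lemma loss_le (hL : T_LOSS) {K : Set (E n)} (hc : Convex ℝ K) (hK : IsCompact K) (hu : Unc K)
    (i : Fin n) (s : ℝ) :
    loss K (s • EuclideanSpace.single i (1 : ℝ)) ≤ volume.real {x | x ∈ K ∧ |x i| ≤ |s| / 2} := by
  rcases le_total 0 s with h | h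
  · rw [abs_of_nonneg h]; exact loss_pos hc hK hu i h
  · rw [abs_of_nonpos h]
    have := loss_pos hc hK hu i (s := -s) (by linarith)
    rwa [neg_smul, (hL n K hc hK).2.1] at this

/-- The reflection in a coordinate hyperplane. -/
noncomputable def refl (i : Fin n) : E n ≃ₗᵢ[ℝ] E n :=
  LinearIsometryEquiv.piLpCongrRight 2
    (fun j => if j = i then LinearIsometryEquiv.neg ℝ else LinearIsometryEquiv.refl ℝ ℝ)

lemma refl_self (i : Fin n) (x : E n) : refl i x i = -(x i) := by
  simp [refl]

lemma refl_ne (i j : Fin n) (h : j ≠ i) (x : E n) : refl i x j = x j := by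
  simp [refl, h]

lemma refl_mem {K : Set (E n)} (hu : Unc K) (i : Fin n) (x : E n) : refl i x ∈ K ↔ x ∈ K := by
  constructor
  · intro h
    refine hu _ h x fun j => ?_
    by_cases hj : j = i
    · subst hj; rw [refl_self, abs_neg]
    · rw [refl_ne i j hj]
  · intro h
    refine hu _ h _ fun j => ?_
    by_cases hj : j = i
    · subst hj; rw [refl_self, abs_neg]
    · rw [refl_ne i j hj]

lemma neg_side {K : Set (E n)} (hK : IsCompact K) (hu : Unc K) (i : Fin n) (t : ℝ) :
    volume.real {x | x ∈ K ∧ x i < -t} = volume.real {x | x ∈ K ∧ t < x i} := by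
  have h := (LinearIsometryEquiv.measurePreserving (refl i)).measure_preimage
    (meas_gt hK i t).nullMeasurableSet
  unfold Measure.real
  rw [← h]
  congr 2
  ext x
  simp only [mem_ofPred_eq, mem_preimage, refl_mem hu, refl_self]
  constructor
  · rintro ⟨h1, h2⟩; exact ⟨h1, by linarith⟩
  · rintro ⟨h1, h2⟩; exact ⟨h1, by linarith⟩

lemma plane_null (i : Fin n) : volume {x : E n | x i = 0} = 0 := by
  have h := Measure.addHaar_submodule (volume : Measure (E n))
    (LinearMap.ker (EuclideanSpace.proj i : E n →L[ℝ] ℝ).toLinearMap) (by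
      intro h
      have : EuclideanSpace.single i (1 : ℝ) ∈
          (LinearMap.ker (EuclideanSpace.proj i : E n →L[ℝ] ℝ).toLinearMap) := by
        rw [h]; trivial
      simp at this)
  convert h using 2
  ext x
  simp

/-- Half volume. -/
lemma half {K : Set (E n)} (hK : IsCompact K) (hu : Unc K) (i : Fin n) :
    volume.real K = 2 * volume.real {x | x ∈ K ∧ 0 < x i} := by
  have h1 := decomp hK i (le_refl (0 : ℝ))
  have h2 := neg_side hK hu i 0
  have h3 : volume.real {x | x ∈ K ∧ |x i| ≤ 0} = 0 := by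
    unfold Measure.real
    rw [measure_mono_null (t := {x : E n | x i = 0}) ?_ (plane_null i), ENNReal.toReal_zero]
    rintro x ⟨_, h⟩
    exact abs_eq_zero.1 (le_antisymm h (abs_nonneg _))
  rw [h1, h2, h3]; ring

/-- Brunn-Minkowski for half space sections. -/
lemma mid {K : Set (E n)} (hc : Convex ℝ K) (hK : IsCompact K) (i : Fin n) (a b : ℝ) :
    volume.real {x | x ∈ K ∧ a < x i} * volume.real {x | x ∈ K ∧ b < x i} ≤
      volume.real {x | x ∈ K ∧ (a + b) / 2 < x i} ^ 2 := by
  have h := Pool.Agent.ShadowA.p_PLB n _ _ _ (meas_gt hK i a) (meas_gt hK i b)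
    (meas_gt hK i ((a + b) / 2)) (by
      rintro x ⟨hx, hxa⟩ y ⟨hy, hyb⟩
      refine ⟨?_, ?_⟩
      · rw [smul_add]
        exact hc hx hy (by norm_num) (by norm_num) (by norm_num)
      · have : ((1 / 2 : ℝ) • (x + y)) i = 1 / 2 * (x i + y i) := by simp; ring
        rw [this]; linarith)
  have h2 := ENNReal.toReal_mono (by
    exact ENNReal.pow_ne_top (fin_of hK fun x hx => hx.1)) h
  rwa [ENNReal.toReal_mul, ENNReal.toReal_pow] at h2

lemma geo (u : ℕ → ℝ) (h0 : 0 < u 0) (hn : ∀ j, 0 ≤ u j) (hmono : ∀ j, u (j + 1) ≤ u j)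
    (hlc : ∀ j, u j * u (j + 2) ≤ u (j + 1) ^ 2) (j : ℕ) : u j ≤ u 0 * (u 1 / u 0) ^ j := by
  have key : ∀ j, u (j + 1) * u 0 ≤ u 1 * u j := by
    intro j
    induction j with
    | zero => simp [mul_comm]
    | succ j ih =>
      rcases (hn (j + 1)).eq_or_lt with h | h
      · have : u (j + 2) ≤ 0 := by rw [h]; exact hmono (j + 1)
        have h2 : u (j + 2) = 0 := le_antisymm this (hn _)
        rw [show j + 1 + 1 = j + 2 from rfl, h2, zero_mul]
        exact mul_nonneg (hn _) (hn _)
      · have hj : 0 < u j := lt_of_lt_of_le h (hmono j)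
        have h3 := hlc j
        have h4 : (u (j + 2) * u 0) * u j ≤ (u 1 * u (j + 1)) * u j := by
          calc (u (j + 2) * u 0) * u j = (u j * u (j + 2)) * u 0 := by ring
            _ ≤ u (j + 1) ^ 2 * u 0 := by gcongr
            _ = u (j + 1) * (u (j + 1) * u 0) := by ring
            _ ≤ u (j + 1) * (u 1 * u j) := by gcongr
            _ = _ := by ring
        exact le_of_mul_le_mul_right h4 hj
  induction j with
  | zero => simp
  | succ j ih =>
    have h1 : u (j + 1) ≤ (u 1 / u 0) * u j := by
      rw [div_mul_eq_mul_div, le_div_iff₀ h0]; exact key j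
    calc u (j + 1) ≤ (u 1 / u 0) * u j := h1
      _ ≤ (u 1 / u 0) * (u 0 * (u 1 / u 0) ^ j) := by
          have : 0 ≤ u 1 / u 0 := div_nonneg (hn 1) h0.le
          gcongr
      _ = _ := by ring

/-- A bound for the coordinate by a sum of indicators. -/
lemma ind_bound {r : ℝ} (hr : 0 < r) (M : ℕ) {a : ℝ} (haM : a ≤ M * r) :
    a ≤ r * ∑ j ∈ Finset.range M, (if (j : ℝ) * r < a then (1 : ℝ) else 0) := by
  set m := ⌈a / r⌉₊ with hm
  have hmM : m ≤ M := by
    rw [hm, Nat.ceil_le, div_le_iff₀ hr]; exact haM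
  have h1 : (m : ℝ) ≤ ∑ j ∈ Finset.range M, (if (j : ℝ) * r < a then (1 : ℝ) else 0) := by
    calc (m : ℝ) = ∑ j ∈ Finset.range m, (1 : ℝ) := by simp
      _ ≤ ∑ j ∈ Finset.range m, (if (j : ℝ) * r < a then (1 : ℝ) else 0) := by
          refine Finset.sum_le_sum fun j hj => ?_
          rw [Finset.mem_range, hm, Nat.lt_ceil, lt_div_iff₀ hr] at hj
          rw [if_pos hj]
      _ ≤ _ := by
          refine Finset.sum_le_sum_of_subset_of_nonneg (Finset.range_mono hmM) fun j _ _ => ?_
          split_ifs <;> norm_num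
  have h2 : a / r ≤ m := Nat.le_ceil _
  calc a = r * (a / r) := by field_simp
    _ ≤ r * m := by gcongr
    _ ≤ _ := by gcongr

lemma abs_int {K : Set (E n)} (hK : IsCompact K) (i : Fin n) :
    IntegrableOn (fun y : E n => |y i|) K volume := by
  apply ContinuousOn.integrableOn_compact hK
  fun_prop

/-- The main estimate. -/
lemma main {K : Set (E n)} (hc : Convex ℝ K) (hK : IsCompact K) (hu : Unc K) (i : Fin n)
    (hV : 0 < volume.real K) {r : ℝ} (hr : 0 < r) :
    volume.real {x | x ∈ K ∧ |x i| ≤ r} * (∫ y in K, |y i|) ≤ r * volume.real K ^ 2 := by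
  set u : ℕ → ℝ := fun j => volume.real {x | x ∈ K ∧ (j : ℝ) * r < x i} with hudef
  have hhalf := half hK hu i
  have hu0 : volume.real K = 2 * u 0 := by simpa [hudef] using hhalf
  have h0 : 0 < u 0 := by linarith
  have hn : ∀ j, 0 ≤ u j := fun j => measureReal_nonneg
  have hmono : ∀ j, u (j + 1) ≤ u j := by
    intro j
    refine measureReal_mono ?_ (fin_of hK fun x hx => hx.1)
    rintro x ⟨hx, h⟩
    refine ⟨hx, lt_of_le_of_lt ?_ h⟩
    push_cast; nlinarith
  have hlc : ∀ j, u j * u (j + 2) ≤ u (j + 1) ^ 2 := by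
    intro j
    have := mid hc hK i ((j : ℝ) * r) (((j + 2 : ℕ) : ℝ) * r)
    rw [show ((j : ℝ) * r + ((j + 2 : ℕ) : ℝ) * r) / 2 = ((j + 1 : ℕ) : ℝ) * r by
      push_cast; ring] at this
    exact this
  have hgeo := geo u h0 hn hmono hlc
  set q := u 1 / u 0 with hq
  have hq0 : 0 ≤ q := div_nonneg (hn 1) h0.le
  have hq1 : q ≤ 1 := by rw [hq, div_le_one h0]; exact hmono 0
  -- the volume of the slab
  have hslab : volume.real {x | x ∈ K ∧ |x i| ≤ r} = volume.real K * (1 - q) := by
    have h1 := decomp hK i hr.le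
    have h2 := neg_side hK hu i r
    have h3 : u 1 = volume.real {x | x ∈ K ∧ r < x i} := by simp [hudef]
    have h4 : u 1 = q * u 0 := by rw [hq]; field_simp
    rw [h2, ← h3] at h1
    linear_combination -h1 - 2 * h4 + q * hu0
  -- the bound for the integral
  obtain ⟨D, hD⟩ := hK.isBounded.exists_norm_le
  obtain ⟨M, hM⟩ := exists_nat_ge (D / r)
  have hint : ∫ y in K, |y i| ≤ r * ∑ j ∈ Finset.range M, (2 * u j) := by
    have hI : ∀ j : ℕ, MeasurableSet {x : E n | (j : ℝ) * r < |x i|} := fun j =>
      measurableSet_lt measurable_const (meas_coord i).abs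
    have hIint : ∀ j : ℕ, IntegrableOn
        (fun y : E n => if (j : ℝ) * r < |y i| then (1 : ℝ) else 0) K volume := by
      intro j
      have : (fun y : E n => if (j : ℝ) * r < |y i| then (1 : ℝ) else 0) =
          {x : E n | (j : ℝ) * r < |x i|}.indicator (fun _ => (1 : ℝ)) := by
        ext y; simp [Set.indicator_apply]
      rw [this]
      have : IsFiniteMeasure (volume.restrict K) := ⟨by
        rw [Measure.restrict_apply_univ]; exact hK.measure_lt_top⟩
      exact (integrable_const (1 : ℝ)).indicator (hI j)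
    have hval : ∀ j : ℕ, ∫ y in K, (if (j : ℝ) * r < |y i| then (1 : ℝ) else 0) = 2 * u j := by
      intro j
      have : (fun y : E n => if (j : ℝ) * r < |y i| then (1 : ℝ) else 0) =
          {x : E n | (j : ℝ) * r < |x i|}.indicator (fun _ => (1 : ℝ)) := by
        ext y; simp [Set.indicator_apply]
      rw [this, integral_indicator (hI j), Measure.restrict_restrict (hI j), setIntegral_const,
        smul_eq_mul, mul_one]
      have hjr : (0 : ℝ) ≤ (j : ℝ) * r := by positivity
      have h1 := decomp hK i hjr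
      have h2 := neg_side hK hu i ((j : ℝ) * r)
      have h5 : volume.real ({x : E n | (j : ℝ) * r < |x i|} ∩ K) =
          volume.real {x | x ∈ K ∧ (j : ℝ) * r < x i} +
            volume.real {x | x ∈ K ∧ x i < -((j : ℝ) * r)} := by
        rw [← measureReal_union (by
          rw [Set.disjoint_left]; rintro x ⟨_, h⟩ ⟨_, h'⟩; linarith) (meas_lt hK i _)
          (fin_of hK fun x hx => hx.1) (fin_of hK fun x hx => hx.1)]
        congr 1
        ext x
        simp only [mem_inter_iff, mem_ofPred_eq, mem_union, lt_abs]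
        constructor
        · rintro ⟨h | h, hx⟩
          · exact Or.inl ⟨hx, h⟩
          · exact Or.inr ⟨hx, by linarith⟩
        · rintro (⟨hx, h⟩ | ⟨hx, h⟩)
          · exact ⟨Or.inl h, hx⟩
          · exact ⟨Or.inr (by linarith), hx⟩
      rw [h5, h2]
      simp only [hudef]; ring
    calc ∫ y in K, |y i| ≤ ∫ y in K, r * ∑ j ∈ Finset.range M,
          (if (j : ℝ) * r < |y i| then (1 : ℝ) else 0) := by
          refine setIntegral_mono_on (abs_int hK i) ?_ hK.measurableSet fun y hy => ?_
          · exact (integrable_finsetSum _ fun j _ => hIint j).const_mul r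
          · refine ind_bound hr M ?_
            have h1 : |y i| ≤ ‖y‖ := by
              simpa using PiLp.norm_apply_le (p := 2) y i
            have h2 : D ≤ M * r := by rwa [div_le_iff₀ hr] at hM
            exact h1.trans ((hD y hy).trans h2)
      _ = r * ∑ j ∈ Finset.range M, (2 * u j) := by
          rw [integral_const_mul, integral_finsetSum _ fun j _ => hIint j]
          simp_rw [hval]
  have hsum : (1 - q) * ∑ j ∈ Finset.range M, (2 * u j) ≤ volume.real K := by
    have h1 : ∑ j ∈ Finset.range M, (2 * u j) ≤ 2 * u 0 * ∑ j ∈ Finset.range M, q ^ j := by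
      rw [Finset.mul_sum]
      refine Finset.sum_le_sum fun j _ => ?_
      have := hgeo j
      nlinarith
    have h2 : (∑ j ∈ Finset.range M, q ^ j) * (1 - q) = 1 - q ^ M := geom_sum_mul_neg q M
    have h3 : 0 ≤ 1 - q := by linarith
    have h4 : 0 ≤ q ^ M := pow_nonneg hq0 M
    calc (1 - q) * ∑ j ∈ Finset.range M, (2 * u j)
        ≤ (1 - q) * (2 * u 0 * ∑ j ∈ Finset.range M, q ^ j) := by gcongr
      _ = 2 * u 0 * ((∑ j ∈ Finset.range M, q ^ j) * (1 - q)) := by ring
      _ = 2 * u 0 * (1 - q ^ M) := by rw [h2]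
      _ ≤ 2 * u 0 * 1 := by gcongr; linarith
      _ = volume.real K := by rw [hu0]; ring
  have h3 : 0 ≤ 1 - q := by linarith
  rw [hslab]
  calc volume.real K * (1 - q) * (∫ y in K, |y i|)
      ≤ volume.real K * (1 - q) * (r * ∑ j ∈ Finset.range M, (2 * u j)) := by gcongr
    _ = volume.real K * r * ((1 - q) * ∑ j ∈ Finset.range M, (2 * u j)) := by ring
    _ ≤ volume.real K * r * volume.real K := by gcongr
    _ = r * volume.real K ^ 2 := by ring

end HSP_

open HSP_ in
theorem p_HSP (hL : T_LOSS) (_hB : Pool.Agent.Rog.T_BMI) : T_HSP := by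
  intro n K i c hc hK hint hu hc0
  have hV : 0 < volume.real K := by
    have h1 : 0 < volume K := lt_of_lt_of_le (isOpen_interior.measure_pos volume hint)
      (measure_mono interior_subset)
    exact ENNReal.toReal_pos h1.ne' hK.measure_lt_top.ne
  have : IsFiniteMeasure (volume.restrict K) := ⟨by
    rw [Measure.restrict_apply_univ]; exact hK.measure_lt_top⟩
  obtain ⟨hb, hev, _, _, hm, _⟩ := hL n K hc hK
  set I := ∫ y in K, |y i| with hI
  have hI0 : 0 < I := by
    have hnn : 0 ≤ I := setIntegral_nonneg hK.measurableSet fun y _ => abs_nonneg _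
    rcases hnn.eq_or_lt with h | h
    · exfalso
      have h2 := (setIntegral_eq_zero_iff_of_nonneg_ae (μ := volume) (s := K)
        (f := fun y : E n => |y i|) (Eventually.of_forall fun y => abs_nonneg _)
        (abs_int hK i)).1 h.symm
      have h3 : volume K = 0 := by
        have h4 : volume.restrict K {y : E n | ¬ (|y i| = 0)} = 0 := h2
        have h5 : volume.restrict K {y : E n | y i = 0} = 0 :=
          le_antisymm ((Measure.restrict_apply_le _ _).trans (plane_null i).le) bot_le
        have h6 : volume.restrict K (Set.univ) = 0 := by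
          refine measure_mono_null (t := {y : E n | ¬ (|y i| = 0)} ∪ {y : E n | y i = 0}) ?_
            (measure_union_null h4 h5)
          intro y _
          by_cases hy : y i = 0
          · exact Or.inr hy
          · exact Or.inl (by simpa using hy)
        rwa [Measure.restrict_apply_univ] at h6
      have : volume.real K = 0 := by unfold Measure.real; rw [h3]; rfl
      linarith
    · exact h
  have hmeas : Measurable fun y : E n => loss K ((c * y i) • EuclideanSpace.single i (1 : ℝ)) := by
    apply hm.comp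
    have := meas_coord i
    fun_prop
  have hli : IntegrableOn (fun y : E n => loss K ((c * y i) • EuclideanSpace.single i (1 : ℝ))) K
      volume := by
    refine Integrable.mono' (integrable_const (volume.real K)) hmeas.aestronglyMeasurable ?_
    refine Eventually.of_forall fun y => ?_
    rw [Real.norm_eq_abs, abs_of_nonneg (hb _).1]
    exact (hb _).2
  have hpt : ∀ y ∈ K, I * loss K ((c * y i) • EuclideanSpace.single i (1 : ℝ)) ≤
      c / 2 * volume.real K ^ 2 * |y i| := by
    intro y _
    have h1 := loss_le hL hc hK hu i (c * y i)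
    rcases (abs_nonneg (c * y i)).eq_or_lt with h0 | h0
    · -- zero
      have hz : c * y i = 0 := abs_eq_zero.1 h0.symm
      have h2 : volume.real {x | x ∈ K ∧ |x i| ≤ |c * y i| / 2} = 0 := by
        rw [hz, abs_zero, zero_div]
        unfold Measure.real
        rw [measure_mono_null (t := {x : E n | x i = 0}) ?_ (plane_null i), ENNReal.toReal_zero]
        rintro x ⟨_, h⟩
        exact abs_eq_zero.1 (le_antisymm h (abs_nonneg _))
      have h3 : loss K ((c * y i) • EuclideanSpace.single i (1 : ℝ)) = 0 :=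
        le_antisymm (h1.trans h2.le) (hb _).1
      rw [h3, mul_zero]; positivity
    · have h2 := main hc hK hu i hV (r := |c * y i| / 2) (by positivity)
      calc I * loss K ((c * y i) • EuclideanSpace.single i (1 : ℝ))
          ≤ I * volume.real {x | x ∈ K ∧ |x i| ≤ |c * y i| / 2} := by gcongr
        _ = volume.real {x | x ∈ K ∧ |x i| ≤ |c * y i| / 2} * I := by ring
        _ ≤ |c * y i| / 2 * volume.real K ^ 2 := h2
        _ = c / 2 * volume.real K ^ 2 * |y i| := by rw [abs_mul, abs_of_nonneg hc0]; ring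
  have hfin : I * ∫ y in K, loss K ((c * y i) • EuclideanSpace.single i (1 : ℝ)) ≤
      c / 2 * volume.real K ^ 2 * I := by
    rw [← integral_const_mul, hI, ← integral_const_mul]
    exact setIntegral_mono_on (hli.const_mul _) ((abs_int hK i).const_mul _) hK.measurableSet hpt
  have h2 : ∫ y in K, loss K ((c * y i) • EuclideanSpace.single i (1 : ℝ)) ≤
      c / 2 * volume.real K ^ 2 := by
    have : (∫ y in K, loss K ((c * y i) • EuclideanSpace.single i (1 : ℝ))) * I ≤
        c / 2 * volume.real K ^ 2 * I := by linarith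
    exact le_of_mul_le_mul_right this hI0
  have h3 : 0 ≤ c * volume.real K ^ 2 := by positivity
  linarith

end Pool.Agent.Ovl
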