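import Pool.Agent.Ovl.Targets8
import Pool.Agent.Ovl.HSP

/-!
# The vector of the mean absolute values of the coordinates is in an unconditional body (T_MU)
-/

set_option autoImplicit false

open MeasureTheory Set Filter
open scoped Pointwise Topology ENNReal

namespace Pool.Agent.Ovl

open Pool.Agent.Rog (E SymBody)

namespace MU_

open HSP_

variable {n : ℕ}

/-- Unconditional convex sets are solid. -/
lemma solid {K : Set (E n)} (hc : Convex ℝ K) (hu : Unc K) {m y : E n} (hm : m ∈ K)
    (h : ∀ i, |y i| ≤ |m i|) : y ∈ K := by
  have key : ∀ S : Finset (Fin n), ∃ z ∈ K, (∀ i ∈ S, z i = y i) ∧ ∀ i, i ∉ S → z i = m i := by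
    intro S
    induction S using Finset.induction_on with
    | empty => exact ⟨m, hm, by simp, by simp⟩
    | insert a S ha ih =>
      obtain ⟨z, hz, h1, h2⟩ := ih
      refine ⟨z + (y a - m a) • EuclideanSpace.single a (1 : ℝ), ?_, ?_, ?_⟩
      · refine mem_of_coord hc hu hz a _ ?_
        rw [h2 a ha, add_sub_cancel]
        exact h a
      · intro i hi
        rw [coord]
        rcases Finset.mem_insert.1 hi with rfl | hi
        · rw [h2 i ha]
          simp
        · have : i ≠ a := fun e => ha (e ▸ hi)
          rw [if_neg this, add_zero, h1 i hi]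
      · intro i hi
        rw [Finset.mem_insert, not_or] at hi
        rw [coord, if_neg hi.1, add_zero, h2 i hi.2]
  obtain ⟨z, hz, h1, -⟩ := key Finset.univ
  have : z = y := by
    ext i
    exact h1 i (Finset.mem_univ _)
  rwa [← this]

/-- The vector of absolute values. -/
noncomputable def av (x : E n) : E n := WithLp.toLp 2 fun i => |x i|

lemma av_apply (x : E n) (i : Fin n) : av x i = |x i| := rfl

lemma av_cont : Continuous (av : E n → E n) := by
  unfold av
  fun_prop

end MU_

open MU_ HSP_ in
theorem p_MU : T_MU := by
  intro n K y hc hK hne hu hy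
  have hV : 0 < volume.real K := by
    unfold Measure.real
    refine ENNReal.toReal_pos ?_ hK.measure_lt_top.ne
    have h1 : 0 < volume (interior K) := isOpen_interior.measure_pos volume hne
    exact (h1.trans_le (measure_mono interior_subset)).ne'
  have hint : IntegrableOn (av : E n → E n) K volume :=
    (av_cont.continuousOn).integrableOn_compact hK
  have hmem : (⨍ x in K, av x) ∈ K := by
    refine hc.set_average_mem hK.isClosed ?_ hK.measure_lt_top.ne ?_ hint
    · intro h0
      unfold Measure.real at hV
      rw [h0] at hV
      simp at hV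
    · refine (ae_restrict_iff' hK.measurableSet).2 (ae_of_all _ fun x hx => ?_)
      exact hu x hx _ fun j => by rw [av_apply, abs_abs]
  refine solid hc hu hmem fun i => ?_
  have hco : (⨍ x in K, av x) i = (volume.real K)⁻¹ * ∫ x in K, |x i| := by
    rw [setAverage_eq]
    have h2 : (∫ x in K, av x) i = ∫ x in K, |x i| := by
      have := (EuclideanSpace.proj i : E n →L[ℝ] ℝ).integral_comp_comm hint
      exact this.symm
    rw [← h2]
    rfl
  rw [hco]
  refine le_trans ?_ (le_abs_self _)
  rw [inv_mul_eq_div, le_div_iff₀ hV]
  exact hy i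

end Pool.Agent.Ovl
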