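import Mathlib
import Pool.Agent.Ovl.Targets

/-!
# The average loss is bounded by the relative content of the boundary (job OVL-GRA)
-/

set_option autoImplicit false

open MeasureTheory Set Filter
open scoped Pointwise Topology

namespace Pool.Agent.Ovl

open Pool.Agent.Rog (E SymBody)

namespace GRA_

variable {n : ℕ}

/-- the loss in terms of the cut-off function -/
theorem two_loss {K K' : Set (E n)} {f : E n → ℝ} (hKc : IsCompact K)
    (hK'c : IsCompact K') (heven : ∀ v, loss K (-v) = loss K v)
    (hf : Continuous f) (hfs : HasCompactSupport f) (hf1 : ∀ x ∈ K, f x = 1)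
    (hf0 : ∀ x, x ∉ K' → f x = 0) (v : E n) :
    2 * loss K v ≤ (∫ x, |f (x + v) - f x|) + 2 * volume.real (K' \ K) := by
  have hKm := hKc.measurableSet
  have hK'm := hK'c.measurableSet
  have hSm : MeasurableSet (K' \ K) := hK'm.diff hKm
  have htr : Measurable (fun x : E n => x + v) := measurable_id.add_const v
  set A1 : Set (E n) := {x | x ∈ K ∧ x + v ∉ K} with hA1
  set A2 : Set (E n) := {x | x ∉ K ∧ x + v ∈ K} with hA2
  have hA1m : MeasurableSet A1 := hKm.inter (htr hKm.compl)
  have hA2m : MeasurableSet A2 := hKm.compl.inter (htr hKm)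
  have hfinK : volume K ≠ ⊤ := hKc.measure_lt_top.ne
  have hfinS : volume (K' \ K) ≠ ⊤ := measure_ne_top_of_subset sdiff_subset hK'c.measure_lt_top.ne
  have hfin1 : volume A1 ≠ ⊤ := measure_ne_top_of_subset (fun x hx => hx.1) hfinK
  have hpre : ∀ s : Set (E n), MeasurableSet s →
      volume.real ((fun x : E n => x + v) ⁻¹' s) = volume.real s := by
    intro s hs
    rw [Measure.real, Measure.real, (measurePreserving_add_right volume v).measure_preimage
      hs.nullMeasurableSet]
  have hpre' : ∀ s : Set (E n), MeasurableSet s →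
      volume ((fun x : E n => x + v) ⁻¹' s) = volume s := fun s hs =>
    (measurePreserving_add_right volume v).measure_preimage hs.nullMeasurableSet
  have hfin2 : volume A2 ≠ ⊤ := by
    refine measure_ne_top_of_subset (s := (fun x : E n => x + v) ⁻¹' K)
      (fun x (hx : x ∈ A2) => (show x + v ∈ K from hx.2)) ?_
    rw [hpre' K hKm]
    exact hfinK
  have hA2v : volume.real A2 = loss K v := by
    have h0 : MeasurableSet {x : E n | x ∈ K ∧ x + -v ∉ K} :=
      hKm.inter ((measurable_id.add_const (-v)) hKm.compl)
    rw [← heven v, loss, ← hpre _ h0]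
    congr 1
    ext x
    simp only [hA2, mem_ofPred_eq, mem_preimage]
    rw [show x + v + -v = x by abel]
    exact and_comm
  -- integrability
  have hfi : Integrable f := hf.integrable_of_hasCompactSupport hfs
  have hfvi : Integrable (fun x => f (x + v)) := hfi.comp_add_right v
  have hi1 : Integrable (fun x => |f (x + v) - f x|) := (hfvi.sub hfi).abs
  have hi2 : Integrable ((K' \ K).indicator (fun _ => (1 : ℝ))) :=
    (integrable_indicator_iff hSm).2 (integrableOn_const hfinS)
  have hi3 : Integrable (fun x => (K' \ K).indicator (fun _ => (1 : ℝ)) (x + v)) :=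
    hi2.comp_add_right v
  have hj1 : Integrable (A1.indicator (fun _ => (1 : ℝ))) :=
    (integrable_indicator_iff hA1m).2 (integrableOn_const hfin1)
  have hj2 : Integrable (A2.indicator (fun _ => (1 : ℝ))) :=
    (integrable_indicator_iff hA2m).2 (integrableOn_const hfin2)
  have hpt : ∀ x, A1.indicator (fun _ => (1 : ℝ)) x + A2.indicator (fun _ => (1 : ℝ)) x ≤
      |f (x + v) - f x| + ((K' \ K).indicator (fun _ => (1 : ℝ)) (x + v) +
        (K' \ K).indicator (fun _ => (1 : ℝ)) x) := by
    intro x
    have h0 : ∀ s : Set (E n), ∀ y, 0 ≤ s.indicator (fun _ => (1 : ℝ)) y := fun s y =>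
      indicator_nonneg (fun _ _ => zero_le_one) y
    have habs := abs_nonneg (f (x + v) - f x)
    by_cases h1 : x ∈ A1
    · have h2 : x ∉ A2 := fun h => h.1 h1.1
      rw [indicator_of_mem h1, indicator_of_notMem h2]
      by_cases h3 : x + v ∈ K'
      · have h4 : x + v ∈ K' \ K := ⟨h3, h1.2⟩
        rw [indicator_of_mem h4]
        linarith [h0 (K' \ K) x]
      · rw [hf1 x h1.1, hf0 _ h3]
        norm_num
        linarith [h0 (K' \ K) x, h0 (K' \ K) (x + v)]
    · rw [indicator_of_notMem h1]
      by_cases h2 : x ∈ A2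
      · rw [indicator_of_mem h2]
        by_cases h3 : x ∈ K'
        · have h4 : x ∈ K' \ K := ⟨h3, h2.1⟩
          rw [indicator_of_mem h4]
          linarith [h0 (K' \ K) (x + v)]
        · rw [hf1 _ h2.2, hf0 _ h3]
          norm_num
          linarith [h0 (K' \ K) x, h0 (K' \ K) (x + v)]
      · rw [indicator_of_notMem h2]
        linarith [h0 (K' \ K) x, h0 (K' \ K) (x + v)]
  have hi23 : Integrable (fun x => (K' \ K).indicator (fun _ => (1 : ℝ)) (x + v) +
      (K' \ K).indicator (fun _ => (1 : ℝ)) x) := hi3.add hi2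
  have hint := integral_mono (hj1.add hj2) (hi1.add hi23) hpt
  simp only [Pi.add_apply] at hint
  rw [integral_add hj1 hj2, integral_add hi1 hi23] at hint
  rw [integral_add hi3 hi2, integral_add_right_eq_self
    (fun x => (K' \ K).indicator (fun _ => (1 : ℝ)) x) v] at hint
  rw [integral_indicator hA1m, integral_indicator hA2m, integral_indicator hSm,
    setIntegral_const, setIntegral_const, setIntegral_const, smul_eq_mul, smul_eq_mul,
    smul_eq_mul, mul_one, mul_one, mul_one, hA2v] at hint
  have h5 : volume.real A1 = loss K v := rfl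
  rw [h5] at hint
  linarith

end GRA_

theorem p_GRA (hL : T_LOSS) (hI : T_LIP) (hD : T_DST) : T_GRA := by
  intro n K W T s ε hKv hKc hKi hWv hWc hW0 hs hε hθ
  obtain ⟨hl1, hl2, -, -, hl5, -, -⟩ := hL n K hKv hKc
  obtain ⟨f, C, hfL, hfs, hf01, hf1, hf0, hfd, hfa⟩ := hD n K W ε hKv hKc hKi hWv hWc hW0 hε
  have hK'c : IsCompact (K + ε • W) := hKc.add (hWc.smul ε)
  have hsub : K ⊆ K + ε • W := by
    intro x hx
    refine ⟨x, hx, 0, ⟨0, interior_subset hW0, smul_zero _⟩, add_zero _⟩
  have hKm := hKc.measurableSet
  have hSm : MeasurableSet ((K + ε • W) \ K) := hK'c.measurableSet.diff hKm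
  have hfinK : volume K ≠ ⊤ := hKc.measure_lt_top.ne
  have hvol : volume.real ((K + ε • W) \ K) = volume.real (K + ε • W) - volume.real K :=
    measureReal_sdiff hsub hKm hK'c.measure_lt_top.ne
  rw [← hvol]
  set Sh : Set (E n) := (K + ε • W) \ K with hSh
  -- the function of two variables
  let g : E n × E n → ℝ := fun p => |fderiv ℝ f p.1 (s • T p.2)|
  have hgm : Measurable g := by
    have h1 : Measurable (fun p : E n × E n => fderiv ℝ f p.1) :=
      (measurable_fderiv ℝ f).comp measurable_fst
    have h2 : Measurable (fun p : E n × E n => s • T p.2) :=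
      ((T.continuous.comp continuous_snd).const_smul s).measurable
    have h3 : Measurable (fun q : (E n →L[ℝ] ℝ) × E n => q.1 q.2) :=
      (isBoundedBilinearMap_apply.continuous).measurable
    exact (h3.comp (h1.prodMk h2)).abs
  obtain ⟨R, hR⟩ : ∃ R : ℝ, ∀ y ∈ K, ‖s • T y‖ ≤ R := by
    have h1 : IsCompact ((fun y => s • T y) '' K) :=
      hKc.image (T.continuous.const_smul s)
    obtain ⟨R, hR⟩ := h1.isBounded.exists_norm_le
    exact ⟨R, fun y hy => hR _ ⟨y, hy, rfl⟩⟩
  have hdz : ∀ x, x ∉ tsupport f → fderiv ℝ f x = 0 := by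
    intro x hx
    have := support_fderiv_subset ℝ (f := f)
    by_contra h
    exact hx (this h)
  have hgi : Integrable g (volume.prod (volume.restrict K)) := by
    have hbd : ∀ p ∈ (tsupport f) ×ˢ K, ‖g p‖ ≤ C * R := by
      rintro ⟨x, y⟩ ⟨-, hy⟩
      simp only [g, Real.norm_eq_abs, abs_abs]
      have h1 := (fderiv ℝ f x).le_opNorm (s • T y)
      have h2 : ‖fderiv ℝ f x‖ ≤ C := norm_fderiv_le_of_lipschitz ℝ hfL
      rw [Real.norm_eq_abs] at h1
      exact h1.trans (mul_le_mul h2 (hR y hy) (norm_nonneg _) C.2)
    have hset : MeasurableSet ((tsupport f) ×ˢ K : Set (E n × E n)) :=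
      hfs.measurableSet.prod hKm
    have hfin : (volume.prod (volume.restrict K)) ((tsupport f) ×ˢ K) ≠ ⊤ := by
      rw [Measure.prod_prod, Measure.restrict_apply hKm, inter_self]
      exact ENNReal.mul_ne_top hfs.measure_lt_top.ne hfinK
    have h1 : IntegrableOn g ((tsupport f) ×ˢ K) (volume.prod (volume.restrict K)) :=
      Measure.integrableOn_of_bounded hfin hgm.aestronglyMeasurable
        ((ae_restrict_iff' hset).2 (Eventually.of_forall hbd))
    have h2 : (volume.prod (volume.restrict K)).restrict ((tsupport f) ×ˢ (univ : Set (E n))) =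
        (volume.prod (volume.restrict K)).restrict ((tsupport f) ×ˢ K) := by
      rw [← Measure.prod_restrict, ← Measure.prod_restrict, Measure.restrict_univ,
        Measure.restrict_restrict hKm, inter_self]
    have h3 : IntegrableOn g ((tsupport f) ×ˢ (univ : Set (E n)))
        (volume.prod (volume.restrict K)) := by
      rw [IntegrableOn, h2]
      exact h1
    refine h3.integrable_of_forall_notMem_eq_zero ?_
    rintro ⟨x, y⟩ hp
    have hx : x ∉ tsupport f := fun h => hp ⟨h, mem_univ _⟩
    simp only [g]
    rw [hdz x hx]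
    simp
  -- step 1 and 2
  have hstep : ∀ y, 2 * loss K (s • T y) ≤ (∫ x, g (x, y)) + 2 * volume.real Sh := by
    intro y
    have h1 := GRA_.two_loss hKc hK'c hl2 hfL.continuous hfs hf1 hf0 (s • T y)
    have h2 := hI n f C hfL hfs (s • T y)
    simp only [g]
    linarith
  have hli : IntegrableOn (fun y => 2 * loss K (s • T y)) K := by
    refine Measure.integrableOn_of_bounded (M := 2 * volume.real K) hfinK ?_ ?_
    · exact ((hl5.comp ((T.continuous.const_smul s).measurable)).const_mul 2).aestronglyMeasurable
    · refine Eventually.of_forall fun y => ?_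
      have h1 := hl1 (s • T y)
      rw [Real.norm_eq_abs, abs_of_nonneg (by linarith)]
      linarith
  have hgi' : Integrable (fun y => ∫ x, g (x, y)) (volume.restrict K) :=
    hgi.integral_prod_right
  have hint : ∫ y in K, 2 * loss K (s • T y) ≤
      ∫ y in K, ((∫ x, g (x, y)) + 2 * volume.real Sh) :=
    integral_mono hli (hgi'.add (integrableOn_const hfinK)) hstep
  rw [integral_const_mul, integral_add hgi' (integrableOn_const hfinK), setIntegral_const,
    smul_eq_mul] at hint
  -- Fubini
  have hfub : ∫ y in K, ∫ x, g (x, y) = ∫ x, ∫ y in K, g (x, y) := by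
    rw [← integral_prod_symm g hgi, ← integral_prod g hgi]
  have hin : ∀ x, ∫ y in K, g (x, y) ≤ s * (1 / ε * volume.real K) := by
    intro x
    let θ : E n := -((InnerProductSpace.toDual ℝ (E n)).symm (fderiv ℝ f x))
    have hθi : ∀ w, inner ℝ θ w = - (fderiv ℝ f x w) := by
      intro w
      simp only [θ, inner_neg_left, InnerProductSpace.toDual_symm_apply]
    have h1 := hθ θ (1 / ε) (fun w hw => by
      rw [hθi, le_div_iff₀ hε]
      exact hfd x w hw)
    have h2 : ∀ y, g (x, y) = s * |inner ℝ θ (T y)| := by
      intro y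
      simp only [g]
      rw [hθi, abs_neg, map_smul, smul_eq_mul, abs_mul, abs_of_nonneg hs]
    simp only [h2]
    rw [integral_const_mul]
    exact mul_le_mul_of_nonneg_left h1 hs
  have hae : ∀ᵐ x, ∫ y in K, g (x, y) ≤ Sh.indicator (fun _ => s * (1 / ε * volume.real K)) x := by
    filter_upwards [hfa] with x hx
    by_cases hxS : x ∈ Sh
    · rw [indicator_of_mem hxS]
      exact hin x
    · rw [indicator_of_notMem hxS]
      have h1 : ∀ y, g (x, y) = 0 := by
        intro y
        simp only [g]
        rw [hx hxS]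
        simp
      simp only [h1, integral_zero, le_refl]
  have hfinS : volume Sh ≠ ⊤ := measure_ne_top_of_subset sdiff_subset hK'c.measure_lt_top.ne
  have hfinal : ∫ x, ∫ y in K, g (x, y) ≤ volume.real Sh * (s * (1 / ε * volume.real K)) := by
    have h1 := integral_mono_ae hgi.integral_prod_left
      ((integrable_indicator_iff hSm).2 (integrableOn_const hfinS)) hae
    rw [integral_indicator hSm, setIntegral_const, smul_eq_mul] at h1
    exact h1
  rw [hfub] at hint
  have e1 : volume.real K * ((s / ε + 2) * volume.real Sh) =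
      volume.real Sh * (s * (1 / ε * volume.real K)) + volume.real K * (2 * volume.real Sh) := by
    field_simp
  rw [e1]
  linarith

end Pool.Agent.Ovl
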