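import Pool.Agent.Ovl.Targets

/-!
# The `L ^ 1` norm of a difference of a Lipschitz function (job OVL-LIP)
-/

set_option autoImplicit false

open MeasureTheory Set Filter
open scoped Pointwise Topology

namespace Pool.Agent.Ovl

open Pool.Agent.Rog (E SymBody)

namespace Lip

variable {n : ℕ}

theorem hcs_shift {f : E n → ℝ} (hf : HasCompactSupport f) (u : E n) :
    HasCompactSupport (fun x => f (x + u)) :=
  hf.comp_homeomorph (Homeomorph.addRight u)

theorem cont_diff {f : E n → ℝ} (hc : Continuous f) (u w : E n) :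
    Continuous (fun x => |f (x + u) - f (x + w)|) := by
  fun_prop

theorem int_diff {f : E n → ℝ} (hc : Continuous f) (hf : HasCompactSupport f) (u w : E n) :
    Integrable (fun x => |f (x + u) - f (x + w)|) := by
  have h1 : HasCompactSupport (fun x => f (x + u) - f (x + w)) :=
    HasCompactSupport.sub (hcs_shift hf u) (hcs_shift hf w)
  have h2 : Continuous (fun x => f (x + u) - f (x + w)) := by fun_prop
  exact (h2.integrable_of_hasCompactSupport h1).abs

theorem int_diff0 {f : E n → ℝ} (hc : Continuous f) (hf : HasCompactSupport f) (u : E n) :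
    Integrable (fun x => |f (x + u) - f x|) := by
  have := int_diff hc hf u 0
  simpa using this

theorem I_nat {f : E n → ℝ} (hc : Continuous f) (hf : HasCompactSupport f) (u : E n) (m : ℕ) :
    ∫ x, |f (x + (m : ℝ) • u) - f x| ≤ m * ∫ x, |f (x + u) - f x| := by
  induction m with
  | zero => simp
  | succ m ih =>
    have h1 : ∀ x : E n, |f (x + ((m + 1 : ℕ) : ℝ) • u) - f x| ≤
        |f (x + (m : ℝ) • u + u) - f (x + (m : ℝ) • u)| + |f (x + (m : ℝ) • u) - f x| := by
      intro x
      have e : x + ((m + 1 : ℕ) : ℝ) • u = x + (m : ℝ) • u + u := by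
        push_cast
        rw [add_smul, one_smul, add_assoc]
      rw [e]
      exact abs_sub_le _ _ _
    have i1 : Integrable (fun x : E n => |f (x + (m : ℝ) • u + u) - f (x + (m : ℝ) • u)|) := by
      have := int_diff hc hf ((m : ℝ) • u + u) ((m : ℝ) • u)
      simpa [add_assoc] using this
    have e1 : ∫ x : E n, |f (x + (m : ℝ) • u + u) - f (x + (m : ℝ) • u)| =
        ∫ x, |f (x + u) - f x| :=
      integral_add_right_eq_self (fun x => |f (x + u) - f x|) ((m : ℝ) • u)
    calc ∫ x, |f (x + ((m + 1 : ℕ) : ℝ) • u) - f x|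
        ≤ ∫ x, (|f (x + (m : ℝ) • u + u) - f (x + (m : ℝ) • u)| +
            |f (x + (m : ℝ) • u) - f x|) :=
          integral_mono (int_diff0 hc hf _) (i1.add (int_diff0 hc hf _)) h1
      _ = (∫ x, |f (x + (m : ℝ) • u + u) - f (x + (m : ℝ) • u)|) +
            (∫ x, |f (x + (m : ℝ) • u) - f x|) := integral_add i1 (int_diff0 hc hf _)
      _ ≤ (∫ x, |f (x + u) - f x|) + m * (∫ x, |f (x + u) - f x|) := by
          rw [e1]; gcongr
      _ = ((m + 1 : ℕ) : ℝ) * (∫ x, |f (x + u) - f x|) := by push_cast; ring

end Lip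

open Lip in
theorem p_LIP : T_LIP := by
  intro n f C hL hf v
  have hc : Continuous f := hL.continuous
  set c : ℕ → ℝ := fun m => (m : ℝ) + 1 with hcdef
  have cpos : ∀ m, 0 < c m := fun m => by positivity
  set g : ℕ → E n → ℝ := fun m x => |c m • (f (x + (c m)⁻¹ • v) - f x)| with hg
  have hle : ∀ m, ∫ x, |f (x + v) - f x| ≤ ∫ x, g m x := by
    intro m
    have h := I_nat hc hf ((c m)⁻¹ • v) (m + 1)
    have e : ((m + 1 : ℕ) : ℝ) • ((c m)⁻¹ • v) = v := by
      rw [smul_smul]
      have : ((m + 1 : ℕ) : ℝ) = c m := by simp [hcdef]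
      rw [this, mul_inv_cancel₀ (cpos m).ne', one_smul]
    rw [e] at h
    refine h.trans (le_of_eq ?_)
    rw [← integral_const_mul]
    refine integral_congr_ae (Eventually.of_forall fun x => ?_)
    simp only [hg, smul_eq_mul, abs_mul, abs_of_pos (cpos m)]
    simp [hcdef]
  -- the bound
  set B : Set (E n) := Metric.cthickening ‖v‖ (tsupport f) with hB
  have hBc : IsCompact B := IsCompact.cthickening hf
  have hbound : ∀ m, ∀ x : E n, ‖g m x‖ ≤ B.indicator (fun _ => (C : ℝ) * ‖v‖) x := by
    intro m x
    have hu : ‖(c m)⁻¹ • v‖ ≤ ‖v‖ := by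
      rw [norm_smul, norm_inv, Real.norm_of_nonneg (cpos m).le]
      have : (c m)⁻¹ ≤ 1 := inv_le_one_of_one_le₀ (by simp [hcdef])
      calc (c m)⁻¹ * ‖v‖ ≤ 1 * ‖v‖ := by gcongr
        _ = ‖v‖ := one_mul _
    by_cases hx : x ∈ B
    · rw [indicator_of_mem hx]
      have h1 : |f (x + (c m)⁻¹ • v) - f x| ≤ C * ‖(c m)⁻¹ • v‖ := by
        have := hL.dist_le_mul (x + (c m)⁻¹ • v) x
        rw [Real.dist_eq, dist_eq_norm] at this
        simpa using this
      simp only [hg, smul_eq_mul, abs_mul, abs_of_pos (cpos m), norm_mul, Real.norm_eq_abs,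
        abs_abs]
      calc c m * |f (x + (c m)⁻¹ • v) - f x| ≤ c m * (C * ‖(c m)⁻¹ • v‖) := by
            gcongr
        _ = C * ‖v‖ := by
            rw [norm_smul, norm_inv, Real.norm_of_nonneg (cpos m).le]
            have := (cpos m).ne'
            field_simp
    · rw [indicator_of_notMem hx]
      have h0 : f x = 0 := by
        by_contra h
        exact hx (Metric.self_subset_cthickening _ (subset_tsupport f h))
      have h1 : f (x + (c m)⁻¹ • v) = 0 := by
        by_contra h
        apply hx
        refine Metric.mem_cthickening_of_dist_le x (x + (c m)⁻¹ • v) ‖v‖ _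
          (subset_tsupport f h) ?_
        rw [dist_comm, dist_eq_norm]
        simpa using hu
      simp [hg, h0, h1]
  have hlim : Tendsto (fun m => ∫ x, g m x) atTop (𝓝 (∫ x, |fderiv ℝ f x v|)) := by
    refine tendsto_integral_of_dominated_convergence (B.indicator (fun _ => (C : ℝ) * ‖v‖))
      (fun m => ?_) ?_ (fun m => Eventually.of_forall (hbound m)) ?_
    · refine Continuous.aestronglyMeasurable ?_
      simp only [hg]
      fun_prop
    · exact (integrable_indicator_iff hBc.isClosed.measurableSet).2
        (integrableOn_const hBc.measure_lt_top.ne)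
    · filter_upwards [hL.ae_differentiableAt (μ := volume)] with x hx
      have ht : Tendsto (fun m => ‖c m‖) atTop atTop := by
        have : (fun m => ‖c m‖) = fun m : ℕ => (m : ℝ) + 1 := by
          funext m
          rw [Real.norm_of_nonneg (cpos m).le]
        rw [this]
        exact tendsto_atTop_add_const_right _ _ tendsto_natCast_atTop_atTop
      exact (hx.hasFDerivAt.lim v ht).abs
  exact ge_of_tendsto' hlim hle

end Pool.Agent.Ovl
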