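import Pool.Agent.Ovl.Targets3
import Pool.Agent.Ovl.LOSS

/-!
# The covering theorem: at most `2 ^ d` translates, tail form (numerics)
-/

set_option autoImplicit false

open MeasureTheory Set Filter
open scoped Pointwise Topology

namespace Pool.Agent.Ovl

open Pool.Agent.Rog (E SymBody)

theorem p_POW3 (_hL : T_LOSS) (hR : T_ROB2) : T_POW3 := by
  intro d K hd hK hKc hKi hesc
  have hd' : (200 : ℝ) ≤ d := by exact_mod_cast hd
  have hd0 : (0 : ℝ) < d := by linarith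
  have he1 : Real.exp 1 < 2.7182818286 := Real.exp_one_lt_d9
  have he2 : 2.7182818283 < Real.exp 1 := Real.exp_one_gt_d9
  have hl2 : Real.log 2 < 0.6931471808 := Real.log_two_lt_d9
  -- the logarithms
  obtain ⟨l, hl⟩ : ∃ l : ℝ, l = Real.log (8 * d + 2) := ⟨_, rfl⟩
  have h8 : (0 : ℝ) < 8 * d + 2 := by positivity
  have hl_up : l ≤ 10 * Real.log 2 + ((8 * d + 2) / 1024 - 1) := by
    have h1 := Real.log_le_sub_one_of_pos (x := (8 * d + 2) / 1024) (by positivity)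
    rw [Real.log_div h8.ne' (by norm_num)] at h1
    have h2 : Real.log 1024 = 10 * Real.log 2 := by
      rw [show (1024 : ℝ) = 2 ^ 10 by norm_num, Real.log_pow]
      norm_num
    rw [hl]
    linarith
  have hl_low : 1 ≤ l := by
    rw [hl, Real.le_log_iff_exp_le h8]
    linarith
  have hlogd : Real.log d ≤ 8 * Real.log 2 + ((d : ℝ) / 256 - 1) := by
    have h1 := Real.log_le_sub_one_of_pos (x := (d : ℝ) / 256) (by positivity)
    rw [Real.log_div hd0.ne' (by norm_num)] at h1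
    have h2 : Real.log 256 = 8 * Real.log 2 := by
      rw [show (256 : ℝ) = 2 ^ 8 by norm_num, Real.log_pow]
      norm_num
    linarith
  have hlogd0 : 0 ≤ Real.log d := Real.log_nonneg (by linarith)
  obtain ⟨Θ, hΘ⟩ : ∃ Θ : ℝ, Θ = 2 * Real.exp 1 * d * l := ⟨_, rfl⟩
  have hepos : 0 < Real.exp 1 := Real.exp_pos 1
  have hΘ1 : 1 ≤ Θ := by
    have h1 : (1 : ℝ) ≤ 2 * Real.exp 1 := by linarith
    have h2 : (1 : ℝ) ≤ 2 * Real.exp 1 * d := by nlinarith
    rw [hΘ]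
    nlinarith
  have hkey : 512 * Real.exp 1 * l ≤ (d : ℝ) ^ 2 := by
    have h1 : l ≤ 5.9335 + 0.0078125 * d := by
      linarith
    have h2 : 512 * Real.exp 1 * l ≤ 512 * 2.7182818286 * (5.9335 + 0.0078125 * d) := by
      refine mul_le_mul ?_ h1 (by linarith) (by norm_num)
      linarith
    nlinarith
  have hΘ3 : 256 * Θ ≤ (d : ℝ) ^ 3 := by
    have h1 := mul_le_mul_of_nonneg_left hkey hd0.le
    rw [hΘ]
    calc 256 * (2 * Real.exp 1 * d * l) = d * (512 * Real.exp 1 * l) := by ring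
      _ ≤ d * (d : ℝ) ^ 2 := h1
      _ = (d : ℝ) ^ 3 := by ring
  -- the parameters
  obtain ⟨s, hs⟩ : ∃ s : ℝ, s = 36 * Real.log d / d := ⟨_, rfl⟩
  have hs0 : 0 ≤ s := by
    rw [hs]
    positivity
  have hs1 : s ≤ 1 := by
    rw [hs, div_le_one hd0]
    linarith
  have hp : 0 < (d : ℝ) ^ (3 / 2 : ℝ) := Real.rpow_pos_of_pos hd0 _
  obtain ⟨ω, hω⟩ : ∃ ω : ℝ, ω = 1 / (d : ℝ) ^ (3 / 2 : ℝ) := ⟨_, rfl⟩
  have hω0 : 0 < ω := by
    rw [hω]
    positivity
  have hω1 : ω ≤ 1 := by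
    rw [hω, div_le_one hp]
    exact Real.one_le_rpow (by linarith) (by norm_num)
  have hω2 : ω ^ 2 = 1 / (d : ℝ) ^ 3 := by
    rw [hω, div_pow, one_pow, ← Real.rpow_natCast ((d : ℝ) ^ (3 / 2 : ℝ)) 2,
      ← Real.rpow_mul hd0.le, ← Real.rpow_natCast (d : ℝ) 3]
    norm_num
  have hexp : Real.exp (-(s * d / 6)) = 1 / (d : ℝ) ^ 6 := by
    have h1 : -(s * d / 6) = -(6 * Real.log d) := by
      have h3 : s * d = 36 * Real.log d := by
        rw [hs]
        exact div_mul_cancel₀ _ hd0.ne'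
      rw [h3]
      ring
    have h2 : Real.exp (6 * Real.log d) = (d : ℝ) ^ 6 := by
      rw [mul_comm, Real.exp_mul, Real.exp_log hd0]
      exact_mod_cast Real.rpow_natCast (d : ℝ) 6
    rw [h1, Real.exp_neg, h2, one_div]
  have hcond : 9 * Θ * Real.exp (-(s * d / 6)) ≤ ω ^ 2 := by
    rw [hexp, hω2, mul_one_div, div_le_div_iff₀ (by positivity) (by positivity)]
    have h1 : 9 * Θ ≤ (d : ℝ) ^ 3 := by linarith
    calc 9 * Θ * (d : ℝ) ^ 3 ≤ (d : ℝ) ^ 3 * (d : ℝ) ^ 3 :=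
          mul_le_mul_of_nonneg_right h1 (by positivity)
      _ = 1 * (d : ℝ) ^ 6 := by ring
  have hset : {y | y ∈ K ∧ (1 - ω) * volume.real K < loss K (s • y)} =
      {y | y ∈ K ∧ volume.real {x | x ∈ K ∧ x + (36 * Real.log d / d) • y ∈ K} <
        volume.real K / (d : ℝ) ^ (3 / 2 : ℝ)} := by
    ext y
    simp only [mem_setOf_eq]
    rw [LOSS_.loss_eq hKc, ← hs, hω]
    have h1 : volume.real K / (d : ℝ) ^ (3 / 2 : ℝ) =
        1 / (d : ℝ) ^ (3 / 2 : ℝ) * volume.real K := by ring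
    rw [h1]
    constructor
    · rintro ⟨h2, h3⟩
      exact ⟨h2, by linarith⟩
    · rintro ⟨h2, h3⟩
      exact ⟨h2, by linarith⟩
  have htail : volume.real {y | y ∈ K ∧ (1 - ω) * volume.real K < loss K (s • y)} *
      (256 * Θ) ≤ volume.real K := by
    rw [hset]
    exact (mul_le_mul_of_nonneg_left hΘ3 measureReal_nonneg).trans hesc
  obtain ⟨T, hT, hTK⟩ := hR d Θ s ω K (by omega) hΘ1 hs0 hs1 hω0 hω1 hcond hK hKc hKi htail
  refine ⟨T, hT.trans ?_, hTK⟩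
  rw [← hl, hΘ]
  have hlpos : 0 < l := by linarith
  have h7 : Real.exp 1 * 2 ^ d / (2 * Real.exp 1 * d * l) * (d * l) = 2 ^ d / 2 := by
    field_simp
  rw [h7]
  have h8 : (2 : ℝ) ≤ 2 ^ d := by
    calc (2 : ℝ) = 2 ^ 1 := by norm_num
      _ ≤ 2 ^ d := pow_le_pow_right₀ (by norm_num) (by omega)
  linarith

end Pool.Agent.Ovl
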