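import Mathlib
import Pool.Agent.Ovl.Targets3
import Pool.Agent.Ovl.ROB

/-!
# The covering theorem, sharper tail form (job OVL-ROB2)
-/

set_option autoImplicit false

open MeasureTheory Set Filter
open scoped Pointwise Topology

namespace Pool.Agent.Ovl

open Pool.Agent.Rog (E SymBody)

namespace ROB2_

theorem exp_ninth : 6 * Real.exp (1 / 9) ≤ 9 := by
  have h1 : 1 - 1 / 9 ≤ Real.exp (-(1 / 9)) := by
    have := Real.add_one_le_exp (-(1 / 9 : ℝ))
    linarith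
  have h2 : Real.exp (1 / 9) * Real.exp (-(1 / 9)) = 1 := by
    rw [← Real.exp_add]
    norm_num
  have h3 : 0 < Real.exp (1 / 9) := Real.exp_pos _
  nlinarith

/-- `(1 - a s / 3) ^ d ≤ exp (1/9) exp (- s d / 6)` -/
theorem pow_le {D q a s : ℝ} {d : ℕ} (hd : (d : ℝ) = D) (hD : 2 ≤ D) (hq : q = 1 - 1 / D)
    (ha : a = q / (1 + q)) (hs0 : 0 ≤ s) (hs1 : s ≤ 1) (hle : 0 ≤ 1 - a * (s / 3)) :
    (1 - a * (s / 3)) ^ d ≤ Real.exp (1 / 9) * Real.exp (-(s * D / 6)) := by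
  have hD0 : 0 < D := by linarith
  have hq1 : 0 < 1 + q := by
    have : 1 / D ≤ 1 / 2 := one_div_le_one_div_of_le (by norm_num) hD
    rw [hq]
    linarith
  have haD : D / 2 - 1 / 3 ≤ a * D := by
    have h1 : a = (D - 1) / (2 * D - 1) := by
      rw [ha, hq]
      have h2 : 2 * D - 1 ≠ 0 := by linarith
      have h3 : 1 + (1 - 1 / D) ≠ 0 := by
        rw [← hq]
        exact hq1.ne'
      field_simp
      ring
    rw [h1, div_mul_eq_mul_div, le_div_iff₀ (by linarith)]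
    nlinarith
  have h1 : 1 - a * (s / 3) ≤ Real.exp (-(a * (s / 3))) := by
    have := Real.add_one_le_exp (-(a * (s / 3)))
    linarith
  refine (pow_le_pow_left₀ hle h1 d).trans ?_
  rw [← Real.exp_nat_mul, ← Real.exp_add, hd]
  apply Real.exp_le_exp.mpr
  nlinarith [mul_le_mul_of_nonneg_right haD hs0]

end ROB2_

theorem p_ROB2 (hC : T_COV) (hK : T_CORE2) : T_ROB2 := by
  intro d Θ s ω K hd hΘ hs0 hs1 hω0 hω1 hexp hconv hcomp hint hvol
  have hD : (2 : ℝ) ≤ d := by exact_mod_cast hd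
  have hD0 : (0 : ℝ) < d := by linarith
  obtain ⟨q, hq⟩ : ∃ q : ℝ, q = 1 - 1 / (d : ℝ) := ⟨_, rfl⟩
  obtain ⟨a, ha⟩ : ∃ a : ℝ, a = q / (1 + q) := ⟨_, rfl⟩
  have hinv : 1 / (d : ℝ) ≤ 1 / 2 := one_div_le_one_div_of_le (by norm_num) hD
  have hinv0 : 0 < 1 / (d : ℝ) := by positivity
  have hq2 : 1 / 2 ≤ q := by rw [hq]; linarith
  have hq1 : q < 1 := by rw [hq]; linarith
  have ha3 : 1 / 3 ≤ a := by
    rw [ha, div_le_div_iff₀ (by norm_num) (by linarith)]
    linarith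
  have ha0 : 0 < a := by linarith
  have ha1 : a ≤ 1 := by
    rw [ha, div_le_one (by linarith)]
    linarith
  have hone := ROB_.one_le rfl hD hq ha ha0.le
  have hΘ0 : 0 < Θ := by linarith
  have hle : 0 ≤ 1 - a * (s / 3) := by nlinarith
  have hsmall : 6 * Θ * (1 - a * (s / 3)) ^ d ≤ ω ^ 2 := by
    have h1 := ROB2_.pow_le rfl hD hq ha hs0 hs1 hle
    have h2 := ROB2_.exp_ninth
    have h3 : 0 < Real.exp (-(s * d / 6)) := Real.exp_pos _
    calc 6 * Θ * (1 - a * (s / 3)) ^ d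
        ≤ 6 * Θ * (Real.exp (1 / 9) * Real.exp (-(s * d / 6))) :=
          mul_le_mul_of_nonneg_left h1 (by linarith)
      _ = (6 * Real.exp (1 / 9)) * (Θ * Real.exp (-(s * d / 6))) := by ring
      _ ≤ 9 * (Θ * Real.exp (-(s * d / 6))) :=
          mul_le_mul_of_nonneg_right h2 (by positivity)
      _ = 9 * Θ * Real.exp (-(s * d / 6)) := by ring
      _ ≤ ω ^ 2 := hexp
  have hκ : 0 < Θ * a ^ d := by positivity
  have hcov := hC d K (Θ * a ^ d) hd hconv hcomp hint hκ (by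
    intro U hU hUK
    by_contra hcon
    push Not at hcon
    refine hK d Θ q a s ω K U hconv hcomp hint hΘ hq2 hq1 ha hs0 hs1 hω0 hω1 hsmall hvol hU
      hUK ?_
    intro z
    rw [hq]
    exact (hcon z).le)
  obtain ⟨T, hT, hTK⟩ := hcov
  refine ⟨T, hT.trans ?_, hTK⟩
  have hl : 0 ≤ (d : ℝ) * Real.log (8 * d + 2) :=
    mul_nonneg hD0.le (Real.log_nonneg (by linarith))
  have h5 : 1 / (Θ * a ^ d) ≤ Real.exp 1 * 2 ^ d / Θ := by
    rw [div_le_div_iff₀ hκ hΘ0]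
    nlinarith
  have := mul_le_mul_of_nonneg_right h5 hl
  linarith

end Pool.Agent.Ovl
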