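import Mathlib
import Pool.Agent.Ovl.Targets

/-!
# Bodies with large width
-/

set_option autoImplicit false

open MeasureTheory Set Filter
open scoped Pointwise Topology

namespace Pool.Agent.Ovl

open Pool.Agent.Rog (E SymBody)

namespace WID_

/-- Cauchy-Schwarz on a compact set. -/
lemma cs_set {n : ℕ} {K : Set (E n)} (hc : IsCompact K) {g : E n → ℝ} (hg : Continuous g) :
    (∫ y in K, g y) ^ 2 ≤ volume.real K * ∫ y in K, g y ^ 2 := by
  have hfin : volume K ≠ ⊤ := hc.measure_lt_top.ne
  have hg1 : IntegrableOn g K := hg.continuousOn.integrableOn_compact hc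
  have hg2 : IntegrableOn (fun y => g y ^ 2) K :=
    (hg.pow 2).continuousOn.integrableOn_compact hc
  have hquad : ∀ t : ℝ, 0 ≤ (∫ y in K, g y ^ 2) - 2 * t * (∫ y in K, g y) +
      t ^ 2 * volume.real K := by
    intro t
    have h1 : 0 ≤ ∫ y in K, (g y - t) ^ 2 := integral_nonneg fun y => sq_nonneg _
    have h2 : ∫ y in K, (g y - t) ^ 2 =
        (∫ y in K, g y ^ 2) - 2 * t * (∫ y in K, g y) + t ^ 2 * volume.real K := by
      have e : (fun y => (g y - t) ^ 2) = fun y => (g y ^ 2 - 2 * t * g y) + t ^ 2 := by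
        funext y; ring
      have hc2 : IntegrableOn (fun _ : E n => t ^ 2) K := integrableOn_const (hs := hfin)
      have hi : IntegrableOn (fun y => 2 * t * g y) K := hg1.const_mul (2 * t)
      have hs : IntegrableOn (fun y => g y ^ 2 - 2 * t * g y) K := hg2.sub hi
      rw [e, integral_add hs hc2, integral_sub hg2 hi, integral_const_mul,
        setIntegral_const, smul_eq_mul]
      ring
    linarith
  rcases eq_or_lt_of_le (measureReal_nonneg (μ := volume) (s := K)) with hV | hV
  · have h0 : volume K = 0 := by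
      have := hV.symm
      rwa [measureReal_eq_zero_iff hfin] at this
    have h1 : ∫ y in K, g y = 0 := setIntegral_measure_zero _ h0
    rw [h1, ← hV]
    simp
  · have h1 := hquad ((∫ y in K, g y) / volume.real K)
    have h2 : (∫ y in K, g y ^ 2) - 2 * ((∫ y in K, g y) / volume.real K) * (∫ y in K, g y) +
        ((∫ y in K, g y) / volume.real K) ^ 2 * volume.real K =
        ((volume.real K * ∫ y in K, g y ^ 2) - (∫ y in K, g y) ^ 2) / volume.real K := by
      field_simp
      ring
    rw [h2] at h1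
    have h3 := (le_div_iff₀ hV).mp h1
    linarith

lemma vol_smul {n : ℕ} (K : Set (E n)) {r : ℝ} (hr : 0 ≤ r) :
    volume.real (r • K) = r ^ n * volume.real K := by
  unfold Measure.real
  rw [Measure.addHaar_smul_of_nonneg _ hr, finrank_euclideanSpace_fin, ENNReal.toReal_mul,
    ENNReal.toReal_ofReal (by positivity)]

/-- the limit used in the jobs WID and UNC -/
lemma lim_pow (d : ℕ) (A : ℝ) (hd : 1 ≤ d) (hA : 0 < A) :
    Tendsto (fun ε : ℝ => (1 / (d : ℝ) / ε + 2) * ((1 + ε / A) ^ d - 1)) (𝓝[>] 0)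
      (𝓝 (1 / A)) := by
  have hd0 : (0 : ℝ) < d := by exact_mod_cast hd
  have hder : HasDerivAt (fun ε : ℝ => (1 + ε / A) ^ d)
      (d * (1 + 0 / A) ^ (d - 1) * (1 / A)) 0 := by
    have h1 : HasDerivAt (fun ε : ℝ => 1 + ε / A) (1 / A) 0 :=
      ((hasDerivAt_id (0 : ℝ)).div_const A).const_add 1
    exact h1.pow d
  have h2 := hder.tendsto_slope_zero_right
  have h3 : Tendsto (fun ε : ℝ => (1 + ε / A) ^ d - 1) (𝓝[>] 0) (𝓝 0) := by
    have h4 : Tendsto (fun ε : ℝ => (1 + ε / A) ^ d - 1) (𝓝 0) (𝓝 ((1 + 0 / A) ^ d - 1)) :=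
      (hder.continuousAt.tendsto).sub_const 1
    simp only [zero_div, add_zero, one_pow, sub_self] at h4
    exact h4.mono_left nhdsWithin_le_nhds
  have h5 := (h2.const_mul (1 / (d : ℝ))).add (h3.const_mul 2)
  have e1 : 1 / (d : ℝ) * (d * (1 + 0 / A) ^ (d - 1) * (1 / A)) + 2 * 0 = 1 / A := by
    simp only [zero_div, add_zero, one_pow]
    field_simp
    ring
  rw [e1] at h5
  refine h5.congr' ?_
  filter_upwards [self_mem_nhdsWithin] with ε hε
  have hε0 : (ε : ℝ) ≠ 0 := (ne_of_gt hε)
  simp only [zero_add, zero_div, add_zero, one_pow, smul_eq_mul]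
  field_simp

/-- The consequence of the gradient bound for `W = (1/A) K`. -/
lemma scaled {n : ℕ} {K : Set (E n)} (hcv : Convex ℝ K) {A ε : ℝ} (hA : 0 < A) (hε : 0 < ε) :
    K + ε • ((1 / A) • K) = (1 + ε / A) • K := by
  rw [smul_smul, hcv.add_smul (by norm_num : (0 : ℝ) ≤ 1) (by positivity : 0 ≤ ε / A), one_smul]
  congr 2
  ring

end WID_

open WID_ in
theorem p_WID (hL : T_LOSS) (hG : T_GRA) : T_WID := by
  intro d A K hd hA hcv hc h0 hwid
  obtain ⟨_, _, _, _, _, _, hesc⟩ := hL d K hcv hc
  have hd0 : (0 : ℝ) < d := by exact_mod_cast hd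
  have hint : (interior K).Nonempty := ⟨0, h0⟩
  have hV : 0 ≤ volume.real K := measureReal_nonneg
  have hW0 : (0 : E d) ∈ interior ((1 / A) • K) := by
    rw [interior_smul₀ (by positivity)]
    exact ⟨0, h0, smul_zero _⟩
  have hmain : ∀ ε : ℝ, 0 < ε → 2 * volume.real (esc K (1 / (d : ℝ))) ≤
      volume.real K ^ 2 * ((1 / (d : ℝ) / ε + 2) * ((1 + ε / A) ^ d - 1)) := by
    intro ε hε
    have h1 := hG d K ((1 / A) • K) (ContinuousLinearMap.id ℝ (E d)) (1 / (d : ℝ)) ε hcv hc hint
      (hcv.smul _) (hc.smul _) hW0 (by positivity) hε (by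
        intro θ c hθ
        obtain ⟨k, hk, hk0, hk1⟩ := hwid θ
        have h2 : inner ℝ θ k / A ≤ c := by
          have := hθ ((1 / A) • k) (smul_mem_smul_set hk)
          rw [inner_smul_right] at this
          calc inner ℝ θ k / A = 1 / A * inner ℝ θ k := by ring
            _ ≤ c := this
        have hcont : Continuous (fun y : E d => |inner ℝ θ y|) :=
          (continuous_const.inner continuous_id).abs
        have h3 := cs_set hc hcont
        simp only [sq_abs] at h3
        have h4 : (∫ y in K, |inner ℝ θ y|) ^ 2 ≤ (volume.real K * (inner ℝ θ k / A)) ^ 2 := by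
          refine h3.trans ?_
          have h5 : ∫ y in K, (inner ℝ θ y) ^ 2 ≤
              volume.real K * (inner ℝ θ k) ^ 2 / A ^ 2 := by
            rw [le_div_iff₀ (by positivity)]
            linarith
          calc volume.real K * ∫ y in K, (inner ℝ θ y) ^ 2
              ≤ volume.real K * (volume.real K * (inner ℝ θ k) ^ 2 / A ^ 2) := by gcongr
            _ = (volume.real K * (inner ℝ θ k / A)) ^ 2 := by
              field_simp
        have h6 : ∫ y in K, |inner ℝ θ y| ≤ volume.real K * (inner ℝ θ k / A) :=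
          le_of_sq_le_sq h4 (by positivity)
        calc ∫ y in K, |inner ℝ θ (ContinuousLinearMap.id ℝ (E d) y)|
            = ∫ y in K, |inner ℝ θ y| := rfl
          _ ≤ volume.real K * (inner ℝ θ k / A) := h6
          _ ≤ volume.real K * c := by gcongr
          _ = c * volume.real K := by ring)
    have h7 : ∫ y in K, loss K ((1 / (d : ℝ)) • (ContinuousLinearMap.id ℝ (E d)) y) =
        volume.real (esc K (1 / (d : ℝ))) := (hesc (1 / (d : ℝ))).2
    rw [h7, scaled hcv hA hε, vol_smul K (by positivity)] at h1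
    calc 2 * volume.real (esc K (1 / (d : ℝ)))
        ≤ _ := h1
      _ = _ := by ring
  have hlim := (lim_pow d A hd hA).const_mul (volume.real K ^ 2)
  have h8 : 2 * volume.real (esc K (1 / (d : ℝ))) ≤ volume.real K ^ 2 * (1 / A) := by
    refine ge_of_tendsto hlim ?_
    filter_upwards [self_mem_nhdsWithin] with ε hε
    exact hmain ε hε
  have h9 : volume.real K ^ 2 * (1 / A) = volume.real K ^ 2 / A := by ring
  rw [h9, le_div_iff₀ hA] at h8
  linarith

end Pool.Agent.Ovl
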