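import Mathlib
import Pool.Agent.Ovl.Targets
import Pool.Agent.Ovl.WID

/-!
# The surface area version
-/

set_option autoImplicit false

open MeasureTheory Set Filter
open scoped Pointwise Topology

namespace Pool.Agent.Ovl

open Pool.Agent.Rog (E SymBody)

open WID_ in
theorem p_SUR (hL : T_LOSS) (hG : T_GRA) : T_SUR := by
  intro d σ S K hd hσ hcv hc hint hvar hS
  obtain ⟨_, _, _, _, _, _, hesc⟩ := hL d K hcv hc
  have hd0 : (0 : ℝ) < d := by exact_mod_cast hd
  have hV : 0 ≤ volume.real K := measureReal_nonneg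
  have hmain : ∀ δ : ℝ, 0 < δ → 2 * volume.real (esc K (1 / (d : ℝ))) ≤
      volume.real K * ((σ / d + 2 * δ) *
        ((volume.real (Metric.cthickening δ K) - volume.real K) / δ)) := by
    intro δ hδ
    have hε : 0 < δ / σ := by positivity
    have h1 := hG d K (Metric.closedBall 0 σ) (ContinuousLinearMap.id ℝ (E d)) (1 / (d : ℝ))
      (δ / σ) hcv hc hint (convex_closedBall _ _) (isCompact_closedBall _ _) (by
        rw [mem_interior_iff_mem_nhds]
        exact Metric.closedBall_mem_nhds _ hσ) (by positivity) hε (by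
        intro θ c hθ
        have h2 : σ * ‖θ‖ ≤ c := by
          rcases eq_or_ne θ 0 with h | h
          · have := hθ 0 (by simp [hσ.le])
            rw [h]
            simpa [h] using this
          · have hn : 0 < ‖θ‖ := norm_pos_iff.mpr h
            have := hθ ((σ / ‖θ‖) • θ) (by
              rw [mem_closedBall_zero_iff, norm_smul, Real.norm_eq_abs,
                abs_of_pos (by positivity), div_mul_cancel₀ _ hn.ne'])
            rw [inner_smul_right, real_inner_self_eq_norm_sq] at this
            calc σ * ‖θ‖ = σ / ‖θ‖ * ‖θ‖ ^ 2 := by field_simp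
              _ ≤ c := this
        have hcont : Continuous (fun y : E d => |inner ℝ θ y|) :=
          (continuous_const.inner continuous_id).abs
        have h3 := cs_set hc hcont
        simp only [sq_abs] at h3
        have h4 : (∫ y in K, |inner ℝ θ y|) ^ 2 ≤ (σ * ‖θ‖ * volume.real K) ^ 2 := by
          refine h3.trans ?_
          calc volume.real K * ∫ y in K, (inner ℝ θ y) ^ 2
              ≤ volume.real K * (σ ^ 2 * ‖θ‖ ^ 2 * volume.real K) := by
                gcongr
                exact hvar θ
            _ = (σ * ‖θ‖ * volume.real K) ^ 2 := by ring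
        have h6 : ∫ y in K, |inner ℝ θ y| ≤ σ * ‖θ‖ * volume.real K :=
          le_of_sq_le_sq h4 (by positivity)
        calc ∫ y in K, |inner ℝ θ (ContinuousLinearMap.id ℝ (E d) y)|
            = ∫ y in K, |inner ℝ θ y| := rfl
          _ ≤ σ * ‖θ‖ * volume.real K := h6
          _ ≤ c * volume.real K := by gcongr)
    have h7 : ∫ y in K, loss K ((1 / (d : ℝ)) • (ContinuousLinearMap.id ℝ (E d)) y) =
        volume.real (esc K (1 / (d : ℝ))) := (hesc (1 / (d : ℝ))).2
    have h8 : K + (δ / σ) • Metric.closedBall (0 : E d) σ = Metric.cthickening δ K := by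
      rw [smul_closedBall _ _ hσ.le, smul_zero, Real.norm_eq_abs, abs_of_pos hε,
        div_mul_cancel₀ _ hσ.ne', hc.add_closedBall_zero hδ.le]
    rw [h7, h8] at h1
    calc 2 * volume.real (esc K (1 / (d : ℝ)))
        ≤ _ := h1
      _ = _ := by
        field_simp
  have hlim : Tendsto (fun δ : ℝ => volume.real K * ((σ / d + 2 * δ) *
      ((volume.real (Metric.cthickening δ K) - volume.real K) / δ))) (𝓝[>] 0)
      (𝓝 (volume.real K * ((σ / d + 2 * 0) * S))) := by
    have h1 : Tendsto (fun δ : ℝ => σ / d + 2 * δ) (𝓝[>] 0) (𝓝 (σ / d + 2 * 0)) := by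
      have h2 : Tendsto (fun δ : ℝ => σ / d + 2 * δ) (𝓝 0) (𝓝 (σ / d + 2 * 0)) :=
        (tendsto_id.const_mul (2 : ℝ)).const_add (σ / (d : ℝ))
      exact h2.mono_left nhdsWithin_le_nhds
    exact (h1.mul hS).const_mul _
  have h8 : 2 * volume.real (esc K (1 / (d : ℝ))) ≤
      volume.real K * ((σ / d + 2 * 0) * S) := by
    refine ge_of_tendsto hlim ?_
    filter_upwards [self_mem_nhdsWithin] with δ hδ
    exact hmain δ hδ
  have h9 : volume.real K * ((σ / d + 2 * 0) * S) = σ * S * volume.real K / d := by
    field_simp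
    ring
  rw [h9, le_div_iff₀ hd0] at h8
  linarith

end Pool.Agent.Ovl
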