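import Pool.Agent.Ovl.Targets

/-!
# OVL-SYMB: a large symmetric body in a translate of a convex body
-/

set_option autoImplicit false

open MeasureTheory Set Filter
open scoped Pointwise Topology ENNReal

namespace Pool.Agent.Ovl

open Pool.Agent.Rog (E SymBody)

namespace SYMB_

variable {n : ℕ}

/-- The part of `K` which is symmetric with respect to `z / 2`. -/
def part (K : Set (E n)) (z : E n) : Set (E n) := {x | x ∈ K ∧ z - x ∈ K}

theorem closed_S {K : Set (E n)} (hK : IsClosed K) :
    IsClosed {p : E n × E n | p.2 ∈ K ∧ p.1 - p.2 ∈ K} :=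
  (hK.preimage continuous_snd).inter (hK.preimage (continuous_fst.sub continuous_snd))

theorem lint_part {K : Set (E n)} (hK : IsClosed K) :
    ∫⁻ z, volume (part K z) = volume K * volume K := by
  have hS := (closed_S hK).measurableSet
  have h1 := Measure.prod_apply (μ := (volume : Measure (E n))) (ν := volume) hS
  have h2 := Measure.prod_apply_symm (μ := (volume : Measure (E n))) (ν := volume) hS
  have h3 : ∫⁻ z, volume (part K z) =
      ((volume : Measure (E n)).prod volume) {p : E n × E n | p.2 ∈ K ∧ p.1 - p.2 ∈ K} := by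
    rw [h1]
    rfl
  rw [h3, h2]
  have h4 : ∀ y : E n, volume ((fun x => (x, y)) ⁻¹' {p : E n × E n | p.2 ∈ K ∧ p.1 - p.2 ∈ K}) =
      K.indicator (fun _ => volume K) y := by
    intro y
    by_cases hy : y ∈ K
    · rw [indicator_of_mem hy]
      have : (fun x => (x, y)) ⁻¹' {p : E n × E n | p.2 ∈ K ∧ p.1 - p.2 ∈ K} =
          (fun x => x + (-y)) ⁻¹' K := by
        ext x
        simp [hy, sub_eq_add_neg]
      rw [this, measure_preimage_add_right]
    · rw [indicator_of_notMem hy]
      have : (fun x => (x, y)) ⁻¹' {p : E n × E n | p.2 ∈ K ∧ p.1 - p.2 ∈ K} = ∅ := by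
        ext x
        simp [hy]
      rw [this, measure_empty]
  simp only [h4]
  rw [lintegral_indicator hK.measurableSet, setLIntegral_const]

theorem part_zero {K : Set (E n)} (hK : Convex ℝ K) {z : E n} (hz : z ∉ (2 : ℝ) • K) :
    part K z = ∅ := by
  rw [eq_empty_iff_forall_notMem]
  rintro x ⟨h1, h2⟩
  apply hz
  refine ⟨(1 / 2 : ℝ) • x + (1 / 2 : ℝ) • (z - x),
    hK h1 h2 (by norm_num) (by norm_num) (by norm_num), ?_⟩
  change (2 : ℝ) • ((1 / 2 : ℝ) • x + (1 / 2 : ℝ) • (z - x)) = z
  rw [← smul_add, smul_smul]
  norm_num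

end SYMB_

open SYMB_

theorem p_SYMB : T_SYMB := by
  intro n K hcv hcp hint
  have hcl := hcp.isClosed
  have hpos : 0 < volume K := lt_of_lt_of_le (isOpen_interior.measure_pos _ hint)
    (measure_mono interior_subset)
  have hfin : volume K ≠ ⊤ := hcp.measure_lt_top.ne
  have h2K : volume ((2 : ℝ) • K) = 2 ^ n * volume K := by
    rw [Measure.addHaar_smul, finrank_euclideanSpace_fin, abs_of_pos (by positivity),
      ENNReal.ofReal_pow (by norm_num), ENNReal.ofReal_ofNat]
  have hcp2 : IsCompact ((2 : ℝ) • K) := hcp.smul 2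
  have hset : ∫⁻ z in (2 : ℝ) • K, volume (part K z) = volume K * volume K := by
    rw [← lint_part hcl, ← lintegral_indicator hcp2.isClosed.measurableSet]
    refine lintegral_congr fun z => ?_
    by_cases hz : z ∈ (2 : ℝ) • K
    · rw [indicator_of_mem hz]
    · rw [indicator_of_notMem hz, part_zero hcv hz, measure_empty]
  have h2pos : volume ((2 : ℝ) • K) ≠ 0 := by
    rw [h2K]
    exact mul_ne_zero (by positivity) hpos.ne'
  obtain ⟨z, -, hz⟩ := exists_setLAverage_le h2pos hcp2.isClosed.measurableSet.nullMeasurableSet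
    (f := fun z => volume (part K z)) (by rw [hset]; exact ENNReal.mul_ne_top hfin hfin)
  rw [setLAverage_eq, hset, h2K] at hz
  have hz' : volume K ≤ 2 ^ n * volume (part K z) := by
    have h1 : volume K * volume K / (2 ^ n * volume K) = volume K / 2 ^ n := by
      rw [ENNReal.mul_div_mul_right _ _ hpos.ne' hfin]
    rw [h1] at hz
    rw [mul_comm]
    exact (ENNReal.div_le_iff (by positivity) (ENNReal.pow_ne_top (by norm_num))).1 hz
  set c : E n := (1 / 2 : ℝ) • z with hc
  have hcc : c + c = z := by
    rw [hc, ← add_smul]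
    norm_num
  set L : Set (E n) := {u | c + u ∈ K ∧ c - u ∈ K} with hL
  have hLp : L = (fun u => c + u) ⁻¹' (part K z) := by
    ext u
    have : z - (c + u) = c - u := by rw [← hcc]; abel
    simp [hL, part, this]
  have hvol : volume L = volume (part K z) := by
    rw [hLp, measure_preimage_add]
  have hLcl : IsClosed L := (hcl.preimage (continuous_const.add continuous_id)).inter
    (hcl.preimage (continuous_const.sub continuous_id))
  have hLcp : IsCompact L := by
    have h1 : IsCompact ((fun u : E n => c + u) ⁻¹' K) :=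
      (Homeomorph.addLeft c).isCompact_preimage.2 hcp
    exact h1.of_isClosed_subset hLcl (fun u hu => hu.1)
  have hLcv : Convex ℝ L := by
    intro u hu v hv a b ha hb hab
    constructor
    · have h1 := hcv hu.1 hv.1 ha hb hab
      have h2 : a • (c + u) + b • (c + v) = c + (a • u + b • v) := by
        have : c = (a + b) • c := by rw [hab, one_smul]
        conv_rhs => rw [this]
        rw [add_smul, smul_add, smul_add]
        abel
      rwa [h2] at h1
    · have h1 := hcv hu.2 hv.2 ha hb hab
      have h2 : a • (c - u) + b • (c - v) = c - (a • u + b • v) := by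
        have : c = (a + b) • c := by rw [hab, one_smul]
        conv_rhs => rw [this]
        rw [add_smul, smul_sub, smul_sub]
        abel
      rwa [h2] at h1
  have hLpos : volume L ≠ 0 := by
    intro h0
    rw [hvol] at h0
    rw [h0, mul_zero] at hz'
    exact hpos.ne' (le_antisymm hz' zero_le)
  have hLint : (interior L).Nonempty := by
    by_contra hne
    rw [not_nonempty_iff_eq_empty] at hne
    apply hLpos
    have h1 : L ⊆ frontier L := by
      rw [frontier, hLcl.closure_eq, hne, sdiff_empty]
    exact measure_mono_null h1 (hLcv.addHaar_frontier volume)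
  refine ⟨c, L, ⟨hLcp, hLcv, hLint, ?_⟩, fun x hx => hx.1, ?_⟩
  · intro x hx
    refine ⟨?_, ?_⟩
    · have := hx.2
      rwa [sub_eq_add_neg] at this
    · have := hx.1
      rwa [sub_neg_eq_add]
  · rw [← hvol] at hz'
    have h1 := ENNReal.toReal_mono
      (ENNReal.mul_ne_top (ENNReal.pow_ne_top (by simp)) hLcp.measure_lt_top.ne) hz'
    rw [ENNReal.toReal_mul, ENNReal.toReal_pow, ENNReal.toReal_ofNat] at h1
    exact h1

end Pool.Agent.Ovl
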