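import Mathlib
import Pool.Agent.Ovl.Targets2

/-!
# Unconditional bodies between two balls (job OVL-UNC)
-/

set_option autoImplicit false

open MeasureTheory Set Filter
open scoped Pointwise Topology

namespace Pool.Agent.Ovl

open Pool.Agent.Rog (E SymBody)

namespace UNC_

variable {d : ℕ}

/-- the reflection in a coordinate hyperplane -/
noncomputable def refl (i : Fin d) : E d ≃ₗᵢ[ℝ] E d :=
  LinearIsometryEquiv.piLpCongrRight 2
    (fun j => if j = i then LinearIsometryEquiv.neg ℝ else LinearIsometryEquiv.refl ℝ ℝ)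

theorem refl_apply (i j : Fin d) (y : E d) : refl i y j = if j = i then - y j else y j := by
  unfold refl
  rw [LinearIsometryEquiv.piLpCongrRight_apply]
  change (if j = i then LinearIsometryEquiv.neg ℝ else LinearIsometryEquiv.refl ℝ ℝ) (y j) = _
  split_ifs <;> simp

theorem refl_abs (i j : Fin d) (y : E d) : |refl i y j| = |y j| := by
  rw [refl_apply]
  split_ifs
  · rw [abs_neg]
  · rfl

theorem mixed {K : Set (E d)} (hU : Unc K) {i j : Fin d} (hij : i ≠ j) :
    ∫ y in K, y i * y j = 0 := by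
  have hpre : (refl i) ⁻¹' K = K := by
    ext y
    constructor
    · intro h
      exact hU _ h y (fun j => (refl_abs i j y).symm)
    · intro h
      exact hU _ h _ (fun j => refl_abs i j y)
  have h := (refl i).measurePreserving.setIntegral_preimage_emb
    (refl i).toHomeomorph.measurableEmbedding (fun y : E d => y i * y j) K
  rw [hpre] at h
  have h2 : ∫ y in K, (refl i y) i * (refl i y) j = - ∫ y in K, y i * y j := by
    rw [← integral_neg]
    congr 1
    ext y
    rw [refl_apply, refl_apply, if_pos rfl, if_neg hij.symm]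
    ring
  rw [h2] at h
  linarith

theorem integrable_of_cont {K : Set (E d)} (hK : IsCompact K) {f : E d → ℝ} (hf : Continuous f) :
    Integrable f (volume.restrict K) :=
  hf.continuousOn.integrableOn_compact hK

/-- the quadratic form of a coordinate projection -/
theorem quad {K : Set (E d)} (hK : IsCompact K) (hU : Unc K) (S : Finset (Fin d))
    (θ : Fin d → ℝ) :
    ∫ y in K, (∑ i ∈ S, θ i * y i) ^ 2 = ∑ i ∈ S, θ i ^ 2 * ∫ y in K, (y i) ^ 2 := by
  have h1 : ∀ y : E d, (∑ i ∈ S, θ i * y i) ^ 2 =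
      ∑ i ∈ S, ∑ j ∈ S, (θ i * θ j) * (y i * y j) := by
    intro y
    rw [sq, Finset.sum_mul_sum]
    refine Finset.sum_congr rfl fun i _ => Finset.sum_congr rfl fun j _ => ?_
    ring
  simp only [h1]
  rw [integral_finsetSum _ (fun i _ => integrable_of_cont hK (by fun_prop))]
  refine Finset.sum_congr rfl fun i hi => ?_
  rw [integral_finsetSum _ (fun j _ => integrable_of_cont hK (by fun_prop))]
  rw [Finset.sum_eq_single i]
  · rw [integral_const_mul]
    congr 1
    · ring
    · congr 1
      ext y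
      ring
  · intro j _ hj
    rw [integral_const_mul, mixed hU hj.symm, mul_zero]
  · intro h
    exact absurd hi h

/-- the limit of the right hand side -/
theorem lim {A : ℝ} (hA : 0 < A) (hd : 1 ≤ d) :
    Tendsto (fun ε : ℝ => (1 / (d : ℝ) / ε + 2) * ((1 + ε / A) ^ d - 1)) (𝓝[>] 0)
      (𝓝 (1 / A)) := by
  have hd0 : (d : ℝ) ≠ 0 := by
    have : 0 < d := hd
    positivity
  have hder : HasDerivAt (fun ε : ℝ => (1 + ε / A) ^ d) ((d : ℝ) * (1 / A)) 0 := by
    have h1 : HasDerivAt (fun ε : ℝ => 1 + ε / A) (1 / A) 0 :=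
      ((hasDerivAt_id (0 : ℝ)).div_const A).const_add 1
    have h2 := h1.fun_pow d
    simpa using h2
  have hs := hder.tendsto_slope_zero_right
  simp only [zero_add, zero_div, add_zero, one_pow, smul_eq_mul] at hs
  have h3 : Tendsto (fun ε : ℝ => 2 * ((1 + ε / A) ^ d - 1)) (𝓝[>] 0) (𝓝 0) := by
    have h4 : Tendsto (fun ε : ℝ => 2 * ((1 + ε / A) ^ d - 1)) (𝓝 0)
        (𝓝 (2 * ((1 + 0 / A) ^ d - 1))) := by
      apply Continuous.tendsto (f := fun ε : ℝ => 2 * ((1 + ε / A) ^ d - 1))
      fun_prop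
    have h5 : (2 : ℝ) * ((1 + 0 / A) ^ d - 1) = 0 := by simp
    rw [h5] at h4
    exact h4.mono_left nhdsWithin_le_nhds
  have h6 := (hs.const_mul (1 / (d : ℝ))).add h3
  have h7 : 1 / (d : ℝ) * (d * (1 / A)) + 0 = 1 / A := by
    field_simp
    ring
  rw [h7] at h6
  refine h6.congr' ?_
  filter_upwards [self_mem_nhdsWithin] with ε hε
  have hε0 : ε ≠ 0 := (mem_Ioi.mp hε).ne'
  field_simp

/-- `K + ε A⁻¹ K` -/
theorem vol_add {A ε : ℝ} {K : Set (E d)} (hA : 0 < A) (hε : 0 < ε) (hK : Convex ℝ K) :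
    volume.real (K + ε • ((1 / A) • K)) = (1 + ε / A) ^ d * volume.real K := by
  have h1 : K + ε • ((1 / A) • K) = (1 + ε / A) • K := by
    rw [hK.add_smul zero_le_one (by positivity), one_smul, smul_smul]
    congr 2
    ring
  rw [h1, measureReal_def, Measure.addHaar_smul, finrank_euclideanSpace_fin,
    ENNReal.toReal_mul, ENNReal.toReal_ofReal (abs_nonneg _), abs_of_nonneg (by positivity)]
  rfl

end UNC_

theorem p_UNC (hL : T_LOSS) (hH : T_HSP) (hG : T_GRA) : T_UNC := by
  intro d A D K hd hA hconv hcomp hU hball hKD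
  obtain ⟨hl0, -, hladd, -, hlmeas, -, hesc⟩ := hL d K hconv hcomp
  have hd0 : (0 : ℝ) < d := by
    have : 0 < d := hd
    positivity
  have hint0 : (0 : E d) ∈ interior K := by
    apply interior_mono hball
    rw [mem_interior_iff_mem_nhds]
    exact Metric.closedBall_mem_nhds 0 one_pos
  have hint : (interior K).Nonempty := ⟨0, hint0⟩
  have h0K : (0 : E d) ∈ K := interior_subset hint0
  have hfin : volume K ≠ ⊤ := hcomp.measure_lt_top.ne
  have hVpos : 0 < volume.real K := by
    rw [measureReal_def]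
    apply ENNReal.toReal_pos _ hfin
    exact (lt_of_lt_of_le (isOpen_interior.measure_pos volume hint)
      (measure_mono interior_subset)).ne'
  obtain ⟨V, hV⟩ : ∃ V : ℝ, V = volume.real K := ⟨_, rfl⟩
  rw [← hV] at hVpos ⊢
  have : IsFiniteMeasure (volume.restrict K) := ⟨by
    rw [Measure.restrict_apply_univ]
    exact hcomp.measure_lt_top⟩
  have hKm : MeasurableSet K := hcomp.measurableSet
  -- loss at zero
  have hlz : loss K 0 = 0 := by
    unfold loss
    have : {x | x ∈ K ∧ x + 0 ∉ K} = (∅ : Set (E d)) := by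
      ext x
      simp
    rw [this]
    simp
  -- second moments
  obtain ⟨m, hm⟩ : ∃ m : Fin d → ℝ, m = fun i => ∫ y in K, (y i) ^ 2 := ⟨_, rfl⟩
  have hm0 : ∀ i, 0 ≤ m i := by
    intro i
    rw [hm]
    exact integral_nonneg fun y => sq_nonneg _
  have hmsum : ∑ i, m i ≤ D ^ 2 * V := by
    rw [hm]
    change ∑ i, ∫ y in K, (y i) ^ 2 ≤ _
    rw [← integral_finsetSum _ (fun i _ => UNC_.integrable_of_cont hcomp (by fun_prop))]
    have h1 : ∫ y in K, ∑ i, (y i) ^ 2 ≤ ∫ y in K, D ^ 2 := by
      apply setIntegral_mono_on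
        (UNC_.integrable_of_cont hcomp (by fun_prop)) (integrable_const _) hKm
      intro y hy
      have h2 := hKD hy
      rw [mem_closedBall_zero_iff] at h2
      have h3 := EuclideanSpace.real_norm_sq_eq y
      rw [← h3]
      exact pow_le_pow_left₀ (norm_nonneg _) h2 2
    rw [setIntegral_const, ← hV, smul_eq_mul] at h1
    linarith
  obtain ⟨F, hF⟩ : ∃ F : Finset (Fin d), F = Finset.univ.filter (fun i => V ≤ A ^ 2 * m i) :=
    ⟨_, rfl⟩
  have hFcard : (F.card : ℝ) ≤ A ^ 2 * D ^ 2 := by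
    have h1 : (F.card : ℝ) * V ≤ A ^ 2 * ∑ i, m i := by
      calc (F.card : ℝ) * V = ∑ i ∈ F, V := by rw [Finset.sum_const, nsmul_eq_mul]
        _ ≤ ∑ i ∈ F, A ^ 2 * m i := by
            apply Finset.sum_le_sum
            intro i hi
            rw [hF, Finset.mem_filter] at hi
            exact hi.2
        _ ≤ ∑ i, A ^ 2 * m i := by
            apply Finset.sum_le_sum_of_subset_of_nonneg (Finset.subset_univ _)
            intro i _ _
            exact mul_nonneg (sq_nonneg _) (hm0 i)
        _ = _ := by rw [Finset.mul_sum]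
    have h2 : (F.card : ℝ) * V ≤ A ^ 2 * (D ^ 2 * V) :=
      h1.trans (mul_le_mul_of_nonneg_left hmsum (sq_nonneg _))
    have h3 : (F.card : ℝ) * V ≤ (A ^ 2 * D ^ 2) * V := by linarith
    exact le_of_mul_le_mul_right h3 hVpos
  -- the projection
  obtain ⟨T, hT⟩ : ∃ T : E d →L[ℝ] E d, ∀ y, T y = ∑ i ∈ Fᶜ,
      (y i) • EuclideanSpace.single i (1 : ℝ) := by
    refine ⟨∑ i ∈ Fᶜ, (EuclideanSpace.proj i : E d →L[ℝ] ℝ).smulRight
      (EuclideanSpace.single i (1 : ℝ)), fun y => ?_⟩
    rw [sum_apply]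
    rfl
  have hdec : ∀ y : E d, (1 / (d : ℝ)) • y =
      (∑ i ∈ F, (1 / (d : ℝ) * y i) • EuclideanSpace.single i (1 : ℝ)) +
        (1 / (d : ℝ)) • T y := by
    intro y
    have h1 : y = ∑ i, (y i) • EuclideanSpace.single i (1 : ℝ) := by
      have := (EuclideanSpace.basisFun (Fin d) ℝ).sum_repr y
      simpa using this.symm
    have h2 : ∑ i ∈ F, (1 / (d : ℝ) * y i) • EuclideanSpace.single i (1 : ℝ) =
        (1 / (d : ℝ)) • ∑ i ∈ F, (y i) • EuclideanSpace.single i (1 : ℝ) := by
      rw [Finset.smul_sum]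
      refine Finset.sum_congr rfl fun i _ => ?_
      rw [smul_smul]
    rw [h2, ← smul_add, hT, Finset.sum_add_sum_compl, ← h1]
  have hpt : ∀ y : E d, loss K ((1 / (d : ℝ)) • y) ≤
      (∑ i ∈ F, loss K ((1 / (d : ℝ) * y i) • EuclideanSpace.single i (1 : ℝ))) +
        loss K ((1 / (d : ℝ)) • T y) := by
    intro y
    rw [hdec y]
    refine (hladd _ _).trans ?_
    have := Finset.le_sum_of_subadditive (loss K) hlz.le (fun u v => hladd u v) F
      (fun i => (1 / (d : ℝ) * y i) • EuclideanSpace.single i (1 : ℝ))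
    linarith
  have hI : ∀ g : E d → E d, Continuous g →
      Integrable (fun y => loss K (g y)) (volume.restrict K) := by
    intro g hg
    refine Integrable.of_bound (C := V) ?_ ?_
    · exact (hlmeas.comp hg.measurable).aestronglyMeasurable
    · refine Eventually.of_forall fun y => ?_
      rw [Real.norm_eq_abs, abs_of_nonneg (hl0 _).1, hV]
      exact (hl0 _).2
  have hIi : ∀ i : Fin d, Integrable (fun y : E d =>
      loss K ((1 / (d : ℝ) * y i) • EuclideanSpace.single i (1 : ℝ))) (volume.restrict K) := by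
    intro i
    exact hI _ (by fun_prop)
  have hIT : Integrable (fun y : E d => loss K ((1 / (d : ℝ)) • T y)) (volume.restrict K) :=
    hI _ (by fun_prop)
  have hmain : volume.real (esc K (1 / (d : ℝ))) ≤ (F.card : ℝ) * (1 / (d : ℝ) * V ^ 2) +
      ∫ y in K, loss K ((1 / (d : ℝ)) • T y) := by
    rw [← (hesc (1 / (d : ℝ))).2]
    calc ∫ y in K, loss K ((1 / (d : ℝ)) • y)
        ≤ ∫ y in K, ((∑ i ∈ F, loss K ((1 / (d : ℝ) * y i) •
            EuclideanSpace.single i (1 : ℝ))) + loss K ((1 / (d : ℝ)) • T y)) := by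
          apply integral_mono (hI _ (by fun_prop)) _ hpt
          exact (integrable_finsetSum _ fun i _ => hIi i).add hIT
      _ = (∑ i ∈ F, ∫ y in K, loss K ((1 / (d : ℝ) * y i) •
            EuclideanSpace.single i (1 : ℝ))) + ∫ y in K, loss K ((1 / (d : ℝ)) • T y) := by
          rw [integral_add (integrable_finsetSum _ fun i _ => hIi i) hIT,
            integral_finsetSum _ fun i _ => hIi i]
      _ ≤ _ := by
          gcongr
          calc _ ≤ ∑ i ∈ F, 1 / (d : ℝ) * V ^ 2 := by
                apply Finset.sum_le_sum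
                intro i _
                have := hH d K i (1 / (d : ℝ)) hconv hcomp hint hU (by positivity)
                rw [← hV] at this
                exact this
            _ = _ := by rw [Finset.sum_const, nsmul_eq_mul]
  -- the last term
  have hhyp : ∀ (θ : E d) (c : ℝ), (∀ w ∈ (1 / A) • K, inner ℝ θ w ≤ c) →
      ∫ y in K, |inner ℝ θ (T y)| ≤ c * volume.real K := by
    intro θ c hc
    rw [← hV]
    have hnc : ‖θ‖ / A ≤ c := by
      have h1 : (1 / A) • (‖θ‖⁻¹ • θ) ∈ (1 / A) • K := by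
        apply smul_mem_smul_set
        apply hball
        rw [mem_closedBall_zero_iff, norm_smul, norm_inv, norm_norm]
        exact inv_mul_le_one
      have h2 := hc _ h1
      rw [real_inner_smul_right, real_inner_smul_right, real_inner_self_eq_norm_sq] at h2
      rcases eq_or_ne ‖θ‖ 0 with h3 | h3
      · rw [h3] at h2 ⊢
        simpa using h2
      · have h4 : 1 / A * (‖θ‖⁻¹ * ‖θ‖ ^ 2) = ‖θ‖ / A := by
          field_simp
        rw [h4] at h2
        exact h2
    have hinner : ∀ y : E d, inner ℝ θ (T y) = ∑ i ∈ Fᶜ, θ i * y i := by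
      intro y
      rw [hT, inner_sum]
      refine Finset.sum_congr rfl fun i _ => ?_
      rw [real_inner_smul_right, EuclideanSpace.inner_single_right]
      simp
      ring
    have hsq : ∫ y in K, (inner ℝ θ (T y)) ^ 2 ≤ ‖θ‖ ^ 2 * (V / A ^ 2) := by
      simp only [hinner]
      rw [UNC_.quad hcomp hU]
      calc ∑ i ∈ Fᶜ, θ i ^ 2 * ∫ y in K, (y i) ^ 2 ≤ ∑ i ∈ Fᶜ, θ i ^ 2 * (V / A ^ 2) := by
            apply Finset.sum_le_sum
            intro i hi
            apply mul_le_mul_of_nonneg_left _ (sq_nonneg _)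
            rw [Finset.mem_compl, hF, Finset.mem_filter, not_and, not_le] at hi
            have h1 := hi (Finset.mem_univ _)
            rw [le_div_iff₀ (by positivity)]
            rw [hm] at h1
            change A ^ 2 * ∫ y in K, (y i) ^ 2 < V at h1
            linarith
        _ ≤ ∑ i, θ i ^ 2 * (V / A ^ 2) := by
            apply Finset.sum_le_sum_of_subset_of_nonneg (Finset.subset_univ _)
            intro i _ _
            positivity
        _ = _ := by
            rw [← Finset.sum_mul, ← EuclideanSpace.real_norm_sq_eq]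
    have hicont : Continuous fun y : E d => (inner ℝ θ (T y) : ℝ) := by fun_prop
    rcases eq_or_lt_of_le (norm_nonneg θ) with h3 | h3
    · have h4 : θ = 0 := by
        rw [← norm_eq_zero]
        exact h3.symm
      have h5 : 0 ≤ c := by
        rw [← h3, zero_div] at hnc
        exact hnc
      rw [h4]
      simp only [inner_zero_left, abs_zero, integral_zero]
      positivity
    · obtain ⟨r, hr⟩ : ∃ r : ℝ, r = A / ‖θ‖ := ⟨_, rfl⟩
      have hr0 : 0 < r := by rw [hr]; positivity
      have h5 : ∀ y : E d, |inner ℝ θ (T y)| ≤ r / 2 * (inner ℝ θ (T y)) ^ 2 + 1 / (2 * r) := by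
        intro y
        obtain ⟨u, hu⟩ : ∃ u : ℝ, u = |inner ℝ θ (T y)| := ⟨_, rfl⟩
        rw [← sq_abs, ← hu]
        have h6 : 0 ≤ (r * u - 1) ^ 2 := sq_nonneg _
        have h7 : r / 2 * u ^ 2 + 1 / (2 * r) - u = (r * u - 1) ^ 2 / (2 * r) := by
          field_simp
          ring
        have h8 : 0 ≤ (r * u - 1) ^ 2 / (2 * r) := by positivity
        linarith
      have h9 : ∫ y in K, |inner ℝ θ (T y)| ≤
          r / 2 * (∫ y in K, (inner ℝ θ (T y)) ^ 2) + 1 / (2 * r) * V := by
        have h6 : ∫ y in K, |inner ℝ θ (T y)| ≤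
            ∫ y in K, (r / 2 * (inner ℝ θ (T y)) ^ 2 + 1 / (2 * r)) :=
          integral_mono (UNC_.integrable_of_cont hcomp (by fun_prop))
            (UNC_.integrable_of_cont hcomp (by fun_prop)) h5
        rw [integral_add (UNC_.integrable_of_cont hcomp (by fun_prop)) (integrable_const _),
          integral_const_mul, setIntegral_const, ← hV, smul_eq_mul] at h6
        linarith
      have h10 : r / 2 * (∫ y in K, (inner ℝ θ (T y)) ^ 2) ≤
          r / 2 * (‖θ‖ ^ 2 * (V / A ^ 2)) := mul_le_mul_of_nonneg_left hsq (by positivity)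
      have h11 : r / 2 * (‖θ‖ ^ 2 * (V / A ^ 2)) + 1 / (2 * r) * V = ‖θ‖ / A * V := by
        rw [hr]
        field_simp
        ring
      have h12 : ‖θ‖ / A * V ≤ c * V := mul_le_mul_of_nonneg_right hnc hVpos.le
      linarith
  have hle : ∀ ε : ℝ, 0 < ε → 2 * ∫ y in K, loss K ((1 / (d : ℝ)) • T y) ≤
      V ^ 2 * ((1 / (d : ℝ) / ε + 2) * ((1 + ε / A) ^ d - 1)) := by
    intro ε hε
    have h1 := hG d K ((1 / A) • K) T (1 / (d : ℝ)) ε hconv hcomp hint (hconv.smul _)
      (hcomp.smul _) (by
        rw [interior_smul₀ (by positivity)]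
        exact ⟨0, hint0, smul_zero _⟩) (by positivity) hε hhyp
    rw [UNC_.vol_add hA hε hconv, ← hV] at h1
    refine h1.trans (le_of_eq ?_)
    ring
  have hlim := (UNC_.lim hA hd).const_mul (V ^ 2)
  have hfinal : 2 * ∫ y in K, loss K ((1 / (d : ℝ)) • T y) ≤ V ^ 2 * (1 / A) := by
    refine ge_of_tendsto hlim ?_
    filter_upwards [self_mem_nhdsWithin] with ε hε
    exact hle ε hε
  have h10 : (F.card : ℝ) * (1 / (d : ℝ) * V ^ 2) ≤ A ^ 2 * D ^ 2 * (1 / (d : ℝ) * V ^ 2) :=
    mul_le_mul_of_nonneg_right hFcard (by positivity)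
  have h11 : (A ^ 2 * D ^ 2 / d + 1 / (2 * A)) * V ^ 2 =
      A ^ 2 * D ^ 2 * (1 / (d : ℝ) * V ^ 2) + V ^ 2 * (1 / A) / 2 := by
    field_simp
  rw [h11]
  linarith

end Pool.Agent.Ovl
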