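import Mathlib
import Pool.Agent.Ovl.POW2
import Pool.Agent.Ovl.POW3
import Pool.Agent.Ovl.SUR
import Pool.Agent.Ovl.UNC
import Pool.Agent.Ovl.WID
import Pool.Agent.Ovl.ROB2
import Pool.Agent.Ovl.MAS2
import Pool.Agent.Ovl.CORE2
import Pool.Agent.Ovl.COV
import Pool.Agent.Ovl.TAIL
import Pool.Agent.Ovl.GRA
import Pool.Agent.Ovl.LIP
import Pool.Agent.Ovl.DST
import Pool.Agent.Ovl.LEV
import Pool.Agent.Ovl.SYMB
import Pool.Agent.Ovl.LOSS
import Pool.Agent.Ovl.HSP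
import Pool.Agent.HRL.EN
import Pool.Agent.HRL.TR
import Pool.Agent.HRP.GRD
import Pool.Agent.Rog.BMI
import Pool.Agent.ShadowA.PLB

/-!
# Hadwiger's covering problem and small translations of random points: assembly
-/

set_option autoImplicit false

open MeasureTheory Set Filter
open scoped Pointwise Topology

namespace Pool.Agent.Ovl

open Pool.Agent.Rog (E)

theorem t_LEV : T_LEV := p_LEV p_LOSS Pool.Agent.Rog.p_BMI

theorem t_ROB2 : T_ROB2 :=
  p_ROB2 (p_COV p_SYMB Pool.Agent.HRP.p_GRD)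
    (p_CORE2 p_LOSS t_LEV Pool.Agent.HRL.p_EN Pool.Agent.HRL.p_TR)

theorem t_MAS2 : T_MAS2 := p_MAS2 p_LOSS t_ROB2 (p_TAIL p_LOSS Pool.Agent.ShadowA.p_PLB)

theorem t_POW2 : T_POW2 := p_POW2 t_MAS2

theorem t_POW3 : T_POW3 := p_POW3 p_LOSS t_ROB2

theorem t_GRA : T_GRA := p_GRA p_LOSS p_LIP p_DST

theorem t_WID : T_WID := p_WID p_LOSS t_GRA

theorem t_SUR : T_SUR := p_SUR p_LOSS t_GRA

theorem t_UNC : T_UNC := p_UNC p_LOSS (p_HSP p_LOSS Pool.Agent.Rog.p_BMI) t_GRA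

/-- The overlap is the complement of the loss. -/
lemma overlap {d : ℕ} {K : Set (E d)} (hc : IsCompact K) (v : E d) :
    volume.real {x | x ∈ K ∧ x + v ∈ K} = volume.real K - loss K v := by
  have h1 : {x | x ∈ K ∧ x + v ∈ K} = K \ {x | x ∈ K ∧ x + v ∉ K} := by
    ext x
    simp only [mem_setOf_eq, mem_diff, not_and, not_not]
    tauto
  have hm : MeasurableSet {x | x ∈ K ∧ x + v ∉ K} :=
    hc.measurableSet.inter ((hc.measurableSet.preimage (measurable_add_const v)).compl)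
  rw [h1, measureReal_diff (fun x hx => hx.1) hm (hc.measure_lt_top.ne)]
  rfl

/-- Tail form. -/
theorem tail {d : ℕ} {Θ s ω : ℝ} {K : Set (E d)} (hd : 2 ≤ d) (hΘ : 1 ≤ Θ) (hs : 0 ≤ s)
    (hs1 : s ≤ 1) (hω : 0 < ω) (hω1 : ω ≤ 1) (h9 : 9 * Θ * Real.exp (-(s * d / 6)) ≤ ω ^ 2)
    (hK : Convex ℝ K) (hc : IsCompact K) (hi : (interior K).Nonempty)
    (h : volume.real {y | y ∈ K ∧ volume.real {x | x ∈ K ∧ x + s • y ∈ K} <
      ω * volume.real K} * (256 * Θ) ≤ volume.real K) :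
    Cov K (1 + Real.exp 1 * 2 ^ d / Θ * (d * Real.log (8 * d + 2))) := by
  refine t_ROB2 d Θ s ω K hd hΘ hs hs1 hω hω1 h9 hK hc hi ?_
  have h1 : {y | y ∈ K ∧ (1 - ω) * volume.real K < loss K (s • y)} =
      {y | y ∈ K ∧ volume.real {x | x ∈ K ∧ x + s • y ∈ K} < ω * volume.real K} := by
    ext y
    simp only [mem_setOf_eq]
    rw [overlap hc]
    constructor
    · rintro ⟨h1, h2⟩
      exact ⟨h1, by linarith⟩
    · rintro ⟨h1, h2⟩
      exact ⟨h1, by linarith⟩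
  rw [h1]
  exact h

/-- Positive volume. -/
lemma vol_pos {d : ℕ} {K : Set (E d)} (hc : IsCompact K) (hi : (interior K).Nonempty) :
    0 < volume.real K := by
  rw [measureReal_def]
  refine ENNReal.toReal_pos ?_ hc.measure_lt_top.ne
  intro h
  exact (isOpen_interior.measure_pos volume hi).ne' (measure_mono_null interior_subset h)

/-- Surface area form. -/
theorem surf {d : ℕ} {σ S : ℝ} {K : Set (E d)} (hd : 100 ≤ d) (hσ : 0 < σ)
    (hK : Convex ℝ K) (hc : IsCompact K) (hi : (interior K).Nonempty)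
    (h1 : ∀ θ : E d, ∫ y in K, (inner ℝ θ y) ^ 2 ≤ σ ^ 2 * ‖θ‖ ^ 2 * volume.real K)
    (h2 : Tendsto (fun ε : ℝ => (volume.real (Metric.cthickening ε K) - volume.real K) / ε)
      (𝓝[>] 0) (𝓝 S))
    (h3 : 800 * Real.log d ^ 2 * (σ * S) ≤ d * volume.real K) : Cov K (2 ^ d) := by
  have hd0 : (0 : ℝ) < d := by
    have : (100 : ℝ) ≤ d := by exact_mod_cast hd
    linarith
  refine t_POW2 d K hd hK hc hi ?_
  have h4 := t_SUR d σ S K (by omega) hσ hK hc hi h1 h2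
  have hK0 := vol_pos hc hi
  have h5 : 800 * Real.log d ^ 2 * (2 * d * volume.real (esc K (1 / (d : ℝ)))) ≤
      d * volume.real K ^ 2 := by
    calc 800 * Real.log d ^ 2 * (2 * d * volume.real (esc K (1 / (d : ℝ))))
        ≤ 800 * Real.log d ^ 2 * (σ * S * volume.real K) := by gcongr
      _ = (800 * Real.log d ^ 2 * (σ * S)) * volume.real K := by ring
      _ ≤ (d * volume.real K) * volume.real K := by gcongr
      _ = _ := by ring
  have h6 : d * (1600 * Real.log d ^ 2 * volume.real (esc K (1 / (d : ℝ)))) ≤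
      d * volume.real K ^ 2 := by linarith
  exact le_of_mul_le_mul_left h6 hd0

/-- Width form. -/
theorem width {d : ℕ} {K : Set (E d)} (hd : 100 ≤ d)
    (hK : Convex ℝ K) (hc : IsCompact K) (hi : (0 : E d) ∈ interior K)
    (h : ∀ θ : E d, ∃ k ∈ K, 0 ≤ inner ℝ θ k ∧
      (800 * Real.log d ^ 2) ^ 2 * ∫ y in K, (inner ℝ θ y) ^ 2 ≤
        volume.real K * (inner ℝ θ k) ^ 2) : Cov K (2 ^ d) := by
  have hd1 : (100 : ℝ) ≤ d := by exact_mod_cast hd
  have hlog : 0 < Real.log d := Real.log_pos (by linarith)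
  refine t_POW2 d K hd hK hc ⟨0, hi⟩ ?_
  have h4 := t_WID d (800 * Real.log d ^ 2) K (by omega) (by positivity) hK hc hi h
  calc 1600 * Real.log d ^ 2 * volume.real (esc K (1 / (d : ℝ)))
      = 2 * (800 * Real.log d ^ 2) * volume.real (esc K (1 / (d : ℝ))) := by ring
    _ ≤ _ := h4

/-- Unconditional bodies. -/
theorem uncond {d : ℕ} {D : ℝ} {K : Set (E d)} (hd : 100 ≤ d)
    (hK : Convex ℝ K) (hc : IsCompact K) (hu : Unc K) (h1 : Metric.closedBall 0 1 ⊆ K)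
    (h2 : K ⊆ Metric.closedBall 0 D) (h3 : 10 ^ 5 * Real.log d ^ 3 * D ≤ √d) :
    Cov K (2 ^ d) := by
  have hd1 : (100 : ℝ) ≤ d := by exact_mod_cast hd
  have hd0 : (0 : ℝ) < d := by linarith
  have hlog : 0 < Real.log d := Real.log_pos (by linarith)
  have hi : (interior K).Nonempty := by
    refine ⟨0, interior_mono h1 ?_⟩
    rw [mem_interior_iff_mem_nhds]
    exact Metric.closedBall_mem_nhds _ one_pos
  refine t_POW2 d K hd hK hc hi ?_
  have h4 := t_UNC d (1600 * Real.log d ^ 2) D K (by omega) (by positivity) hK hc hu h1 h2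
  have hD : 0 ≤ D := by
    have h5 : (0 : E d) ∈ Metric.closedBall (0 : E d) D :=
      h2 (h1 (Metric.mem_closedBall_self zero_le_one))
    rw [Metric.mem_closedBall, dist_self] at h5
    exact h5
  have h6 : (10 ^ 5 * Real.log d ^ 3 * D) ^ 2 ≤ (d : ℝ) := by
    calc (10 ^ 5 * Real.log d ^ 3 * D) ^ 2 ≤ (√(d : ℝ)) ^ 2 := by gcongr
      _ = (d : ℝ) := Real.sq_sqrt hd0.le
  have h7 : 1600 * Real.log d ^ 2 * ((1600 * Real.log d ^ 2) ^ 2 * D ^ 2 / d +
      1 / (2 * (1600 * Real.log d ^ 2))) ≤ 1 := by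
    have h8 : 1600 * Real.log d ^ 2 * (1 / (2 * (1600 * Real.log d ^ 2))) = 1 / 2 := by
      field_simp
    have h9 : 1600 * Real.log d ^ 2 * ((1600 * Real.log d ^ 2) ^ 2 * D ^ 2 / d) ≤ 1 / 2 := by
      rw [← mul_div_assoc, div_le_div_iff₀ hd0 two_pos]
      nlinarith [sq_nonneg (Real.log d ^ 3 * D)]
    rw [mul_add, h8]
    linarith
  calc 1600 * Real.log d ^ 2 * volume.real (esc K (1 / (d : ℝ)))
      ≤ 1600 * Real.log d ^ 2 * (((1600 * Real.log d ^ 2) ^ 2 * D ^ 2 / d +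
        1 / (2 * (1600 * Real.log d ^ 2))) * volume.real K ^ 2) := by gcongr
    _ = (1600 * Real.log d ^ 2 * ((1600 * Real.log d ^ 2) ^ 2 * D ^ 2 / d +
        1 / (2 * (1600 * Real.log d ^ 2)))) * volume.real K ^ 2 := by ring
    _ ≤ 1 * volume.real K ^ 2 := by gcongr
    _ = _ := one_mul _

end Pool.Agent.Ovl
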