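import Pool.Agent.Ovl.Targets7
import Pool.Agent.Ovl.LOSS

/-!
# The norm form, symmetric bodies (job OVL-NRM)
-/

set_option autoImplicit false

open MeasureTheory Set Filter
open scoped Pointwise Topology

namespace Pool.Agent.Ovl

open Pool.Agent.Rog (E SymBody)

namespace NRM_

lemma neg_mem_smul {d : ℕ} {K : Set (E d)} (hK : SymBody K) (c : ℝ) {z : E d}
    (hz : z ∈ c • K) : -z ∈ c • K := by
  rw [Set.mem_smul_set] at hz ⊢
  obtain ⟨k, hk, rfl⟩ := hz
  exact ⟨-k, hK.symm k hk, by rw [smul_neg]⟩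

lemma vol_sub {d : ℕ} {K : Set (E d)} (hK : SymBody K) (c : ℝ) (u : E d) :
    volume.real {x | x ∈ K ∧ x - u ∉ c • K} = volume.real {x | x ∈ K ∧ x + u ∉ c • K} := by
  have h : {x | x ∈ K ∧ x - u ∉ c • K} = -{x | x ∈ K ∧ x + u ∉ c • K} := by
    ext x
    simp only [Set.mem_neg, mem_setOf_eq]
    constructor
    · rintro ⟨h1, h2⟩
      refine ⟨hK.symm x h1, fun h3 => h2 ?_⟩
      have h4 := neg_mem_smul hK c h3
      have h5 : -(-x + u) = x - u := by abel
      rwa [h5] at h4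
    · rintro ⟨h1, h2⟩
      refine ⟨by simpa using hK.symm (-x) h1, fun h3 => h2 ?_⟩
      have h4 := neg_mem_smul hK c h3
      have h5 : -(x - u) = -x + u := by abel
      rwa [h5] at h4
  rw [h, measureReal_def, measureReal_def, Measure.measure_neg]

lemma cK_closed {d : ℕ} {K : Set (E d)} (hK : SymBody K) (c : ℝ) : IsClosed (c • K) :=
  (hK.cpt.smul c).isClosed

/-- The overlap for the good directions. -/
lemma overlap {d : ℕ} {K : Set (E d)} (hK : SymBody K) (c t : ℝ) (hc : 1 ≤ c) (y : E d)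
    (hB : volume.real {x | x ∈ K ∧ x + t • y ∉ c • K} ≤ volume.real K / 4) :
    1 / (2 * c ^ d) * volume.real K ≤ volume.real {x | x ∈ K ∧ x + (2 * t / c) • y ∈ K} := by
  have hKc : IsCompact K := hK.cpt
  have hKm : MeasurableSet K := hKc.measurableSet
  have hcm : MeasurableSet (c • K) := (cK_closed hK c).measurableSet
  have hc0 : 0 < c := by linarith
  obtain ⟨u, hu⟩ : ∃ u : E d, u = t • y := ⟨_, rfl⟩
  rw [← hu] at hB
  have hB2 := vol_sub hK c u
  obtain ⟨A, hA⟩ : ∃ A : Set (E d), A = {x | x ∈ K ∧ x + u ∈ c • K ∧ x - u ∈ c • K} := ⟨_, rfl⟩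
  have hAK : A ⊆ K := by
    rw [hA]
    exact fun x hx => hx.1
  have hAfin : volume A ≠ ⊤ := ((measure_mono hAK).trans_lt hKc.measure_lt_top).ne
  have hcov : K ⊆ A ∪ ({x | x ∈ K ∧ x + u ∉ c • K} ∪ {x | x ∈ K ∧ x - u ∉ c • K}) := by
    intro x hx
    by_cases h1 : x + u ∈ c • K
    · by_cases h2 : x - u ∈ c • K
      · left
        rw [hA]
        exact ⟨hx, h1, h2⟩
      · right; right
        exact ⟨hx, h2⟩
    · right; left
      exact ⟨hx, h1⟩
  have hfin2 : volume (A ∪ ({x | x ∈ K ∧ x + u ∉ c • K} ∪ {x | x ∈ K ∧ x - u ∉ c • K})) ≠ ⊤ := by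
    refine ((measure_mono ?_).trans_lt hKc.measure_lt_top).ne
    intro x hx
    rcases hx with hx | hx | hx
    · exact hAK hx
    · exact hx.1
    · exact hx.1
  have h1 : volume.real K ≤ volume.real A + (volume.real {x | x ∈ K ∧ x + u ∉ c • K} +
      volume.real {x | x ∈ K ∧ x - u ∉ c • K}) :=
    (measureReal_mono hcov hfin2).trans ((measureReal_union_le _ _).trans
      (by gcongr; exact measureReal_union_le _ _))
  have hAhalf : volume.real K / 2 ≤ volume.real A := by linarith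
  -- the map
  have hsub : c⁻¹ • ((fun x => x + u) ⁻¹' A) ⊆ {x | x ∈ K ∧ x + (2 * t / c) • y ∈ K} := by
    intro z hz
    rw [Set.mem_smul_set] at hz
    obtain ⟨w, hw, rfl⟩ := hz
    rw [mem_preimage, hA] at hw
    obtain ⟨-, h2, h3⟩ := hw
    have h4 : w + u - u = w := by abel
    rw [h4] at h3
    rw [Set.mem_smul_set] at h2 h3
    obtain ⟨k2, hk2, e2⟩ := h2
    obtain ⟨k3, hk3, e3⟩ := h3
    refine ⟨?_, ?_⟩
    · rw [← e3, inv_smul_smul₀ hc0.ne']
      exact hk3
    · have h5 : c⁻¹ • w + (2 * t / c) • y = k2 := by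
        have h6 : (2 * t / c) • y = c⁻¹ • (u + u) := by
          rw [hu, ← two_smul ℝ (t • y), smul_smul, smul_smul]
          congr 1
          field_simp
        rw [h6, ← smul_add, ← add_assoc, ← e2, inv_smul_smul₀ hc0.ne']
      rw [h5]
      exact hk2
  have hfin3 : volume {x | x ∈ K ∧ x + (2 * t / c) • y ∈ K} ≠ ⊤ := LOSS_.vol_ne_top hKc _
  have h2 := measureReal_mono hsub hfin3
  have h3 : volume.real (c⁻¹ • ((fun x => x + u) ⁻¹' A)) = (c⁻¹) ^ d * volume.real A := by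
    rw [measureReal_def, Measure.addHaar_smul, ENNReal.toReal_mul, finrank_euclideanSpace_fin,
      abs_of_nonneg (by positivity), ENNReal.toReal_ofReal (by positivity)]
    congr 1
    exact LOSS_.real_preimage_add A u
  rw [h3] at h2
  refine le_trans ?_ h2
  have h4 : 1 / (2 * c ^ d) * volume.real K = (c⁻¹) ^ d * (volume.real K / 2) := by
    rw [inv_pow]
    field_simp
  rw [h4]
  exact mul_le_mul_of_nonneg_left hAhalf (by positivity)

/-- Markov's inequality. -/
lemma markov {d : ℕ} {K : Set (E d)} (hK : SymBody K) (c t : ℝ) :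
    volume.real K / 4 * volume.real {y | y ∈ K ∧ volume.real K / 4 <
      volume.real {x | x ∈ K ∧ x + t • y ∉ c • K}} ≤
    volume.real {p : E d × E d | p.1 ∈ K ∧ p.2 ∈ K ∧ p.1 + t • p.2 ∉ c • K} := by
  have hKc : IsCompact K := hK.cpt
  have hKm : MeasurableSet K := hKc.measurableSet
  have hcm : MeasurableSet (c • K) := (cK_closed hK c).measurableSet
  obtain ⟨F, hF⟩ : ∃ F : Set (E d × E d), F = {p : E d × E d | p.1 ∈ K ∧ p.2 ∈ K ∧
    p.1 + t • p.2 ∉ c • K} := ⟨_, rfl⟩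
  have hFm : MeasurableSet F := by
    rw [hF]
    refine (measurable_fst hKm).inter ((measurable_snd hKm).inter ?_)
    have hcont : Continuous (fun p : E d × E d => p.1 + t • p.2) := by fun_prop
    exact (hcont.measurable hcm).compl
  have hFfin : volume F ≠ ⊤ := by
    refine ((measure_mono (t := K ×ˢ K) ?_).trans_lt (hKc.prod hKc).measure_lt_top).ne
    rw [hF]
    exact fun p hp => ⟨hp.1, hp.2.1⟩
  have h1 : volume F = ∫⁻ y, volume ((fun x => (x, y)) ⁻¹' F) := by
    rw [Measure.volume_eq_prod, Measure.prod_apply_symm hFm]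
  have hmeas : Measurable (fun y : E d => volume ((fun x : E d => (x, y)) ⁻¹' F)) :=
    measurable_measure_prodMk_right hFm
  have h2 := mul_meas_ge_le_lintegral (μ := (volume : Measure (E d))) hmeas
    (ENNReal.ofReal (volume.real K / 4))
  rw [← h1] at h2
  have hsub : {y | y ∈ K ∧ volume.real K / 4 <
      volume.real {x | x ∈ K ∧ x + t • y ∉ c • K}} ⊆
      {y | ENNReal.ofReal (volume.real K / 4) ≤ volume ((fun x : E d => (x, y)) ⁻¹' F)} := by
    rintro y ⟨hy, hy2⟩
    have h3 : (fun x : E d => (x, y)) ⁻¹' F = {x | x ∈ K ∧ x + t • y ∉ c • K} := by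
      ext x
      rw [hF]
      simp only [mem_preimage, mem_setOf_eq]
      tauto
    rw [mem_setOf_eq, h3]
    exact ENNReal.ofReal_le_of_le_toReal hy2.le
  have h4 : ENNReal.ofReal (volume.real K / 4) * volume {y | y ∈ K ∧ volume.real K / 4 <
      volume.real {x | x ∈ K ∧ x + t • y ∉ c • K}} ≤ volume F :=
    (mul_le_mul_right (measure_mono hsub) _).trans h2
  have h5 := ENNReal.toReal_mono hFfin h4
  rw [ENNReal.toReal_mul, ENNReal.toReal_ofReal (by positivity), hF] at h5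
  exact h5

end NRM_

open NRM_

theorem p_NRM (_ : T_LOSS) (hS : T_SYM3) : T_NRM := by
  intro d t K hd htd ht2 hK hfail
  have hd' : (400 : ℝ) ≤ d := by exact_mod_cast hd
  have hd0 : (0 : ℝ) < d := by linarith
  have hKc : IsCompact K := hK.cpt
  have hVpos : 0 < volume.real K :=
    ENNReal.toReal_pos (Measure.measure_pos_of_nonempty_interior _ hK.int).ne'
      hKc.measure_lt_top.ne
  have he1 : Real.exp 1 < 2.7182818286 := Real.exp_one_lt_d9
  have he2 : 2.7182818283 < Real.exp 1 := Real.exp_one_gt_d9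
  have hl2 : Real.log 2 < 0.6931471808 := Real.log_two_lt_d9
  have hlogd : 0 < Real.log d := Real.log_pos (by linarith)
  -- the logarithm
  obtain ⟨l, hl⟩ : ∃ l : ℝ, l = Real.log (8 * d + 2) := ⟨_, rfl⟩
  have h8 : (0 : ℝ) < 8 * d + 2 := by positivity
  have hl_up : l ≤ 10 * Real.log 2 + ((8 * d + 2) / 1024 - 1) := by
    have h1 := Real.log_le_sub_one_of_pos (x := (8 * d + 2) / 1024) (by positivity)
    rw [Real.log_div h8.ne' (by norm_num)] at h1
    have h2 : Real.log 1024 = 10 * Real.log 2 := by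
      rw [show (1024 : ℝ) = 2 ^ 10 by norm_num, Real.log_pow]
      norm_num
    rw [hl]
    linarith
  have hl_low : 1 ≤ l := by
    rw [hl, Real.le_log_iff_exp_le h8]
    linarith
  have hkey : 27 * l ≤ (d : ℝ) := by linarith
  obtain ⟨Θ, hΘ⟩ : ∃ Θ : ℝ, Θ = 3 * d * l := ⟨_, rfl⟩
  have hΘ1 : 1 ≤ Θ := by
    rw [hΘ]
    nlinarith
  have hΘd : 9 * Θ ≤ (d : ℝ) ^ 2 := by
    have h1 := mul_le_mul_of_nonneg_left hkey hd0.le
    rw [hΘ]
    nlinarith
  -- the constants
  obtain ⟨δ, hδ⟩ : ∃ δ : ℝ, δ = 2 * Real.log d / d := ⟨_, rfl⟩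
  have hδd : δ * d = 2 * Real.log d := by
    rw [hδ]
    field_simp
  obtain ⟨c, hc⟩ : ∃ c : ℝ, c = 1 + t / 2 - δ := ⟨_, rfl⟩
  have hδ0 : 0 < δ := by
    rw [hδ]
    positivity
  have htδ : 2 * δ ≤ t := by
    have h1 : 2 * δ * d ≤ t * d := by linarith
    exact le_of_mul_le_mul_right h1 hd0
  have hc1 : 1 ≤ c := by
    rw [hc]
    linarith
  have hc0 : 0 < c := by linarith
  have ht0 : 0 < t := by linarith
  have hs0 : 0 ≤ 2 * t / c := by positivity
  have hs1 : 2 * t / c ≤ 1 := by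
    rw [div_le_one hc0]
    linarith
  -- the condition on ω
  have hω : 3 * Θ * (1 - 2 * t / c / 4) ^ d ≤ 1 / (2 * c ^ d) := by
    rw [le_div_iff₀ (by positivity)]
    have h1 : 3 * Θ * (1 - 2 * t / c / 4) ^ d * (2 * c ^ d) =
        6 * Θ * (1 - δ) ^ d := by
      have h21 : t / c * c = t := div_mul_cancel₀ t hc0.ne'
      have h2 : (1 - 2 * t / c / 4) * c = 1 - δ := by
        have h22 : (1 - 2 * t / c / 4) * c = c - t / c * c / 2 := by ring
        rw [h22, h21, hc]
        ring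
      rw [← h2, mul_pow]
      ring
    rw [h1]
    have h3 : (1 - δ) ^ d ≤ 1 / (d : ℝ) ^ 2 := by
      have h4 : 1 - δ ≤ Real.exp (-δ) := by
        have := Real.add_one_le_exp (-δ)
        linarith
      have h5 : 0 ≤ 1 - δ := by linarith
      calc (1 - δ) ^ d ≤ (Real.exp (-δ)) ^ d := pow_le_pow_left₀ h5 h4 d
        _ = Real.exp (-(Real.log d * 2)) := by
            rw [← Real.exp_nat_mul]
            congr 1
            linarith
        _ = 1 / (d : ℝ) ^ 2 := by
            rw [Real.exp_neg, Real.exp_mul, Real.exp_log hd0, Real.rpow_two, one_div]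
    have h6 : 6 * Θ * (1 - δ) ^ d ≤ 6 * Θ * (1 / (d : ℝ) ^ 2) :=
      mul_le_mul_of_nonneg_left h3 (by linarith)
    refine h6.trans ?_
    rw [mul_one_div, div_le_one (by positivity)]
    linarith
  -- the tail
  have hmk := markov hK c t
  have hfail2 : volume.real {p : E d × E d | p.1 ∈ K ∧ p.2 ∈ K ∧ p.1 + t • p.2 ∉ c • K} *
      (2 * (d : ℝ) ^ 2) ≤ volume.real K ^ 2 := by
    rw [hc, hδ]
    exact hfail
  have hsub : {y | y ∈ K ∧ (1 - 1 / (2 * c ^ d)) * volume.real K <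
      loss K ((2 * t / c) • y)} ⊆ {y | y ∈ K ∧ volume.real K / 4 <
      volume.real {x | x ∈ K ∧ x + t • y ∉ c • K}} := by
    rintro y ⟨hy, hy2⟩
    refine ⟨hy, ?_⟩
    by_contra hcon
    rw [not_lt] at hcon
    have h1 := overlap hK c t hc1 y hcon
    rw [LOSS_.loss_eq hKc] at hy2
    linarith
  have hfinB : volume {y | y ∈ K ∧ volume.real K / 4 <
      volume.real {x | x ∈ K ∧ x + t • y ∉ c • K}} ≠ ⊤ := LOSS_.vol_ne_top hKc _
  have hmono := measureReal_mono hsub hfinB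
  have htail : volume.real {y | y ∈ K ∧ (1 - 1 / (2 * c ^ d)) * volume.real K <
      loss K ((2 * t / c) • y)} * (4 * Θ) ≤ volume.real K := by
    obtain ⟨b, hb⟩ : ∃ b : ℝ, b = volume.real {y | y ∈ K ∧ volume.real K / 4 <
      volume.real {x | x ∈ K ∧ x + t • y ∉ c • K}} := ⟨_, rfl⟩
    rw [← hb] at hmono hmk
    have hb0 : 0 ≤ b := by
      rw [hb]
      exact measureReal_nonneg
    have h1 : volume.real K * (b * (d : ℝ) ^ 2) ≤ volume.real K * (2 * volume.real K) := by
      have h2 := mul_le_mul_of_nonneg_right hmk (by positivity : (0 : ℝ) ≤ 2 * (d : ℝ) ^ 2)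
      nlinarith
    have h3 : b * (d : ℝ) ^ 2 ≤ 2 * volume.real K := le_of_mul_le_mul_left h1 hVpos
    have h4 : b * (9 * Θ) ≤ b * (d : ℝ) ^ 2 := mul_le_mul_of_nonneg_left hΘd hb0
    have h5 : volume.real {y | y ∈ K ∧ (1 - 1 / (2 * c ^ d)) * volume.real K <
      loss K ((2 * t / c) • y)} * (4 * Θ) ≤ b * (4 * Θ) :=
      mul_le_mul_of_nonneg_right hmono (by linarith)
    have h6 : 0 ≤ b * Θ := mul_nonneg hb0 (by linarith)
    linarith
  obtain ⟨T, hT, hTK⟩ := hS d Θ (2 * t / c) (1 / (2 * c ^ d)) K (by omega) hΘ1 hs0 hs1 hω hK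
    htail
  refine ⟨T, hT.trans ?_, hTK⟩
  rw [← hl, hΘ]
  have hlpos : 0 < l := by linarith
  have h7 : Real.exp 1 * 2 ^ d / (3 * d * l) * (d * l) = Real.exp 1 * 2 ^ d / 3 := by
    field_simp
  rw [h7]
  have h9 : (16 : ℝ) ≤ 2 ^ d := by
    calc (16 : ℝ) = 2 ^ 4 := by norm_num
      _ ≤ 2 ^ d := pow_le_pow_right₀ (by norm_num) (by omega)
  nlinarith

end Pool.Agent.Ovl
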