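import Pool.Agent.Ovl.Targets7
import Pool.Agent.Ovl.LOSS

/-!
# The norm form, general bodies (job OVL-NRMG)
-/

set_option autoImplicit false

open MeasureTheory Set Filter
open scoped Pointwise Topology ENNReal

namespace Pool.Agent.Ovl

open Pool.Agent.Rog (E SymBody)

namespace NRMG_

lemma real_smul {d : ℕ} (S : Set (E d)) {c : ℝ} (hc : 0 < c) :
    volume.real (c • S) = c ^ d * volume.real S := by
  rw [measureReal_def, Measure.addHaar_smul, ENNReal.toReal_mul, measureReal_def,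
    finrank_euclideanSpace_fin, ENNReal.toReal_ofReal (abs_nonneg _), abs_of_pos (by positivity)]

/-- Markov's inequality. -/
lemma markov {d : ℕ} {K : Set (E d)} (hKc : IsCompact K) (t c : ℝ) :
    volume.real K / 4 * volume.real {y | y ∈ K ∧
      volume.real K / 4 < volume.real {x | x ∈ K ∧ x + t • y ∉ c • K}} ≤
    volume.real {p : E d × E d | p.1 ∈ K ∧ p.2 ∈ K ∧ p.1 + t • p.2 ∉ c • K} := by
  have hK : MeasurableSet K := hKc.measurableSet
  have hcK : MeasurableSet (c • K) := (hKc.smul c).measurableSet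
  have hF : MeasurableSet {p : E d × E d | p.1 ∈ K ∧ p.2 ∈ K ∧ p.1 + t • p.2 ∉ c • K} :=
    (measurable_fst hK).inter ((measurable_snd hK).inter
      ((measurable_fst.add (measurable_snd.const_smul t)) hcK).compl)
  obtain ⟨F, hFd⟩ : ∃ F : Set (E d × E d),
      F = {p : E d × E d | p.1 ∈ K ∧ p.2 ∈ K ∧ p.1 + t • p.2 ∉ c • K} := ⟨_, rfl⟩
  rw [← hFd] at hF ⊢
  have hFK : F ⊆ K ×ˢ K := by
    rw [hFd]
    intro p hp
    exact ⟨hp.1, hp.2.1⟩
  have hFtop : volume F ≠ ⊤ := by
    have h1 : volume (K ×ˢ K) < ⊤ := (hKc.prod hKc).measure_lt_top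
    exact ((measure_mono hFK).trans_lt h1).ne
  have hprod : volume F = ∫⁻ y, volume ((fun x => (x, y)) ⁻¹' F) := by
    rw [Measure.volume_eq_prod, Measure.prod_apply_symm hF]
  have hmeas : Measurable (fun y : E d => volume ((fun x => (x, y)) ⁻¹' F)) :=
    measurable_measure_prodMk_right hF
  have hM := mul_meas_ge_le_lintegral (μ := volume) hmeas (ENNReal.ofReal (volume.real K / 4))
  rw [← hprod] at hM
  have hsub : {y | y ∈ K ∧
      volume.real K / 4 < volume.real {x | x ∈ K ∧ x + t • y ∉ c • K}} ⊆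
      {y | ENNReal.ofReal (volume.real K / 4) ≤ volume ((fun x => (x, y)) ⁻¹' F)} := by
    intro y hy
    obtain ⟨hyK, hy2⟩ := hy
    have h1 : (fun x => (x, y)) ⁻¹' F = {x | x ∈ K ∧ x + t • y ∉ c • K} := by
      rw [hFd]
      ext x
      simp only [mem_preimage, mem_setOf_eq]
      tauto
    simp only [mem_setOf_eq]
    rw [h1]
    exact ENNReal.ofReal_le_of_le_toReal hy2.le
  have h2 : ENNReal.ofReal (volume.real K / 4) * volume {y | y ∈ K ∧
      volume.real K / 4 < volume.real {x | x ∈ K ∧ x + t • y ∉ c • K}} ≤ volume F :=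
    (mul_le_mul_right (measure_mono hsub) _).trans hM
  have h3 := ENNReal.toReal_mono hFtop h2
  rw [ENNReal.toReal_mul, ENNReal.toReal_ofReal (by positivity)] at h3
  exact h3

end NRMG_

open NRMG_ in
theorem p_NRMG (_hL : T_LOSS) (hR : T_ROB3) : T_NRMG := by
  intro d t K hd htd ht1 hKcv hKc hKi h0 hfail
  have hd' : (400 : ℝ) ≤ d := by exact_mod_cast hd
  have hd0 : (0 : ℝ) < d := by linarith
  have he1 : Real.exp 1 < 2.7182818286 := Real.exp_one_lt_d9
  have he2 : 2.7182818283 < Real.exp 1 := Real.exp_one_gt_d9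
  have hl2 : Real.log 2 < 0.6931471808 := Real.log_two_lt_d9
  -- the logarithms
  obtain ⟨l, hl⟩ : ∃ l : ℝ, l = Real.log (8 * d + 2) := ⟨_, rfl⟩
  have h8 : (0 : ℝ) < 8 * d + 2 := by positivity
  have hl_up : l ≤ 10 * Real.log 2 + ((8 * d + 2) / 1024 - 1) := by
    have h1 := Real.log_le_sub_one_of_pos (x := (8 * d + 2) / 1024) (by positivity)
    rw [Real.log_div h8.ne' (by norm_num)] at h1
    have h2 : Real.log 1024 = 10 * Real.log 2 := by
      rw [show (1024 : ℝ) = 2 ^ 10 by norm_num, Real.log_pow]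
      norm_num
    rw [hl]
    linarith
  have hl_low : 1 ≤ l := by
    rw [hl, Real.le_log_iff_exp_le h8]
    linarith
  have hlogd0 : 0 ≤ Real.log d := Real.log_nonneg (by linarith)
  obtain ⟨Θ, hΘ⟩ : ∃ Θ : ℝ, Θ = 3 * d * l := ⟨_, rfl⟩
  have hΘ1 : 1 ≤ Θ := by
    rw [hΘ]
    nlinarith
  have hl3 : 3072 * l ≤ (d : ℝ) ^ 2 := by
    have h1 : l ≤ 5.9335 + 0.0078125 * d := by linarith
    nlinarith
  have hΘ3 : 1024 * Θ ≤ (d : ℝ) ^ 3 := by
    rw [hΘ]
    nlinarith [mul_le_mul_of_nonneg_left hl3 hd0.le]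
  -- the parameters
  obtain ⟨δ, hδ⟩ : ∃ δ : ℝ, δ = 2 * Real.log d / d := ⟨_, rfl⟩
  have hδ0 : 0 ≤ δ := by
    rw [hδ]
    positivity
  have hδt : δ ≤ t / 12 := by
    rw [hδ, div_le_iff₀ hd0]
    linarith
  have ht0 : 0 ≤ t := by linarith
  obtain ⟨c, hc⟩ : ∃ c : ℝ, c = 1 + t / 12 - δ := ⟨_, rfl⟩
  have hc1 : 1 ≤ c := by
    rw [hc]
    linarith
  have hc0 : 0 < c := by linarith
  rw [← hδ, ← hc] at hfail
  obtain ⟨s, hs⟩ : ∃ s : ℝ, s = t / c := ⟨_, rfl⟩
  have hs0 : 0 ≤ s := by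
    rw [hs]
    positivity
  have hs1 : s ≤ 1 := by
    rw [hs, div_le_one hc0]
    linarith
  obtain ⟨ω, hω⟩ : ∃ ω : ℝ, ω = 3 / 4 * (c ^ d)⁻¹ := ⟨_, rfl⟩
  have hcd : 0 < c ^ d := by positivity
  have hω0 : 0 < ω := by
    rw [hω]
    positivity
  have hω1 : ω ≤ 1 := by
    have h1 : (c ^ d)⁻¹ ≤ 1 := inv_le_one_of_one_le₀ (one_le_pow₀ hc1)
    rw [hω]
    linarith
  -- the condition
  have hcond : 9 * Θ * (1 - s / 6) ^ d ≤ ω ^ 2 := by
    have h1 : 0 ≤ c - t / 6 := by
      rw [hc]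
      linarith
    have h2 : c * (c - t / 6) ≤ (1 - δ) ^ 2 := by
      rw [hc]
      nlinarith [sq_nonneg t]
    have h3 : (c * (c - t / 6)) ^ d ≤ 1 / (d : ℝ) ^ 4 := by
      have h4 : (c * (c - t / 6)) ^ d ≤ ((1 - δ) ^ 2) ^ d :=
        pow_le_pow_left₀ (mul_nonneg hc0.le h1) h2 d
      have h5 : 1 - δ ≤ Real.exp (-δ) := by
        have := Real.add_one_le_exp (-δ)
        linarith
      have h6 : 0 ≤ 1 - δ := by linarith
      have h7 : ((1 - δ) ^ 2) ^ d ≤ (Real.exp (-δ) ^ 2) ^ d :=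
        pow_le_pow_left₀ (by positivity) (pow_le_pow_left₀ h6 h5 2) d
      have h8 : (Real.exp (-δ) ^ 2) ^ d = 1 / (d : ℝ) ^ 4 := by
        have h9 : Real.exp (4 * Real.log d) = (d : ℝ) ^ 4 := by
          rw [mul_comm, Real.exp_mul, Real.exp_log hd0]
          exact_mod_cast Real.rpow_natCast (d : ℝ) 4
        rw [← pow_mul, ← Real.exp_nat_mul, one_div, ← h9, ← Real.exp_neg]
        congr 1
        push_cast
        rw [hδ]
        field_simp
        ring
      rw [← h8]
      exact h4.trans h7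
    have h4 : c * (1 - s / 6) = c - t / 6 := by
      rw [hs]
      field_simp
    have h5 : (c ^ d) ^ 2 * (1 - s / 6) ^ d = (c * (c - t / 6)) ^ d := by
      rw [← h4, ← pow_mul, mul_comm d 2, pow_mul, ← mul_pow]
      congr 1
      ring
    have h6 : 16 * Θ * ((c ^ d) ^ 2 * (1 - s / 6) ^ d) ≤ 1 := by
      rw [h5]
      have h7 : 16 * Θ * (c * (c - t / 6)) ^ d ≤ 16 * Θ * (1 / (d : ℝ) ^ 4) :=
        mul_le_mul_of_nonneg_left h3 (by linarith)
      refine h7.trans ?_
      rw [mul_one_div, div_le_one (by positivity)]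
      have h8 : (d : ℝ) ^ 3 ≤ (d : ℝ) ^ 4 := pow_le_pow_right₀ (by linarith) (by norm_num)
      linarith
    have h7 : ω ^ 2 = 9 / 16 * ((c ^ d) ^ 2)⁻¹ := by
      rw [hω, mul_pow, inv_pow]
      norm_num
    rw [h7, ← div_eq_mul_inv, le_div_iff₀ (by positivity)]
    linarith
  -- the volumes
  have hK0 : 0 < volume.real K := by
    have h1 : 0 < volume K := (isOpen_interior.measure_pos volume hKi).trans_le
      (measure_mono interior_subset)
    exact ENNReal.toReal_pos h1.ne' hKc.measure_lt_top.ne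
  obtain ⟨B, hB⟩ : ∃ B : Set (E d), B = {y | y ∈ K ∧
      volume.real K / 4 < volume.real {x | x ∈ K ∧ x + t • y ∉ c • K}} := ⟨_, rfl⟩
  have hM := markov hKc t c
  rw [← hB] at hM
  have hBtop : volume B ≠ ⊤ := by
    rw [hB]
    exact LOSS_.vol_ne_top hKc _
  have hBd : volume.real B * (256 * Θ) ≤ volume.real K := by
    have h1 : volume.real K / 4 * volume.real B * (d : ℝ) ^ 3 ≤ volume.real K ^ 2 :=
      (mul_le_mul_of_nonneg_right hM (by positivity)).trans hfail
    have h2 : volume.real B * (d : ℝ) ^ 3 ≤ 4 * volume.real K := by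
      have h3 : volume.real K * (volume.real B * (d : ℝ) ^ 3) ≤
          volume.real K * (4 * volume.real K) := by nlinarith
      exact le_of_mul_le_mul_left h3 hK0
    have h3 : volume.real B * (1024 * Θ) ≤ volume.real B * (d : ℝ) ^ 3 :=
      mul_le_mul_of_nonneg_left hΘ3 measureReal_nonneg
    linarith
  have hsub : {y | y ∈ K ∧ (1 - ω) * volume.real K < loss K (s • y)} ⊆ B := by
    rintro y ⟨hyK, hy⟩
    rw [hB]
    refine ⟨hyK, ?_⟩
    by_contra hcon
    rw [not_lt] at hcon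
    -- the set of good points
    have hKm : MeasurableSet K := hKc.measurableSet
    have hcK : MeasurableSet (c • K) := (hKc.smul c).measurableSet
    have hA : volume.real {x | x ∈ K ∧ x + t • y ∈ c • K} =
        volume.real K - volume.real {x | x ∈ K ∧ x + t • y ∉ c • K} := by
      have h1 : K = {x | x ∈ K ∧ x + t • y ∉ c • K} ∪ {x | x ∈ K ∧ x + t • y ∈ c • K} := by
        ext x
        simp only [mem_union, mem_setOf_eq]
        tauto
      have h2 : Disjoint {x | x ∈ K ∧ x + t • y ∉ c • K} {x | x ∈ K ∧ x + t • y ∈ c • K} := by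
        rw [Set.disjoint_left]
        intro x hx hx'
        exact hx.2 hx'.2
      have h3 : MeasurableSet {x | x ∈ K ∧ x + t • y ∈ c • K} :=
        hKm.inter ((measurable_add_const (t • y)) hcK)
      have h4 := measureReal_union (μ := volume) h2 h3 (LOSS_.vol_ne_top hKc _)
        (LOSS_.vol_ne_top hKc _)
      rw [← h1] at h4
      linarith
    have hA2 : 3 / 4 * volume.real K ≤ volume.real {x | x ∈ K ∧ x + t • y ∈ c • K} := by
      rw [hA]
      linarith
    have hAs : {x | x ∈ K ∧ x + t • y ∈ c • K} ⊆ c • {z | z ∈ K ∧ z + s • y ∈ K} := by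
      rintro x ⟨hx1, hx2⟩
      rw [Set.mem_smul_set_iff_inv_smul_mem₀ hc0.ne'] at hx2 ⊢
      constructor
      · have h1 := hKcv hx1 h0 (a := c⁻¹) (b := 1 - c⁻¹) (by positivity)
          (by have := inv_le_one_of_one_le₀ hc1; linarith) (by ring)
        rw [smul_zero, add_zero] at h1
        exact h1
      · have h1 : c⁻¹ • x + s • y = c⁻¹ • (x + t • y) := by
          rw [smul_add, smul_smul, hs, div_eq_inv_mul]
        rw [h1]
        exact hx2
    have hZtop : volume (c • {z | z ∈ K ∧ z + s • y ∈ K}) ≠ ⊤ := by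
      have h1 : c • {z | z ∈ K ∧ z + s • y ∈ K} ⊆ c • K :=
        Set.smul_set_mono fun z hz => hz.1
      exact ((measure_mono h1).trans_lt (hKc.smul c).measure_lt_top).ne
    have hA3 : volume.real {x | x ∈ K ∧ x + t • y ∈ c • K} ≤
        c ^ d * volume.real {z | z ∈ K ∧ z + s • y ∈ K} := by
      rw [← real_smul _ hc0]
      exact measureReal_mono hAs hZtop
    have hA4 : ω * volume.real K ≤ volume.real {z | z ∈ K ∧ z + s • y ∈ K} := by
      have h1 : 3 / 4 * volume.real K ≤ c ^ d * volume.real {z | z ∈ K ∧ z + s • y ∈ K} :=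
        hA2.trans hA3
      have h2 : ω * volume.real K = 3 / 4 * volume.real K / c ^ d := by
        rw [hω]
        field_simp
      rw [h2, div_le_iff₀ hcd, mul_comm (volume.real _)]
      exact h1
    have h5 := LOSS_.loss_eq hKc (s • y)
    rw [h5] at hy
    linarith
  have htail : volume.real {y | y ∈ K ∧ (1 - ω) * volume.real K < loss K (s • y)} *
      (256 * Θ) ≤ volume.real K :=
    (mul_le_mul_of_nonneg_right (measureReal_mono hsub hBtop) (by linarith)).trans hBd
  obtain ⟨T, hT, hTK⟩ := hR d Θ s ω K (by omega) hΘ1 hs0 hs1 hω0 hω1 hcond hKcv hKc hKi htail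
  refine ⟨T, hT.trans ?_, hTK⟩
  rw [← hl, hΘ]
  have hlpos : 0 < l := by linarith
  have h7 : Real.exp 1 * 2 ^ d / (3 * d * l) * (d * l) = Real.exp 1 / 3 * 2 ^ d := by
    field_simp
  rw [h7]
  have h8 : (16 : ℝ) ≤ 2 ^ d := by
    calc (16 : ℝ) = 2 ^ 4 := by norm_num
      _ ≤ 2 ^ d := pow_le_pow_right₀ (by norm_num) (by omega)
  nlinarith

end Pool.Agent.Ovl
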