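import Mathlib
import Pool.Agent.Ovl.Targets10

/-!
# Numerical facts for reflection-symmetric bodies (job OVL-NUMB)
-/

set_option autoImplicit false

open MeasureTheory Set Filter
open scoped Pointwise Topology

namespace Pool.Agent.Ovl

namespace NUMB_

/-- Bounds for the logarithm. -/
theorem log_bounds {D : ℝ} (hD : 10 ^ 4 ≤ D) :
    9.19 ≤ Real.log D ∧ Real.log D ≤ 0.00093 * D ∧
      Real.log (8 * D + 2) ≤ Real.log D + 2.08 ∧ 1 ≤ Real.log (8 * D + 2) := by
  have hl2 : Real.log 2 < 0.6931471808 := Real.log_two_lt_d9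
  have hl2' : 0.6931471803 < Real.log 2 := Real.log_two_gt_d9
  have hD0 : 0 < D := by linarith
  have e1 : Real.log (2 ^ 13) = 13 * Real.log 2 := by
    rw [Real.log_pow]
    norm_num
  have h1 : 9.19 ≤ Real.log D := by
    have h2 : Real.log (10 ^ 4) ≤ Real.log D := Real.log_le_log (by norm_num) hD
    have h3 : 1 - (10 ^ 4 / 2 ^ 13 : ℝ)⁻¹ ≤ Real.log (10 ^ 4 / 2 ^ 13) :=
      Real.one_sub_inv_le_log_of_pos (by norm_num)
    rw [Real.log_div (by norm_num) (by norm_num), e1] at h3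
    have h4 : (0.1807 : ℝ) ≤ 1 - (10 ^ 4 / 2 ^ 13 : ℝ)⁻¹ := by norm_num
    obtain ⟨z, hz⟩ : ∃ z : ℝ, z = (10 ^ 4 / 2 ^ 13 : ℝ)⁻¹ := ⟨_, rfl⟩
    rw [← hz] at h3 h4
    obtain ⟨y, hy⟩ : ∃ y : ℝ, y = Real.log (10 ^ 4) := ⟨_, rfl⟩
    rw [← hy] at h2 h3
    linarith
  have h2 : Real.log D ≤ 0.00093 * D := by
    have h3 := Real.log_le_sub_one_of_pos (x := D / 2 ^ 13) (by positivity)
    rw [Real.log_div hD0.ne' (by norm_num), e1] at h3
    have h4 : D / 2 ^ 13 ≤ 0.00012208 * D := by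
      rw [div_le_iff₀ (by norm_num)]
      nlinarith
    nlinarith
  have h3 : Real.log (8 * D + 2) ≤ Real.log D + 2.08 := by
    have h4 : 8 * D + 2 ≤ D * 8.0002 := by nlinarith
    have h5 : Real.log (8 * D + 2) ≤ Real.log (D * 8.0002) :=
      Real.log_le_log (by positivity) h4
    rw [Real.log_mul hD0.ne' (by norm_num)] at h5
    have h6 := Real.log_le_sub_one_of_pos (x := (8.0002 / 2 ^ 3 : ℝ)) (by norm_num)
    rw [Real.log_div (by norm_num) (by norm_num)] at h6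
    have e2 : Real.log ((2 : ℝ) ^ 3) = 3 * Real.log 2 := by
      rw [Real.log_pow]
      norm_num
    rw [e2] at h6
    have h7 : (8.0002 / 2 ^ 3 - 1 : ℝ) ≤ 0.0001 := by norm_num
    linarith
  refine ⟨h1, h2, h3, ?_⟩
  have h8 : Real.log D ≤ Real.log (8 * D + 2) := Real.log_le_log hD0 (by linarith)
  linarith

/-- The condition on `k`. -/
theorem third {d k : ℕ} {Θ : ℝ} (hd : (10 ^ 4 : ℝ) ≤ d) (hΘ1 : 1 ≤ Θ)
    (hΘ : 24 * Θ ≤ (d : ℝ) ^ 2) (hk : 60 * k ≤ d) :
    (1 - 3 / 50 : ℝ) ^ (2 * d) * 2 ^ (2 * k + 1) ≤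
      (1 / (24 * Θ)) ^ 2 * ((1 / 60) ^ k * (1 - 1 / 60) ^ (d - k)) := by
  have hd0 : (0 : ℝ) < d := by linarith
  obtain ⟨j, hj⟩ : ∃ j, d = k + j := ⟨d - k, by omega⟩
  have hdk : d - k = j := by omega
  rw [hdk]
  -- the main inequality
  have h236 : (236 : ℝ) ^ k ≤ (1.09535 : ℝ) ^ d := by
    have h1 : (236 : ℝ) ≤ 1.09535 ^ 60 := by norm_num
    calc (236 : ℝ) ^ k ≤ (1.09535 ^ 60) ^ k := pow_le_pow_left₀ (by norm_num) h1 k
      _ = 1.09535 ^ (60 * k) := by rw [← pow_mul]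
      _ ≤ 1.09535 ^ d := pow_le_pow_right₀ (by norm_num) hk
  have hexp : 2 * (24 * Θ) ^ 2 * (0.9843 : ℝ) ^ d ≤ 1 := by
    have h1 : (0.9843 : ℝ) ≤ Real.exp (-0.0157) := by
      have := Real.add_one_le_exp (-0.0157 : ℝ)
      linarith
    have h2 : (0.9843 : ℝ) ^ d ≤ Real.exp (-(0.0157 * d)) := by
      calc (0.9843 : ℝ) ^ d ≤ (Real.exp (-0.0157)) ^ d := pow_le_pow_left₀ (by norm_num) h1 d
        _ = Real.exp (-(0.0157 * d)) := by
          rw [← Real.exp_nat_mul]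
          congr 1
          ring
    have h3 : 2 * ((d : ℝ) ^ 2) ^ 2 ≤ Real.exp (0.0157 * d) := by
      have h4 : 1 + 0.000785 * (d : ℝ) ≤ Real.exp (0.000785 * d) := by
        have := Real.add_one_le_exp (0.000785 * (d : ℝ))
        linarith
      have h5 : (8.85 : ℝ) ≤ 1 + 0.000785 * d := by linarith
      have h6 : 1.2 * (d : ℝ) ≤ (1 + 0.000785 * (d : ℝ)) ^ 5 := by
        have h7 : (8.85 : ℝ) ^ 4 ≤ (1 + 0.000785 * (d : ℝ)) ^ 4 :=
          pow_le_pow_left₀ (by norm_num) h5 4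
        have h8 : (1 + 0.000785 * (d : ℝ)) ^ 5 =
            (1 + 0.000785 * (d : ℝ)) ^ 4 * (1 + 0.000785 * (d : ℝ)) := by ring
        rw [h8]
        have h9 : (6000 : ℝ) ≤ (1 + 0.000785 * (d : ℝ)) ^ 4 := le_trans (by norm_num) h7
        nlinarith
      calc 2 * ((d : ℝ) ^ 2) ^ 2 ≤ (1.2 * (d : ℝ)) ^ 4 := by
            have : (1.2 * (d : ℝ)) ^ 4 = 2.0736 * ((d : ℝ) ^ 2) ^ 2 := by ring
            rw [this]
            have : 0 ≤ ((d : ℝ) ^ 2) ^ 2 := by positivity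
            linarith
        _ ≤ ((1 + 0.000785 * (d : ℝ)) ^ 5) ^ 4 := pow_le_pow_left₀ (by positivity) h6 4
        _ = (1 + 0.000785 * (d : ℝ)) ^ 20 := by rw [← pow_mul]
        _ ≤ (Real.exp (0.000785 * (d : ℝ))) ^ 20 := pow_le_pow_left₀ (by positivity) h4 20
        _ = Real.exp (0.0157 * d) := by
          rw [← Real.exp_nat_mul]
          congr 1
          push_cast
          ring
    have h4 : (24 * Θ) ^ 2 ≤ ((d : ℝ) ^ 2) ^ 2 := pow_le_pow_left₀ (by linarith) hΘ 2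
    calc 2 * (24 * Θ) ^ 2 * (0.9843 : ℝ) ^ d
        ≤ Real.exp (0.0157 * d) * Real.exp (-(0.0157 * d)) := by
          refine mul_le_mul ?_ h2 (by positivity) (Real.exp_pos _).le
          linarith
      _ = 1 := by
          rw [← Real.exp_add]
          simp
  have hΘ0 : 0 < 24 * Θ := by linarith
  have e1 : (1 / (24 * Θ)) ^ 2 * ((1 / 60 : ℝ) ^ k * (1 - 1 / 60) ^ j) =
      ((1 / 60 : ℝ) ^ k * (59 / 60) ^ j) / (24 * Θ) ^ 2 := by
    rw [div_pow, one_pow]
    norm_num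
    ring
  rw [e1, le_div_iff₀ (by positivity)]
  have e2 : (1 - 3 / 50 : ℝ) ^ (2 * d) * 2 ^ (2 * k + 1) * (24 * Θ) ^ 2 =
      (2 * (24 * Θ) ^ 2) * ((47 / 50) ^ 2) ^ d * 4 ^ k := by
    have a1 : (1 - 3 / 50 : ℝ) ^ (2 * d) = ((47 / 50) ^ 2) ^ d := by
      rw [pow_mul]
      norm_num
    have a2 : (2 : ℝ) ^ (2 * k + 1) = 4 ^ k * 2 := by
      rw [pow_succ, pow_mul]
      norm_num
    rw [a1, a2]
    ring
  rw [e2]
  have e3 : ((1 / 60 : ℝ) ^ k * (59 / 60) ^ j) = (59 / 60) ^ d * (1 / 59) ^ k := by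
    rw [hj, pow_add]
    have : (1 / 60 : ℝ) ^ k = (59 / 60) ^ k * (1 / 59) ^ k := by
      rw [← mul_pow]
      norm_num
    rw [this]
    ring
  rw [e3]
  have h59 : (59 : ℝ) ^ k * (1 / 59) ^ k = 1 := by
    rw [← mul_pow]
    norm_num
  have key : (2 * (24 * Θ) ^ 2) * ((47 / 50) ^ 2) ^ d * 4 ^ k * 59 ^ k ≤ (59 / 60 : ℝ) ^ d := by
    calc (2 * (24 * Θ) ^ 2) * ((47 / 50) ^ 2) ^ d * 4 ^ k * 59 ^ k
        = (2 * (24 * Θ) ^ 2) * ((47 / 50) ^ 2) ^ d * 236 ^ k := by
          rw [mul_assoc, ← mul_pow]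
          norm_num
      _ ≤ (2 * (24 * Θ) ^ 2) * ((47 / 50) ^ 2) ^ d * 1.09535 ^ d := by gcongr
      _ = (2 * (24 * Θ) ^ 2) * ((47 / 50) ^ 2 * 1.09535 * (60 / 59)) ^ d * (59 / 60) ^ d := by
          have a1 : ((47 / 50 : ℝ) ^ 2 * 1.09535 * (60 / 59)) ^ d * (59 / 60) ^ d =
              ((47 / 50) ^ 2) ^ d * 1.09535 ^ d := by
            rw [← mul_pow, ← mul_pow]
            congr 1
            norm_num
          rw [mul_assoc, ← a1, ← mul_assoc]
      _ ≤ (2 * (24 * Θ) ^ 2) * 0.9843 ^ d * (59 / 60) ^ d := by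
          have a2 : ((47 / 50 : ℝ) ^ 2 * 1.09535 * (60 / 59)) ^ d ≤ 0.9843 ^ d :=
            pow_le_pow_left₀ (by norm_num) (by norm_num) d
          gcongr
      _ ≤ 1 * (59 / 60) ^ d := by gcongr
      _ = _ := one_mul _
  calc (2 * (24 * Θ) ^ 2) * ((47 / 50) ^ 2) ^ d * 4 ^ k
      = (2 * (24 * Θ) ^ 2) * ((47 / 50) ^ 2) ^ d * 4 ^ k * (59 ^ k * (1 / 59) ^ k) := by
        rw [h59, mul_one]
    _ = ((2 * (24 * Θ) ^ 2) * ((47 / 50) ^ 2) ^ d * 4 ^ k * 59 ^ k) * (1 / 59) ^ k := by ring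
    _ ≤ (59 / 60 : ℝ) ^ d * (1 / 59) ^ k := by gcongr

end NUMB_

theorem p_NUMB : T_NUMB := by
  intro d m Θ s R hd hΘ hm hR hs
  have hd' : (10 ^ 4 : ℝ) ≤ d := by exact_mod_cast hd
  have hd0 : (0 : ℝ) < d := by linarith
  obtain ⟨hL1, hL2, hL3, hL4⟩ := NUMB_.log_bounds hd'
  obtain ⟨L, hL⟩ : ∃ L : ℝ, L = Real.log d := ⟨_, rfl⟩
  obtain ⟨l, hl⟩ : ∃ l : ℝ, l = Real.log (8 * d + 2) := ⟨_, rfl⟩
  rw [← hL] at hL1 hL2 hL3
  rw [← hl] at hL3 hL4
  rw [← hl] at hΘ
  have hlu : l ≤ 0.00114 * d := by linarith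
  have hΘ1 : 1 ≤ Θ := by
    rw [hΘ]
    nlinarith
  have hΘ2 : 24 * Θ ≤ (d : ℝ) ^ 2 := by
    rw [hΘ]
    nlinarith
  -- m
  have hm1 : 60 * L ≤ m := by
    rw [hm, hL]
    exact Nat.le_ceil _
  have hm2 : (m : ℝ) ≤ 60 * L + 1 := by
    rw [hm, hL]
    exact (Nat.ceil_lt_add_one (by rw [← hL]; linarith)).le
  have hm3 : (0 : ℝ) < m := by linarith
  have hm4 : 1 ≤ m := by
    have : 0 < m := by exact_mod_cast hm3
    omega
  have hR0 : 0 ≤ R := by
    rw [hR]
    positivity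
  have hR1 : R ≤ 0.0036 := by
    rw [hR, mul_one_div, div_le_iff₀ (by positivity)]
    linarith
  have hR2 : 16 * d * R = m := by
    rw [hR]
    field_simp
  have h1R : 0 < 1 + R := by linarith
  have hs0 : 0 ≤ s := by
    rw [hs]
    positivity
  have hs1 : 2 * d * (1 + R) * s = m := by
    rw [hs]
    field_simp
  have hsd : s * d ≤ 0.0281 * d := by
    have h1 : 2 * (s * d) ≤ m := by
      have : 2 * d * (1 + R) * s = 2 * (s * d) + 2 * (s * d) * R := by ring
      have h2 : 0 ≤ 2 * (s * d) * R := by positivity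
      linarith
    linarith
  have hs2 : s ≤ 0.0281 := le_of_mul_le_mul_right hsd hd0
  have hsd2 : 29.8 * L ≤ s * d := by
    have h1 : m = 2 * (s * d) + 2 * (s * d) * R := by
      rw [← hs1]
      ring
    have h2 : 0 ≤ s * d := by positivity
    have h3 : 2 * (s * d) * R ≤ 2 * (s * d) * 0.0036 := by gcongr
    have h4 : 60 * L ≤ 2.0072 * (s * d) := by linarith
    have h5 : 29.8 * L * 2.0072 ≤ 60 * L := by nlinarith
    nlinarith
  refine ⟨hΘ1, hm4, hR0, hs0, by linarith, ?_, ?_, ?_, ?_⟩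
  · intro k hk
    exact NUMB_.third hd' hΘ1 hΘ2 hk
  · -- the fourth item
    obtain ⟨x, hx⟩ : ∃ x : ℝ, x = 0.0675 * s - 0.35 / d := ⟨_, rfl⟩
    have hdx : d * x = 0.0675 * (s * d) - 0.35 := by
      rw [hx]
      field_simp
    have hx0 : 0 ≤ x := by
      have : 0 ≤ d * x := by
        rw [hdx]
        nlinarith
      exact nonneg_of_mul_nonneg_right this hd0
    have hx1 : x ≤ 0.0019 := by
      rw [hx]
      have : 0 ≤ 0.35 / (d : ℝ) := by positivity
      linarith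
    have hroot : (1 / 2 / (1 + R) ^ d : ℝ) ^ ((1 : ℝ) / d) =
        (1 / 2 : ℝ) ^ ((1 : ℝ) / d) / (1 + R) := by
      rw [Real.div_rpow (by norm_num) (by positivity)]
      congr 1
      rw [one_div, Real.pow_rpow_inv_natCast h1R.le (by positivity)]
    have hroot2 : 1 - 0.6932 / d ≤ (1 / 2 : ℝ) ^ ((1 : ℝ) / d) := by
      rw [Real.rpow_def_of_pos (by norm_num)]
      have h1 := Real.add_one_le_exp (Real.log (1 / 2) * (1 / d))
      have h2 : Real.log (1 / 2) = -Real.log 2 := by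
        rw [one_div, Real.log_inv]
      rw [h2] at h1 ⊢
      have h3 : Real.log 2 < 0.6931471808 := Real.log_two_lt_d9
      have h4 : Real.log 2 * (1 / d) ≤ 0.6932 * (1 / d) := by gcongr; linarith
      have h5 : 0.6932 / (d : ℝ) = 0.6932 * (1 / d) := by ring
      rw [h5]
      linarith
    have hinv : 1 / (1 + R) = 1 - s / 8 := by
      have h1 : R = s / 8 * (1 + R) := by
        have h2 : 16 * d * R = 2 * d * (1 + R) * s := by rw [hR2, hs1]
        have h3 : (16 * (d : ℝ)) * R = (16 * d) * (s / 8 * (1 + R)) := by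
          rw [h2]
          ring
        exact mul_left_cancel₀ (by positivity) h3
      rw [div_eq_iff h1R.ne']
      linarith
    have hbase : (1 - s / 4) * (1 + x) ≤ 1 / 2 * (1 - 2 * (2 * s) * (3 / 50)) +
        1 / 2 * (1 / 2 / (1 + R) ^ d) ^ ((1 : ℝ) / d) := by
      rw [hroot]
      have h1 : (1 - 0.6932 / d) * (1 - s / 8) ≤ (1 / 2 : ℝ) ^ ((1 : ℝ) / d) / (1 + R) := by
        rw [div_eq_mul_one_div _ (1 + R), hinv]
        gcongr
        linarith
      have h2 : 0 ≤ 0.6932 / (d : ℝ) * (s / 8) := by positivity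
      have h3 : (1 - s / 4) * (1 + x) ≤ 1 - s / 4 + x := by nlinarith
      have h4 : 0.35 / (d : ℝ) = 0.3466 / d + 0.0034 / d := by ring
      have h5 : 0.6932 / (d : ℝ) = 2 * (0.3466 / d) := by ring
      have h6 : 0 ≤ 0.0034 / (d : ℝ) := by positivity
      rw [h5] at h1 h2
      rw [hx, h4] at h3
      nlinarith
    have hpow : 3 * Θ ≤ (1 + x) ^ d := by
      have h1 : 1 - (1 + x)⁻¹ ≤ Real.log (1 + x) :=
        Real.one_sub_inv_le_log_of_pos (by linarith)
      have h2 : 0.998 * x ≤ Real.log (1 + x) := by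
        have h3 : 1 - (1 + x)⁻¹ = x / (1 + x) := by
          field_simp
          ring
        have h4 : 0.998 * x ≤ x / (1 + x) := by
          rw [le_div_iff₀ (by linarith)]
          nlinarith
        linarith
      have h3 : 2 * L - 0.35 ≤ d * Real.log (1 + x) := by
        have h4 : d * (0.998 * x) ≤ d * Real.log (1 + x) := by gcongr
        have h5 : d * (0.998 * x) = 0.998 * (d * x) := by ring
        rw [h5, hdx] at h4
        nlinarith
      have h4 : Real.exp (2 * L - 0.35) ≤ (1 + x) ^ d := by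
        calc Real.exp (2 * L - 0.35) ≤ Real.exp (d * Real.log (1 + x)) :=
              Real.exp_le_exp.mpr h3
          _ = (1 + x) ^ d := by
              rw [Real.exp_nat_mul, Real.exp_log (by linarith)]
      have h5 : Real.exp L = d := by
        rw [hL, Real.exp_log hd0]
      have h6 : Real.exp (2 * L - 0.35) = d * d * Real.exp (-0.35) := by
        rw [show 2 * L - 0.35 = L + L + (-0.35) by ring, Real.exp_add, Real.exp_add, h5]
      have h7 : 0.65 ≤ Real.exp (-0.35) := by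
        have := Real.add_one_le_exp (-0.35 : ℝ)
        linarith
      have h8 : 3 * Θ ≤ d * d * 0.65 := by
        rw [hΘ]
        nlinarith
      calc 3 * Θ ≤ d * d * 0.65 := h8
        _ ≤ d * d * Real.exp (-0.35) := by gcongr
        _ ≤ (1 + x) ^ d := by rw [← h6]; exact h4
    have hs4 : 0 ≤ 1 - s / 4 := by linarith
    calc 3 * Θ * (1 - s / 4) ^ d ≤ (1 + x) ^ d * (1 - s / 4) ^ d := by gcongr
      _ = ((1 - s / 4) * (1 + x)) ^ d := by rw [mul_pow]; ring
      _ ≤ _ := pow_le_pow_left₀ (by positivity) hbase d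
  · -- the fifth item
    have h5 : Real.exp L = d := by
      rw [hL, Real.exp_log hd0]
    have hRd : (1 + R) ^ d ≤ Real.exp (3.75 * L + 0.0625) := by
      have h1 : 1 + R ≤ Real.exp R := by
        have := Real.add_one_le_exp R
        linarith
      calc (1 + R) ^ d ≤ (Real.exp R) ^ d := pow_le_pow_left₀ h1R.le h1 d
        _ = Real.exp (d * R) := by rw [← Real.exp_nat_mul]
        _ ≤ _ := by
            apply Real.exp_le_exp.mpr
            linarith
    have hl3 : 1.088 ≤ Real.log 3 := by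
      have h1 : 1 - (3 / Real.exp 1)⁻¹ ≤ Real.log (3 / Real.exp 1) :=
        Real.one_sub_inv_le_log_of_pos (by positivity)
      rw [Real.log_div (by norm_num) (Real.exp_pos 1).ne', Real.log_exp, inv_div] at h1
      have h2 : Real.exp 1 < 2.7182818286 := Real.exp_one_lt_d9
      have h3 : Real.exp 1 / 3 ≤ 0.912 := by
        rw [div_le_iff₀ (by norm_num)]
        linarith
      linarith
    have h3p : (3 : ℝ) ^ (-(1000 * Real.log d * (1 / 16) / 8)) ≤ Real.exp (-(8.5 * L)) := by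
      rw [Real.rpow_def_of_pos (by norm_num), ← hL]
      apply Real.exp_le_exp.mpr
      nlinarith
    have h6 : Real.exp (3.75 * L + 0.0625) * Real.exp (-(8.5 * L)) ≤ 1.1 / (d : ℝ) ^ 4 := by
      rw [← Real.exp_add]
      have h7 : Real.exp (3.75 * L + 0.0625 + -(8.5 * L)) ≤ Real.exp (-(4 * L) + 0.0625) := by
        apply Real.exp_le_exp.mpr
        linarith
      have h8 : Real.exp (-(4 * L) + 0.0625) = Real.exp 0.0625 / (d : ℝ) ^ 4 := by
        rw [Real.exp_add, Real.exp_neg, show 4 * L = ((4 : ℕ) : ℝ) * L by norm_num,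
          Real.exp_nat_mul, h5]
        ring
      have h9 : Real.exp 0.0625 ≤ 1.1 := by
        have h10 := Real.add_one_le_exp (-0.0625 : ℝ)
        have h11 : Real.exp 0.0625 * Real.exp (-0.0625) = 1 := by
          rw [← Real.exp_add]
          norm_num
        have h12 := Real.exp_pos 0.0625
        nlinarith
      rw [h8] at h7
      refine h7.trans ?_
      gcongr
    have h7 : m * (1 + R) ^ d * (8 * Θ * (30 * (3 : ℝ) ^ (-(1000 * Real.log d * (1 / 16) / 8)))) ≤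
        (240 * m * Θ) * (1.1 / (d : ℝ) ^ 4) := by
      calc m * (1 + R) ^ d * (8 * Θ * (30 * (3 : ℝ) ^ (-(1000 * Real.log d * (1 / 16) / 8))))
          = (240 * m * Θ) * ((1 + R) ^ d * (3 : ℝ) ^ (-(1000 * Real.log d * (1 / 16) / 8))) := by
            ring
        _ ≤ (240 * m * Θ) * (Real.exp (3.75 * L + 0.0625) * Real.exp (-(8.5 * L))) := by
            gcongr
        _ ≤ _ := by gcongr
    refine h7.trans ?_
    rw [mul_div_assoc', div_le_iff₀ (by positivity)]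
    have h8 : (m : ℝ) ≤ 0.056 * d := by linarith
    have h9 : Θ ≤ 0.00342 * (d * d) := by
      rw [hΘ]
      nlinarith
    have h10 : (m : ℝ) * Θ ≤ (0.056 * d) * (0.00342 * (d * d)) := by gcongr
    have h11 : (0 : ℝ) < d * d * d := by positivity
    nlinarith
  · rw [← hl, hΘ]
    have he1 : Real.exp 1 < 2.7182818286 := Real.exp_one_lt_d9
    have hl0 : 0 < l := by linarith
    have h1 : Real.exp 1 * 2 ^ d / (3 * d * l) * (d * l) = Real.exp 1 / 3 * 2 ^ d := by
      field_simp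
    rw [h1]
    have h2 : (16 : ℝ) ≤ 2 ^ d := by
      calc (16 : ℝ) = 2 ^ 4 := by norm_num
        _ ≤ 2 ^ d := pow_le_pow_right₀ (by norm_num) (by omega)
    nlinarith

end Pool.Agent.Ovl
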