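import Pool.Agent.Ovl.Targets4

/-!
# Hadwiger's covering problem: bodies of small circumradius, from the general principle
-/

set_option autoImplicit false

open MeasureTheory Set Filter
open scoped Pointwise Topology

namespace Pool.Agent.Ovl

open Pool.Agent.Rog (E SymBody)

namespace RAD_

lemma cheb {d : ℕ} (σ R : ℝ) (hσ : 0 < σ) (hR : 0 < R) (K : Set (E d)) (hK : IsCompact K)
    (x : E d) (hx : ‖x‖ ≤ R)
    (h : ∫ y in K, (inner ℝ x y) ^ 2 ≤ σ ^ 2 * ‖x‖ ^ 2 * volume.real K) :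
    16 * volume.real {y | y ∈ K ∧ 4 * σ * R < inner ℝ x y} ≤ volume.real K := by
  have hKm : MeasurableSet K := hK.isClosed.measurableSet
  have hc : Continuous fun y : E d => (inner ℝ x y : ℝ) := by fun_prop
  set A : Set (E d) := {y | y ∈ K ∧ 4 * σ * R < inner ℝ x y} with hA
  have hAm : MeasurableSet A :=
    hKm.inter (isOpen_lt continuous_const hc).measurableSet
  have hAK : A ⊆ K := fun y hy => hy.1
  have hint : IntegrableOn (fun y : E d => (inner ℝ x y : ℝ) ^ 2) K :=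
    (hc.pow 2).continuousOn.integrableOn_compact hK
  have hAfin : volume A ≠ ⊤ := ne_top_of_le_ne_top hK.measure_lt_top.ne (measure_mono hAK)
  have h1 : (4 * σ * R) ^ 2 * volume.real A ≤ ∫ y in A, (inner ℝ x y : ℝ) ^ 2 := by
    have h2 : ∫ _y in A, (4 * σ * R) ^ 2 ≤ ∫ y in A, (inner ℝ x y : ℝ) ^ 2 := by
      apply setIntegral_mono_on
      · exact integrableOn_const hAfin
      · exact hint.mono_set hAK
      · exact hAm
      · intro y hy
        exact pow_le_pow_left₀ (by positivity) hy.2.le 2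
    rw [setIntegral_const, smul_eq_mul] at h2
    linarith
  have h3 : ∫ y in A, (inner ℝ x y : ℝ) ^ 2 ≤ ∫ y in K, (inner ℝ x y : ℝ) ^ 2 := by
    apply setIntegral_mono_set hint
    · exact Eventually.of_forall fun y => sq_nonneg _
    · exact HasSubset.Subset.eventuallyLE hAK
  have h4 : σ ^ 2 * ‖x‖ ^ 2 * volume.real K ≤ σ ^ 2 * R ^ 2 * volume.real K := by
    gcongr
  have h5 : (σ ^ 2 * R ^ 2) * (16 * volume.real A) ≤ (σ ^ 2 * R ^ 2) * volume.real K := by
    have : (4 * σ * R) ^ 2 * volume.real A = (σ ^ 2 * R ^ 2) * (16 * volume.real A) := by ring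
    linarith
  exact le_of_mul_le_mul_left h5 (by positivity)

end RAD_

theorem p_RAD (hG : T_GEN) : T_RAD := by
  intro d Θ σ r ρ R K hd hΘ hσ hr hρ hR hRr hconv hK hint hKR hcov hbig hsmall
  have hKm : MeasurableSet K := hK.isClosed.measurableSet
  refine hG d Θ K {y | y ∈ K ∧ ‖y‖ ≤ ρ} hd hΘ hconv hK hint ?_ (fun y hy => hy.1) hsmall ?_
  · exact hKm.inter (isClosed_le continuous_norm continuous_const).measurableSet
  · intro x hx
    have hxR : ‖x‖ ≤ R := by simpa using hKR hx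
    have h1 := RAD_.cheb σ R hσ hR K hK x hxR (hcov x)
    have hsub : {y | y ∈ K ∧ (1 / 2 : ℝ) • (x + y) ∉ {y | y ∈ K ∧ ‖y‖ ≤ ρ}} ⊆
        {y | y ∈ K ∧ r < ‖y‖} ∪ {y | y ∈ K ∧ 4 * σ * R < inner ℝ x y} := by
      rintro y ⟨hy, hn⟩
      by_contra hcon
      simp only [mem_union, mem_setOf_eq, not_or, not_and, not_lt] at hcon
      have hyr := hcon.1 hy
      have hyx := hcon.2 hy
      apply hn
      refine ⟨?_, ?_⟩
      · have := hconv hx hy (by norm_num : (0 : ℝ) ≤ 1 / 2) (by norm_num : (0 : ℝ) ≤ 1 / 2)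
          (by norm_num)
        rwa [← smul_add] at this
      · apply le_of_sq_le_sq _ hρ
        rw [norm_smul, mul_pow, norm_add_sq_real]
        have h2 : ‖x‖ ^ 2 ≤ R ^ 2 := pow_le_pow_left₀ (norm_nonneg _) hxR 2
        have h3 : ‖y‖ ^ 2 ≤ r ^ 2 := pow_le_pow_left₀ (norm_nonneg _) hyr 2
        have h4 : ‖(1 / 2 : ℝ)‖ ^ 2 = 1 / 4 := by
          rw [Real.norm_eq_abs, sq_abs]
          norm_num
        rw [h4]
        linarith
    have hfin : ∀ p : E d → Prop, volume {y | y ∈ K ∧ p y} ≠ ⊤ := fun p =>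
      ne_top_of_le_ne_top hK.measure_lt_top.ne (measure_mono fun y hy => hy.1)
    have h5 : volume.real {y | y ∈ K ∧ (1 / 2 : ℝ) • (x + y) ∉ {y | y ∈ K ∧ ‖y‖ ≤ ρ}} ≤
        volume.real {y | y ∈ K ∧ r < ‖y‖} +
          volume.real {y | y ∈ K ∧ 4 * σ * R < inner ℝ x y} := by
      refine (measureReal_mono hsub ?_).trans (measureReal_union_le _ _)
      exact (measure_union_lt_top (hfin _).lt_top (hfin _).lt_top).ne
    have h6 : 0 ≤ volume.real K := measureReal_nonneg
    linarith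

end Pool.Agent.Ovl
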