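import Pool.Agent.Ovl.Targets4
import Pool.Agent.Ovl.Targets7

/-!
# Bodies of small circumradius: at most `2 ^ d` translates (job OVL-RAD2)
-/

set_option autoImplicit false

open MeasureTheory Set Filter
open scoped Pointwise Topology

namespace Pool.Agent.Ovl

open Pool.Agent.Rog (E SymBody)

theorem p_RAD2 (hR : T_RAD) : T_RAD2 := by
  intro d σ r ρ R K hd hσ hr hρ hR0 hsum hK hKc hKi hKR hiso hfar hnear
  have hd' : (400 : ℝ) ≤ d := by exact_mod_cast hd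
  have hd0 : (0 : ℝ) < d := by linarith
  have he1 : Real.exp 1 < 2.7182818286 := Real.exp_one_lt_d9
  have he2 : 2.7182818283 < Real.exp 1 := Real.exp_one_gt_d9
  have hl2 : Real.log 2 < 0.6931471808 := Real.log_two_lt_d9
  obtain ⟨l, hl⟩ : ∃ l : ℝ, l = Real.log (8 * d + 2) := ⟨_, rfl⟩
  have h8 : (0 : ℝ) < 8 * d + 2 := by positivity
  have hl_up : l ≤ 10 * Real.log 2 + ((8 * d + 2) / 1024 - 1) := by
    have h1 := Real.log_le_sub_one_of_pos (x := (8 * d + 2) / 1024) (by positivity)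
    rw [Real.log_div h8.ne' (by norm_num)] at h1
    have h2 : Real.log 1024 = 10 * Real.log 2 := by
      rw [show (1024 : ℝ) = 2 ^ 10 by norm_num, Real.log_pow]
      norm_num
    rw [hl]
    linarith
  have hl_low : 1 ≤ l := by
    rw [hl, Real.le_log_iff_exp_le h8]
    linarith
  obtain ⟨Θ, hΘ⟩ : ∃ Θ : ℝ, Θ = 3 * d * l := ⟨_, rfl⟩
  have hΘ1 : 1 ≤ Θ := by
    rw [hΘ]
    nlinarith
  have hΘ2 : 64 * Θ ≤ (d : ℝ) ^ 3 := by
    have h1 : 192 * l ≤ (d : ℝ) ^ 2 := by nlinarith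
    have h2 := mul_le_mul_of_nonneg_left h1 hd0.le
    rw [hΘ]
    calc 64 * (3 * d * l) = d * (192 * l) := by ring
      _ ≤ d * (d : ℝ) ^ 2 := h2
      _ = (d : ℝ) ^ 3 := by ring
  have htail : 64 * Θ * volume.real {y | y ∈ K ∧ ‖y‖ ≤ ρ} ≤ volume.real K := by
    rw [mul_comm]
    exact (mul_le_mul_of_nonneg_left hΘ2 measureReal_nonneg).trans hnear
  obtain ⟨T, hT, hTK⟩ := hR d Θ σ r ρ R K (by omega) hΘ1 hσ hr hρ hR0 hsum hK hKc hKi hKR hiso
    hfar htail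
  refine ⟨T, hT.trans ?_, hTK⟩
  rw [← hl, hΘ]
  have hlpos : 0 < l := by linarith
  have h7 : Real.exp 1 * 2 ^ d / (3 * d * l) * (d * l) = Real.exp 1 / 3 * 2 ^ d := by
    field_simp
  rw [h7]
  have h8 : (16 : ℝ) ≤ 2 ^ d := by
    calc (16 : ℝ) = 2 ^ 4 := by norm_num
      _ ≤ 2 ^ d := pow_le_pow_right₀ (by norm_num) (by omega)
  nlinarith

end Pool.Agent.Ovl
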