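import Mathlib
import Pool.Agent.Ovl.Targets
import Pool.Agent.Ovl.Targets3

/-!
# Hadwiger's covering problem and overlaps: the sharp form for symmetric bodies
-/

set_option autoImplicit false

open MeasureTheory Set Filter
open scoped Pointwise Topology

namespace Pool.Agent.Ovl

open Pool.Agent.Rog (E SymBody)

/-- The core for symmetric bodies. -/
def T_SCORE : Prop := ∀ (d : ℕ) (Θ q a s ω : ℝ) (K : Set (E d)) (U : Finset (E d)), SymBody K →
  1 ≤ Θ → 1 / 2 ≤ q → q < 1 → a = q / (1 + q) → 0 ≤ s → s ≤ 1 →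
  2 * Θ * (1 - a * (s / 2)) ^ d < ω →
  volume.real {y | y ∈ K ∧ (1 - ω) * volume.real K < loss K (s • y)} * (4 * Θ) ≤
    volume.real K →
  U.Nonempty → (∀ x ∈ U, x ∈ K) →
  (∀ z : E d, (({x | x ∈ U ∧ x - z ∈ q • K} : Set (E d)).ncard : ℝ) ≤ Θ * a ^ d * U.card) → False

/-- The covering theorem for symmetric bodies: overlaps a little larger than those of the cube
suffice. -/
def T_SYM : Prop := ∀ (d : ℕ) (Θ s ω : ℝ) (K : Set (E d)), 2 ≤ d → 1 ≤ Θ → 0 ≤ s → s ≤ 1 →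
  3 * Θ * Real.exp (-(s * d / 4)) ≤ ω → SymBody K →
  volume.real {y | y ∈ K ∧ (1 - ω) * volume.real K < loss K (s • y)} * (4 * Θ) ≤
    volume.real K →
  Cov K (1 + Real.exp 1 * 2 ^ d / Θ * (d * Real.log (8 * d + 2)))

/-- At most `2 ^ d` translates. -/
def T_SYM2 : Prop := ∀ (d : ℕ) (s : ℝ) (K : Set (E d)), 200 ≤ d → 0 ≤ s → s ≤ 1 → SymBody K →
  volume.real {y | y ∈ K ∧ volume.real {x | x ∈ K ∧ x + s • y ∈ K} <
    (d : ℝ) ^ 2 * Real.exp (-(s * d / 4)) * volume.real K} * (d : ℝ) ^ 2 ≤ volume.real K →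
  Cov K (2 ^ d)

end Pool.Agent.Ovl
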