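import Pool.Agent.Ovl.CORE
import Pool.Agent.Ovl.Targets5

/-!
# The core of the covering theorem for symmetric bodies (job OVL-SCORE)
-/

set_option autoImplicit false

open MeasureTheory Set
open scoped Pointwise

namespace Pool.Agent.Ovl

open Pool.Agent.Rog (E SymBody)
open Pool.Agent.HRL (H)

namespace SCORE_

/-- a bound for the sum of the measures of sets which cover every point few times -/
lemma sum_real_le {α ι : Type} [MeasurableSpace α] (μ : Measure α) [Fintype ι] (A : ι → Set α)
    (S : Set α) (hA : ∀ i, MeasurableSet (A i)) (hAS : ∀ i, A i ⊆ S) (hS : MeasurableSet S)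
    (hSf : μ S ≠ ⊤) (N : ℝ) (h : ∀ u ∈ S, (({i | u ∈ A i} : Set ι).ncard : ℝ) ≤ N) :
    ∑ i, μ.real (A i) ≤ N * μ.real S := by
  classical
  have hAf : ∀ i, μ (A i) ≠ ⊤ := fun i => ((measure_mono (hAS i)).trans_lt hSf.lt_top).ne
  have h1 : ∀ i, μ.real (A i) = ∫ u in S, (A i).indicator (fun _ => (1 : ℝ)) u ∂μ := by
    intro i
    rw [setIntegral_indicator (hA i), inter_eq_right.2 (hAS i)]
    simp
  have hint : ∀ i, Integrable (fun u => (A i).indicator (fun _ => (1 : ℝ)) u) (μ.restrict S) := by
    intro i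
    refine (IntegrableOn.integrable_indicator ?_ (hA i)).restrict
    exact integrableOn_const (hAf i)
  simp_rw [h1]
  rw [← integral_finset_sum _ fun i _ => hint i]
  calc ∫ u in S, ∑ i, (A i).indicator (fun _ => (1 : ℝ)) u ∂μ ≤ ∫ _ in S, N ∂μ := by
        refine setIntegral_mono_on ?_ (integrableOn_const hSf) hS fun u hu => ?_
        · exact integrable_finset_sum _ fun i _ => hint i
        · refine le_trans (le_of_eq ?_) (h u hu)
          rw [Set.ncard_eq_toFinset_card']
          simp [Set.indicator_apply, Finset.sum_boole]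
    _ = N * μ.real S := by
      rw [setIntegral_const, smul_eq_mul, mul_comm]

/-- the pointwise bound -/
lemma pw {n : ℕ} {ι : Type} [Fintype ι] (M S : Set (E n)) (v : ι → E n) (a N : ℝ) (ha : 0 < a)
    (hM : IsCompact M) (hsym : ∀ x ∈ M, -x ∈ M) (hS : MeasurableSet S) (hSf : volume S ≠ ⊤)
    (h : ∀ z : E n, (({i | v i - z ∈ M} : Set ι).ncard : ℝ) ≤ N * a ^ n) :
    ∑ i, volume.real {w | w ∈ M ∧ a • (v i + w) ∈ S} ≤ N * volume.real S := by
  have h1 : ∀ i, volume.real {w | w ∈ M ∧ a • (v i + w) ∈ S} =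
      (a⁻¹) ^ n * volume.real {u | u ∈ S ∧ a⁻¹ • u - v i ∈ M} := by
    intro i
    rw [← CORE_.vol_smul_real _ (inv_nonneg.2 ha.le)]
    have e : {w | w ∈ M ∧ a • (v i + w) ∈ S} =
        (fun w => v i + w) ⁻¹' (a⁻¹ • {u | u ∈ S ∧ a⁻¹ • u - v i ∈ M}) := by
      ext w
      rw [mem_preimage, mem_inv_smul_set_iff₀ ha.ne']
      simp only [mem_setOf_eq]
      rw [inv_smul_smul₀ ha.ne', add_sub_cancel_left]
      exact and_comm
    rw [e, measureReal_def, measureReal_def, measure_preimage_add]
  simp_rw [h1]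
  rw [← Finset.mul_sum]
  have h2 := sum_real_le volume (fun i => {u | u ∈ S ∧ a⁻¹ • u - v i ∈ M}) S (fun i => by
      refine hS.inter ?_
      exact hM.isClosed.measurableSet.preimage (by fun_prop)) (fun i u hu => hu.1) hS hSf
      (N * a ^ n) (fun u hu => by
      refine le_trans ?_ (h (a⁻¹ • u))
      refine Nat.cast_le.mpr (Set.ncard_le_ncard ?_ (Set.toFinite _))
      intro i hi
      have h3 := hsym _ hi.2
      rwa [neg_sub] at h3)
  calc (a⁻¹) ^ n * ∑ i, volume.real {u | u ∈ S ∧ a⁻¹ • u - v i ∈ M}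
      ≤ (a⁻¹) ^ n * (N * a ^ n * volume.real S) := by gcongr
    _ = (a⁻¹ * a) ^ n * (N * volume.real S) := by rw [mul_pow]; ring
    _ = _ := by rw [inv_mul_cancel₀ ha.ne', one_pow, one_mul]

end SCORE_

open CORE_ SCORE_ in
theorem p_SCORE (hL : T_LOSS) (hV : T_LEV) : T_SCORE := by
  classical
  intro d Θ q a s ω K U hKS hΘ hq hq1 ha hs0 hs1 hnum hB hU hUK hcount
  obtain ⟨hc, hK, hKint, hKsym⟩ := hKS
  set t : ℝ := s / 2 with ht
  have ht0 : 0 ≤ t := by rw [ht]; positivity
  have ht1 : t ≤ 1 := by rw [ht]; linarith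
  obtain ⟨hL0, hLneg, hLadd, hLmono, hLmeas, -, -⟩ := hL d K hK hc
  have hq0 : 0 < q := by linarith
  have ha0 : 0 < a := by rw [ha]; positivity
  have ha1 : a < 1 := by
    rw [ha, div_lt_one (by linarith)]; linarith
  have hΘ0 : 0 < Θ := by linarith
  have hat : 0 ≤ 1 - a * t := by nlinarith
  have hω0 : 0 < ω := lt_of_le_of_lt (by positivity) hnum
  set M : Set (E d) := q • K with hM
  have hMc : IsCompact M := hc.smul q
  have hMsym : ∀ x ∈ M, -x ∈ M := by
    rintro _ ⟨y, hy, rfl⟩
    exact ⟨-y, hKsym y hy, by simp⟩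
  have hKpos : 0 < volume.real K := by
    rw [measureReal_def]
    refine ENNReal.toReal_pos ?_ hc.measure_lt_top.ne
    intro h
    exact (isOpen_interior.measure_pos volume hKint).ne' (measure_mono_null interior_subset h)
  have hMvol : volume.real M = q ^ d * volume.real K := vol_smul_real K hq0.le
  have hMpos : 0 < volume.real M := by rw [hMvol]; positivity
  have : Nonempty U := hU.to_subtype
  have hcard : (Fintype.card U : ℝ) = (U.card : ℝ) := by rw [Fintype.card_coe]
  have hZ0 : 0 < (Fintype.card U : ℝ) := by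
    rw [hcard]
    exact_mod_cast hU.card_pos
  set Z : ℝ := (Fintype.card U : ℝ) with hZ
  set v : U → E d := fun i => (i : E d) with hv
  have hvK : ∀ i, v i ∈ K := fun i => hUK _ i.2
  -- inclusion
  have hincl : ∀ i, ∀ w ∈ M, a • (v i + w) ∈ M := by
    rintro i _ ⟨x, hx, rfl⟩
    have h1 : v i + q • x ∈ (1 + q) • K := by
      rw [hK.add_smul zero_le_one hq0.le]
      exact add_mem_add (by simpa using hvK i) (smul_mem_smul_set hx)
    obtain ⟨y, hy, hye⟩ := h1
    refine ⟨y, hy, ?_⟩
    simp only at hye ⊢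
    rw [← hye, smul_smul, ha]
    congr 1
    field_simp
  -- the count
  have hcnt : ∀ z : E d, (({i | v i - z ∈ M} : Set U).ncard : ℝ) ≤ (Θ * Z) * a ^ d := by
    intro z
    have h1 : (({i | v i - z ∈ M} : Set U).ncard) =
        (((fun i : U => (i : E d)) '' {i | v i - z ∈ M})).ncard :=
      (Set.ncard_image_of_injective _ Subtype.val_injective).symm
    rw [h1]
    refine le_trans (Nat.cast_le.mpr (Set.ncard_le_ncard ?_ ?_)) ((hcount z).trans_eq ?_)
    · rintro _ ⟨i, hi, rfl⟩
      exact ⟨i.2, hi⟩
    · exact U.finite_toSet.subset (fun x hx => hx.1)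
    · rw [← hcard]; ring
  have hMfin : ∀ s : Set (E d), s ⊆ M → volume s ≠ ⊤ := fun s hs =>
    ((measure_mono hs).trans_lt hMc.measure_lt_top).ne
  -- the exceptional set
  set B : Set (E d) := {y | y ∈ K ∧ (1 - ω) * volume.real K < loss K (s • y)} with hBdef
  have hω1 : ω ≤ 1 := by
    by_contra hcon
    push Not at hcon
    have hBK' : B = K := by
      ext y
      refine ⟨fun hy => hy.1, fun hy => ⟨hy, ?_⟩⟩
      have h1 : (1 - ω) * volume.real K < 0 := mul_neg_of_neg_of_pos (by linarith) hKpos
      exact h1.trans_le (hL0 _).1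
    rw [hBK'] at hB
    nlinarith
  have hBm : MeasurableSet B := by
    apply hc.measurableSet.inter
    exact measurableSet_lt measurable_const
      (hLmeas.comp (measurable_const_smul s))
  have hBK : B ⊆ K := fun y hy => hy.1
  have hBM : q • B ⊆ M := smul_set_mono hBK
  have hqBm : MeasurableSet (q • B) := hBm.const_smul₀ q
  have hB1 : volume.real (q • B) * (4 * Θ) ≤ volume.real M := by
    rw [vol_smul_real B hq0.le, hMvol, mul_assoc]
    exact mul_le_mul_of_nonneg_left hB (by positivity)
  have hst1 := pw M (q • B) v a (Θ * Z) ha0 hMc hMsym hqBm (hMfin _ hBM) hcnt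
  have hst1' : ∑ i, volume.real {w | w ∈ M ∧ a • (v i + w) ∈ q • B} ≤
      Z * (volume.real M / 4) := by
    refine hst1.trans ?_
    have h1 : Θ * Z * volume.real (q • B) = Z * (volume.real (q • B) * (4 * Θ) / 4) := by ring
    rw [h1]
    gcongr
  -- bad indices
  set bad : Finset U := Finset.univ.filter fun i => ∀ w ∈ M,
    a • (v i + w) ∈ q • B ∨ a • (v i + -w) ∈ q • B with hbad
  have hbadc : (bad.card : ℝ) ≤ 1 / 2 * Z := by
    have h1 : (bad.card : ℝ) * (1 / 2 * volume.real M) ≤ Z * (volume.real M / 4) := by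
      refine le_trans ?_ hst1'
      rw [← nsmul_eq_mul, ← Finset.sum_const]
      refine le_trans (Finset.sum_le_sum fun p hp => ?_) (Finset.sum_le_sum_of_subset_of_nonneg
        (Finset.subset_univ bad) fun _ _ _ => measureReal_nonneg)
      have hp' := (Finset.mem_filter.mp hp).2
      have hsub : M ⊆ {w | w ∈ M ∧ a • (v p + w) ∈ q • B} ∪
          -{w | w ∈ M ∧ a • (v p + w) ∈ q • B} := by
        intro w hw
        rcases hp' w hw with h | h
        · exact Or.inl ⟨hw, h⟩
        · exact Or.inr ⟨hMsym w hw, h⟩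
      have h2 : volume.real M ≤ volume.real {w | w ∈ M ∧ a • (v p + w) ∈ q • B} +
          volume.real (-{w | w ∈ M ∧ a • (v p + w) ∈ q • B}) := by
        refine (measureReal_mono hsub ?_).trans (measureReal_union_le _ _)
        refine hMfin _ (union_subset (fun w hw => hw.1) fun w hw => ?_)
        have := hMsym _ hw.1
        rwa [neg_neg] at this
      have h3 : volume.real (-{w | w ∈ M ∧ a • (v p + w) ∈ q • B}) =
          volume.real {w | w ∈ M ∧ a • (v p + w) ∈ q • B} := by
        rw [measureReal_def, measureReal_def, Measure.measure_neg]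
      linarith
    have h2 : (bad.card : ℝ) * (1 / 2 * volume.real M) ≤
        (1 / 2 * Z) * (1 / 2 * volume.real M) := by linarith
    exact le_of_mul_le_mul_right h2 (by positivity)
  -- the second set
  set S : Set (E d) := ((1 - a * t) • M) ∩ M with hS
  have hSm : MeasurableSet S := (hMc.smul _).measurableSet.inter hMc.measurableSet
  have hSv : volume.real S ≤ (1 - a * t) ^ d * volume.real M := by
    rw [← vol_smul_real M hat]
    exact measureReal_mono inter_subset_left (hMc.smul _).measure_lt_top.ne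
  have hst2 := pw M S v a (Θ * Z) ha0 hMc hMsym hSm (hMfin _ inter_subset_right) hcnt
  have hst2' : ∑ i, volume.real {w | w ∈ M ∧ a • (v i + w) ∈ S} ≤
      Z * (Θ * (1 - a * t) ^ d * volume.real M) := by
    refine hst2.trans ?_
    calc Θ * Z * volume.real S ≤ Θ * Z * ((1 - a * t) ^ d * volume.real M) := by gcongr
      _ = _ := by ring
  -- good indices
  have hgood : ∀ i : U, i ∉ bad →
      ω * volume.real M ≤ volume.real {w | w ∈ M ∧ a • (v i + w) ∈ S} := by
    intro i hi
    simp only [hbad, Finset.mem_filter, Finset.mem_univ, true_and, not_forall, not_or] at hi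
    obtain ⟨w, hw, hwB, hwB2⟩ := hi
    obtain ⟨m, hm, hme⟩ := hincl i w hw
    obtain ⟨m', hm', hme'⟩ := hincl i (-w) (hMsym w hw)
    simp only at hme hme'
    have hmB : loss K (s • m) ≤ (1 - ω) * volume.real K := by
      by_contra hcon
      apply hwB
      rw [← hme]
      exact smul_mem_smul_set ⟨hm, not_le.1 hcon⟩
    have hmB' : loss K (s • m') ≤ (1 - ω) * volume.real K := by
      by_contra hcon
      apply hwB2
      rw [← hme']
      exact smul_mem_smul_set ⟨hm', not_le.1 hcon⟩
    have hvi : v i = ((1 + q) / 2) • (m + m') := by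
      have h1 : (2 * a) • v i = (2 * a) • (((1 + q) / 2) • (m + m')) := by
        have h2 : (2 * a) • v i = a • (v i + w) + a • (v i + -w) := by module
        rw [h2, ← hme, ← hme', smul_smul, ← smul_add]
        congr 1
        rw [ha]
        field_simp
      exact smul_right_injective (E d) (by positivity : (2 * a) ≠ 0) h1
    have hloss : loss K (t • v i) ≤ (1 - ω) * volume.real K := by
      have h1 := hV d K hK hc ((1 - ω) * volume.real K) (1 / 2) (1 / 2) (s • m) (s • m')
        (by norm_num) (by norm_num) (by norm_num) hmB hmB'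
      have e : t • v i = ((1 + q) / 2) • ((1 / 2 : ℝ) • (s • m) + (1 / 2 : ℝ) • (s • m')) := by
        rw [hvi, ht]
        module
      rw [e]
      exact (hLmono ((1 + q) / 2) _ (by positivity) (by linarith)).trans h1
    -- the points staying in `K`
    have hsplit : volume.real K ≤ volume.real {x | x ∈ K ∧ x + t • v i ∈ K} +
        loss K (t • v i) := by
      have hsub : K ⊆ {x | x ∈ K ∧ x + t • v i ∈ K} ∪ {x | x ∈ K ∧ x + t • v i ∉ K} := by
        intro x hx
        by_cases h : x + t • v i ∈ K
        · exact Or.inl ⟨hx, h⟩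
        · exact Or.inr ⟨hx, h⟩
      refine (measureReal_mono hsub ?_).trans (measureReal_union_le _ _)
      refine ((measure_mono (union_subset (fun x hx => hx.1) (fun x hx => hx.1))).trans_lt
        hc.measure_lt_top).ne
    have hstay : ω * volume.real M ≤
        volume.real (q • {x | x ∈ K ∧ x + t • v i ∈ K}) := by
      rw [vol_smul_real {x | x ∈ K ∧ x + t • v i ∈ K} hq0.le, hMvol]
      have h1 : ω * volume.real K ≤ volume.real {x | x ∈ K ∧ x + t • v i ∈ K} := by
        linarith
      calc ω * (q ^ d * volume.real K) = q ^ d * (ω * volume.real K) := by ring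
        _ ≤ _ := mul_le_mul_of_nonneg_left h1 (by positivity)
    refine hstay.trans (measureReal_mono ?_ (hMfin _ fun w hw => hw.1))
    rintro _ ⟨x, ⟨hx, hxv⟩, rfl⟩
    simp only
    have hwM : q • x ∈ M := smul_mem_smul_set hx
    have hin : a • (v i + q • x) ∈ M := hincl i (q • x) hwM
    refine ⟨hwM, ?_, hin⟩
    have hqt : 0 ≤ 1 - q * t := by nlinarith
    have h1 : v i + q • x ∈ ((1 - q * t) + q) • K := by
      rw [hK.add_smul hqt hq0.le]
      refine ⟨(1 - q * t) • v i, smul_mem_smul_set (hvK i), q • (x + t • v i),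
        smul_mem_smul_set hxv, ?_⟩
      simp only
      module
    obtain ⟨z, hz, hze⟩ := h1
    refine ⟨q • z, smul_mem_smul_set hz, ?_⟩
    simp only at hze ⊢
    rw [← hze, smul_smul, smul_smul]
    congr 1
    rw [ha]
    field_simp
    ring
  have hlow : (1 / 2 * Z) * (ω * volume.real M) ≤
      ∑ i, volume.real {w | w ∈ M ∧ a • (v i + w) ∈ S} := by
    have h1 : ∑ i ∈ badᶜ, ω * volume.real M ≤
        ∑ i, volume.real {w | w ∈ M ∧ a • (v i + w) ∈ S} := by
      refine le_trans (Finset.sum_le_sum fun p hp => hgood p (Finset.mem_compl.mp hp))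
        (Finset.sum_le_sum_of_subset_of_nonneg (Finset.subset_univ _)
          fun _ _ _ => measureReal_nonneg)
    refine le_trans ?_ h1
    rw [Finset.sum_const, nsmul_eq_mul]
    have h2 : (badᶜ.card : ℝ) = Z - bad.card := by
      rw [Finset.card_compl, Nat.cast_sub (Finset.card_le_univ _)]
    rw [h2]
    apply mul_le_mul_of_nonneg_right _ (by positivity)
    linarith
  have hZM : 0 < Z * volume.real M := by positivity
  have hfin := hlow.trans hst2'
  have e1 : (1 / 2 * Z) * (ω * volume.real M) = (Z * volume.real M) * (ω / 2) := by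
    ring
  have e2 : Z * (Θ * (1 - a * t) ^ d * volume.real M) =
      (Z * volume.real M) * (Θ * (1 - a * t) ^ d) := by ring
  rw [e1, e2] at hfin
  have hfin2 := le_of_mul_le_mul_left hfin hZM
  linarith

end Pool.Agent.Ovl
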