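import Pool.Agent.Ovl.Targets7
import Pool.Agent.HRL.Targets

/-!
# Bodies with small signed sums: at most `2 ^ d` translates (numerics)
-/

set_option autoImplicit false

open MeasureTheory Set Filter
open scoped Pointwise Topology

namespace Pool.Agent.Ovl

open Pool.Agent.Rog (E SymBody)

theorem p_SGN (hT : Pool.Agent.HRL.T_TOPL) : T_SGN := by
  intro d N D K L hd hN hD hcond hK hKc hL hLK hKD hA
  have hd' : (400 : ℝ) ≤ d := by exact_mod_cast hd
  have hd0 : (0 : ℝ) < d := by linarith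
  have hN' : (1 : ℝ) ≤ N := by exact_mod_cast hN
  have hN0 : (0 : ℝ) < N := by linarith
  have hD0 : (0 : ℝ) < D := by linarith
  have he1 : Real.exp 1 < 2.7182818286 := Real.exp_one_lt_d9
  have hepos : 0 < Real.exp 1 := Real.exp_pos 1
  have hl2 : Real.log 2 < 0.6931471808 := Real.log_two_lt_d9
  obtain ⟨Θ, hΘ⟩ : ∃ Θ : ℝ, Θ = (d : ℝ) ^ 2 * D := ⟨_, rfl⟩
  have hΘ0 : 0 < Θ := by rw [hΘ]; positivity
  have hΘ1 : 1 ≤ Θ := by
    have h1 : (1 : ℝ) ≤ (d : ℝ) ^ 2 := one_le_pow₀ (by linarith)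
    rw [hΘ]
    calc (1 : ℝ) = 1 * 1 := by norm_num
      _ ≤ (d : ℝ) ^ 2 * D := mul_le_mul h1 hD zero_le_one (by positivity)
  have hcond' : 34 * 4 ^ N * Real.log (500 * N * Θ * D) ≤ N * d := by
    have h1 : 500 * N * Θ * D = 500 * N * (d * D) ^ 2 := by rw [hΘ]; ring
    rw [h1]
    exact hcond
  have h2 : 320 * N * D * Θ = 320 * N * (d * D) ^ 2 := by rw [hΘ]; ring
  have hpos : (0 : ℝ) < 80 * D * (320 * N * (d * D) ^ 2) ^ N := by positivity
  have hA' : volume.real (Pool.Agent.HRL.J N L K (1 / 10)) ≤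
      1 / (80 * D * (320 * N * D * Θ) ^ N) * volume.real K ^ N := by
    rw [h2, div_mul_eq_mul_div, one_mul, le_div_iff₀ hpos]
    exact hA
  obtain ⟨T, hTc, hTK⟩ := hT d N Θ D K L (by omega) hN hΘ1 hD hcond' hL hK hKc hLK hKD hA'
  refine ⟨T, hTc.trans ?_, hTK⟩
  obtain ⟨x, hx⟩ : ∃ x : ℝ, x = d * D := ⟨_, rfl⟩
  have hx4 : 400 ≤ x := by
    rw [hx]
    calc (400 : ℝ) = 400 * 1 := by norm_num
      _ ≤ d * D := mul_le_mul hd' hD zero_le_one hd0.le
  have hx0 : 0 < x := by linarith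
  have hl_up : Real.log (4 * d * D + 1) ≤ 10 * Real.log 2 + ((4 * x + 1) / 1024 - 1) := by
    have h0 : 4 * d * D + 1 = 4 * x + 1 := by rw [hx]; ring
    have h8 : (0 : ℝ) < 4 * x + 1 := by positivity
    rw [h0]
    have h1 := Real.log_le_sub_one_of_pos (x := (4 * x + 1) / 1024) (by positivity)
    rw [Real.log_div h8.ne' (by norm_num)] at h1
    have h2 : Real.log 1024 = 10 * Real.log 2 := by
      rw [show (1024 : ℝ) = 2 ^ 10 by norm_num, Real.log_pow]
      norm_num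
    linarith
  have hlog0 : 0 ≤ Real.log (4 * d * D + 1) := by
    apply Real.log_nonneg
    have : 0 < 4 * d * D := by positivity
    linarith
  have hkey : Real.exp 1 * Real.log (4 * d * D + 1) ≤ x / 2 := by
    calc Real.exp 1 * Real.log (4 * d * D + 1) ≤ 3 * Real.log (4 * d * D + 1) :=
          mul_le_mul_of_nonneg_right (by linarith) hlog0
      _ ≤ x / 2 := by linarith
  have h9 : Real.exp 1 * 2 ^ d / Θ * (d * Real.log (4 * d * D + 1)) =
      2 ^ d * (Real.exp 1 * Real.log (4 * d * D + 1) / x) := by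
    rw [hΘ, hx]
    field_simp
  have h10 : Real.exp 1 * Real.log (4 * d * D + 1) / x ≤ 1 / 2 := by
    rw [div_le_iff₀ hx0]
    linarith
  have h11 : (2 : ℝ) ≤ 2 ^ d := by
    calc (2 : ℝ) = 2 ^ 1 := by norm_num
      _ ≤ 2 ^ d := pow_le_pow_right₀ (by norm_num) (by omega)
  rw [h9]
  have h12 : (2 : ℝ) ^ d * (Real.exp 1 * Real.log (4 * d * D + 1) / x) ≤ 2 ^ d * (1 / 2) :=
    mul_le_mul_of_nonneg_left h10 (by positivity)
  linarith

end Pool.Agent.Ovl
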