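import Mathlib
import Pool.Agent.Ovl.Targets10

/-!
# Exchange of coordinates between two random points of a convex body
-/

set_option autoImplicit false

open MeasureTheory Set Filter
open scoped Pointwise Topology ENNReal

namespace Pool.Agent.Ovl

open Pool.Agent.Rog (E SymBody)

namespace SWP_

/-- The abstract exchange inequality in a product of two measure spaces. -/
theorem exch {S T : Type*} [MeasurableSpace S] [MeasurableSpace T] (μ : Measure S)
    (ν : Measure T) [SFinite μ] [SFinite ν] (K : Set (S × T)) (hK : MeasurableSet K)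
    (S0 : Set S) (T0 : Set T) (hS0 : MeasurableSet S0) (hT0 : MeasurableSet T0)
    (hs : μ S0 ≠ ⊤) (ht : ν T0 ≠ ⊤) (h1 : ∀ p ∈ K, p.1 ∈ S0 ∧ p.2 ∈ T0) (δ c : ℝ≥0∞)
    (hV0 : (μ.prod ν) K ≠ 0) (hc : c * (μ S0 * ν T0) ≤ (μ.prod ν) K) :
    (μ.prod ν) {p | p ∈ K ∧ (μ.prod ν) {q | q ∈ K ∧ (p.1, q.2) ∈ K} <
      δ ^ 2 / 2 * c * (μ.prod ν) K} ≤ 3 * δ * (μ.prod ν) K := by
  set V := (μ.prod ν) K with hV
  set s := μ S0 with hsd
  set t := ν T0 with htd
  have hVle : V ≤ s * t := by
    rw [hV, hsd, htd, ← Measure.prod_prod]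
    exact measure_mono fun p hp => ⟨(h1 p hp).1, (h1 p hp).2⟩
  have hs0 : s ≠ 0 := by
    intro h
    apply hV0
    rw [h, zero_mul] at hVle
    exact le_antisymm hVle (zero_le)
  have ht0 : t ≠ 0 := by
    intro h
    apply hV0
    rw [h, mul_zero] at hVle
    exact le_antisymm hVle (zero_le)
  set f : S → ℝ≥0∞ := fun u => ν (Prod.mk u ⁻¹' K) with hf
  set g : T → ℝ≥0∞ := fun w => μ ((fun u => (u, w)) ⁻¹' K) with hg
  have hfm : Measurable f := measurable_measure_prodMk_left hK
  have hgm : Measurable g := measurable_measure_prodMk_right hK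
  set a := δ * V / s with ha
  set b := δ * V / t with hb
  have has : a * s = δ * V := ENNReal.div_mul_cancel hs0 hs
  have hbt : b * t = δ * V := ENNReal.div_mul_cancel ht0 ht
  set K2 : Set (S × T) := K ∩ Prod.snd ⁻¹' {w | g w < b} with hK2
  have hK2m : MeasurableSet K2 := hK.inter (measurable_snd (measurableSet_lt hgm measurable_const))
  set h : S → ℝ≥0∞ := fun u => ν (Prod.mk u ⁻¹' K2) with hh
  have hhm : Measurable h := measurable_measure_prodMk_left hK2m
  -- first bad set
  have hB1 : (μ.prod ν) (K ∩ Prod.fst ⁻¹' {u | f u < a}) ≤ δ * V := by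
    have hm : MeasurableSet (K ∩ Prod.fst ⁻¹' {u | f u < a}) :=
      hK.inter (measurable_fst (measurableSet_lt hfm measurable_const))
    rw [Measure.prod_apply hm, ← has]
    have : ∀ u, ν (Prod.mk u ⁻¹' (K ∩ Prod.fst ⁻¹' {u | f u < a})) ≤
        S0.indicator (fun _ => a) u := by
      intro u
      by_cases hu : u ∈ S0
      · rw [indicator_of_mem hu]
        by_cases hfu : f u < a
        · refine le_trans (measure_mono ?_) hfu.le
          intro w hw
          exact hw.1
        · have : Prod.mk u ⁻¹' (K ∩ Prod.fst ⁻¹' {u | f u < a}) = ∅ := by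
            ext w
            simp only [mem_preimage, mem_inter_iff, mem_ofPred_eq, mem_empty_iff_false, iff_false]
            exact fun hw => hfu hw.2
          rw [this, measure_empty]
          exact zero_le
      · have : Prod.mk u ⁻¹' (K ∩ Prod.fst ⁻¹' {u | f u < a}) = ∅ := by
          ext w
          simp only [mem_preimage, mem_inter_iff, mem_ofPred_eq, mem_empty_iff_false, iff_false]
          exact fun hw => hu (h1 _ hw.1).1
        rw [this, measure_empty]
        exact zero_le
    calc ∫⁻ u, ν (Prod.mk u ⁻¹' (K ∩ Prod.fst ⁻¹' {u | f u < a})) ∂μ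
        ≤ ∫⁻ u, S0.indicator (fun _ => a) u ∂μ := lintegral_mono this
      _ = a * s := by rw [lintegral_indicator_const hS0]
  -- second bad set
  have hB2 : (μ.prod ν) K2 ≤ δ * V := by
    rw [Measure.prod_apply_symm hK2m, ← hbt]
    have : ∀ w, μ ((fun u => (u, w)) ⁻¹' K2) ≤ T0.indicator (fun _ => b) w := by
      intro w
      by_cases hw : w ∈ T0
      · rw [indicator_of_mem hw]
        by_cases hgw : g w < b
        · refine le_trans (measure_mono ?_) hgw.le
          intro u hu
          exact hu.1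
        · have : (fun u => (u, w)) ⁻¹' K2 = ∅ := by
            ext u
            simp only [mem_preimage, hK2, mem_inter_iff, mem_ofPred_eq, mem_empty_iff_false,
              iff_false]
            exact fun hu => hgw hu.2
          rw [this, measure_empty]
          exact zero_le
      · have : (fun u => (u, w)) ⁻¹' K2 = ∅ := by
          ext u
          simp only [mem_preimage, hK2, mem_inter_iff, mem_ofPred_eq, mem_empty_iff_false,
            iff_false]
          exact fun hu => hw (h1 _ hu.1).2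
        rw [this, measure_empty]
        exact zero_le
    calc ∫⁻ w, μ ((fun u => (u, w)) ⁻¹' K2) ∂ν
        ≤ ∫⁻ w, T0.indicator (fun _ => b) w ∂ν := lintegral_mono this
      _ = b * t := by rw [lintegral_indicator_const hT0]
  -- third bad set
  have hB3 : (μ.prod ν) (K ∩ Prod.fst ⁻¹' {u | f u / 2 < h u}) ≤ 2 * (δ * V) := by
    have hm : MeasurableSet (K ∩ Prod.fst ⁻¹' {u | f u / 2 < h u}) :=
      hK.inter (measurable_fst (measurableSet_lt (hfm.div_const _) hhm))
    rw [Measure.prod_apply hm]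
    have : ∀ u, ν (Prod.mk u ⁻¹' (K ∩ Prod.fst ⁻¹' {u | f u / 2 < h u})) ≤ 2 * h u := by
      intro u
      by_cases hfu : f u / 2 < h u
      · calc ν (Prod.mk u ⁻¹' (K ∩ Prod.fst ⁻¹' {u | f u / 2 < h u})) ≤ f u :=
              measure_mono fun w hw => hw.1
          _ = 2 * (f u / 2) := (ENNReal.mul_div_cancel two_ne_zero ENNReal.ofNat_ne_top).symm
          _ ≤ 2 * h u := mul_le_mul_right hfu.le _
      · have : Prod.mk u ⁻¹' (K ∩ Prod.fst ⁻¹' {u | f u / 2 < h u}) = ∅ := by
          ext w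
          simp only [mem_preimage, mem_inter_iff, mem_ofPred_eq, mem_empty_iff_false, iff_false]
          exact fun hw => hfu hw.2
        rw [this, measure_empty]
        exact zero_le
    calc ∫⁻ u, ν (Prod.mk u ⁻¹' (K ∩ Prod.fst ⁻¹' {u | f u / 2 < h u})) ∂μ
        ≤ ∫⁻ u, 2 * h u ∂μ := lintegral_mono this
      _ = 2 * ∫⁻ u, h u ∂μ := lintegral_const_mul _ hhm
      _ = 2 * (μ.prod ν) K2 := by rw [Measure.prod_apply hK2m]
      _ ≤ 2 * (δ * V) := mul_le_mul_right hB2 _
  -- the inclusion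
  have hincl : {p | p ∈ K ∧ (μ.prod ν) {q | q ∈ K ∧ (p.1, q.2) ∈ K} < δ ^ 2 / 2 * c * V} ⊆
      (K ∩ Prod.fst ⁻¹' {u | f u < a}) ∪ (K ∩ Prod.fst ⁻¹' {u | f u / 2 < h u}) := by
    rintro ⟨u, w0⟩ ⟨hp, hlt⟩
    by_contra hcon
    simp only [mem_union, mem_inter_iff, hp, true_and, mem_preimage, mem_ofPred_eq, not_or,
      not_lt] at hcon
    obtain ⟨hfa, hhf⟩ := hcon
    apply absurd hlt
    rw [not_lt]
    have hft : f u ≠ ⊤ := by
      refine ne_top_of_le_ne_top ht (measure_mono ?_)
      intro w hw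
      exact (h1 _ hw).2
    -- the good part
    set G : Set T := Prod.mk u ⁻¹' K ∩ {w | b ≤ g w} with hG
    have hGh : f u ≤ ν G + h u := by
      refine le_trans (measure_mono ?_) (measure_union_le _ _)
      intro w hw
      by_cases hgw : b ≤ g w
      · exact Or.inl ⟨hw, hgw⟩
      · exact Or.inr ⟨hw, not_le.mp hgw⟩
    have hG2 : f u / 2 ≤ ν G := by
      have h2 : f u / 2 + f u / 2 ≤ ν G + f u / 2 := by
        rw [ENNReal.add_halves]
        exact hGh.trans (add_le_add le_rfl hhf)
      exact (ENNReal.add_le_add_iff_right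
        (ENNReal.div_ne_top hft two_ne_zero)).mp h2
    have hQm : MeasurableSet {q : S × T | q ∈ K ∧ (u, q.2) ∈ K} :=
      hK.inter ((measurable_const.prodMk measurable_snd) hK)
    have hmark : b * ν G ≤ (μ.prod ν) {q | q ∈ K ∧ (u, q.2) ∈ K} := by
      rw [Measure.prod_apply_symm hQm]
      have hmm : Measurable fun w => μ ((fun x => (x, w)) ⁻¹' {q : S × T | q ∈ K ∧ (u, q.2) ∈ K}) :=
        measurable_measure_prodMk_right hQm
      refine le_trans (mul_le_mul_right (measure_mono ?_) b) (mul_meas_ge_le_lintegral hmm b)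
      intro w hw
      have : (fun x => (x, w)) ⁻¹' {q : S × T | q ∈ K ∧ (u, q.2) ∈ K} =
          (fun x => (x, w)) ⁻¹' K := by
        ext x
        simp only [mem_preimage, mem_ofPred_eq, and_iff_left_iff_imp]
        exact fun _ => hw.1
      simp only [mem_ofPred_eq, this]
      exact hw.2
    refine le_trans ?_ hmark
    calc δ ^ 2 / 2 * c * V ≤ b * (a / 2) := by
          have hst0 : s * t ≠ 0 := mul_ne_zero hs0 ht0
          have hstt : s * t ≠ ⊤ := ENNReal.mul_ne_top hs ht
          have e1 : b * (a / 2) * (s * t) = δ ^ 2 / 2 * V * V := by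
            calc b * (a / 2) * (s * t) = (b * t) * (a * s) / 2 := by
                  simp only [div_eq_mul_inv]; ring
              _ = δ ^ 2 / 2 * V * V := by
                  rw [has, hbt]; simp only [div_eq_mul_inv]; ring
          have e2 : δ ^ 2 / 2 * c * V * (s * t) ≤ b * (a / 2) * (s * t) := by
            rw [e1]
            calc δ ^ 2 / 2 * c * V * (s * t) = δ ^ 2 / 2 * V * (c * (s * t)) := by ring
              _ ≤ δ ^ 2 / 2 * V * V := mul_le_mul_right hc _
          exact (ENNReal.mul_le_mul_iff_left hst0 hstt).mp e2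
      _ ≤ b * (f u / 2) := by
          refine mul_le_mul_right ?_ _
          exact ENNReal.div_le_div_right hfa 2
      _ ≤ b * ν G := mul_le_mul_right hG2 _
  calc (μ.prod ν) {p | p ∈ K ∧ (μ.prod ν) {q | q ∈ K ∧ (p.1, q.2) ∈ K} < δ ^ 2 / 2 * c * V}
      ≤ (μ.prod ν) ((K ∩ Prod.fst ⁻¹' {u | f u < a}) ∪ (K ∩ Prod.fst ⁻¹' {u | f u / 2 < h u})) :=
        measure_mono hincl
    _ ≤ δ * V + 2 * (δ * V) := (measure_union_le _ _).trans (add_le_add hB1 hB3)
    _ = 3 * δ * V := by ring

/-- The splitting of the coordinates. -/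
noncomputable def spl {n : ℕ} (F : Finset (Fin n)) :
    E n ≃ᵐ ({i // i ∈ F} → ℝ) × ({i // ¬ i ∈ F} → ℝ) :=
  (MeasurableEquiv.toLp 2 (Fin n → ℝ)).symm.trans
    (MeasurableEquiv.piEquivPiSubtypeProd (fun _ => ℝ) (fun i => i ∈ F))

theorem spl_mp {n : ℕ} (F : Finset (Fin n)) : MeasurePreserving (spl F) volume volume := by
  have h := (volume_preserving_piEquivPiSubtypeProd (fun _ => ℝ) (fun i => i ∈ F)).comp
    (EuclideanSpace.volume_preserving_symm_measurableEquiv_toLp (Fin n))
  have e : (Subtype.fintype fun i => i ∈ F) = Finset.Subtype.fintype F := Subsingleton.elim _ _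
  rw [e] at h
  exact h

theorem spl_apply {n : ℕ} (F : Finset (Fin n)) (x : E n) :
    spl F x = (fun i : {i // i ∈ F} => x i, fun i : {i // ¬ i ∈ F} => x i) := rfl

theorem spl_mix {n : ℕ} (F : Finset (Fin n)) (y x : E n) :
    spl F (mix F y x) = ((spl F y).1, (spl F x).2) := by
  rw [spl_apply, spl_apply, spl_apply]
  refine Prod.ext ?_ ?_
  · funext i
    simp [mix, i.2]
  · funext i
    simp [mix, i.2]

theorem mem_symm {n : ℕ} (F : Finset (Fin n)) (K : Set (E n)) (y x : E n) :
    mix F y x ∈ K ↔ ((spl F y).1, (spl F x).2) ∈ (spl F).symm ⁻¹' K := by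
  rw [← spl_mix, mem_preimage, MeasurableEquiv.symm_apply_apply]

theorem mem_symm' {n : ℕ} (F : Finset (Fin n)) (K : Set (E n)) (x : E n) :
    x ∈ K ↔ spl F x ∈ (spl F).symm ⁻¹' K := by
  rw [mem_preimage, MeasurableEquiv.symm_apply_apply]

theorem spl_add {n : ℕ} (F : Finset (Fin n)) (x y : E n) :
    spl F (x + y) = spl F x + spl F y := rfl

theorem spl_smul {n : ℕ} (F : Finset (Fin n)) (r : ℝ) (x : E n) :
    spl F (r • x) = r • spl F x := rfl

theorem vol_eq {n : ℕ} (F : Finset (Fin n)) (A : Set (({i // i ∈ F} → ℝ) × ({i // ¬ i ∈ F} → ℝ))) :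
    volume (spl F ⁻¹' A) = (volume.prod volume) A :=
  (spl_mp F).measure_preimage_equiv A

end SWP_

open SWP_ in
theorem p_SWP : T_SWP := by
  intro n F K δ l hKc hKk hmix hδ hl hl1
  set V := volume.real K with hVd
  rcases eq_or_lt_of_le (measureReal_nonneg : 0 ≤ volume.real K) with h0 | hpos
  · have : {y | y ∈ K ∧ volume.real {x | x ∈ K ∧ mix F y x ∈ K} <
        1 / 2 * δ ^ 2 * (l ^ F.card * (1 - l) ^ (n - F.card)) * V} = ∅ := by
      ext y
      simp only [mem_ofPred_eq, mem_empty_iff_false, iff_false, not_and, not_lt]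
      intro _
      rw [hVd, ← h0, mul_zero]
      exact measureReal_nonneg
    rw [this, measureReal_empty]
    positivity
  have hKf : volume K ≠ ⊤ := hKk.measure_ne_top
  set K' := (spl F).symm ⁻¹' K with hK'
  have hKm : MeasurableSet K := hKk.measurableSet
  have hK'm : MeasurableSet K' := (spl F).symm.measurable hKm
  have hpre : spl F ⁻¹' K' = K := by
    ext x
    simp [hK']
  have hvK : (volume.prod volume) K' = volume K := by
    rw [← vol_eq, hpre]
  set S0 : Set ({i // i ∈ F} → ℝ) := {u | (u, 0) ∈ K'} with hS0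
  set T0 : Set ({i // ¬ i ∈ F} → ℝ) := {w | (0, w) ∈ K'} with hT0
  have hS0m : MeasurableSet S0 := (measurable_id.prodMk measurable_const) hK'm
  have hT0m : MeasurableSet T0 := (measurable_const.prodMk measurable_id) hK'm
  have hcont : Continuous (spl F) := by
    have h : (spl F : E n → _) =
      fun x => (fun i : {i // i ∈ F} => x i, fun i : {i // ¬ i ∈ F} => x i) := rfl
    rw [h]
    fun_prop
  have hS0f : volume S0 ≠ ⊤ := by
    have hc : IsCompact ((fun x => (spl F x).1) '' K) :=
      hKk.image (continuous_fst.comp hcont)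
    refine ne_top_of_le_ne_top hc.measure_ne_top (measure_mono ?_)
    intro u hu
    refine ⟨(spl F).symm (u, 0), hu, ?_⟩
    simp
  have hT0f : volume T0 ≠ ⊤ := by
    have hc : IsCompact ((fun x => (spl F x).2) '' K) :=
      hKk.image (continuous_snd.comp hcont)
    refine ne_top_of_le_ne_top hc.measure_ne_top (measure_mono ?_)
    intro u hu
    refine ⟨(spl F).symm (0, u), hu, ?_⟩
    simp
  have h1 : ∀ p ∈ K', p.1 ∈ S0 ∧ p.2 ∈ T0 := by
    intro p hp
    have hp' : (spl F).symm p ∈ K := hp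
    obtain ⟨ha, hb⟩ := hmix _ hp'
    rw [mem_symm, MeasurableEquiv.apply_symm_apply] at ha hb
    exact ⟨ha, hb⟩
  -- the lower bound for the volume
  have hc : ENNReal.ofReal (l ^ F.card * (1 - l) ^ (n - F.card)) * (volume S0 * volume T0) ≤
      (volume.prod volume) K' := by
    have hsub : (l • S0) ×ˢ ((1 - l) • T0) ⊆ K' := by
      rintro ⟨u, w⟩ ⟨⟨u0, hu0, rfl⟩, ⟨w0, hw0, rfl⟩⟩
      have hu : (spl F).symm (u0, 0) ∈ K := hu0
      have hw : (spl F).symm (0, w0) ∈ K := hw0
      have hcomb := hKc hu hw hl.le (by linarith : 0 ≤ 1 - l) (by ring)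
      rw [mem_symm' F, spl_add, spl_smul, spl_smul, MeasurableEquiv.apply_symm_apply,
        MeasurableEquiv.apply_symm_apply] at hcomb
      have he : l • ((u0, 0) : ({i // i ∈ F} → ℝ) × ({i // ¬ i ∈ F} → ℝ)) +
          (1 - l) • ((0, w0) : ({i // i ∈ F} → ℝ) × ({i // ¬ i ∈ F} → ℝ)) =
          (l • u0, (1 - l) • w0) := by
        refine Prod.ext ?_ ?_
        · simp only [Prod.smul_mk, Prod.mk_add_mk, smul_zero, add_zero]
        · simp only [Prod.smul_mk, Prod.mk_add_mk, smul_zero, zero_add]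
      rw [he] at hcomb
      exact hcomb
    refine le_trans (le_of_eq ?_) (measure_mono hsub)
    rw [Measure.prod_prod, Measure.addHaar_smul, Measure.addHaar_smul,
      Module.finrank_fintype_fun_eq_card, Module.finrank_fintype_fun_eq_card,
      Fintype.card_coe, Fintype.card_subtype_compl, Fintype.card_fin, Fintype.card_coe,
      abs_of_pos (pow_pos hl _), abs_of_pos (pow_pos (by linarith : 0 < 1 - l) _),
      ENNReal.ofReal_mul (by positivity)]
    ring
  have hV0 : (volume.prod volume) K' ≠ 0 := by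
    rw [hvK]
    intro h
    rw [Measure.real, h] at hpos
    simp at hpos
  have hmain := exch volume volume K' hK'm S0 T0 hS0m hT0m hS0f hT0f h1 (ENNReal.ofReal δ)
    (ENNReal.ofReal (l ^ F.card * (1 - l) ^ (n - F.card))) hV0 hc
  rw [hvK] at hmain
  have hVof : volume K = ENNReal.ofReal V := (ENNReal.ofReal_toReal hKf).symm
  have hset : {y | y ∈ K ∧ volume.real {x | x ∈ K ∧ mix F y x ∈ K} <
        1 / 2 * δ ^ 2 * (l ^ F.card * (1 - l) ^ (n - F.card)) * V} =
      spl F ⁻¹' {p | p ∈ K' ∧ (volume.prod volume) {q | q ∈ K' ∧ (p.1, q.2) ∈ K'} <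
        ENNReal.ofReal δ ^ 2 / 2 * ENNReal.ofReal (l ^ F.card * (1 - l) ^ (n - F.card)) *
          volume K} := by
    ext y
    have e1 : volume {x | x ∈ K ∧ mix F y x ∈ K} =
        (volume.prod volume) {q | q ∈ K' ∧ ((spl F y).1, q.2) ∈ K'} := by
      rw [← vol_eq]
      congr 1
      ext x
      rw [mem_ofPred_eq, mem_symm, mem_symm' F]
      rfl
    have e2 : ENNReal.ofReal δ ^ 2 / 2 * ENNReal.ofReal (l ^ F.card * (1 - l) ^ (n - F.card)) *
        volume K = ENNReal.ofReal (1 / 2 * δ ^ 2 * (l ^ F.card * (1 - l) ^ (n - F.card)) * V) := by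
      have hl' : 0 ≤ (1 - l) := by linarith
      generalize hL : l ^ F.card * (1 - l) ^ (n - F.card) = L
      have hL0 : 0 ≤ L := by
        rw [← hL]
        positivity
      rw [hVof, ENNReal.ofReal_mul (by positivity : (0:ℝ) ≤ 1 / 2 * δ ^ 2 * L),
        ENNReal.ofReal_mul (by positivity : (0:ℝ) ≤ 1 / 2 * δ ^ 2),
        ENNReal.ofReal_mul (by positivity : (0:ℝ) ≤ 1 / 2), ENNReal.ofReal_pow hδ.le]
      congr 2
      rw [one_div, ENNReal.ofReal_inv_of_pos two_pos, ENNReal.ofReal_ofNat,
        mul_comm (2 : ℝ≥0∞)⁻¹, ← div_eq_mul_inv]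
    have e3 : volume {x | x ∈ K ∧ mix F y x ∈ K} ≠ ⊤ :=
      ne_top_of_le_ne_top hKf (measure_mono fun x hx => hx.1)
    rw [e2, mem_preimage, mem_ofPred_eq, mem_ofPred_eq, mem_symm' F K y, ← e1,
      ENNReal.lt_ofReal_iff_toReal_lt e3]
    rfl
  rw [hset, Measure.real, vol_eq]
  refine ENNReal.toReal_le_of_le_ofReal (by positivity) (hmain.trans (le_of_eq ?_))
  rw [hVof, ENNReal.ofReal_mul (by positivity), ENNReal.ofReal_mul (by norm_num),
    ENNReal.ofReal_ofNat]

end Pool.Agent.Ovl
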