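import Pool.Agent.Ovl.Targets6

/-!
# The tails of the loss, with a linear map (OVL-TAILT)
-/

set_option autoImplicit false

open MeasureTheory Set Filter
open scoped Pointwise Topology

namespace Pool.Agent.Ovl

open Pool.Agent.Rog (E SymBody)

theorem p_TAILT (hL : T_LOSS) (hP : Pool.Agent.ShadowA.T_PLB) : T_TAILT := by
  intro n K T s j hK hKc hs h4
  obtain ⟨h0, heven, hsub, -, hmeas, -, -⟩ := hL n K hK hKc
  have hKm : MeasurableSet K := hKc.isClosed.measurableSet
  have hfin : volume K ≠ ⊤ := hKc.measure_lt_top.ne
  have hm : Measurable (fun y : E n => loss K (T y)) :=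
    hmeas.comp T.continuous.measurable
  set A : Set (E n) := {y | y ∈ K ∧ loss K (T y) ≤ s} with hA
  set G : ℕ → Set (E n) := fun j => {y | y ∈ K ∧ (2 ^ (j + 1) - 1) * s < loss K (T y)} with hG
  have hAm : MeasurableSet A := hKm.inter (hm measurableSet_Iic)
  have hGm : ∀ j, MeasurableSet (G j) := fun j =>
    hKm.inter (hm (measurableSet_Ioi (a := (2 ^ (j + 1) - 1) * s)))
  have hAK : A ⊆ K := fun y hy => hy.1
  have hGK : ∀ j, G j ⊆ K := fun j y hy => hy.1
  have hAf : volume A ≠ ⊤ := ((measure_mono hAK).trans_lt hKc.measure_lt_top).ne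
  have hGf : ∀ j, volume (G j) ≠ ⊤ := fun j =>
    ((measure_mono (hGK j)).trans_lt hKc.measure_lt_top).ne
  have hG0 : G 0 = {y | y ∈ K ∧ s < loss K (T y)} := by
    ext y
    simp only [hG, Set.mem_ofPred_eq]
    norm_num
  have hsum : volume.real K = volume.real A + volume.real (G 0) := by
    have hu : K = A ∪ G 0 := by
      rw [hG0]
      ext y
      simp only [hA, Set.mem_union, Set.mem_ofPred_eq]
      constructor
      · intro hy
        rcases le_or_gt (loss K (T y)) s with h | h
        · exact Or.inl ⟨hy, h⟩
        · exact Or.inr ⟨hy, h⟩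
      · rintro (h | h) <;> exact h.1
    have hd : Disjoint A (G 0) := by
      rw [hG0, Set.disjoint_left]
      intro y hy hy2
      exact absurd hy.2 (not_le.mpr hy2.2)
    conv_lhs => rw [hu]
    exact measureReal_union hd (hGm 0) hAf (hGf 0)
  have hA0 : 0 ≤ volume.real A := measureReal_nonneg
  have key : ∀ i, volume.real A * volume.real (G (i + 1)) ≤ volume.real (G i) ^ 2 := by
    intro i
    have h1 := hP n A (G (i + 1)) (G i) hAm (hGm _) (hGm _) (by
      intro y hy z hz
      refine ⟨?_, ?_⟩
      · have := hK hy.1 hz.1 (a := 1 / 2) (b := 1 / 2) (by norm_num) (by norm_num) (by norm_num)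
        rwa [← smul_add] at this
      · set w : E n := (1 / 2 : ℝ) • (y + z) with hw
        have e : T z = T w + (T w + -(T y)) := by
          rw [hw, map_smul, map_add]
          module
        have h2 : loss K (T z) ≤ loss K (T w) + (loss K (T w) + loss K (T y)) := by
          rw [e]
          refine (hsub _ _).trans (add_le_add le_rfl ?_)
          refine (hsub _ _).trans (add_le_add le_rfl ?_)
          rw [heven]
        have h3 := hz.2
        have h4 := hy.2
        have h5 : ((2 : ℝ) ^ (i + 1 + 1) - 1) * s = 2 * (((2 : ℝ) ^ (i + 1) - 1) * s) + s := by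
          ring
        rw [h5] at h3
        linarith)
    have h2 := ENNReal.toReal_mono (ENNReal.pow_ne_top (hGf i)) h1
    rw [ENNReal.toReal_mul, ENNReal.toReal_pow] at h2
    exact h2
  have main : ∀ i, volume.real (G i) * 3 ^ (2 ^ i) ≤ volume.real A := by
    intro i
    induction i with
    | zero =>
      rw [← hG0] at h4
      norm_num
      linarith
    | succ i ih =>
      rcases hA0.eq_or_lt with h | h
      · have hK0 : volume.real K ≤ 0 := by
          rw [← hG0] at h4
          have := measureReal_nonneg (μ := volume) (s := G 0)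
          linarith
        have h5 : volume.real (G (i + 1)) ≤ volume.real K :=
          measureReal_mono (hGK _) hfin
        have h6 : volume.real (G (i + 1)) = 0 :=
          le_antisymm (h5.trans hK0) measureReal_nonneg
        rw [h6, zero_mul]
        exact hA0
      · have h5 := key i
        have h6 : (volume.real (G i) * 3 ^ (2 ^ i)) ^ 2 ≤ volume.real A ^ 2 :=
          pow_le_pow_left₀ (by positivity) ih 2
        have h7 : (3 : ℝ) ^ (2 ^ (i + 1)) = (3 ^ (2 ^ i)) ^ 2 := by
          rw [← pow_mul, ← pow_succ]
        have h8 : volume.real A * (volume.real (G (i + 1)) * 3 ^ (2 ^ (i + 1))) ≤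
            volume.real A * volume.real A := by
          rw [h7]
          calc volume.real A * (volume.real (G (i + 1)) * (3 ^ (2 ^ i)) ^ 2)
              = volume.real A * volume.real (G (i + 1)) * (3 ^ (2 ^ i)) ^ 2 := by ring
            _ ≤ volume.real (G i) ^ 2 * (3 ^ (2 ^ i)) ^ 2 :=
                mul_le_mul_of_nonneg_right h5 (by positivity)
            _ = (volume.real (G i) * 3 ^ (2 ^ i)) ^ 2 := by ring
            _ ≤ volume.real A ^ 2 := h6
            _ = volume.real A * volume.real A := by ring
        exact le_of_mul_le_mul_left h8 h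
  exact (main j).trans (measureReal_mono hAK hfin)

end Pool.Agent.Ovl
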