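import Mathlib
import Pool.Agent.Ovl.Targets6

/-!
# The average loss with slack; numerics (shared by OVL-UNC2 and OVL-WID2)
-/

set_option autoImplicit false

open MeasureTheory Set Filter
open scoped Pointwise Topology

namespace Pool.Agent.Ovl

open Pool.Agent.Rog (E SymBody)

namespace Slack_

/-- numerics: the choice of `Θ` -/
theorem num (d : ℕ) (hd : 400 ≤ d) : ∃ Θ : ℝ, 1 ≤ Θ ∧ 4 * Θ ≤ (d : ℝ) ^ 2 ∧
    26 * Real.log (38 * Θ) ≤ d ∧ 0 ≤ Real.log (512 * Θ) ∧
    Real.log (512 * Θ) ≤ 3 * Real.log d ∧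
    1 + Real.exp 1 * 2 ^ d / Θ * (d * Real.log (8 * d + 2)) ≤ (2 : ℝ) ^ d := by
  have hd' : (400 : ℝ) ≤ d := by exact_mod_cast hd
  have hd0 : (0 : ℝ) < d := by linarith
  have he1 : Real.exp 1 < 2.7182818286 := Real.exp_one_lt_d9
  have he2 : 2.7182818283 < Real.exp 1 := Real.exp_one_gt_d9
  have hl2 : Real.log 2 < 0.6931471808 := Real.log_two_lt_d9
  have hl2' : 0.6931471803 < Real.log 2 := Real.log_two_gt_d9
  obtain ⟨l, hl⟩ : ∃ l : ℝ, l = Real.log (8 * d + 2) := ⟨_, rfl⟩
  have h8 : (0 : ℝ) < 8 * d + 2 := by positivity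
  have hl_up : l ≤ 11 * Real.log 2 + ((8 * d + 2) / 2048 - 1) := by
    have h1 := Real.log_le_sub_one_of_pos (x := (8 * d + 2) / 2048) (by positivity)
    rw [Real.log_div h8.ne' (by norm_num)] at h1
    have h2 : Real.log 2048 = 11 * Real.log 2 := by
      rw [show (2048 : ℝ) = 2 ^ 11 by norm_num, Real.log_pow]
      norm_num
    rw [hl]
    linarith
  have hl_low : 1 ≤ l := by
    rw [hl, Real.le_log_iff_exp_le h8]
    linarith
  have hlogd : Real.log d ≤ 9 * Real.log 2 + ((d : ℝ) / 512 - 1) := by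
    have h1 := Real.log_le_sub_one_of_pos (x := (d : ℝ) / 512) (by positivity)
    rw [Real.log_div hd0.ne' (by norm_num)] at h1
    have h2 : Real.log 512 = 9 * Real.log 2 := by
      rw [show (512 : ℝ) = 2 ^ 9 by norm_num, Real.log_pow]
      norm_num
    linarith
  have hepos : 0 < Real.exp 1 := Real.exp_pos 1
  obtain ⟨Θ, hΘ⟩ : ∃ Θ : ℝ, Θ = 2 * Real.exp 1 * d * l := ⟨_, rfl⟩
  have hΘ1 : 1 ≤ Θ := by
    have h1 : (1 : ℝ) ≤ 2 * Real.exp 1 := by linarith
    have h2 : (1 : ℝ) ≤ 2 * Real.exp 1 * d := by nlinarith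
    rw [hΘ]
    nlinarith
  have hkey : 8 * Real.exp 1 * l ≤ d := by
    have h1 : l ≤ 6.63 + 0.00390625 * d := by
      linarith
    have h2 : 8 * Real.exp 1 * l ≤ 8 * 2.7182818286 * (6.63 + 0.00390625 * d) := by
      refine mul_le_mul ?_ h1 (by linarith) (by norm_num)
      linarith
    linarith
  have hΘ4 : 4 * Θ ≤ (d : ℝ) ^ 2 := by
    have h1 := mul_le_mul_of_nonneg_left hkey hd0.le
    rw [hΘ]
    calc 4 * (2 * Real.exp 1 * d * l) = d * (8 * Real.exp 1 * l) := by ring
      _ ≤ d * (d : ℝ) := h1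
      _ = (d : ℝ) ^ 2 := by ring
  have h38 : Real.log (38 * Θ) ≤ Real.log 9.5 + 2 * Real.log d := by
    have h1 : 38 * Θ ≤ 9.5 * (d : ℝ) ^ 2 := by linarith
    have h2 := Real.log_le_log (by linarith) h1
    have h3 : Real.log (9.5 * (d : ℝ) ^ 2) = Real.log 9.5 + 2 * Real.log d := by
      rw [Real.log_mul (by norm_num) (by positivity), Real.log_pow]
      push_cast
      ring
    linarith
  have h95 : Real.log 9.5 ≤ 3 * Real.log 2 + (9.5 / 8 - 1) := by
    have h1 := Real.log_le_sub_one_of_pos (x := (9.5 : ℝ) / 8) (by norm_num)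
    rw [Real.log_div (by norm_num) (by norm_num)] at h1
    have h2 : Real.log 8 = 3 * Real.log 2 := by
      rw [show (8 : ℝ) = 2 ^ 3 by norm_num, Real.log_pow]
      norm_num
    linarith
  have h26 : 26 * Real.log (38 * Θ) ≤ d := by
    linarith
  have h512 : Real.log (512 * Θ) ≤ 3 * Real.log d := by
    have h1 : 512 * Θ ≤ (d : ℝ) ^ 3 := by
      have h2 : 128 * (4 * Θ) ≤ d * (d : ℝ) ^ 2 :=
        mul_le_mul (by linarith) hΘ4 (by linarith) hd0.le
      calc 512 * Θ = 128 * (4 * Θ) := by ring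
        _ ≤ d * (d : ℝ) ^ 2 := h2
        _ = _ := by ring
    have h2 := Real.log_le_log (by linarith) h1
    rw [Real.log_pow] at h2
    exact_mod_cast h2
  refine ⟨Θ, hΘ1, hΘ4, h26, Real.log_nonneg (by linarith), h512, ?_⟩
  rw [← hl]
  have h5 : Real.exp 1 * 2 ^ d / Θ * (d * l) = 2 ^ d / 2 := by
    rw [hΘ]
    have : l ≠ 0 := by linarith
    field_simp
  rw [h5]
  have h6 : (2 : ℝ) ^ 1 ≤ 2 ^ d := pow_le_pow_right₀ (by norm_num) (by omega)
  linarith

/-- the average loss with slack, for the translations `T y / d` -/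
theorem slack_int (hS : T_LR) (hU : T_GSUB) (hG : T_GAU) (hC : T_LCT) {d : ℕ} (hd : 1 ≤ d)
    {K : Set (E d)} (hconv : Convex ℝ K) (hcomp : IsCompact K) (h0 : (0 : E d) ∈ interior K)
    (T : E d →L[ℝ] E d) (hT : ∀ y ∈ K, T y ∈ K) {A : ℝ} (hA : 0 < A)
    (hq : ∀ z, A ^ 2 * ∫ y in K, (fderiv ℝ (gauge K) z (T y)) ^ 2 ≤ volume.real K) :
    ∫ y in K, lossr K (1 / (48 * d)) ((1 / (d : ℝ)) • T y) ≤
      30 * (3 : ℝ) ^ (-(A / 384)) * volume.real K ^ 2 := by
  have hd0 : (0 : ℝ) < d := by
    have : 0 < d := hd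
    positivity
  have hr0 : (0 : ℝ) ≤ 1 / (48 * d) := by positivity
  obtain ⟨hb, hm, -, -⟩ := hS d K hconv hcomp (interior_subset h0) (1 / (48 * d)) hr0
  obtain ⟨V, hV⟩ : ∃ V : ℝ, V = volume.real K := ⟨_, rfl⟩
  have hV0 : 0 ≤ V := by rw [hV]; exact measureReal_nonneg
  rw [← hV] at hb hq ⊢
  have hKm : MeasurableSet K := hcomp.measurableSet
  have hfm : IsFiniteMeasure (volume.restrict K) := ⟨by
    rw [Measure.restrict_apply_univ]
    exact hcomp.measure_lt_top⟩
  -- the two variable function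
  obtain ⟨G, hGd⟩ : ∃ G : E d → E d → ℝ, G = fun y z =>
    max 0 (fderiv ℝ (gauge K) z (T y) - 1 / 48) := ⟨_, rfl⟩
  have hG0 : ∀ y z, 0 ≤ G y z := fun y z => by rw [hGd]; exact le_max_left _ _
  have hG1 : ∀ y ∈ K, ∀ z, G y z ≤ 1 := fun y hy z => by
    rw [hGd]
    apply max_le zero_le_one
    have := hU d K hconv hcomp h0 z (T y) (hT y hy)
    linarith
  have hGm : Measurable (Function.uncurry G) := by
    have h1 : ∀ y z, fderiv ℝ (gauge K) z (T y) =
        ∑ i, (T y) i * fderiv ℝ (gauge K) z (EuclideanSpace.single i (1 : ℝ)) := by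
      intro y z
      have h2 : T y = ∑ i, (T y i) • EuclideanSpace.single i (1 : ℝ) := by
        have := (EuclideanSpace.basisFun (Fin d) ℝ).sum_repr (T y)
        simpa using this.symm
      conv_lhs => rw [h2]
      rw [map_sum]
      refine Finset.sum_congr rfl fun i _ => ?_
      rw [map_smul, smul_eq_mul]
    have h3 : Function.uncurry G = fun p : E d × E d => max 0 ((∑ i, (T p.1) i *
        fderiv ℝ (gauge K) p.2 (EuclideanSpace.single i (1 : ℝ))) - 1 / 48) := by
      funext p
      rw [hGd]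
      simp only [Function.uncurry]
      rw [h1]
    rw [h3]
    refine Measurable.max measurable_const (Measurable.sub_const ?_ _)
    refine Finset.measurable_sum _ fun i _ => ?_
    refine Measurable.mul ?_ ?_
    · have : Continuous fun p : E d × E d => (T p.1) i := by fun_prop
      exact this.measurable
    · exact (measurable_fderiv_apply_const ℝ (gauge K) _).comp measurable_snd
  have hGi : Integrable (Function.uncurry G) ((volume.restrict K).prod (volume.restrict K)) := by
    refine Integrable.of_bound (C := 1) hGm.aestronglyMeasurable ?_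
    rw [Measure.prod_restrict]
    refine ae_restrict_of_forall_mem (hKm.prod hKm) fun p hp => ?_
    rw [Real.norm_eq_abs]
    change |G p.1 p.2| ≤ 1
    rw [abs_of_nonneg (hG0 _ _)]
    exact hG1 _ hp.1 _
  -- the loss is bounded by the integral over `z`
  have h1 : ∀ y ∈ K, lossr K (1 / (48 * d)) ((1 / (d : ℝ)) • T y) ≤ 10 * ∫ z in K, G y z := by
    intro y hy
    have h2 := hG d K (1 / (48 * d)) ((1 / (d : ℝ)) • T y) hd hconv hcomp h0 hr0 (by
      rw [smul_smul, mul_one_div_cancel hd0.ne', one_smul]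
      exact hT y hy)
    refine h2.trans (le_of_eq ?_)
    have h3 : ∀ z, max 0 (fderiv ℝ (gauge K) z ((1 / (d : ℝ)) • T y) - 1 / (48 * d)) =
        1 / d * G y z := by
      intro z
      rw [hGd]
      simp only
      rw [map_smul, smul_eq_mul, mul_max_of_nonneg _ _ (by positivity), mul_zero]
      congr 1
      field_simp
    simp only [h3]
    rw [integral_const_mul]
    field_simp
  have h2 : ∫ y in K, lossr K (1 / (48 * d)) ((1 / (d : ℝ)) • T y) ≤
      ∫ y in K, 10 * ∫ z in K, G y z := by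
    refine setIntegral_mono_on ?_ (hGi.integral_prod_left.const_mul 10) hKm h1
    refine Integrable.of_bound (C := V) ?_ ?_
    · have : Continuous fun y : E d => (1 / (d : ℝ)) • T y := by fun_prop
      exact (hm.comp this.measurable).aestronglyMeasurable
    · refine Eventually.of_forall fun y => ?_
      rw [Real.norm_eq_abs, abs_of_nonneg (hb _).1]
      exact (hb _).2
  refine h2.trans ?_
  rw [integral_const_mul, integral_integral_swap hGi]
  -- the inner integral
  have h3 : ∀ z, ∫ y in K, G y z ≤ 3 * (3 : ℝ) ^ (-(A / 384)) * V := by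
    intro z
    have h4 := hC d K ((fderiv ℝ (gauge K) z).comp T) A (1 / 48) hconv hcomp hA (by norm_num) (by
      rw [← hV]
      exact hq z)
    have e1 : A * (1 / 48) / 8 = A / 384 := by ring
    rw [← hV, e1] at h4
    refine le_trans ?_ h4
    have hms : MeasurableSet {y : E d | 1 / 48 < |((fderiv ℝ (gauge K) z).comp T) y|} := by
      apply measurableSet_lt measurable_const
      have : Continuous fun y : E d => |((fderiv ℝ (gauge K) z).comp T) y| := by fun_prop
      exact this.measurable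
    have h5 : ∫ y in K, G y z ≤ ∫ y in K,
        ({y : E d | 1 / 48 < |((fderiv ℝ (gauge K) z).comp T) y|}).indicator (fun _ => (1 : ℝ)) y := by
      refine setIntegral_mono_on ?_ ?_ hKm ?_
      · refine Integrable.of_bound (C := 1) ?_ ?_
        · exact (hGm.comp (measurable_id.prodMk measurable_const)).aestronglyMeasurable
        · refine ae_restrict_of_forall_mem hKm fun y hy => ?_
          rw [Real.norm_eq_abs, abs_of_nonneg (hG0 _ _)]
          exact hG1 _ hy _
      · exact (integrable_const (1 : ℝ)).indicator hms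
      · intro y hy
        by_cases h6 : 1 / 48 < |((fderiv ℝ (gauge K) z).comp T) y|
        · rw [indicator_of_mem (by exact h6)]
          exact hG1 y hy z
        · rw [indicator_of_notMem (by exact h6), hGd]
          apply max_le le_rfl
          rw [not_lt] at h6
          have := (le_abs_self _).trans h6
          simp only [ContinuousLinearMap.comp_apply] at this
          linarith
    refine h5.trans (le_of_eq ?_)
    rw [integral_indicator hms, setIntegral_const, smul_eq_mul, mul_one, measureReal_def,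
      Measure.restrict_apply hms, measureReal_def]
    congr 2
    ext y
    exact and_comm
  have h4 : ∫ z in K, ∫ y in K, G y z ≤ ∫ z in K, 3 * (3 : ℝ) ^ (-(A / 384)) * V :=
    integral_mono hGi.integral_prod_right (integrable_const _) h3
  rw [setIntegral_const, ← hV, smul_eq_mul] at h4
  calc 10 * ∫ z in K, ∫ y in K, G y z
      ≤ 10 * (V * (3 * (3 : ℝ) ^ (-(A / 384)) * V)) := by gcongr
    _ = _ := by ring

end Slack_

end Pool.Agent.Ovl
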