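import Mathlib
import Pool.Agent.Ovl.Targets6
import Pool.Agent.Ovl.UNC
import Pool.Agent.Ovl.Slack

/-!
# Unconditional bodies between two balls, translations with slack (job OVL-UNC2)
-/

set_option autoImplicit false

open MeasureTheory Set Filter
open scoped Pointwise Topology

namespace Pool.Agent.Ovl

open Pool.Agent.Rog (E SymBody)

namespace UNC2_

variable {d : ℕ}

/-- numerics: the first condition -/
theorem num1 {d D V I F Lg : ℝ} (hd : 400 ≤ d) (hD : 0 ≤ D)
    (hDd : 3 * 10 ^ 5 * Real.log d ^ 2 * D ≤ √d) (hL0 : 0 ≤ Lg) (hL : Lg ≤ 3 * Real.log d)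
    (hF : F ≤ (2500 * Real.log d) ^ 2 * D ^ 2) (hI : I ≤ F * (1 / d * V ^ 2)) :
    760 * Lg ^ 2 * I ≤ V ^ 2 := by
  have hd0 : 0 < d := by linarith
  obtain ⟨l, hl⟩ : ∃ l : ℝ, l = Real.log d := ⟨_, rfl⟩
  have hl0 : 0 ≤ l := by rw [hl]; exact Real.log_nonneg (by linarith)
  rw [← hl] at hDd hL hF
  have h1 : (3 * 10 ^ 5 * l ^ 2 * D) ^ 2 ≤ d := by
    have h2 := pow_le_pow_left₀ (by positivity) hDd 2
    rwa [Real.sq_sqrt hd0.le] at h2
  have h3 : Lg ^ 2 ≤ (3 * l) ^ 2 := pow_le_pow_left₀ hL0 hL 2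
  have h4 : I ≤ (2500 * l) ^ 2 * D ^ 2 * (1 / d * V ^ 2) :=
    hI.trans (mul_le_mul_of_nonneg_right hF (by positivity))
  calc 760 * Lg ^ 2 * I ≤ 760 * Lg ^ 2 * ((2500 * l) ^ 2 * D ^ 2 * (1 / d * V ^ 2)) := by gcongr
    _ ≤ 760 * (3 * l) ^ 2 * ((2500 * l) ^ 2 * D ^ 2 * (1 / d * V ^ 2)) := by gcongr
    _ = (0.475 * (3 * 10 ^ 5 * l ^ 2 * D) ^ 2) / d * V ^ 2 := by ring
    _ ≤ 1 * V ^ 2 := by
      gcongr
      rw [div_le_one hd0]
      have : 0 ≤ (3 * 10 ^ 5 * l ^ 2 * D) ^ 2 := sq_nonneg _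
      linarith
    _ = V ^ 2 := one_mul _

/-- numerics: the second condition -/
theorem num2 {d V I Θ : ℝ} (hd : 400 ≤ d) (hΘ0 : 1 ≤ Θ) (hΘ : 4 * Θ ≤ d ^ 2)
    (hL : 26 * Real.log (38 * Θ) ≤ d)
    (hI : I ≤ 30 * (3 : ℝ) ^ (-(2500 * Real.log d / 384)) * V ^ 2) :
    2 * 10 ^ 5 * Θ ^ 2 * Real.log (38 * Θ) * I ≤ V ^ 2 := by
  have hd0 : 0 < d := by linarith
  have hL0 : 0 ≤ Real.log (38 * Θ) := Real.log_nonneg (by linarith)
  have hl3 : 1.08 ≤ Real.log 3 := by
    rw [Real.le_log_iff_exp_le (by norm_num)]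
    have h1 : Real.exp 1.08 ^ 25 = Real.exp 1 ^ 27 := by
      rw [← Real.exp_nat_mul, ← Real.exp_nat_mul]
      norm_num
    have h2 : Real.exp 1 ^ 27 ≤ 2.7182818286 ^ 27 :=
      pow_le_pow_left₀ (Real.exp_pos 1).le Real.exp_one_lt_d9.le 27
    have h3 : (2.7182818286 : ℝ) ^ 27 ≤ 3 ^ 25 := by norm_num
    have h4 : Real.exp 1.08 ^ 25 ≤ 3 ^ 25 := by rw [h1]; exact h2.trans h3
    exact le_of_pow_le_pow_left₀ (by norm_num) (by norm_num) h4
  have h3 : (3 : ℝ) ^ (-(2500 * Real.log d / 384)) ≤ 1 / d ^ 7 := by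
    have hlog : 0 ≤ Real.log d := Real.log_nonneg (by linarith)
    have h1 : (1 : ℝ) / d ^ 7 = Real.exp (-(7 * Real.log d)) := by
      rw [Real.exp_neg, show (7 : ℝ) * Real.log d = ((7 : ℕ) : ℝ) * Real.log d by norm_num,
        Real.exp_nat_mul, Real.exp_log hd0, one_div]
    rw [h1, Real.rpow_def_of_pos (by norm_num), Real.exp_le_exp]
    nlinarith [mul_nonneg (sub_nonneg.2 hl3) hlog]
  have h4 : I ≤ 30 * (1 / d ^ 7) * V ^ 2 := hI.trans (by gcongr)
  have h5 : Θ ^ 2 ≤ (d ^ 2 / 4) ^ 2 := pow_le_pow_left₀ (by linarith) (by linarith) 2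
  have h6 : Real.log (38 * Θ) ≤ d / 26 := by linarith
  calc 2 * 10 ^ 5 * Θ ^ 2 * Real.log (38 * Θ) * I
      ≤ 2 * 10 ^ 5 * Θ ^ 2 * Real.log (38 * Θ) * (30 * (1 / d ^ 7) * V ^ 2) := by gcongr
    _ ≤ 2 * 10 ^ 5 * (d ^ 2 / 4) ^ 2 * (d / 26) * (30 * (1 / d ^ 7) * V ^ 2) := by gcongr
    _ = (6 * 10 ^ 6 / 416) / d ^ 2 * V ^ 2 := by
      field_simp
      ring
    _ ≤ 1 * V ^ 2 := by
      gcongr
      rw [div_le_one (by positivity)]
      nlinarith
    _ = V ^ 2 := one_mul _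

end UNC2_

theorem p_UNC2 (hL : T_LOSS) (hH : T_HSP) (hS : T_LR) (hU : T_GSUB) (hG : T_GAU) (hC : T_LCT)
    (hM : T_MIX) : T_UNC2 := by
  intro d D K hd hconv hcomp hUnc hball hKD hDd
  obtain ⟨hl0, -, hladd, -, hlmeas, -, -⟩ := hL d K hconv hcomp
  have hd1 : 1 ≤ d := by omega
  have hd' : (400 : ℝ) ≤ d := by exact_mod_cast hd
  have hd0 : (0 : ℝ) < d := by linarith
  have hlog : 0 < Real.log d := Real.log_pos (by linarith)
  obtain ⟨A, hAd⟩ : ∃ A : ℝ, A = 2500 * Real.log d := ⟨_, rfl⟩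
  have hA : 0 < A := by rw [hAd]; positivity
  have hint0 : (0 : E d) ∈ interior K := by
    apply interior_mono hball
    rw [mem_interior_iff_mem_nhds]
    exact Metric.closedBall_mem_nhds 0 one_pos
  have hint : (interior K).Nonempty := ⟨0, hint0⟩
  have h0K : (0 : E d) ∈ K := interior_subset hint0
  have hD0 : 0 ≤ D := by
    have := hKD h0K
    rwa [mem_closedBall_zero_iff, norm_zero] at this
  have hfin : volume K ≠ ⊤ := hcomp.measure_lt_top.ne
  have hVpos : 0 < volume.real K := by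
    rw [measureReal_def]
    apply ENNReal.toReal_pos _ hfin
    exact (lt_of_lt_of_le (isOpen_interior.measure_pos volume hint)
      (measure_mono interior_subset)).ne'
  obtain ⟨V, hV⟩ : ∃ V : ℝ, V = volume.real K := ⟨_, rfl⟩
  rw [← hV] at hVpos
  have : IsFiniteMeasure (volume.restrict K) := ⟨by
    rw [Measure.restrict_apply_univ]
    exact hcomp.measure_lt_top⟩
  have hKm : MeasurableSet K := hcomp.measurableSet
  -- loss at zero
  have hlz : loss K 0 = 0 := by
    unfold loss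
    have : {x | x ∈ K ∧ x + 0 ∉ K} = (∅ : Set (E d)) := by
      ext x
      simp
    rw [this]
    simp
  -- second moments
  obtain ⟨m, hm⟩ : ∃ m : Fin d → ℝ, m = fun i => ∫ y in K, (y i) ^ 2 := ⟨_, rfl⟩
  have hm0 : ∀ i, 0 ≤ m i := by
    intro i
    rw [hm]
    exact integral_nonneg fun y => sq_nonneg _
  have hmsum : ∑ i, m i ≤ D ^ 2 * V := by
    rw [hm]
    change ∑ i, ∫ y in K, (y i) ^ 2 ≤ _
    rw [← integral_finsetSum _ (fun i _ => UNC_.integrable_of_cont hcomp (by fun_prop))]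
    have h1 : ∫ y in K, ∑ i, (y i) ^ 2 ≤ ∫ y in K, D ^ 2 := by
      apply setIntegral_mono_on
        (UNC_.integrable_of_cont hcomp (by fun_prop)) (integrable_const _) hKm
      intro y hy
      have h2 := hKD hy
      rw [mem_closedBall_zero_iff] at h2
      have h3 := EuclideanSpace.real_norm_sq_eq y
      rw [← h3]
      exact pow_le_pow_left₀ (norm_nonneg _) h2 2
    rw [setIntegral_const, ← hV, smul_eq_mul] at h1
    linarith
  obtain ⟨F, hF⟩ : ∃ F : Finset (Fin d), F = Finset.univ.filter (fun i => V ≤ A ^ 2 * m i) :=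
    ⟨_, rfl⟩
  have hFcard : (F.card : ℝ) ≤ A ^ 2 * D ^ 2 := by
    have h1 : (F.card : ℝ) * V ≤ A ^ 2 * ∑ i, m i := by
      calc (F.card : ℝ) * V = ∑ i ∈ F, V := by rw [Finset.sum_const, nsmul_eq_mul]
        _ ≤ ∑ i ∈ F, A ^ 2 * m i := by
            apply Finset.sum_le_sum
            intro i hi
            rw [hF, Finset.mem_filter] at hi
            exact hi.2
        _ ≤ ∑ i, A ^ 2 * m i := by
            apply Finset.sum_le_sum_of_subset_of_nonneg (Finset.subset_univ _)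
            intro i _ _
            exact mul_nonneg (sq_nonneg _) (hm0 i)
        _ = _ := by rw [Finset.mul_sum]
    have h2 : (F.card : ℝ) * V ≤ A ^ 2 * (D ^ 2 * V) :=
      h1.trans (mul_le_mul_of_nonneg_left hmsum (sq_nonneg _))
    have h3 : (F.card : ℝ) * V ≤ (A ^ 2 * D ^ 2) * V := by linarith
    exact le_of_mul_le_mul_right h3 hVpos
  -- the projection
  obtain ⟨T, hT⟩ : ∃ T : E d →L[ℝ] E d, ∀ y, T y = ∑ i ∈ Fᶜ,
      (y i) • EuclideanSpace.single i (1 : ℝ) := by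
    refine ⟨∑ i ∈ Fᶜ, (EuclideanSpace.proj i : E d →L[ℝ] ℝ).smulRight
      (EuclideanSpace.single i (1 : ℝ)), fun y => ?_⟩
    rw [sum_apply]
    rfl
  have hTj : ∀ (y : E d) (j : Fin d), T y j = if j ∈ F then 0 else y j := by
    intro y j
    rw [hT]
    by_cases h2 : j ∈ F <;> simp [Pi.single_apply, h2]
  have hTK : ∀ y ∈ K, T y ∈ K := by
    intro y hy
    have h1 : (2 : ℝ) • T y - y ∈ K := by
      apply hUnc y hy
      intro j
      have h2 : ((2 : ℝ) • T y - y) j = 2 * T y j - y j := by simp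
      rw [h2, hTj]
      split_ifs
      · rw [mul_zero, zero_sub, abs_neg]
      · congr 1
        ring
    have h3 := hconv hy h1 (by norm_num : (0 : ℝ) ≤ 1 / 2) (by norm_num : (0 : ℝ) ≤ 1 / 2)
      (by norm_num)
    have h4 : (1 / 2 : ℝ) • y + (1 / 2 : ℝ) • ((2 : ℝ) • T y - y) = T y := by
      rw [smul_sub, smul_smul]
      norm_num
    rwa [h4] at h3
  have hdec : ∀ y : E d, (1 / (d : ℝ)) • (y - T y) =
      ∑ i ∈ F, (1 / (d : ℝ) * y i) • EuclideanSpace.single i (1 : ℝ) := by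
    intro y
    have h1 : y = ∑ i, (y i) • EuclideanSpace.single i (1 : ℝ) := by
      have := (EuclideanSpace.basisFun (Fin d) ℝ).sum_repr y
      simpa using this.symm
    have h2 : ∑ i ∈ F, (1 / (d : ℝ) * y i) • EuclideanSpace.single i (1 : ℝ) =
        (1 / (d : ℝ)) • ∑ i ∈ F, (y i) • EuclideanSpace.single i (1 : ℝ) := by
      rw [Finset.smul_sum]
      refine Finset.sum_congr rfl fun i _ => ?_
      rw [smul_smul]
    rw [h2]
    congr 1
    rw [sub_eq_iff_eq_add, hT, Finset.sum_add_sum_compl, ← h1]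
  have hpt : ∀ y : E d, loss K ((1 / (d : ℝ)) • (y - T y)) ≤
      ∑ i ∈ F, loss K ((1 / (d : ℝ) * y i) • EuclideanSpace.single i (1 : ℝ)) := by
    intro y
    rw [hdec y]
    exact Finset.le_sum_of_subadditive (loss K) hlz.le (fun u v => hladd u v) F
      (fun i => (1 / (d : ℝ) * y i) • EuclideanSpace.single i (1 : ℝ))
  have hI : ∀ g : E d → E d, Continuous g →
      Integrable (fun y => loss K (g y)) (volume.restrict K) := by
    intro g hg
    refine Integrable.of_bound (C := V) ?_ ?_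
    · exact (hlmeas.comp hg.measurable).aestronglyMeasurable
    · refine Eventually.of_forall fun y => ?_
      rw [Real.norm_eq_abs, abs_of_nonneg (hl0 _).1, hV]
      exact (hl0 _).2
  have hIi : ∀ i : Fin d, Integrable (fun y : E d =>
      loss K ((1 / (d : ℝ) * y i) • EuclideanSpace.single i (1 : ℝ))) (volume.restrict K) := by
    intro i
    exact hI _ (by fun_prop)
  have hfirst : ∫ y in K, loss K ((1 / (d : ℝ)) • (y - T y)) ≤
      (F.card : ℝ) * (1 / (d : ℝ) * V ^ 2) := by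
    calc ∫ y in K, loss K ((1 / (d : ℝ)) • (y - T y))
        ≤ ∫ y in K, ∑ i ∈ F, loss K ((1 / (d : ℝ) * y i) •
            EuclideanSpace.single i (1 : ℝ)) := by
          apply integral_mono (hI _ (by fun_prop)) _ hpt
          exact integrable_finsetSum _ fun i _ => hIi i
      _ = ∑ i ∈ F, ∫ y in K, loss K ((1 / (d : ℝ) * y i) •
            EuclideanSpace.single i (1 : ℝ)) := by
          rw [integral_finsetSum _ fun i _ => hIi i]
      _ ≤ ∑ i ∈ F, 1 / (d : ℝ) * V ^ 2 := by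
          apply Finset.sum_le_sum
          intro i _
          have := hH d K i (1 / (d : ℝ)) hconv hcomp hint hUnc (by positivity)
          rw [← hV] at this
          exact this
      _ = _ := by rw [Finset.sum_const, nsmul_eq_mul]
  -- the second condition
  have hq : ∀ z, A ^ 2 * ∫ y in K, (fderiv ℝ (gauge K) z (T y)) ^ 2 ≤ volume.real K := by
    intro z
    rw [← hV]
    obtain ⟨θ, hθ⟩ : ∃ θ : E d, ∀ x, fderiv ℝ (gauge K) z x = inner ℝ θ x :=
      ⟨(InnerProductSpace.toDual ℝ (E d)).symm (fderiv ℝ (gauge K) z), fun x => by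
        rw [InnerProductSpace.toDual_symm_apply]⟩
    have hn : ‖θ‖ ≤ 1 := by
      have h1 : ‖θ‖⁻¹ • θ ∈ K := by
        apply hball
        rw [mem_closedBall_zero_iff, norm_smul, norm_inv, norm_norm]
        exact inv_mul_le_one
      have h2 := hU d K hconv hcomp hint0 z _ h1
      rw [hθ, real_inner_smul_right, real_inner_self_eq_norm_sq] at h2
      rcases eq_or_ne ‖θ‖ 0 with h3 | h3
      · rw [h3]
        exact zero_le_one
      · have h4 : ‖θ‖⁻¹ * ‖θ‖ ^ 2 = ‖θ‖ := by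
          field_simp
        rwa [h4] at h2
    have hinner : ∀ y : E d, inner ℝ θ (T y) = ∑ i ∈ Fᶜ, θ i * y i := by
      intro y
      rw [hT, inner_sum]
      refine Finset.sum_congr rfl fun i _ => ?_
      rw [real_inner_smul_right, EuclideanSpace.inner_single_right]
      simp
      ring
    have hsq : ∫ y in K, (inner ℝ θ (T y)) ^ 2 ≤ ‖θ‖ ^ 2 * (V / A ^ 2) := by
      simp only [hinner]
      rw [UNC_.quad hcomp hUnc]
      calc ∑ i ∈ Fᶜ, θ i ^ 2 * ∫ y in K, (y i) ^ 2 ≤ ∑ i ∈ Fᶜ, θ i ^ 2 * (V / A ^ 2) := by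
            apply Finset.sum_le_sum
            intro i hi
            apply mul_le_mul_of_nonneg_left _ (sq_nonneg _)
            rw [Finset.mem_compl, hF, Finset.mem_filter, not_and, not_le] at hi
            have h1 := hi (Finset.mem_univ _)
            rw [le_div_iff₀ (by positivity)]
            rw [hm] at h1
            change A ^ 2 * ∫ y in K, (y i) ^ 2 < V at h1
            linarith
        _ ≤ ∑ i, θ i ^ 2 * (V / A ^ 2) := by
            apply Finset.sum_le_sum_of_subset_of_nonneg (Finset.subset_univ _)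
            intro i _ _
            positivity
        _ = _ := by
            rw [← Finset.sum_mul, ← EuclideanSpace.real_norm_sq_eq]
    simp only [hθ]
    calc A ^ 2 * ∫ y in K, (inner ℝ θ (T y)) ^ 2 ≤ A ^ 2 * (‖θ‖ ^ 2 * (V / A ^ 2)) := by gcongr
      _ = ‖θ‖ ^ 2 * V := by field_simp
      _ ≤ 1 ^ 2 * V := by gcongr
      _ = V := by ring
  have hsecond := Slack_.slack_int hS hU hG hC hd1 hconv hcomp hint0 T hTK hA hq
  obtain ⟨Θ, hΘ1, hΘ4, h26, h512, h512', hcov⟩ := Slack_.num d hd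
  rw [← hV, hAd] at hsecond
  rw [hAd] at hFcard
  obtain ⟨S, hScard, hScov⟩ := hM d Θ T K (by omega) hΘ1 h26 hconv hcomp hint0
    (by
      rw [← hV]
      exact UNC2_.num1 hd' hD0 hDd h512 h512' hFcard hfirst)
    (by
      rw [← hV]
      exact UNC2_.num2 hd' hΘ1 hΘ4 h26 hsecond)
  exact ⟨S, hScard.trans hcov, hScov⟩

end Pool.Agent.Ovl
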