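import Mathlib
import Pool.Agent.Ovl.Targets8
import Pool.Agent.Ovl.UNC2

/-!
# General unconditional bodies, translations with slack (job OVL-UNC3)
-/

set_option autoImplicit false

open MeasureTheory Set Filter
open scoped Pointwise Topology

namespace Pool.Agent.Ovl

open Pool.Agent.Rog (E SymBody)

namespace UNC3_

variable {d : ℕ}

/-- numerics: the first condition -/
theorem num1 {d V I N Lg : ℝ} (hd : 400 ≤ d) (hN : 0 ≤ N)
    (hNd : 10 ^ 4 * Real.log d ^ 2 * N ≤ d) (hL0 : 0 ≤ Lg) (hL : Lg ≤ 3 * Real.log d)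
    (hI : I ≤ N * (1 / d * V ^ 2)) :
    760 * Lg ^ 2 * I ≤ V ^ 2 := by
  have hd0 : 0 < d := by linarith
  obtain ⟨l, hl⟩ : ∃ l : ℝ, l = Real.log d := ⟨_, rfl⟩
  have hl0 : 0 ≤ l := by rw [hl]; exact Real.log_nonneg (by linarith)
  rw [← hl] at hNd hL
  have h3 : Lg ^ 2 ≤ (3 * l) ^ 2 := pow_le_pow_left₀ hL0 hL 2
  calc 760 * Lg ^ 2 * I ≤ 760 * Lg ^ 2 * (N * (1 / d * V ^ 2)) := by gcongr
    _ ≤ 760 * (3 * l) ^ 2 * (N * (1 / d * V ^ 2)) := by gcongr
    _ = (0.684 * (10 ^ 4 * l ^ 2 * N)) / d * V ^ 2 := by ring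
    _ ≤ 1 * V ^ 2 := by
      gcongr
      rw [div_le_one hd0]
      have : 0 ≤ 10 ^ 4 * l ^ 2 * N := by positivity
      linarith
    _ = V ^ 2 := one_mul _

/-- numerics: one coordinate -/
theorem num3 {a b V A1 : ℝ} (hV : 0 < V) (hA : 0 < A1) (hb : 0 ≤ b)
    (h1 : A1 ^ 2 * a ≤ V) (h2 : a * V ≤ 49 * b ^ 2) (ha : 0 ≤ a) : a ≤ 7 * b / A1 := by
  have h3 : a ^ 2 ≤ (7 * b / A1) ^ 2 := by
    rw [div_pow, le_div_iff₀ (by positivity)]
    have h4 : a ^ 2 * A1 ^ 2 * V ≤ (7 * b) ^ 2 * V := by
      calc a ^ 2 * A1 ^ 2 * V = (A1 ^ 2 * a) * (a * V) := by ring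
        _ ≤ V * (49 * b ^ 2) := mul_le_mul h1 h2 (by positivity) hV.le
        _ = _ := by ring
    exact le_of_mul_le_mul_right h4 hV
  exact (pow_le_pow_iff_left₀ ha (by positivity) two_ne_zero).1 h3

/-- the origin is an interior point -/
theorem zero_mem {K : Set (E d)} (hconv : Convex ℝ K) (hint : (interior K).Nonempty)
    (hU : Unc K) : (0 : E d) ∈ interior K := by
  obtain ⟨x, hx⟩ := hint
  have hneg : ∀ y ∈ K, -y ∈ K := fun y hy => hU y hy _ fun j => by simp
  have h1 : -x ∈ interior K := by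
    have h2 : interior K ⊆ K := interior_subset
    have h3 : -(interior K) ⊆ K := by
      intro y hy
      have := hneg _ (h2 (Set.mem_neg.1 hy))
      rwa [neg_neg] at this
    have h4 : -(interior K) ⊆ interior K := interior_maximal h3 isOpen_interior.neg
    exact h4 (Set.neg_mem_neg.2 hx)
  have h5 := hconv.interior hx h1 (by norm_num : (0 : ℝ) ≤ 1 / 2) (by norm_num : (0 : ℝ) ≤ 1 / 2)
    (by norm_num)
  simpa using h5

/-- the coordinate vectors in `K` -/
theorem single_mem {K : Set (E d)} (hconv : Convex ℝ K) (hU : Unc K) {k : E d} (hk : k ∈ K)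
    (i : Fin d) (c : ℝ) (hc : |c| = |k i|) : EuclideanSpace.single i c ∈ K := by
  have h1 : (2 : ℝ) • EuclideanSpace.single i (k i) - k ∈ K := by
    apply hU k hk
    intro j
    by_cases h : j = i
    · subst h
      simp
      congr 1
      ring
    · simp [h]
  have h3 := hconv hk h1 (by norm_num : (0 : ℝ) ≤ 1 / 2) (by norm_num : (0 : ℝ) ≤ 1 / 2)
    (by norm_num)
  have h4 : (1 / 2 : ℝ) • k + (1 / 2 : ℝ) • ((2 : ℝ) • EuclideanSpace.single i (k i) - k) =
      EuclideanSpace.single i (k i) := by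
    rw [smul_sub, smul_smul]
    norm_num
  rw [h4] at h3
  apply hU _ h3
  intro j
  by_cases h : j = i
  · subst h
    simpa using hc
  · simp [h]

end UNC3_

theorem p_UNC3 (hL : T_LOSS) (hH : T_HSP) (hS : T_LR) (hU : T_GSUB) (hG : T_GAU) (hC : T_LCT)
    (hM : T_MIX) (hQ : T_LSQ) (hV : T_MU) : T_UNC3 := by
  intro d K F hd hconv hcomp hint hUnc hFd hk
  have hMU := hV d K
  obtain ⟨hl0, -, hladd, -, hlmeas, -, -⟩ := hL d K hconv hcomp
  have hd1 : 1 ≤ d := by omega
  have hd' : (400 : ℝ) ≤ d := by exact_mod_cast hd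
  have hd0 : (0 : ℝ) < d := by linarith
  have hlog : 0 < Real.log d := Real.log_pos (by linarith)
  obtain ⟨A, hAd⟩ : ∃ A : ℝ, A = 2500 * Real.log d := ⟨_, rfl⟩
  have hA : 0 < A := by rw [hAd]; positivity
  have hint0 : (0 : E d) ∈ interior K := UNC3_.zero_mem hconv hint hUnc
  have h0K : (0 : E d) ∈ K := interior_subset hint0
  have hfin : volume K ≠ ⊤ := hcomp.measure_lt_top.ne
  have hVpos : 0 < volume.real K := by
    rw [measureReal_def]
    apply ENNReal.toReal_pos _ hfin
    exact (lt_of_lt_of_le (isOpen_interior.measure_pos volume hint)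
      (measure_mono interior_subset)).ne'
  obtain ⟨V, hV⟩ : ∃ V : ℝ, V = volume.real K := ⟨_, rfl⟩
  rw [← hV] at hVpos
  have : IsFiniteMeasure (volume.restrict K) := ⟨by
    rw [Measure.restrict_apply_univ]
    exact hcomp.measure_lt_top⟩
  have hKm : MeasurableSet K := hcomp.measurableSet
  -- loss at zero
  have hlz : loss K 0 = 0 := by
    unfold loss
    have : {x | x ∈ K ∧ x + 0 ∉ K} = (∅ : Set (E d)) := by
      ext x
      simp
    rw [this]
    simp
  -- the projection
  obtain ⟨T, hT⟩ : ∃ T : E d →L[ℝ] E d, ∀ y, T y = ∑ i ∈ Fᶜ,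
      (y i) • EuclideanSpace.single i (1 : ℝ) := by
    refine ⟨∑ i ∈ Fᶜ, (EuclideanSpace.proj i : E d →L[ℝ] ℝ).smulRight
      (EuclideanSpace.single i (1 : ℝ)), fun y => ?_⟩
    rw [sum_apply]
    rfl
  have hTj : ∀ (y : E d) (j : Fin d), T y j = if j ∈ F then 0 else y j := by
    intro y j
    rw [hT]
    by_cases h2 : j ∈ F <;> simp [Pi.single_apply, h2]
  have hTK : ∀ y ∈ K, T y ∈ K := by
    intro y hy
    have h1 : (2 : ℝ) • T y - y ∈ K := by
      apply hUnc y hy
      intro j
      have h2 : ((2 : ℝ) • T y - y) j = 2 * T y j - y j := by simp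
      rw [h2, hTj]
      split_ifs
      · rw [mul_zero, zero_sub, abs_neg]
      · congr 1
        ring
    have h3 := hconv hy h1 (by norm_num : (0 : ℝ) ≤ 1 / 2) (by norm_num : (0 : ℝ) ≤ 1 / 2)
      (by norm_num)
    have h4 : (1 / 2 : ℝ) • y + (1 / 2 : ℝ) • ((2 : ℝ) • T y - y) = T y := by
      rw [smul_sub, smul_smul]
      norm_num
    rwa [h4] at h3
  have hdec : ∀ y : E d, (1 / (d : ℝ)) • (y - T y) =
      ∑ i ∈ F, (1 / (d : ℝ) * y i) • EuclideanSpace.single i (1 : ℝ) := by
    intro y
    have h1 : y = ∑ i, (y i) • EuclideanSpace.single i (1 : ℝ) := by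
      have := (EuclideanSpace.basisFun (Fin d) ℝ).sum_repr y
      simpa using this.symm
    have h2 : ∑ i ∈ F, (1 / (d : ℝ) * y i) • EuclideanSpace.single i (1 : ℝ) =
        (1 / (d : ℝ)) • ∑ i ∈ F, (y i) • EuclideanSpace.single i (1 : ℝ) := by
      rw [Finset.smul_sum]
      refine Finset.sum_congr rfl fun i _ => ?_
      rw [smul_smul]
    rw [h2]
    congr 1
    rw [sub_eq_iff_eq_add, hT, Finset.sum_add_sum_compl, ← h1]
  have hpt : ∀ y : E d, loss K ((1 / (d : ℝ)) • (y - T y)) ≤
      ∑ i ∈ F, loss K ((1 / (d : ℝ) * y i) • EuclideanSpace.single i (1 : ℝ)) := by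
    intro y
    rw [hdec y]
    exact Finset.le_sum_of_subadditive (loss K) hlz.le (fun u v => hladd u v) F
      (fun i => (1 / (d : ℝ) * y i) • EuclideanSpace.single i (1 : ℝ))
  have hI : ∀ g : E d → E d, Continuous g →
      Integrable (fun y => loss K (g y)) (volume.restrict K) := by
    intro g hg
    refine Integrable.of_bound (C := V) ?_ ?_
    · exact (hlmeas.comp hg.measurable).aestronglyMeasurable
    · refine Eventually.of_forall fun y => ?_
      rw [Real.norm_eq_abs, abs_of_nonneg (hl0 _).1, hV]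
      exact (hl0 _).2
  have hIi : ∀ i : Fin d, Integrable (fun y : E d =>
      loss K ((1 / (d : ℝ) * y i) • EuclideanSpace.single i (1 : ℝ))) (volume.restrict K) := by
    intro i
    exact hI _ (by fun_prop)
  have hfirst : ∫ y in K, loss K ((1 / (d : ℝ)) • (y - T y)) ≤
      (F.card : ℝ) * (1 / (d : ℝ) * V ^ 2) := by
    calc ∫ y in K, loss K ((1 / (d : ℝ)) • (y - T y))
        ≤ ∫ y in K, ∑ i ∈ F, loss K ((1 / (d : ℝ) * y i) •
            EuclideanSpace.single i (1 : ℝ)) := by
          apply integral_mono (hI _ (by fun_prop)) _ hpt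
          exact integrable_finsetSum _ fun i _ => hIi i
      _ = ∑ i ∈ F, ∫ y in K, loss K ((1 / (d : ℝ) * y i) •
            EuclideanSpace.single i (1 : ℝ)) := by
          rw [integral_finsetSum _ fun i _ => hIi i]
      _ ≤ ∑ i ∈ F, 1 / (d : ℝ) * V ^ 2 := by
          apply Finset.sum_le_sum
          intro i _
          have := hH d K i (1 / (d : ℝ)) hconv hcomp hint hUnc (by positivity)
          rw [← hV] at this
          exact this
      _ = _ := by rw [Finset.sum_const, nsmul_eq_mul]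
  -- the second condition
  have hq : ∀ z, A ^ 2 * ∫ y in K, (fderiv ℝ (gauge K) z (T y)) ^ 2 ≤ volume.real K := by
    intro z
    rw [← hV]
    obtain ⟨θ, hθ⟩ : ∃ θ : E d, ∀ x, fderiv ℝ (gauge K) z x = inner ℝ θ x :=
      ⟨(InnerProductSpace.toDual ℝ (E d)).symm (fderiv ℝ (gauge K) z), fun x => by
        rw [InnerProductSpace.toDual_symm_apply]⟩
    have hsub : ∀ k ∈ K, ∑ i, θ i * k i ≤ 1 := by
      intro k hk
      have h2 := hU d K hconv hcomp hint0 z k hk
      rw [hθ] at h2
      have h3 : inner ℝ θ k = ∑ i, θ i * k i := by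
        simp [PiLp.inner_apply, mul_comm]
      rwa [h3] at h2
    obtain ⟨A1, hA1⟩ : ∃ A1 : ℝ, A1 = 5 * 10 ^ 7 * Real.log d ^ 2 := ⟨_, rfl⟩
    have hA1p : 0 < A1 := by rw [hA1]; positivity
    obtain ⟨M, hMd⟩ : ∃ M : Fin d → ℝ, M = fun i => ∫ y in K, |y i| := ⟨_, rfl⟩
    have hM0 : ∀ i, 0 ≤ M i := by
      intro i
      rw [hMd]
      exact integral_nonneg fun y => abs_nonneg _
    have hmean : ∑ i, |θ i| * M i ≤ V := by
      have h1 : (WithLp.toLp 2 fun i => SignType.sign (θ i) * (M i / V) : E d) ∈ K := by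
        apply hMU _ hconv hcomp hint hUnc
        intro i
        rw [← hV]
        have h2 : |(SignType.sign (θ i) : ℝ)| ≤ 1 := by
          rcases lt_trichotomy (θ i) 0 with h | h | h
          · simp [sign_neg h]
          · simp [h]
          · simp [sign_pos h]
        have h3 : 0 ≤ M i / V := div_nonneg (hM0 i) hVpos.le
        change |(SignType.sign (θ i) : ℝ) * (M i / V)| * V ≤ ∫ x in K, |x i|
        rw [abs_mul, abs_of_nonneg h3]
        calc |(SignType.sign (θ i) : ℝ)| * (M i / V) * V ≤ 1 * (M i / V) * V := by gcongr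
          _ = M i := by field_simp
          _ = _ := by rw [hMd]
      have h2 := hsub _ h1
      have h3 : ∑ i, θ i * (SignType.sign (θ i) * (M i / V)) = (∑ i, |θ i| * M i) / V := by
        rw [Finset.sum_div]
        refine Finset.sum_congr rfl fun i _ => ?_
        rw [← mul_assoc, self_mul_sign, mul_div_assoc]
      change ∑ i, θ i * (SignType.sign (θ i) * (M i / V)) ≤ 1 at h2
      rw [h3, div_le_one hVpos] at h2
      exact h2
    have hinner : ∀ y : E d, inner ℝ θ (T y) = ∑ i ∈ Fᶜ, θ i * y i := by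
      intro y
      rw [hT, inner_sum]
      refine Finset.sum_congr rfl fun i _ => ?_
      rw [real_inner_smul_right, EuclideanSpace.inner_single_right]
      simp
      ring
    have hsq : ∫ y in K, (inner ℝ θ (T y)) ^ 2 ≤ 7 * V / A1 := by
      simp only [hinner]
      rw [UNC_.quad hcomp hUnc]
      calc ∑ i ∈ Fᶜ, θ i ^ 2 * ∫ y in K, (y i) ^ 2 ≤ ∑ i ∈ Fᶜ, 7 * (|θ i| * M i) / A1 := by
            apply Finset.sum_le_sum
            intro i hi
            obtain ⟨k, hkK, hki⟩ := hk i (Finset.mem_compl.1 hi)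
            rw [← hA1, ← hV] at hki
            have hI0 : 0 ≤ ∫ y in K, (y i) ^ 2 := integral_nonneg fun y => sq_nonneg _
            have hθk : |θ i| * |k i| ≤ 1 := by
              have h1 : EuclideanSpace.single i (SignType.sign (θ i) * |k i| : ℝ) ∈ K ∨
                  θ i = 0 := by
                by_cases h0 : θ i = 0
                · exact Or.inr h0
                · left
                  apply UNC3_.single_mem hconv hUnc hkK
                  rw [abs_mul, abs_abs]
                  have : |(SignType.sign (θ i) : ℝ)| = 1 := by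
                    rcases lt_or_gt_of_ne h0 with h | h
                    · simp [sign_neg h]
                    · simp [sign_pos h]
                  rw [this, one_mul]
              rcases h1 with h1 | h1
              · have h2 := hsub _ h1
                rw [Finset.sum_eq_single i (by intro j _ hj; simp [hj]) (by simp)] at h2
                simp only [PiLp.single_apply, if_true] at h2
                rw [← mul_assoc, self_mul_sign] at h2
                exact h2
              · rw [h1, abs_zero, zero_mul]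
                exact zero_le_one
            have e1 : A1 ^ 2 * (θ i ^ 2 * ∫ y in K, (y i) ^ 2) ≤ V := by
              calc A1 ^ 2 * (θ i ^ 2 * ∫ y in K, (y i) ^ 2)
                  = θ i ^ 2 * (A1 ^ 2 * ∫ y in K, (y i) ^ 2) := by ring
                _ ≤ θ i ^ 2 * (V * (k i) ^ 2) := by gcongr
                _ = V * (|θ i| * |k i|) ^ 2 := by rw [mul_pow, sq_abs, sq_abs]; ring
                _ ≤ V * 1 ^ 2 := by gcongr
                _ = V := by ring
            have e2 : θ i ^ 2 * (∫ y in K, (y i) ^ 2) * V ≤ 49 * (|θ i| * M i) ^ 2 := by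
              have h1 := hQ d K i hconv hcomp hUnc
              rw [← hV] at h1
              calc θ i ^ 2 * (∫ y in K, (y i) ^ 2) * V = θ i ^ 2 * ((∫ y in K, (y i) ^ 2) * V) := by
                    ring
                _ ≤ θ i ^ 2 * (49 * (∫ y in K, |y i|) ^ 2) := by gcongr
                _ = _ := by rw [mul_pow, sq_abs, hMd]; ring
            exact UNC3_.num3 hVpos hA1p (mul_nonneg (abs_nonneg _) (hM0 i)) e1 e2
              (mul_nonneg (sq_nonneg _) hI0)
        _ ≤ ∑ i, 7 * (|θ i| * M i) / A1 := by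
            apply Finset.sum_le_sum_of_subset_of_nonneg (Finset.subset_univ _)
            intro i _ _
            have := hM0 i
            positivity
        _ = 7 * (∑ i, |θ i| * M i) / A1 := by
            rw [← Finset.sum_div, ← Finset.mul_sum]
        _ ≤ _ := by gcongr
    simp only [hθ]
    calc A ^ 2 * ∫ y in K, (inner ℝ θ (T y)) ^ 2 ≤ A ^ 2 * (7 * V / A1) := by gcongr
      _ = 0.875 * V := by
          rw [hAd, hA1]
          field_simp
          ring
      _ ≤ V := by linarith
  have hsecond := Slack_.slack_int hS hU hG hC hd1 hconv hcomp hint0 T hTK hA hq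
  obtain ⟨Θ, hΘ1, hΘ4, h26, h512, h512', hcov⟩ := Slack_.num d hd
  rw [← hV, hAd] at hsecond
  obtain ⟨S, hScard, hScov⟩ := hM d Θ T K (by omega) hΘ1 h26 hconv hcomp hint0
    (by
      rw [← hV]
      exact UNC3_.num1 hd' (Nat.cast_nonneg _) hFd h512 h512' hfirst)
    (by
      rw [← hV]
      exact UNC2_.num2 hd' hΘ1 hΘ4 h26 hsecond)
  exact ⟨S, hScard.trans hcov, hScov⟩

end Pool.Agent.Ovl
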