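import Mathlib
import Pool.Agent.Ovl.Targets10
import Pool.Agent.Ovl.UNC2

/-!
# Unconditional bodies between two balls, via a reflection symmetry (job OVL-UNC45)
-/

set_option autoImplicit false

open MeasureTheory Set Filter
open scoped Pointwise Topology

namespace Pool.Agent.Ovl

open Pool.Agent.Rog (E SymBody)

namespace UNC4_

variable {d : ℕ}

/-- unconditional bodies are invariant under all changes of signs -/
theorem refl {K : Set (E d)} (hU : Unc K) (F : Finset (Fin d)) : Refl F K := by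
  intro x hx
  apply hU x hx
  intro j
  change |if j ∈ F then (-x) j else x j| = |x j|
  split_ifs
  · simp
  · rfl

/-- the scalar product with the coordinates off `F` -/
theorem inner_mix (F : Finset (Fin d)) (θ y : E d) :
    inner ℝ θ (mix F 0 y) = ∑ i ∈ Fᶜ, θ i * y i := by
  have h1 : inner ℝ θ (mix F 0 y) = ∑ i, if i ∈ F then 0 else θ i * y i := by
    rw [PiLp.inner_apply]
    refine Finset.sum_congr rfl fun i _ => ?_
    change inner ℝ (θ i) (if i ∈ F then (0 : E d) i else y i) = _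
    split_ifs
    · simp
    · simp [mul_comm]
  rw [h1, ← Finset.sum_add_sum_compl F, Finset.sum_eq_zero (s := F), zero_add]
  · refine Finset.sum_congr rfl fun i hi => ?_
    rw [if_neg (Finset.mem_compl.1 hi)]
  · intro i hi
    rw [if_pos hi]

end UNC4_

theorem p_UNC4 (hB : T_BLK) : T_UNC4 := by
  intro d D K hd hconv hcomp hUnc hball hKD hDd
  have hd1 : 1 ≤ d := by omega
  have hd' : (400 : ℝ) ≤ d := by exact_mod_cast hd
  have hd0 : (0 : ℝ) < d := by linarith
  have hlog1 : 1 ≤ Real.log d := by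
    rw [Real.le_log_iff_exp_le hd0]
    have := Real.exp_one_lt_d9
    linarith
  have hlog : 0 < Real.log d := by linarith
  obtain ⟨A, hAd⟩ : ∃ A : ℝ, A = 1000 * Real.log d := ⟨_, rfl⟩
  have hA : 0 < A := by rw [hAd]; positivity
  have hint0 : (0 : E d) ∈ interior K := by
    apply interior_mono hball
    rw [mem_interior_iff_mem_nhds]
    exact Metric.closedBall_mem_nhds 0 one_pos
  have hint : (interior K).Nonempty := ⟨0, hint0⟩
  have h0K : (0 : E d) ∈ K := interior_subset hint0
  have hD1 : 1 ≤ D := by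
    have h1 : EuclideanSpace.single (⟨0, by omega⟩ : Fin d) (1 : ℝ) ∈ K := by
      apply hball
      rw [mem_closedBall_zero_iff]
      simp
    have h2 := hKD h1
    rw [mem_closedBall_zero_iff] at h2
    simpa using h2
  have hsqrt : 8000 ≤ √(d : ℝ) := by
    refine le_trans ?_ hDd
    nlinarith [mul_le_mul hlog1 hD1 zero_le_one hlog.le]
  have hd4 : 10 ^ 4 ≤ d := by
    have h1 : (8000 : ℝ) ^ 2 ≤ √(d : ℝ) ^ 2 := pow_le_pow_left₀ (by norm_num) hsqrt 2
    rw [Real.sq_sqrt hd0.le] at h1
    have h2 : ((10 ^ 4 : ℕ) : ℝ) ≤ d := by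
      push_cast
      linarith
    exact_mod_cast h2
  have hfin : volume K ≠ ⊤ := hcomp.measure_lt_top.ne
  have hVpos : 0 < volume.real K := by
    rw [measureReal_def]
    apply ENNReal.toReal_pos _ hfin
    exact (lt_of_lt_of_le (isOpen_interior.measure_pos volume hint)
      (measure_mono interior_subset)).ne'
  obtain ⟨V, hV⟩ : ∃ V : ℝ, V = volume.real K := ⟨_, rfl⟩
  rw [← hV] at hVpos
  have : IsFiniteMeasure (volume.restrict K) := ⟨by
    rw [Measure.restrict_apply_univ]
    exact hcomp.measure_lt_top⟩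
  have hKm : MeasurableSet K := hcomp.measurableSet
  -- second moments
  obtain ⟨m, hm⟩ : ∃ m : Fin d → ℝ, m = fun i => ∫ y in K, (y i) ^ 2 := ⟨_, rfl⟩
  have hm0 : ∀ i, 0 ≤ m i := by
    intro i
    rw [hm]
    exact integral_nonneg fun y => sq_nonneg _
  have hmsum : ∑ i, m i ≤ D ^ 2 * V := by
    rw [hm]
    change ∑ i, ∫ y in K, (y i) ^ 2 ≤ _
    rw [← integral_finsetSum _ (fun i _ => UNC_.integrable_of_cont hcomp (by fun_prop))]
    have h1 : ∫ y in K, ∑ i, (y i) ^ 2 ≤ ∫ y in K, D ^ 2 := by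
      apply setIntegral_mono_on
        (UNC_.integrable_of_cont hcomp (by fun_prop)) (integrable_const _) hKm
      intro y hy
      have h2 := hKD hy
      rw [mem_closedBall_zero_iff] at h2
      have h3 := EuclideanSpace.real_norm_sq_eq y
      rw [← h3]
      exact pow_le_pow_left₀ (norm_nonneg _) h2 2
    rw [setIntegral_const, ← hV, smul_eq_mul] at h1
    linarith
  obtain ⟨F, hF⟩ : ∃ F : Finset (Fin d), F = Finset.univ.filter (fun i => V ≤ A ^ 2 * m i) :=
    ⟨_, rfl⟩
  have hFcard : (F.card : ℝ) ≤ A ^ 2 * D ^ 2 := by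
    have h1 : (F.card : ℝ) * V ≤ A ^ 2 * ∑ i, m i := by
      calc (F.card : ℝ) * V = ∑ i ∈ F, V := by rw [Finset.sum_const, nsmul_eq_mul]
        _ ≤ ∑ i ∈ F, A ^ 2 * m i := by
            apply Finset.sum_le_sum
            intro i hi
            rw [hF, Finset.mem_filter] at hi
            exact hi.2
        _ ≤ ∑ i, A ^ 2 * m i := by
            apply Finset.sum_le_sum_of_subset_of_nonneg (Finset.subset_univ _)
            intro i _ _
            exact mul_nonneg (sq_nonneg _) (hm0 i)
        _ = _ := by rw [Finset.mul_sum]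
    have h2 : (F.card : ℝ) * V ≤ A ^ 2 * (D ^ 2 * V) :=
      h1.trans (mul_le_mul_of_nonneg_left hmsum (sq_nonneg _))
    have h3 : (F.card : ℝ) * V ≤ (A ^ 2 * D ^ 2) * V := by linarith
    exact le_of_mul_le_mul_right h3 hVpos
  have hF60 : 60 * F.card ≤ d := by
    have h1 : (8000 * Real.log d * D) ^ 2 ≤ √(d : ℝ) ^ 2 := pow_le_pow_left₀ (by positivity) hDd 2
    rw [Real.sq_sqrt hd0.le] at h1
    have h2 : A ^ 2 * D ^ 2 = (8000 * Real.log d * D) ^ 2 / 64 := by
      rw [hAd]
      ring
    rw [h2] at hFcard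
    have h3 : 60 * (F.card : ℝ) ≤ d := by linarith
    exact_mod_cast h3
  refine hB d F K hd4 hF60 ⟨hcomp, hconv, hint, fun x hx => hUnc x hx _ fun j => by simp⟩
    (UNC4_.refl hUnc F) ?_
  intro θ
  have hin : inner ℝ θ (‖θ‖⁻¹ • θ) = ‖θ‖ := by
    rw [real_inner_smul_right, real_inner_self_eq_norm_sq]
    rcases eq_or_ne ‖θ‖ 0 with h3 | h3
    · rw [h3]
      simp
    · field_simp
  refine ⟨‖θ‖⁻¹ • θ, ?_, ?_, ?_⟩
  · apply hball
    rw [mem_closedBall_zero_iff, norm_smul, norm_inv, norm_norm]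
    exact inv_mul_le_one
  · rw [hin]
    exact norm_nonneg _
  · rw [hin, ← hV, ← hAd]
    simp only [UNC4_.inner_mix]
    rw [UNC_.quad hcomp hUnc, Finset.mul_sum]
    calc ∑ i ∈ Fᶜ, A ^ 2 * (θ i ^ 2 * ∫ y in K, (y i) ^ 2) ≤ ∑ i ∈ Fᶜ, V * θ i ^ 2 := by
          apply Finset.sum_le_sum
          intro i hi
          rw [Finset.mem_compl, hF, Finset.mem_filter, not_and, not_le] at hi
          have h1 := hi (Finset.mem_univ _)
          rw [hm] at h1
          change A ^ 2 * ∫ y in K, (y i) ^ 2 < V at h1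
          calc A ^ 2 * (θ i ^ 2 * ∫ y in K, (y i) ^ 2)
              = (A ^ 2 * ∫ y in K, (y i) ^ 2) * θ i ^ 2 := by ring
            _ ≤ V * θ i ^ 2 := by gcongr
      _ ≤ ∑ i, V * θ i ^ 2 := by
          apply Finset.sum_le_sum_of_subset_of_nonneg (Finset.subset_univ _)
          intro i _ _
          positivity
      _ = _ := by
          rw [← Finset.mul_sum, ← EuclideanSpace.real_norm_sq_eq]

end Pool.Agent.Ovl
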