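import Mathlib
import Pool.Agent.Ovl.UNC3
import Pool.Agent.Ovl.UNC4

/-!
# General unconditional bodies, via a reflection symmetry (job OVL-UNC45)
-/

set_option autoImplicit false

open MeasureTheory Set Filter
open scoped Pointwise Topology

namespace Pool.Agent.Ovl

open Pool.Agent.Rog (E SymBody)

namespace UNC5_

/-- numerics: one coordinate -/
theorem num {a b h V A1 : ℝ} (hV : 0 < V) (hA : 0 < A1) (hb : 0 ≤ b) (hh : 0 ≤ h)
    (h1 : A1 ^ 2 * a ≤ V * h ^ 2) (h2 : a * V ≤ 49 * b ^ 2) (ha : 0 ≤ a) :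
    a ≤ 7 * b * h / A1 := by
  have h3 : a ^ 2 ≤ (7 * b * h / A1) ^ 2 := by
    rw [div_pow, le_div_iff₀ (by positivity)]
    have h4 : a ^ 2 * A1 ^ 2 * V ≤ (7 * b * h) ^ 2 * V := by
      calc a ^ 2 * A1 ^ 2 * V = (A1 ^ 2 * a) * (a * V) := by ring
        _ ≤ (V * h ^ 2) * (49 * b ^ 2) := mul_le_mul h1 h2 (by positivity) (by positivity)
        _ = _ := by ring
    exact le_of_mul_le_mul_right h4 hV
  exact (pow_le_pow_iff_left₀ ha (by positivity) two_ne_zero).1 h3

end UNC5_

theorem p_UNC5 (hB : T_BLK) (hQ : T_LSQ) (hV : T_MU) : T_UNC5 := by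
  intro d K F hd hconv hcomp hint hUnc hFd hk
  have hMU := hV d K
  have hd' : (10 ^ 4 : ℝ) ≤ d := by exact_mod_cast hd
  have hd0 : (0 : ℝ) < d := by linarith
  have hlog : 0 < Real.log d := Real.log_pos (by linarith)
  obtain ⟨A, hAd⟩ : ∃ A : ℝ, A = 1000 * Real.log d := ⟨_, rfl⟩
  have hA : 0 < A := by rw [hAd]; positivity
  have hint0 : (0 : E d) ∈ interior K := UNC3_.zero_mem hconv hint hUnc
  have h0K : (0 : E d) ∈ K := interior_subset hint0
  have hfin : volume K ≠ ⊤ := hcomp.measure_lt_top.ne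
  have hVpos : 0 < volume.real K := by
    rw [measureReal_def]
    apply ENNReal.toReal_pos _ hfin
    exact (lt_of_lt_of_le (isOpen_interior.measure_pos volume hint)
      (measure_mono interior_subset)).ne'
  obtain ⟨V, hV⟩ : ∃ V : ℝ, V = volume.real K := ⟨_, rfl⟩
  rw [← hV] at hVpos
  refine hB d F K hd hFd ⟨hcomp, hconv, hint, fun x hx => hUnc x hx _ fun j => by simp⟩
    (UNC4_.refl hUnc F) ?_
  intro θ
  obtain ⟨ks, hks, hmax⟩ := hcomp.exists_isMaxOn ⟨0, h0K⟩
    (f := fun k : E d => inner ℝ θ k) (by fun_prop)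
  obtain ⟨h, hh⟩ : ∃ h : ℝ, h = inner ℝ θ ks := ⟨_, rfl⟩
  have hsub : ∀ k ∈ K, ∑ i, θ i * k i ≤ h := by
    intro k hk
    have h2 : inner ℝ θ k ≤ inner ℝ θ ks := hmax hk
    have h3 : inner ℝ θ k = ∑ i, θ i * k i := by
      simp [PiLp.inner_apply, mul_comm]
    rwa [h3, ← hh] at h2
  have hh0 : 0 ≤ h := by
    have := hsub 0 h0K
    simpa using this
  refine ⟨ks, hks, by rw [← hh]; exact hh0, ?_⟩
  rw [← hh, ← hV, ← hAd]
  obtain ⟨A1, hA1⟩ : ∃ A1 : ℝ, A1 = 7 * 10 ^ 6 * Real.log d ^ 2 := ⟨_, rfl⟩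
  have hA1p : 0 < A1 := by rw [hA1]; positivity
  obtain ⟨M, hMd⟩ : ∃ M : Fin d → ℝ, M = fun i => ∫ y in K, |y i| := ⟨_, rfl⟩
  have hM0 : ∀ i, 0 ≤ M i := by
    intro i
    rw [hMd]
    exact integral_nonneg fun y => abs_nonneg _
  have hmean : ∑ i, |θ i| * M i ≤ h * V := by
    have h1 : (WithLp.toLp 2 fun i => SignType.sign (θ i) * (M i / V) : E d) ∈ K := by
      apply hMU _ hconv hcomp hint hUnc
      intro i
      rw [← hV]
      have h2 : |(SignType.sign (θ i) : ℝ)| ≤ 1 := by
        rcases lt_trichotomy (θ i) 0 with h | h | h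
        · simp [sign_neg h]
        · simp [h]
        · simp [sign_pos h]
      have h3 : 0 ≤ M i / V := div_nonneg (hM0 i) hVpos.le
      change |(SignType.sign (θ i) : ℝ) * (M i / V)| * V ≤ ∫ x in K, |x i|
      rw [abs_mul, abs_of_nonneg h3]
      calc |(SignType.sign (θ i) : ℝ)| * (M i / V) * V ≤ 1 * (M i / V) * V := by gcongr
        _ = M i := by field_simp
        _ = _ := by rw [hMd]
    have h2 := hsub _ h1
    have h3 : ∑ i, θ i * (SignType.sign (θ i) * (M i / V)) = (∑ i, |θ i| * M i) / V := by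
      rw [Finset.sum_div]
      refine Finset.sum_congr rfl fun i _ => ?_
      rw [← mul_assoc, self_mul_sign, mul_div_assoc]
    change ∑ i, θ i * (SignType.sign (θ i) * (M i / V)) ≤ h at h2
    rw [h3, div_le_iff₀ hVpos] at h2
    exact h2
  have hsq : ∑ i ∈ Fᶜ, θ i ^ 2 * ∫ y in K, (y i) ^ 2 ≤ 7 * (h * V) * h / A1 := by
    calc ∑ i ∈ Fᶜ, θ i ^ 2 * ∫ y in K, (y i) ^ 2 ≤ ∑ i ∈ Fᶜ, 7 * (|θ i| * M i) * h / A1 := by
          apply Finset.sum_le_sum
          intro i hi
          obtain ⟨k, hkK, hki⟩ := hk i (Finset.mem_compl.1 hi)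
          rw [← hA1, ← hV] at hki
          have hI0 : 0 ≤ ∫ y in K, (y i) ^ 2 := integral_nonneg fun y => sq_nonneg _
          have hθk : |θ i| * |k i| ≤ h := by
            have h1 : EuclideanSpace.single i (SignType.sign (θ i) * |k i| : ℝ) ∈ K ∨
                θ i = 0 := by
              by_cases h0 : θ i = 0
              · exact Or.inr h0
              · left
                apply UNC3_.single_mem hconv hUnc hkK
                rw [abs_mul, abs_abs]
                have : |(SignType.sign (θ i) : ℝ)| = 1 := by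
                  rcases lt_or_gt_of_ne h0 with h | h
                  · simp [sign_neg h]
                  · simp [sign_pos h]
                rw [this, one_mul]
            rcases h1 with h1 | h1
            · have h2 := hsub _ h1
              rw [Finset.sum_eq_single i (by intro j _ hj; simp [hj]) (by simp)] at h2
              simp only [PiLp.single_apply, if_true] at h2
              rw [← mul_assoc, self_mul_sign] at h2
              exact h2
            · rw [h1, abs_zero, zero_mul]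
              exact hh0
          have e1 : A1 ^ 2 * (θ i ^ 2 * ∫ y in K, (y i) ^ 2) ≤ V * h ^ 2 := by
            calc A1 ^ 2 * (θ i ^ 2 * ∫ y in K, (y i) ^ 2)
                = θ i ^ 2 * (A1 ^ 2 * ∫ y in K, (y i) ^ 2) := by ring
              _ ≤ θ i ^ 2 * (V * (k i) ^ 2) := by gcongr
              _ = V * (|θ i| * |k i|) ^ 2 := by rw [mul_pow, sq_abs, sq_abs]; ring
              _ ≤ V * h ^ 2 := by gcongr
          have e2 : θ i ^ 2 * (∫ y in K, (y i) ^ 2) * V ≤ 49 * (|θ i| * M i) ^ 2 := by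
            have h1 := hQ d K i hconv hcomp hUnc
            rw [← hV] at h1
            calc θ i ^ 2 * (∫ y in K, (y i) ^ 2) * V = θ i ^ 2 * ((∫ y in K, (y i) ^ 2) * V) := by
                  ring
              _ ≤ θ i ^ 2 * (49 * (∫ y in K, |y i|) ^ 2) := by gcongr
              _ = _ := by rw [mul_pow, sq_abs, hMd]; ring
          exact UNC5_.num hVpos hA1p (mul_nonneg (abs_nonneg _) (hM0 i)) hh0 e1 e2
            (mul_nonneg (sq_nonneg _) hI0)
      _ ≤ ∑ i, 7 * (|θ i| * M i) * h / A1 := by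
          apply Finset.sum_le_sum_of_subset_of_nonneg (Finset.subset_univ _)
          intro i _ _
          have := hM0 i
          positivity
      _ = 7 * (∑ i, |θ i| * M i) * h / A1 := by
          rw [← Finset.sum_div, ← Finset.sum_mul, ← Finset.mul_sum]
      _ ≤ _ := by gcongr
  simp only [UNC4_.inner_mix]
  rw [UNC_.quad hcomp hUnc]
  calc A ^ 2 * ∑ i ∈ Fᶜ, θ i ^ 2 * ∫ y in K, (y i) ^ 2
      ≤ A ^ 2 * (7 * (h * V) * h / A1) := by gcongr
    _ = V * h ^ 2 := by
        rw [hAd, hA1]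
        field_simp
        ring

end Pool.Agent.Ovl
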