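import Mathlib
import Pool.Agent.Ovl.Targets
import Pool.Agent.Ovl.Targets2
import Pool.Agent.Ovl.Targets3
import Pool.Agent.Ovl.Targets6

/-!
# Bodies with large width, second form
-/

set_option autoImplicit false

open MeasureTheory Set Filter
open scoped Pointwise Topology

namespace Pool.Agent.Ovl

open Pool.Agent.Rog (E SymBody)

namespace WID2_

/-- The numerical facts. -/
lemma num (d : ℕ) (hd : 400 ≤ d) (Θ : ℝ)
    (hΘ : Θ = 2 * Real.exp 1 * d * Real.log (8 * d + 2)) :
    1 ≤ Θ ∧ Θ ≤ (d : ℝ) ^ 2 / 4 ∧ 26 * Real.log (38 * Θ) ≤ d ∧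
      1 + Real.exp 1 * 2 ^ d / Θ * (d * Real.log (8 * d + 2)) ≤ 2 ^ d := by
  have hd' : (400 : ℝ) ≤ d := by exact_mod_cast hd
  have hd0 : (0 : ℝ) < d := by linarith
  have he1 : Real.exp 1 < 2.7182818286 := Real.exp_one_lt_d9
  have he2 : 2.7182818283 < Real.exp 1 := Real.exp_one_gt_d9
  have hl2 : Real.log 2 < 0.6931471808 := Real.log_two_lt_d9
  obtain ⟨l, hl⟩ : ∃ l : ℝ, l = Real.log (8 * d + 2) := ⟨_, rfl⟩
  rw [← hl] at hΘ ⊢
  have h8 : (0 : ℝ) < 8 * d + 2 := by positivity
  have hl_up : l ≤ 12 * Real.log 2 + ((8 * d + 2) / 4096 - 1) := by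
    have h1 := Real.log_le_sub_one_of_pos (x := (8 * d + 2) / 4096) (by positivity)
    rw [Real.log_div h8.ne' (by norm_num)] at h1
    have h2 : Real.log 4096 = 12 * Real.log 2 := by
      rw [show (4096 : ℝ) = 2 ^ 12 by norm_num, Real.log_pow]
      norm_num
    rw [hl]
    linarith
  have hl_low : 1 ≤ l := by
    rw [hl, Real.le_log_iff_exp_le h8]
    linarith
  have hlogd : Real.log d ≤ 8 * Real.log 2 + ((d : ℝ) / 256 - 1) := by
    have h1 := Real.log_le_sub_one_of_pos (x := (d : ℝ) / 256) (by positivity)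
    rw [Real.log_div hd0.ne' (by norm_num)] at h1
    have h2 : Real.log 256 = 8 * Real.log 2 := by
      rw [show (256 : ℝ) = 2 ^ 8 by norm_num, Real.log_pow]
      norm_num
    linarith
  have hlog95 : Real.log 9.5 ≤ 3 * Real.log 2 + 0.1875 := by
    have h1 := Real.log_le_sub_one_of_pos (x := (9.5 : ℝ) / 8) (by norm_num)
    rw [Real.log_div (by norm_num) (by norm_num)] at h1
    have h2 : Real.log 8 = 3 * Real.log 2 := by
      rw [show (8 : ℝ) = 2 ^ 3 by norm_num, Real.log_pow]
      norm_num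
    rw [h2] at h1
    linarith
  have hepos : 0 < Real.exp 1 := Real.exp_pos 1
  have hΘ1 : 1 ≤ Θ := by
    have h1 : (1 : ℝ) ≤ 2 * Real.exp 1 := by linarith
    have h2 : (1 : ℝ) ≤ 2 * Real.exp 1 * d := by nlinarith
    rw [hΘ]
    nlinarith
  have hkey : 8 * Real.exp 1 * l ≤ (d : ℝ) := by
    have h1 : l ≤ 7.32 + 0.002 * d := by
      linarith
    have h2 : 8 * Real.exp 1 * l ≤ 8 * 2.7182818286 * (7.32 + 0.002 * d) := by
      refine mul_le_mul ?_ h1 (by linarith) (by norm_num)
      linarith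
    linarith
  have hΘ3 : Θ ≤ (d : ℝ) ^ 2 / 4 := by
    have h1 := mul_le_mul_of_nonneg_left hkey hd0.le
    rw [hΘ]
    have h2 : 4 * (2 * Real.exp 1 * d * l) = d * (8 * Real.exp 1 * l) := by ring
    have h3 : (d : ℝ) ^ 2 = d * d := sq _
    linarith
  refine ⟨hΘ1, hΘ3, ?_, ?_⟩
  · have h1 : Real.log (38 * Θ) ≤ Real.log (9.5 * (d : ℝ) ^ 2) :=
      Real.log_le_log (by linarith) (by linarith)
    have h2 : Real.log (9.5 * (d : ℝ) ^ 2) = Real.log 9.5 + 2 * Real.log d := by
      rw [Real.log_mul (by norm_num) (by positivity), Real.log_pow]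
      norm_num
    linarith
  · rw [hΘ]
    have hlpos : 0 < l := by linarith
    have h7 : Real.exp 1 * 2 ^ d / (2 * Real.exp 1 * d * l) * (d * l) = 2 ^ d / 2 := by
      field_simp
    rw [h7]
    have h8 : (2 : ℝ) ≤ 2 ^ d := by
      calc (2 : ℝ) = 2 ^ 1 := by norm_num
        _ ≤ 2 ^ d := pow_le_pow_right₀ (by norm_num) (by omega)
    linarith

/-- The exponential bound. -/
lemma pow3 (x : ℝ) (hx : 1 ≤ x) : (3 : ℝ) ^ (-(2500 * Real.log x * (1 / 48) / 8)) ≤ 1 / x ^ 7 := by
  have he1 : Real.exp 1 < 2.7182818286 := Real.exp_one_lt_d9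
  have hx0 : 0 < x := by linarith
  have hlx : 0 ≤ Real.log x := Real.log_nonneg hx
  have hl3 : 1.08 ≤ Real.log 3 := by
    have h1 := Real.one_sub_inv_le_log_of_pos (x := 3 / Real.exp 1) (by positivity)
    rw [Real.log_div (by norm_num) (Real.exp_pos 1).ne', Real.log_exp, inv_div] at h1
    have h2 : Real.exp 1 / 3 ≤ 0.91 := by
      rw [div_le_iff₀ (by norm_num)]
      linarith
    linarith
  have h1 : (3 : ℝ) ^ (-(2500 * Real.log x * (1 / 48) / 8)) =
      Real.exp (Real.log 3 * (-(2500 * Real.log x * (1 / 48) / 8))) :=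
    Real.rpow_def_of_pos (by norm_num) _
  have h2 : 1 / x ^ 7 = Real.exp (-(7 * Real.log x)) := by
    rw [Real.exp_neg, one_div]
    congr 1
    rw [show (7 : ℝ) * Real.log x = ((7 : ℕ) : ℝ) * Real.log x by norm_num, ← Real.log_pow,
      Real.exp_log (by positivity)]
  rw [h1, h2]
  apply Real.exp_le_exp.mpr
  nlinarith

/-- Joint measurability. -/
lemma measF {d : ℕ} (K : Set (E d)) (T : E d →L[ℝ] E d) :
    Measurable (fun p : E d × E d => max 0 (fderiv ℝ (gauge K) p.2 (T p.1) - 1 / 48)) := by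
  have h1 : Measurable (fun p : E d × E d => (fderiv ℝ (gauge K) p.2, T p.1)) :=
    ((measurable_fderiv ℝ (gauge K)).comp measurable_snd).prodMk
      (T.continuous.measurable.comp measurable_fst)
  have h2 : Measurable (fun p : (E d →L[ℝ] ℝ) × E d => p.1 p.2) :=
    isBoundedBilinearMap_apply.continuous.measurable
  exact measurable_const.max ((h2.comp h1).sub measurable_const)

/-- The average of the loss with slack. -/
lemma main_int {d : ℕ} (hd : 1 ≤ d) {K : Set (E d)} (hcv : Convex ℝ K) (hc : IsCompact K)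
    (h0 : (0 : E d) ∈ interior K) (hS : T_LR) (hU : T_GSUB) (hG : T_GAU)
    (T : E d →L[ℝ] E d) (hT : ∀ y ∈ K, T y ∈ K) (ε : ℝ)
    (hε : ∀ z : E d, volume.real {y | y ∈ K ∧ 1 / 48 < |fderiv ℝ (gauge K) z (T y)|} ≤
      ε * volume.real K) :
    ∫ y in K, lossr K (1 / (48 * d)) ((1 / (d : ℝ)) • T y) ≤ 10 * ε * volume.real K ^ 2 := by
  have hd0 : (0 : ℝ) < d := by exact_mod_cast hd
  have h0K : (0 : E d) ∈ K := interior_subset h0
  have hfin : volume K ≠ ⊤ := hc.measure_lt_top.ne
  have hKm : MeasurableSet K := hc.measurableSet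
  have : IsFiniteMeasure (volume.restrict K) := ⟨by
    rw [Measure.restrict_apply_univ]; exact hc.measure_lt_top⟩
  obtain ⟨hL0, hLm, -, -⟩ := hS d K hcv hc h0K (1 / (48 * d)) (by positivity)
  have hFm := measF K T
  -- bound on K
  have hF1 : ∀ y ∈ K, ∀ z : E d, max 0 (fderiv ℝ (gauge K) z (T y) - 1 / 48) ≤ 1 := by
    intro y hy z
    have := hU d K hcv hc h0 z (T y) (hT y hy)
    exact max_le (by norm_num) (by linarith)
  have hFint : Integrable (fun p : E d × E d => max 0 (fderiv ℝ (gauge K) p.2 (T p.1) - 1 / 48))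
      ((volume.restrict K).prod (volume.restrict K)) := by
    refine Integrable.of_bound hFm.aestronglyMeasurable 1 ?_
    rw [Measure.prod_restrict]
    filter_upwards [ae_restrict_mem (hKm.prod hKm)] with p hp
    rw [Real.norm_of_nonneg (le_max_left _ _)]
    exact hF1 p.1 hp.1 p.2
  have hstep : ∀ y ∈ K, lossr K (1 / (48 * d)) ((1 / (d : ℝ)) • T y) ≤
      10 * ∫ z in K, max 0 (fderiv ℝ (gauge K) z (T y) - 1 / 48) := by
    intro y hy
    have h1 := hG d K (1 / (48 * d)) ((1 / (d : ℝ)) • T y) hd hcv hc h0 (by positivity) (by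
      rw [smul_smul, mul_one_div_cancel hd0.ne', one_smul]
      exact hT y hy)
    have h2 : ∀ z : E d, max 0 (fderiv ℝ (gauge K) z ((1 / (d : ℝ)) • T y) - 1 / (48 * d)) =
        (1 / (d : ℝ)) * max 0 (fderiv ℝ (gauge K) z (T y) - 1 / 48) := by
      intro z
      rw [map_smul, smul_eq_mul, mul_max_of_nonneg _ _ (by positivity), mul_zero]
      have h3 : 1 / (d : ℝ) * fderiv ℝ (gauge K) z (T y) - 1 / (48 * d) =
          1 / (d : ℝ) * (fderiv ℝ (gauge K) z (T y) - 1 / 48) := by
        field_simp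
      rw [h3]
    simp only [h2, integral_const_mul] at h1
    refine h1.trans (le_of_eq ?_)
    rw [← mul_assoc, mul_assoc 10 (d : ℝ) (1 / (d : ℝ)), mul_one_div_cancel hd0.ne', mul_one]
  have hgint : Integrable (fun y => 10 * ∫ z in K, max 0 (fderiv ℝ (gauge K) z (T y) - 1 / 48))
      (volume.restrict K) := (hFint.integral_prod_left).const_mul 10
  have hA : ∫ y in K, lossr K (1 / (48 * d)) ((1 / (d : ℝ)) • T y) ≤
      ∫ y in K, 10 * ∫ z in K, max 0 (fderiv ℝ (gauge K) z (T y) - 1 / 48) := by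
    refine integral_mono_of_nonneg (ae_of_all _ fun y => (hL0 _).1) hgint ?_
    filter_upwards [ae_restrict_mem hKm] with y hy using hstep y hy
  refine hA.trans ?_
  rw [integral_const_mul, integral_integral_swap (f := fun y z =>
    max 0 (fderiv ℝ (gauge K) z (T y) - 1 / 48)) hFint]
  have hB : ∀ z : E d, ∫ y in K, max 0 (fderiv ℝ (gauge K) z (T y) - 1 / 48) ≤
      ε * volume.real K := by
    intro z
    refine le_trans ?_ (hε z)
    have hSm : MeasurableSet {y | y ∈ K ∧ 1 / 48 < |fderiv ℝ (gauge K) z (T y)|} := by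
      have hm1 : Measurable (fun y : E d => |fderiv ℝ (gauge K) z (T y)|) :=
        (((fderiv ℝ (gauge K) z).continuous.comp T.continuous).abs).measurable
      have hm2 : MeasurableSet {y : E d | 1 / 48 < |fderiv ℝ (gauge K) z (T y)|} :=
        measurableSet_lt measurable_const hm1
      exact hKm.inter hm2
    have hb1 : ∀ y ∈ K, max 0 (fderiv ℝ (gauge K) z (T y) - 1 / 48) ≤
        {y | y ∈ K ∧ 1 / 48 < |fderiv ℝ (gauge K) z (T y)|}.indicator (fun _ => (1 : ℝ)) y := by
      intro y hy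
      by_cases h : 1 / 48 < |fderiv ℝ (gauge K) z (T y)|
      · rw [indicator_of_mem (show y ∈ {y | y ∈ K ∧ 1 / 48 < |fderiv ℝ (gauge K) z (T y)|}
          from ⟨hy, h⟩)]
        exact hF1 y hy z
      · rw [indicator_of_notMem (fun hh => h hh.2)]
        have := (le_abs_self (fderiv ℝ (gauge K) z (T y))).trans (not_lt.mp h)
        exact max_le le_rfl (by linarith)
    have hii : Integrable ({y | y ∈ K ∧ 1 / 48 < |fderiv ℝ (gauge K) z (T y)|}.indicator
        (fun _ => (1 : ℝ))) (volume.restrict K) :=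
      (integrable_const (1 : ℝ)).indicator hSm
    calc ∫ y in K, max 0 (fderiv ℝ (gauge K) z (T y) - 1 / 48)
        ≤ ∫ y in K, {y | y ∈ K ∧ 1 / 48 < |fderiv ℝ (gauge K) z (T y)|}.indicator
            (fun _ => (1 : ℝ)) y := by
          refine integral_mono_of_nonneg (ae_of_all _ fun y => le_max_left _ _) hii ?_
          filter_upwards [ae_restrict_mem hKm] with y hy using hb1 y hy
      _ = volume.real {y | y ∈ K ∧ 1 / 48 < |fderiv ℝ (gauge K) z (T y)|} := by
          rw [integral_indicator_const _ hSm, smul_eq_mul, mul_one, measureReal_def,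
            Measure.restrict_apply hSm, measureReal_def]
          congr 2
          ext y
          constructor
          · intro h
            exact h.1
          · intro h
            exact ⟨h, h.1⟩
  have hC : ∫ z in K, ∫ y in K, max 0 (fderiv ℝ (gauge K) z (T y) - 1 / 48) ≤
      ∫ z in K, ε * volume.real K := by
    refine integral_mono_of_nonneg (ae_of_all _ fun z => integral_nonneg fun y =>
      le_max_left _ _) (integrable_const _) (ae_of_all _ fun z => hB z)
  rw [setIntegral_const, smul_eq_mul] at hC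
  nlinarith

end WID2_

open WID2_ in
theorem p_WID2 (hL : T_LOSS) (hS : T_LR) (hU : T_GSUB) (hG : T_GAU) (hC : T_LCT)
    (hM : T_MIX) : T_WID2 := by
  intro d K hd hcv hc h0 hwid
  have hd' : (400 : ℝ) ≤ d := by exact_mod_cast hd
  have hd0 : (0 : ℝ) < d := by linarith
  have hV : 0 ≤ volume.real K := measureReal_nonneg
  have hld : 0 < Real.log d := Real.log_pos (by linarith)
  obtain ⟨Θ, hΘ⟩ : ∃ Θ : ℝ, Θ = 2 * Real.exp 1 * d * Real.log (8 * d + 2) := ⟨_, rfl⟩
  obtain ⟨hΘ1, hΘ2, hΘ3, hΘ4⟩ := num d hd Θ hΘ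
  have hL0 : 0 ≤ Real.log (38 * Θ) := Real.log_nonneg (by linarith)
  obtain ⟨hl0, -⟩ := hL d K hcv hc
  have hε : ∀ z : E d, volume.real {y | y ∈ K ∧ 1 / 48 <
      |fderiv ℝ (gauge K) z (ContinuousLinearMap.id ℝ (E d) y)|} ≤
      3 * (1 / (d : ℝ) ^ 7) * volume.real K := by
    intro z
    have hφ : ∀ y : E d, inner ℝ ((InnerProductSpace.toDual ℝ (E d)).symm
        (fderiv ℝ (gauge K) z)) y = fderiv ℝ (gauge K) z y := by
      intro y
      exact InnerProductSpace.toDual_symm_apply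
    obtain ⟨k, hk, hk0, hk1⟩ := hwid ((InnerProductSpace.toDual ℝ (E d)).symm
        (fderiv ℝ (gauge K) z))
    simp only [hφ] at hk0 hk1
    have hk2 := hU d K hcv hc h0 z k hk
    have hk3 : (2500 * Real.log d) ^ 2 * ∫ y in K, (fderiv ℝ (gauge K) z y) ^ 2 ≤
        volume.real K := by
      refine hk1.trans ?_
      have : (fderiv ℝ (gauge K) z k) ^ 2 ≤ 1 := by nlinarith
      nlinarith
    have h1 := hC d K (fderiv ℝ (gauge K) z) (2500 * Real.log d) (1 / 48) hcv hc (by positivity)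
      (by norm_num) hk3
    refine h1.trans ?_
    have h2 := pow3 (d : ℝ) (by linarith)
    gcongr
  have hI := main_int (by omega) hcv hc h0 hS hU hG (ContinuousLinearMap.id ℝ (E d))
    (fun y hy => hy) (3 * (1 / (d : ℝ) ^ 7)) hε
  have hloss0 : loss K (0 : E d) = 0 := by
    unfold loss
    have : {x : E d | x ∈ K ∧ x + 0 ∉ K} = ∅ := by
      ext x
      simp
    rw [this]
    simp
  obtain ⟨P, hP, hPK⟩ := hM d Θ (ContinuousLinearMap.id ℝ (E d)) K (by omega) hΘ1 hΘ3 hcv hc h0
    (by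
      have : ∀ y : E d, loss K ((1 / (d : ℝ)) • (y - (ContinuousLinearMap.id ℝ (E d)) y)) = 0 := by
        intro y
        have h1 : y - (ContinuousLinearMap.id ℝ (E d)) y = 0 := sub_self y
        rw [h1, smul_zero, hloss0]
      simp only [this, integral_zero, mul_zero]
      positivity)
    (by
      have h1 : 2 * 10 ^ 5 * Θ ^ 2 * Real.log (38 * Θ) ≤
          2 * 10 ^ 5 * ((d : ℝ) ^ 2 / 4) ^ 2 * (d / 26) := by
        have h3 : Real.log (38 * Θ) ≤ d / 26 := by linarith
        have h4 : (0 : ℝ) ≤ Θ := by linarith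
        gcongr
      have h2 : (0 : ℝ) ≤ 10 * (3 * (1 / (d : ℝ) ^ 7)) * volume.real K ^ 2 := by positivity
      calc 2 * 10 ^ 5 * Θ ^ 2 * Real.log (38 * Θ) *
            ∫ y in K, lossr K (1 / (48 * d)) ((1 / (d : ℝ)) •
              (ContinuousLinearMap.id ℝ (E d)) y)
          ≤ 2 * 10 ^ 5 * Θ ^ 2 * Real.log (38 * Θ) *
            (10 * (3 * (1 / (d : ℝ) ^ 7)) * volume.real K ^ 2) := by
            refine mul_le_mul_of_nonneg_left hI (by positivity)
        _ ≤ 2 * 10 ^ 5 * ((d : ℝ) ^ 2 / 4) ^ 2 * (d / 26) *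
            (10 * (3 * (1 / (d : ℝ) ^ 7)) * volume.real K ^ 2) :=
            mul_le_mul_of_nonneg_right h1 h2
        _ = (6000000 / 416) / (d : ℝ) ^ 2 * volume.real K ^ 2 := by
            field_simp
            ring
        _ ≤ 1 * volume.real K ^ 2 := by
            refine mul_le_mul_of_nonneg_right ?_ (sq_nonneg _)
            rw [div_le_one (by positivity)]
            nlinarith
        _ = volume.real K ^ 2 := one_mul _)
  exact ⟨P, hP.trans hΘ4, hPK⟩

end Pool.Agent.Ovl
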