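import Pool.Agent.Ovl.Targets9
import Pool.Agent.Ovl.WID2
import Pool.Agent.Ovl.Slack

/-!
# Width form with exceptional directions (job OVL-WID3)
-/

set_option autoImplicit false

open MeasureTheory Set Filter
open scoped Pointwise Topology

namespace Pool.Agent.Ovl

open Pool.Agent.Rog (E SymBody)

open WID2_ in
theorem p_WID3 (hL : T_LOSS) (hS : T_LR) (hU : T_GSUB) (hG : T_GAU) (hC : T_LCT)
    (hM : T_MIX) : T_WID3 := by
  intro d T K hd hcv hc h0 hT hloss hwid
  have hd' : (400 : ℝ) ≤ d := by exact_mod_cast hd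
  have hd0 : (0 : ℝ) < d := by linarith
  have hV : 0 ≤ volume.real K := measureReal_nonneg
  have hld : 0 < Real.log d := Real.log_pos (by linarith)
  obtain ⟨Θ, hΘ1, hΘ2, hΘ3, hΘ5, hΘ6, hΘ4⟩ := Slack_.num d hd
  have hL0 : 0 ≤ Real.log (38 * Θ) := Real.log_nonneg (by linarith)
  obtain ⟨hl0, -⟩ := hL d K hcv hc
  have hε : ∀ z : E d, volume.real {y | y ∈ K ∧ 1 / 48 < |fderiv ℝ (gauge K) z (T y)|} ≤
      3 * (1 / (d : ℝ) ^ 7) * volume.real K := by
    intro z
    have hφ : ∀ y : E d, inner ℝ ((InnerProductSpace.toDual ℝ (E d)).symm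
        (fderiv ℝ (gauge K) z)) y = fderiv ℝ (gauge K) z y := by
      intro y
      exact InnerProductSpace.toDual_symm_apply
    obtain ⟨k, hk, hk0, hk1⟩ := hwid ((InnerProductSpace.toDual ℝ (E d)).symm
        (fderiv ℝ (gauge K) z))
    simp only [hφ] at hk0 hk1
    have hk2 := hU d K hcv hc h0 z k hk
    have hk3 : (2500 * Real.log d) ^ 2 *
        ∫ y in K, (((fderiv ℝ (gauge K) z).comp T) y) ^ 2 ≤ volume.real K := by
      simp only [ContinuousLinearMap.comp_apply]
      refine hk1.trans ?_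
      have : (fderiv ℝ (gauge K) z k) ^ 2 ≤ 1 := by nlinarith
      nlinarith
    have h1 := hC d K ((fderiv ℝ (gauge K) z).comp T) (2500 * Real.log d) (1 / 48) hcv hc
      (by positivity) (by norm_num) hk3
    simp only [ContinuousLinearMap.comp_apply] at h1
    refine h1.trans ?_
    have h2 := pow3 (d : ℝ) (by linarith)
    gcongr
  have hI := main_int (by omega) hcv hc h0 hS hU hG T hT (3 * (1 / (d : ℝ) ^ 7)) hε
  have hI0 : 0 ≤ ∫ y in K, loss K ((1 / (d : ℝ)) • (y - T y)) :=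
    integral_nonneg fun y => (hl0 _).1
  obtain ⟨P, hP, hPK⟩ := hM d Θ T K (by omega) hΘ1 hΘ3 hcv hc h0
    (by
      refine le_trans ?_ hloss
      refine mul_le_mul_of_nonneg_right ?_ hI0
      have h3 : Real.log (512 * Θ) ^ 2 ≤ (3 * Real.log d) ^ 2 := pow_le_pow_left₀ hΘ5 hΘ6 2
      nlinarith [sq_nonneg (Real.log d)])
    (by
      have h1 : 2 * 10 ^ 5 * Θ ^ 2 * Real.log (38 * Θ) ≤
          2 * 10 ^ 5 * ((d : ℝ) ^ 2 / 4) ^ 2 * (d / 26) := by
        have h3 : Real.log (38 * Θ) ≤ d / 26 := by linarith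
        have h4 : (0 : ℝ) ≤ Θ := by linarith
        have h5 : Θ ≤ (d : ℝ) ^ 2 / 4 := by linarith
        gcongr
      have h2 : (0 : ℝ) ≤ 10 * (3 * (1 / (d : ℝ) ^ 7)) * volume.real K ^ 2 := by positivity
      calc 2 * 10 ^ 5 * Θ ^ 2 * Real.log (38 * Θ) *
            ∫ y in K, lossr K (1 / (48 * d)) ((1 / (d : ℝ)) • T y)
          ≤ 2 * 10 ^ 5 * Θ ^ 2 * Real.log (38 * Θ) *
            (10 * (3 * (1 / (d : ℝ) ^ 7)) * volume.real K ^ 2) := by
            refine mul_le_mul_of_nonneg_left hI (by positivity)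
        _ ≤ 2 * 10 ^ 5 * ((d : ℝ) ^ 2 / 4) ^ 2 * (d / 26) *
            (10 * (3 * (1 / (d : ℝ) ^ 7)) * volume.real K ^ 2) :=
            mul_le_mul_of_nonneg_right h1 h2
        _ = (6000000 / 416) / (d : ℝ) ^ 2 * volume.real K ^ 2 := by
            field_simp
            ring
        _ ≤ 1 * volume.real K ^ 2 := by
            refine mul_le_mul_of_nonneg_right ?_ (sq_nonneg _)
            rw [div_le_one (by positivity)]
            nlinarith
        _ = volume.real K ^ 2 := one_mul _)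
  exact ⟨P, hP.trans hΘ4, hPK⟩

end Pool.Agent.Ovl
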