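import Mathlib
import Pool.Agent.Ovl.Main
import Pool.Agent.Ovl.POW4
import Pool.Agent.Ovl.SYM4
import Pool.Agent.Ovl.ROB3
import Pool.Agent.Ovl.SYM3
import Pool.Agent.Ovl.NRM
import Pool.Agent.Ovl.NRMG
import Pool.Agent.Ovl.RAD
import Pool.Agent.Ovl.RAD2
import Pool.Agent.Ovl.GEN
import Pool.Agent.Ovl.SGN
import Pool.Agent.Ovl.SCORE
import Pool.Agent.Ovl.WID2
import Pool.Agent.Ovl.UNC2
import Pool.Agent.Ovl.WID3
import Pool.Agent.Ovl.UNC3
import Pool.Agent.Ovl.LSQ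
import Pool.Agent.Ovl.MU
import Pool.Agent.Ovl.BMO
import Pool.Agent.Ovl.SWP
import Pool.Agent.Ovl.HLF
import Pool.Agent.Ovl.FPT
import Pool.Agent.Ovl.NUMB
import Pool.Agent.Ovl.BLK
import Pool.Agent.Ovl.UNC4
import Pool.Agent.Ovl.UNC5
import Pool.Agent.Ovl.LR
import Pool.Agent.Ovl.GAU
import Pool.Agent.Ovl.LCT
import Pool.Agent.Ovl.MIX
import Pool.Agent.Ovl.TAILT
import Pool.Agent.HRL.TOPL
import Pool.Agent.HRL.PR
import Pool.Agent.HRL.SE
import Pool.Agent.HRL.FL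
import Pool.Agent.HRL.LN
import Pool.Agent.HRL.AV
import Pool.Agent.HRL.NU

/-!
# Hadwiger's covering problem and overlaps: closed theorems and affine invariance
-/

set_option autoImplicit false

open MeasureTheory Set Filter
open scoped Pointwise Topology

namespace Pool.Agent.Ovl

open Pool.Agent.Rog (E SymBody)

theorem t_COV : T_COV := p_COV p_SYMB Pool.Agent.HRP.p_GRD

theorem t_CORE2 : T_CORE2 := p_CORE2 p_LOSS t_LEV Pool.Agent.HRL.p_EN Pool.Agent.HRL.p_TR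

theorem t_ROB3 : T_ROB3 := p_ROB3 t_COV t_CORE2

theorem t_SYM3 : T_SYM3 := p_SYM3 t_COV (p_SCORE p_LOSS t_LEV)

theorem t_POW4 : T_POW4 := p_POW4 t_ROB3

theorem t_SYM4 : T_SYM4 := p_SYM4 t_SYM3

theorem t_NRM : T_NRM := p_NRM p_LOSS t_SYM3

theorem t_NRMG : T_NRMG := p_NRMG p_LOSS t_ROB3

theorem t_RAD2 : T_RAD2 :=
  p_RAD2 (p_RAD (p_GEN t_COV Pool.Agent.HRL.p_EN Pool.Agent.HRL.p_TR))

theorem t_MIX : T_MIX :=
  p_MIX p_LOSS t_LEV t_ROB2 (p_TAILT p_LOSS Pool.Agent.ShadowA.p_PLB) (p_LR p_LOSS)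

theorem t_WID2 : T_WID2 :=
  p_WID2 p_LOSS (p_LR p_LOSS) p_GSUB (p_GAU p_GSUB) (p_LCT Pool.Agent.ShadowA.p_PLB) t_MIX

theorem t_UNC2 : T_UNC2 :=
  p_UNC2 p_LOSS (p_HSP p_LOSS Pool.Agent.Rog.p_BMI) (p_LR p_LOSS) p_GSUB (p_GAU p_GSUB)
    (p_LCT Pool.Agent.ShadowA.p_PLB) t_MIX

theorem t_WID3 : T_WID3 :=
  p_WID3 p_LOSS (p_LR p_LOSS) p_GSUB (p_GAU p_GSUB) (p_LCT Pool.Agent.ShadowA.p_PLB) t_MIX

theorem t_BMO : T_BMO := p_BMO p_LOSS Pool.Agent.Rog.p_BMI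

theorem t_FPT : T_FPT := p_FPT p_LOSS t_BMO p_SWP (p_HLF p_LOSS Pool.Agent.ShadowA.p_PLB)

theorem t_BLK : T_BLK :=
  p_BLK p_LOSS t_BMO t_FPT (p_LR p_LOSS) p_GSUB (p_GAU p_GSUB) (p_LCT Pool.Agent.ShadowA.p_PLB)
    t_SYM3 p_NUMB

theorem t_UNC4 : T_UNC4 := p_UNC4 t_BLK

theorem t_UNC5 : T_UNC5 := p_UNC5 t_BLK (p_LSQ Pool.Agent.ShadowA.p_PLB) p_MU

theorem t_SGN : T_SGN :=
  p_SGN (Pool.Agent.HRL.p_TOPL Pool.Agent.HRL.p_EN Pool.Agent.HRL.p_TR Pool.Agent.HRL.p_PR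
    Pool.Agent.HRL.p_SE Pool.Agent.HRL.p_FL Pool.Agent.HRL.p_LN Pool.Agent.HRL.p_AV
    Pool.Agent.HRL.p_NU Pool.Agent.HRP.p_GRD)

/-- The product with the coordinates outside `F`. -/
theorem inner_mix {d : ℕ} (F : Finset (Fin d)) (θ y : E d) :
    inner ℝ θ (mix F 0 y) = ∑ j ∈ Fᶜ, θ j * y j := by
  rw [PiLp.inner_apply, ← Finset.sum_add_sum_compl F]
  have h1 : ∑ j ∈ F, inner ℝ (θ j) (mix F 0 y j) = 0 := by
    apply Finset.sum_eq_zero
    intro j hj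
    simp [mix, hj]
  have h2 : ∑ j ∈ Fᶜ, inner ℝ (θ j) (mix F 0 y j) = ∑ j ∈ Fᶜ, θ j * y j := by
    apply Finset.sum_congr rfl
    intro j hj
    rw [Finset.mem_compl] at hj
    simp [mix, hj, mul_comm]
  rw [h1, h2, zero_add]

/-- Covering by translates of the interior is affinely invariant. -/
theorem cov_image {d : ℕ} {K : Set (E d)} {N : ℝ} (L : E d ≃L[ℝ] E d) (v : E d)
    (h : Cov ((fun x => v + L x) '' K) N) : Cov K N := by
  classical
  obtain ⟨T, hT, hK⟩ := h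
  refine ⟨T.image L.symm, le_trans (by exact_mod_cast Finset.card_image_le) hT, ?_⟩
  have hhom : (fun x => v + L x) '' interior K = interior ((fun x => v + L x) '' K) := by
    have h1 := (L.toHomeomorph.trans (Homeomorph.addLeft v)).image_interior K
    exact h1
  intro x hx
  have h2 := hK (mem_image_of_mem (fun x => v + L x) hx)
  simp only [mem_iUnion] at h2
  obtain ⟨t, ht, y, hy, hxy⟩ := h2
  rw [← hhom] at hy
  obtain ⟨z, hz, hzy⟩ := hy
  simp only [mem_iUnion]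
  refine ⟨L.symm t, Finset.mem_image_of_mem _ ht, z, hz, ?_⟩
  simp only at hxy hzy ⊢
  rw [← hzy] at hxy
  apply L.injective
  rw [map_add, ContinuousLinearEquiv.apply_symm_apply]
  have h3 : v + (t + L z) = v + L x := by
    rw [← hxy]
    abel
  exact add_left_cancel h3

/-- Affine images of convex bodies. -/
theorem image_body {d : ℕ} {K : Set (E d)} (L : E d ≃L[ℝ] E d) (v : E d) (hK : Convex ℝ K)
    (hc : IsCompact K) (hi : (interior K).Nonempty) :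
    Convex ℝ ((fun x => v + L x) '' K) ∧ IsCompact ((fun x => v + L x) '' K) ∧
      (interior ((fun x => v + L x) '' K)).Nonempty := by
  refine ⟨?_, ?_, ?_⟩
  · have h1 : (fun x => v + L x) '' K = (fun x => v + x) '' ((fun x => L x) '' K) := by
      rw [image_image]
    rw [h1]
    exact (hK.linear_image (L : E d →ₗ[ℝ] E d)).translate v
  · exact hc.image (by fun_prop)
  · have h1 := (L.toHomeomorph.trans (Homeomorph.addLeft v)).image_interior K
    have h2 : (fun x => v + L x) '' interior K = interior ((fun x => v + L x) '' K) := h1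
    rw [← h2]
    exact hi.image _

end Pool.Agent.Ovl
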