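import Mathlib
import Pool.Agent.Ovl.Targets11
import Pool.Agent.Ovl.HLF
import Pool.Agent.Ovl.LOSS

/-!
# The loss for half of the part of a vector, for bodies with a retraction
-/

set_option autoImplicit false

open MeasureTheory Set Filter
open scoped Pointwise Topology

namespace Pool.Agent.Ovl

open Pool.Agent.Rog (E SymBody)

theorem p_HFQ : T_HFQ := by
  intro n F K y hK hc hP
  have hlt : volume K < ⊤ := hc.measure_lt_top
  set v : E n := (1 / 2 : ℝ) • mix F y 0 with hv
  set S : Set (E n) := {x | x ∈ K ∧ x + v ∈ K} with hS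
  have hSt : volume S ≠ ⊤ := ((measure_mono (fun x hx => hx.1)).trans_lt hlt).ne
  have hmid : ∀ x ∈ K, ∀ z ∈ K, (1 / 2 : ℝ) • (x + z) ∈ K := by
    intro x hx z hz
    have h := hK hx hz (a := 1 / 2) (b := 1 / 2) (by norm_num) (by norm_num) (by norm_num)
    rwa [← smul_add] at h
  have hSeq : volume.real S = volume.real K - loss K v := by
    rw [LOSS_.loss_eq hc]
    ring
  rw [← hSeq]
  refine HLF_.vol_le F 0 _ S hSt ?_
  rintro a ⟨ha, hya⟩
  have h0 := hP a ha
  have e1 : HLF_.D F a + 0 = (1 / 2 : ℝ) • (a + mix F 0 a) := by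
    ext i
    simp only [PiLp.add_apply, PiLp.smul_apply, PiLp.zero_apply, HLF_.D_apply, HLF_.mix_apply,
      smul_eq_mul]
    split_ifs <;> ring
  have e2 : HLF_.D F a + 0 + v = (1 / 2 : ℝ) • (a + mix F y a) := by
    ext i
    simp only [hv, PiLp.add_apply, PiLp.smul_apply, PiLp.zero_apply, HLF_.D_apply,
      HLF_.mix_apply, smul_eq_mul]
    split_ifs <;> ring
  refine ⟨?_, ?_⟩
  · rw [e1]
    exact hmid a ha _ h0
  · rw [e2]
    exact hmid a ha _ hya

end Pool.Agent.Ovl
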