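import Mathlib
import Pool.Agent.Ovl.Targets

/-!
# Linear images of convex bodies and coverings
-/

set_option autoImplicit false

open MeasureTheory Set Filter
open scoped Pointwise Topology

namespace Pool.Agent.Ovl

open Pool.Agent.Rog (E SymBody)

namespace Img_

/-- Covering by translates of the interior is affinely invariant. -/
theorem cov_image {d : ℕ} {K : Set (E d)} {N : ℝ} (L : E d ≃L[ℝ] E d) (v : E d)
    (h : Cov ((fun x => v + L x) '' K) N) : Cov K N := by
  classical
  obtain ⟨T, hT, hK⟩ := h
  refine ⟨T.image L.symm, le_trans (by exact_mod_cast Finset.card_image_le) hT, ?_⟩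
  have hhom : (fun x => v + L x) '' interior K = interior ((fun x => v + L x) '' K) := by
    have h1 := (L.toHomeomorph.trans (Homeomorph.addLeft v)).image_interior K
    exact h1
  intro x hx
  have h2 := hK (mem_image_of_mem (fun x => v + L x) hx)
  simp only [mem_iUnion] at h2
  obtain ⟨t, ht, y, hy, hxy⟩ := h2
  rw [← hhom] at hy
  obtain ⟨z, hz, hzy⟩ := hy
  simp only [mem_iUnion]
  refine ⟨L.symm t, Finset.mem_image_of_mem _ ht, z, hz, ?_⟩
  simp only at hxy hzy ⊢
  rw [← hzy] at hxy
  apply L.injective
  rw [map_add, ContinuousLinearEquiv.apply_symm_apply]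
  have h3 : v + (t + L z) = v + L x := by
    rw [← hxy]
    abel
  exact add_left_cancel h3

/-- Affine images of convex bodies. -/
theorem image_body {d : ℕ} {K : Set (E d)} (L : E d ≃L[ℝ] E d) (v : E d) (hK : Convex ℝ K)
    (hc : IsCompact K) (hi : (interior K).Nonempty) :
    Convex ℝ ((fun x => v + L x) '' K) ∧ IsCompact ((fun x => v + L x) '' K) ∧
      (interior ((fun x => v + L x) '' K)).Nonempty := by
  refine ⟨?_, ?_, ?_⟩
  · have h1 : (fun x => v + L x) '' K = (fun x => v + x) '' ((fun x => L x) '' K) := by
      rw [image_image]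
    rw [h1]
    exact (hK.linear_image (L : E d →ₗ[ℝ] E d)).translate v
  · exact hc.image (by fun_prop)
  · have h1 := (L.toHomeomorph.trans (Homeomorph.addLeft v)).image_interior K
    have h2 : (fun x => v + L x) '' interior K = interior ((fun x => v + L x) '' K) := h1
    rw [← h2]
    exact hi.image _

end Img_

end Pool.Agent.Ovl
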