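import Pool.Agent.Ovl.Targets8
import Pool.Agent.Ovl.HSP

/-!
# Second and first moments of a coordinate of an unconditional body (T_LSQ)
-/

set_option autoImplicit false

open MeasureTheory Set Filter
open scoped Pointwise Topology ENNReal

namespace Pool.Agent.Ovl

open Pool.Agent.Rog (E SymBody)

namespace LSQ_

open HSP_

variable {n : ℕ}

lemma meas_abs' {K : Set (E n)} (hK : IsCompact K) (i : Fin n) (t : ℝ) :
    MeasurableSet {x | x ∈ K ∧ t < |x i|} :=
  hK.measurableSet.inter (measurableSet_lt measurable_const (meas_coord i).abs)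

lemma vol_abs {K : Set (E n)} (hK : IsCompact K) (hu : Unc K) (i : Fin n) {t : ℝ} (ht : 0 ≤ t) :
    volume.real {x | x ∈ K ∧ t < |x i|} = 2 * volume.real {x | x ∈ K ∧ t < x i} := by
  have h1 : {x | x ∈ K ∧ t < |x i|} = {x | x ∈ K ∧ t < x i} ∪ {x | x ∈ K ∧ x i < -t} := by
    ext x
    simp only [mem_union, mem_ofPred_eq]
    constructor
    · rintro ⟨hx, h⟩
      rcases lt_abs.1 h with h | h
      · exact Or.inl ⟨hx, h⟩
      · exact Or.inr ⟨hx, by linarith⟩
    · rintro (⟨hx, h⟩ | ⟨hx, h⟩)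
      · exact ⟨hx, lt_abs.2 (Or.inl h)⟩
      · exact ⟨hx, lt_abs.2 (Or.inr (by linarith))⟩
  have d1 : Disjoint {x | x ∈ K ∧ t < x i} {x | x ∈ K ∧ x i < -t} := by
    rw [Set.disjoint_left]
    rintro x ⟨_, h⟩ ⟨_, h'⟩
    linarith
  rw [h1, measureReal_union d1 (meas_lt hK i (-t)) (fin_of hK fun x hx => hx.1)
    (fin_of hK fun x hx => hx.1), neg_side hK hu i t]
  ring

/-- doubling -/
lemma dbl {K : Set (E n)} (hc : Convex ℝ K) (hK : IsCompact K) (hu : Unc K) (i : Fin n) {t : ℝ}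
    (ht : 0 ≤ t) :
    volume.real {x | x ∈ K ∧ 2 * t < |x i|} * volume.real K ≤
      volume.real {x | x ∈ K ∧ t < |x i|} ^ 2 := by
  rw [vol_abs hK hu i ht, vol_abs hK hu i (by linarith : 0 ≤ 2 * t), half hK hu i]
  have := mid hc hK i (2 * t) 0
  rw [show (2 * t + 0) / 2 = t by ring] at this
  nlinarith

/-- Markov's inequality -/
lemma mark {K : Set (E n)} (hK : IsCompact K) (i : Fin n) {t : ℝ} (_ht : 0 ≤ t) :
    t * volume.real {x | x ∈ K ∧ t < |x i|} ≤ ∫ y in K, |y i| := by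
  have hsub : {x | x ∈ K ∧ t < |x i|} ⊆ K := fun x hx => hx.1
  calc t * volume.real {x | x ∈ K ∧ t < |x i|} = ∫ _y in {x | x ∈ K ∧ t < |x i|}, t := by
        rw [setIntegral_const, smul_eq_mul, mul_comm]
    _ ≤ ∫ y in {x | x ∈ K ∧ t < |x i|}, |y i| := by
        refine setIntegral_mono_on ?_ ((abs_int hK i).mono_set hsub) (meas_abs' hK i t)
          fun y hy => hy.2.le
        exact integrableOn_const (fin_of hK hsub)
    _ ≤ ∫ y in K, |y i| :=
        setIntegral_mono_set (abs_int hK i) (ae_of_all _ fun y => abs_nonneg _)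
          hsub.eventuallyLE

/-- pointwise bound -/
lemma pw {m : ℝ} (hm : 0 < m) (J : ℕ) (a : ℝ) (h0 : 0 ≤ a) (ha : a ≤ 2 ^ (J + 1) * m) :
    a ^ 2 ≤ 4 * m ^ 2 + ∑ j ∈ Finset.range J,
      4 ^ (j + 2) * m ^ 2 * (if 2 ^ (j + 1) * m < a then (1 : ℝ) else 0) := by
  induction J with
  | zero =>
    simp only [zero_add, pow_one] at ha
    simp only [Finset.range_zero, Finset.sum_empty, add_zero]
    nlinarith
  | succ J ih =>
    rw [Finset.sum_range_succ]
    rcases le_or_gt a (2 ^ (J + 1) * m) with h | h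
    · have := ih h
      have h2 : 0 ≤ 4 ^ (J + 2) * m ^ 2 * (if 2 ^ (J + 1) * m < a then (1 : ℝ) else 0) := by
        split_ifs <;> positivity
      linarith
    · rw [if_pos h, mul_one]
      have h2 : a ^ 2 ≤ (2 ^ (J + 1 + 1) * m) ^ 2 := by gcongr
      have h3 : ((2 : ℝ) ^ (J + 1 + 1) * m) ^ 2 = 4 ^ (J + 2) * m ^ 2 := by
        rw [mul_pow, ← pow_mul, mul_comm (J + 1 + 1) 2, pow_mul]
        norm_num
      have h4 : 0 ≤ ∑ j ∈ Finset.range J,
          4 ^ (j + 2) * m ^ 2 * (if 2 ^ (j + 1) * m < a then (1 : ℝ) else 0) :=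
        Finset.sum_nonneg fun j _ => by split_ifs <;> positivity
      have h5 : 0 ≤ 4 * m ^ 2 := by positivity
      linarith

lemma num (k : ℕ) : 3 * k + 20 ≤ 2 ^ (5 + k) := by
  induction k with
  | zero => norm_num
  | succ k ih =>
    rw [show 5 + (k + 1) = (5 + k) + 1 by ring, pow_succ]
    omega

lemma sum5 (k : ℕ) : ∑ j ∈ Finset.range (5 + k), (4 : ℝ) ^ (j + 2) * (1 / 2) ^ (2 ^ j) ≤
    45 - (1 / 2) ^ (5 + k) := by
  induction k with
  | zero =>
    simp only [add_zero, Finset.sum_range_succ, Finset.range_zero, Finset.sum_empty]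
    norm_num
  | succ k ih =>
    rw [show 5 + (k + 1) = (5 + k) + 1 by ring, Finset.sum_range_succ]
    have h : (4 : ℝ) ^ (5 + k + 2) * (1 / 2) ^ (2 ^ (5 + k)) ≤ (1 / 2) ^ (5 + k + 1) := by
      have h1 : ((1 : ℝ) / 2) ^ (2 ^ (5 + k)) ≤ (1 / 2) ^ (3 * k + 20) :=
        pow_le_pow_of_le_one (by norm_num) (by norm_num) (num k)
      calc (4 : ℝ) ^ (5 + k + 2) * (1 / 2) ^ (2 ^ (5 + k)) ≤
          4 ^ (5 + k + 2) * (1 / 2) ^ (3 * k + 20) := by gcongr
        _ = (1 / 2) ^ (5 + k + 1) := by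
          rw [show (4 : ℝ) = 2 ^ 2 by norm_num, ← pow_mul,
            show 3 * k + 20 = 2 * (5 + k + 2) + (5 + k + 1) by ring, pow_add, ← mul_assoc,
            ← mul_pow]
          norm_num
    have h2 : ((1 : ℝ) / 2) ^ (5 + k + 1) = (1 / 2) ^ (5 + k) / 2 := by
      rw [pow_succ]
      ring
    linarith

lemma sumb (J : ℕ) : ∑ j ∈ Finset.range J, (4 : ℝ) ^ (j + 2) * (1 / 2) ^ (2 ^ j) ≤ 45 := by
  have h1 : ∑ j ∈ Finset.range J, (4 : ℝ) ^ (j + 2) * (1 / 2) ^ (2 ^ j) ≤
      ∑ j ∈ Finset.range (5 + J), (4 : ℝ) ^ (j + 2) * (1 / 2) ^ (2 ^ j) :=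
    Finset.sum_le_sum_of_subset_of_nonneg (Finset.range_mono (by omega)) fun j _ _ => by
      positivity
  have h2 : (0 : ℝ) ≤ (1 / 2) ^ (5 + J) := by positivity
  linarith [sum5 J]

lemma sq_int {K : Set (E n)} (hK : IsCompact K) (i : Fin n) :
    IntegrableOn (fun y : E n => (y i) ^ 2) K volume := by
  apply ContinuousOn.integrableOn_compact hK
  fun_prop

lemma ind_int {K : Set (E n)} (hK : IsCompact K) (i : Fin n) (t : ℝ) :
    IntegrableOn (fun y : E n => if t < |y i| then (1 : ℝ) else 0) K volume ∧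
      ∫ y in K, (if t < |y i| then (1 : ℝ) else 0) = volume.real {x | x ∈ K ∧ t < |x i|} := by
  have hS : MeasurableSet {y : E n | t < |y i|} :=
    measurableSet_lt measurable_const (meas_coord i).abs
  have e : (fun y : E n => if t < |y i| then (1 : ℝ) else 0) =
      Set.indicator {y : E n | t < |y i|} (fun _ => (1 : ℝ)) := by
    funext y
    simp only [Set.indicator_apply, mem_ofPred_eq]
  have hfin : IntegrableOn (fun _ : E n => (1 : ℝ)) K volume :=
    integrableOn_const hK.measure_lt_top.ne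
  refine ⟨?_, ?_⟩
  · rw [e]
    exact hfin.indicator hS
  · rw [e, setIntegral_indicator hS, setIntegral_const, smul_eq_mul, mul_one]
    rfl

end LSQ_

open LSQ_ HSP_ in
theorem p_LSQ (_hP : Pool.Agent.ShadowA.T_PLB) : T_LSQ := by
  intro n K i hc hK hu
  set V := volume.real K with hV
  set I := ∫ y in K, |y i| with hI
  have hV0 : 0 ≤ V := measureReal_nonneg
  have hI0 : 0 ≤ I := integral_nonneg fun y => abs_nonneg _
  obtain ⟨M, hM⟩ : ∃ M : ℝ, ∀ y ∈ K, |y i| ≤ M := by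
    obtain ⟨M, hM⟩ := (hK.image (f := fun y : E n => |y i|) (by fun_prop)).bddAbove
    exact ⟨M, fun y hy => hM ⟨y, hy, rfl⟩⟩
  rcases hV0.eq_or_lt with h | hVp
  · rw [← h, mul_zero]
    positivity
  rcases hI0.eq_or_lt with h | hIp
  · have h1 : ∫ y in K, (y i) ^ 2 ≤ ∫ y in K, M * |y i| := by
      refine setIntegral_mono_on (sq_int hK i) ((abs_int hK i).const_mul M) hK.measurableSet
        fun y hy => ?_
      rw [← sq_abs, sq]
      exact mul_le_mul_of_nonneg_right (hM y hy) (abs_nonneg _)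
    rw [integral_const_mul, ← hI, ← h, mul_zero] at h1
    rw [← h]
    nlinarith
  set m := I / V with hm
  have hmp : 0 < m := div_pos hIp hVp
  have hIm : I = m * V := by
    rw [hm]
    field_simp
  obtain ⟨J, hJ⟩ : ∃ J : ℕ, M ≤ 2 ^ (J + 1) * m := by
    obtain ⟨J, hJ⟩ := pow_unbounded_of_one_lt (M / m) (by norm_num : (1 : ℝ) < 2)
    refine ⟨J, ?_⟩
    rw [div_lt_iff₀ hmp] at hJ
    have : (2 : ℝ) ^ J * m ≤ 2 ^ (J + 1) * m := by
      gcongr
      · norm_num
      · omega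
    linarith
  have hg : ∀ j : ℕ, volume.real {x | x ∈ K ∧ 2 ^ (j + 1) * m < |x i|} ≤
      V * (1 / 2) ^ (2 ^ j) := by
    intro j
    induction j with
    | zero =>
      have h1 := mark hK i (t := 2 ^ (0 + 1) * m) (by positivity)
      rw [← hI, hIm] at h1
      simp only [zero_add, pow_one, pow_zero] at h1 ⊢
      have h2 : m * (2 * volume.real {x | x ∈ K ∧ 2 * m < |x i|}) ≤ m * V := by linarith
      have h3 := le_of_mul_le_mul_left h2 hmp
      linarith
    | succ j ih =>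
      have h1 := dbl hc hK hu i (t := 2 ^ (j + 1) * m) (by positivity)
      rw [show 2 * ((2 : ℝ) ^ (j + 1) * m) = 2 ^ (j + 1 + 1) * m by ring, ← hV] at h1
      have h2 : volume.real {x | x ∈ K ∧ 2 ^ (j + 1) * m < |x i|} ^ 2 ≤
          (V * (1 / 2) ^ (2 ^ j)) ^ 2 := by
        have : 0 ≤ volume.real {x | x ∈ K ∧ 2 ^ (j + 1) * m < |x i|} := measureReal_nonneg
        gcongr
      have h3 : (V * (1 / 2) ^ (2 ^ j)) ^ 2 = (V * (1 / 2) ^ (2 ^ (j + 1))) * V := by
        rw [pow_succ 2 j, pow_mul]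
        ring
      rw [h3] at h2
      exact le_of_mul_le_mul_right (h1.trans h2) hVp
  have hmain : ∫ y in K, (y i) ^ 2 ≤ 49 * m ^ 2 * V := by
    have hint : ∀ j : ℕ, IntegrableOn (fun y : E n => 4 ^ (j + 2) * m ^ 2 *
        (if 2 ^ (j + 1) * m < |y i| then (1 : ℝ) else 0)) K volume :=
      fun j => (ind_int hK i _).1.const_mul _
    have h1 : ∫ y in K, (y i) ^ 2 ≤ ∫ y in K, (4 * m ^ 2 + ∑ j ∈ Finset.range J,
        4 ^ (j + 2) * m ^ 2 * (if 2 ^ (j + 1) * m < |y i| then (1 : ℝ) else 0)) := by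
      refine setIntegral_mono_on (sq_int hK i) ?_ hK.measurableSet fun y hy => ?_
      · exact (integrableOn_const hK.measure_lt_top.ne).add
          (integrable_finsetSum _ fun j _ => hint j)
      · rw [← sq_abs]
        exact pw hmp J _ (abs_nonneg _) ((hM y hy).trans hJ)
    have hconst : IntegrableOn (fun _ : E n => 4 * m ^ 2) K volume :=
      integrableOn_const hK.measure_lt_top.ne
    rw [integral_add hconst
      (integrable_finsetSum _ fun j _ => hint j), setIntegral_const, smul_eq_mul,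
      integral_finsetSum _ fun j _ => hint j] at h1
    have h2 : ∑ j ∈ Finset.range J, ∫ y in K, 4 ^ (j + 2) * m ^ 2 *
        (if 2 ^ (j + 1) * m < |y i| then (1 : ℝ) else 0) ≤
        m ^ 2 * V * ∑ j ∈ Finset.range J, (4 : ℝ) ^ (j + 2) * (1 / 2) ^ (2 ^ j) := by
      rw [Finset.mul_sum]
      refine Finset.sum_le_sum fun j _ => ?_
      rw [integral_const_mul, (ind_int hK i _).2]
      have := mul_le_mul_of_nonneg_left (hg j) (by positivity : (0 : ℝ) ≤ 4 ^ (j + 2) * m ^ 2)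
      linarith
    have h3 : m ^ 2 * V * ∑ j ∈ Finset.range J, (4 : ℝ) ^ (j + 2) * (1 / 2) ^ (2 ^ j) ≤
        m ^ 2 * V * 45 := by
      have := sumb J
      have h4 : 0 ≤ m ^ 2 * V := by positivity
      exact mul_le_mul_of_nonneg_left this h4
    rw [← hV] at h1
    linarith
  calc (∫ y in K, (y i) ^ 2) * V ≤ 49 * m ^ 2 * V * V := by gcongr
    _ = 49 * I ^ 2 := by
      rw [hIm]
      ring

end Pool.Agent.Ovl
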