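import Pool.Agent.Ovl.Targets

/-!
# OVL-MAS: the covering theorem, average form
-/

set_option autoImplicit false

open MeasureTheory Set Filter
open scoped Pointwise Topology

namespace Pool.Agent.Ovl

open Pool.Agent.Rog (E SymBody)

namespace MAS_

/-- Multiples of a vector. -/
lemma loss_nsmul {n : ℕ} {K : Set (E n)}
    (hadd : ∀ u v, loss K (u + v) ≤ loss K u + loss K v)
    (v : E n) (m : ℕ) (hm : 1 ≤ m) : loss K ((m : ℝ) • v) ≤ m * loss K v := by
  induction m with
  | zero => omega
  | succ m ih =>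
    rcases Nat.eq_zero_or_pos m with h | h
    · subst h
      simp
    · have h1 : ((m + 1 : ℕ) : ℝ) • v = (m : ℝ) • v + v := by
        push_cast
        rw [add_smul, one_smul]
      rw [h1]
      push_cast
      have h2 := hadd ((m : ℝ) • v) v
      have h3 := ih h
      linarith

lemma log_three : (12 : ℝ) / 11 ≤ Real.log 3 := by
  have h1 : Real.exp 12 ≤ 3 ^ 11 := by
    have h2 : Real.exp 12 = Real.exp 1 ^ 12 := by
      rw [← Real.exp_nat_mul]
      norm_num
    rw [h2]
    have h3 := Real.exp_one_lt_d9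
    have h4 : Real.exp 1 ^ 12 ≤ 2.7182818286 ^ 12 :=
      pow_le_pow_left₀ (Real.exp_pos 1).le h3.le 12
    refine h4.trans ?_
    norm_num
  have h5 : (12 : ℝ) ≤ Real.log (3 ^ 11) := by
    rw [Real.le_log_iff_exp_le (by positivity)]
    exact h1
  rw [Real.log_pow] at h5
  push_cast at h5
  linarith

lemma log_sixteen : (1 : ℝ) ≤ 3 * Real.log 16 := by
  have h : (1 : ℝ) ≤ Real.log 16 := by
    rw [Real.le_log_iff_exp_le (by norm_num)]
    have := Real.exp_one_lt_d9
    linarith
  linarith

/-- The exponent. -/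
lemma exists_j (M : ℝ) (hM : 3 < M) : ∃ j : ℕ, M ≤ 3 ^ (2 ^ j) ∧
    ((2 : ℝ) ^ (j + 1) - 1) * Real.log 3 ≤ 4 * Real.log M := by
  have hex : ∃ j : ℕ, M ≤ 3 ^ (2 ^ j) := by
    obtain ⟨m, hm⟩ := pow_unbounded_of_one_lt M (by norm_num : (1 : ℝ) < 3)
    refine ⟨m, hm.le.trans ?_⟩
    exact pow_le_pow_right₀ (by norm_num) (Nat.lt_two_pow_self).le
  classical
  refine ⟨Nat.find hex, Nat.find_spec hex, ?_⟩
  set j := Nat.find hex with hj
  have hj1 : j ≠ 0 := by
    intro h
    have h1 := Nat.find_spec hex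
    rw [← hj, h] at h1
    norm_num at h1
    linarith
  obtain ⟨i, hi⟩ := Nat.exists_eq_succ_of_ne_zero hj1
  have hlt : ¬ (M ≤ 3 ^ (2 ^ i)) := Nat.find_min hex (by rw [← hj, hi]; exact Nat.lt_succ_self i)
  rw [not_le] at hlt
  have h2 : ((2 : ℝ) ^ i) * Real.log 3 ≤ Real.log M := by
    have h3 := Real.log_le_log (by positivity) hlt.le
    rw [Real.log_pow] at h3
    push_cast at h3
    exact h3
  have h4 : (2 : ℝ) ^ (j + 1) = 4 * 2 ^ i := by
    rw [hi, Nat.succ_eq_add_one, pow_add, pow_add]
    ring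
  have h5 : 0 < Real.log 3 := Real.log_pos (by norm_num)
  rw [h4]
  nlinarith

end MAS_

open MAS_

theorem p_MAS (hL : T_LOSS) (hR : T_ROB) (hT : T_TAIL) : T_MAS := by
  intro d Θ K hd hΘ hΘd hK hKc hKi hesc
  obtain ⟨h0, -, hadd, -, hmeas, -, hint⟩ := hL d K hK hKc
  set V := volume.real K with hV
  have hVpos : 0 < V := by
    rw [hV, measureReal_def]
    exact ENNReal.toReal_pos
      (ne_of_gt (lt_of_lt_of_le (isOpen_interior.measure_pos volume hKi)
        (measure_mono interior_subset))) hKc.measure_lt_top.ne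
  have hd0 : (0 : ℝ) < d := by
    have : (2 : ℝ) ≤ d := by exact_mod_cast hd
    linarith
  set L := Real.log (256 * Θ) with hLdef
  have h16 : Real.log (256 * Θ) = Real.log 16 + Real.log (16 * Θ) := by
    rw [← Real.log_mul (by norm_num) (by positivity)]
    congr 1
    ring
  have hlog16 := log_sixteen
  have hl16Θ : 0 ≤ Real.log (16 * Θ) := Real.log_nonneg (by linarith)
  have hLpos : 0 < L := by
    rw [hLdef, h16]
    linarith
  set c : ℝ := 1 / (d : ℝ) with hc
  set s : ℝ := 4 * (1 / (528 * L ^ 2)) * V with hsdef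
  have hspos : 0 < s := by positivity
  -- Markov
  have hfin : volume K ≠ ⊤ := hKc.measure_lt_top.ne
  have hmeasc : Measurable (fun y : E d => loss K (c • y)) :=
    hmeas.comp (measurable_const_smul c)
  have hintg : IntegrableOn (fun y => loss K (c • y)) K volume := by
    refine Measure.integrableOn_of_bounded (M := V) hfin hmeasc.aestronglyMeasurable ?_
    refine Eventually.of_forall (fun y => ?_)
    rw [Real.norm_eq_abs, abs_of_nonneg (h0 _).1]
    exact (h0 _).2
  have hint1 : ∫ y in K, loss K (c • y) = volume.real (esc K c) := (hint c).2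
  have hmarkov : s * volume.real {y | y ∈ K ∧ s < loss K (c • y)} ≤
      ∫ y in K, loss K (c • y) := by
    have h1 := mul_meas_ge_le_integral_of_nonneg (μ := volume.restrict K)
      (f := fun y => loss K (c • y)) (Eventually.of_forall (fun y => (h0 _).1)) hintg s
    refine le_trans ?_ h1
    refine mul_le_mul_of_nonneg_left ?_ hspos.le
    rw [measureReal_def, measureReal_def, Measure.restrict_apply
      (measurableSet_le measurable_const hmeasc)]
    refine ENNReal.toReal_mono ?_ ?_
    · exact ((measure_mono inter_subset_right).trans_lt hKc.measure_lt_top).ne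
    · exact measure_mono (fun y hy => ⟨hy.2.le, hy.1⟩)
  have hM4 : volume.real {y | y ∈ K ∧ s < loss K (c • y)} * 4 ≤ V := by
    rw [hint1] at hmarkov
    have h1 : s * volume.real {y | y ∈ K ∧ s < loss K (c • y)} ≤ V ^ 2 / (528 * L ^ 2) := by
      refine hmarkov.trans ?_
      rw [le_div_iff₀ (by positivity)]
      calc volume.real (esc K c) * (528 * L ^ 2) = 528 * L ^ 2 * volume.real (esc K c) := by ring
        _ ≤ V ^ 2 := hesc
    have h2 : V ^ 2 / (528 * L ^ 2) = s * (V / 4) := by
      rw [hsdef]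
      field_simp
    rw [h2] at h1
    have h3 := le_of_mul_le_mul_left h1 hspos
    linarith
  obtain ⟨j, hj1, hj2⟩ := exists_j (256 * Θ) (by linarith)
  have htail := hT d K c s j hK hKc hspos.le hM4
  set τ : ℝ := 2 ^ (j + 1) - 1 with hτ
  have hτ0 : 0 ≤ τ := by
    have : (1 : ℝ) ≤ 2 ^ (j + 1) := one_le_pow₀ (by norm_num)
    rw [hτ]
    linarith
  set k := ⌈3 * Real.log (16 * Θ)⌉₊ with hk
  have hk1 : 1 ≤ k := by
    rw [hk, Nat.one_le_ceil_iff]
    have : 0 < Real.log (16 * Θ) := Real.log_pos (by linarith)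
    linarith
  have hk2 : 3 * Real.log (16 * Θ) ≤ k := Nat.le_ceil _
  have hk3 : (k : ℝ) ≤ 3 * L := by
    have h1 := Nat.ceil_lt_add_one (by linarith : 0 ≤ 3 * Real.log (16 * Θ))
    rw [← hk] at h1
    rw [hLdef, h16]
    linarith
  have hkd : (k : ℝ) ≤ d := hk3.trans hΘd
  refine hR d Θ (k / d) K hd hΘ (by positivity) ?_ ?_ hK hKc hKi ?_
  · rw [div_le_one hd0]
    exact hkd
  · rw [div_mul_cancel₀ _ hd0.ne']
    exact hk2
  · have hsub : {y | y ∈ K ∧ V < 12 * loss K (((k : ℝ) / d) • y)} ⊆
        {y | y ∈ K ∧ τ * s < loss K (c • y)} := by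
      rintro y ⟨hy, hy2⟩
      refine ⟨hy, ?_⟩
      by_contra hcon
      rw [not_lt] at hcon
      have h1 : ((k : ℝ) / d) • y = (k : ℝ) • (c • y) := by
        rw [smul_smul, hc]
        congr 1
        ring
      rw [h1] at hy2
      have h2 := loss_nsmul hadd (c • y) k hk1
      have h3 : (k : ℝ) * loss K (c • y) ≤ (3 * L) * (τ * s) :=
        mul_le_mul hk3 hcon (h0 _).1 (by positivity)
      have h4 : 12 * ((3 * L) * (τ * s)) ≤ V := by
        have h5 : τ ≤ 11 / 3 * L := by
          have h6 := log_three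
          nlinarith
        have h7 : 12 * ((3 * L) * (τ * s)) = τ * (3 / (11 * L)) * V := by
          rw [hsdef]
          field_simp
          ring
        rw [h7]
        have h8 : τ * (3 / (11 * L)) ≤ 1 := by
          rw [mul_div_assoc', div_le_one (by positivity)]
          linarith
        nlinarith
      linarith
    have h1 : volume.real {y | y ∈ K ∧ V < 12 * loss K (((k : ℝ) / d) • y)} ≤
        volume.real {y | y ∈ K ∧ τ * s < loss K (c • y)} := by
      rw [measureReal_def, measureReal_def]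
      refine ENNReal.toReal_mono ?_ (measure_mono hsub)
      exact ((measure_mono (fun y hy => hy.1)).trans_lt hKc.measure_lt_top).ne
    calc volume.real {y | y ∈ K ∧ V < 12 * loss K (((k : ℝ) / d) • y)} * (256 * Θ)
        ≤ volume.real {y | y ∈ K ∧ τ * s < loss K (c • y)} * 3 ^ (2 ^ j) :=
          mul_le_mul h1 hj1 (by positivity) measureReal_nonneg
      _ ≤ V := htail

end Pool.Agent.Ovl
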