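import Mathlib
import Pool.Agent.Ovl.Targets11
import Pool.Agent.Ovl.BLK
import Pool.Agent.Ovl.Img

/-!
# From coordinate projections to linear projections
-/

set_option autoImplicit false

open MeasureTheory Set Filter
open scoped Pointwise Topology

namespace Pool.Agent.Ovl

open Pool.Agent.Rog (E SymBody)

namespace PRJ_

/-- A linear projection is a coordinate projection in suitable coordinates. -/
theorem coords {d : ℕ} (P : E d →ₗ[ℝ] E d) (hP : ∀ x, P (P x) = P x) :
    ∃ (A : E d ≃L[ℝ] E d) (F : Finset (Fin d)),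
      F.card = Module.finrank ℝ (LinearMap.ker P) ∧ ∀ x, A (P x) = mix F 0 (A x) := by
  have hid : IsIdempotentElem P := by
    ext x
    simp [hP]
  have hc : IsCompl (LinearMap.ker P) (LinearMap.range P) :=
    (LinearMap.IsIdempotentElem.isCompl hid).symm
  let bk := Module.finBasis ℝ (LinearMap.ker P)
  let br := Module.finBasis ℝ (LinearMap.range P)
  let B := (bk.prod br).map (Submodule.prodEquivOfIsCompl _ _ hc)
  have hcard : Fintype.card (Fin (Module.finrank ℝ (LinearMap.ker P)) ⊕
      Fin (Module.finrank ℝ (LinearMap.range P))) = Fintype.card (Fin d) := by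
    rw [← Module.finrank_eq_card_basis B]
    simp
  let σ := Fintype.equivOfCardEq hcard
  let B' := B.reindex σ
  let A := (B'.equivFun.trans (WithLp.linearEquiv 2 ℝ (Fin d → ℝ)).symm).toContinuousLinearEquiv
  let F : Finset (Fin d) := Finset.univ.map (Function.Embedding.inl.trans σ.toEmbedding)
  refine ⟨A, F, ?_, ?_⟩
  · rw [Finset.card_map, Finset.card_univ, Fintype.card_fin]
  · have hA : ∀ x i, (A : E d →ₗ[ℝ] E d) x i = B'.repr x i := fun x i => rfl
    have hlin : (A : E d →ₗ[ℝ] E d) ∘ₗ P = (BLK_.tF F : E d →ₗ[ℝ] E d) ∘ₗ (A : E d →ₗ[ℝ] E d) := by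
      refine B'.ext fun j => ?_
      obtain ⟨a, rfl⟩ := σ.surjective j
      have hBj : B' (σ a) = B a := by
        simp [B']
      have hP2 : P (B a) = Sum.elim (fun _ => 0) (fun b => B (Sum.inr b)) a := by
        rcases a with a | b
        · have h1 : B (Sum.inl a) = (bk a : E d) := by
            simp [B]
          rw [h1]
          exact LinearMap.mem_ker.mp (bk a).2
        · have h1 : B (Sum.inr b) = (br b : E d) := by
            simp [B]
          obtain ⟨z, hz⟩ := (br b).2
          simp only [Sum.elim_inr]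
          rw [h1, ← hz, hP]
      ext i
      simp only [LinearMap.comp_apply, ContinuousLinearMap.coe_coe, BLK_.tF_apply]
      rw [hBj, hP2]
      rcases a with a | b
      · have hmem : σ (Sum.inl a) ∈ F := by
          simp [F]
        simp only [Sum.elim_inl, map_zero, PiLp.zero_apply, mix]
        split_ifs with hi
        · rfl
        · rw [hA, ← hBj, B'.repr_self, Finsupp.single_apply, if_neg]
          intro h
          exact hi (h ▸ hmem)
      · simp only [Sum.elim_inr, mix, PiLp.zero_apply]
        split_ifs with hi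
        · rw [hA, ← hBj, B'.repr_self, Finsupp.single_apply, if_neg]
          intro h
          rw [← h] at hi
          simp [F] at hi
        · rfl
    intro x
    exact LinearMap.congr_fun hlin x

end PRJ_

/-- Convex bodies with a linear projection of small corank into themselves. -/
theorem projections (hB : T_BLQ) (d : ℕ) (hd : 10 ^ 4 ≤ d) (K : Set (E d)) (hK : Convex ℝ K)
    (hc : IsCompact K) (h0 : (0 : E d) ∈ interior K) (P : E d →ₗ[ℝ] E d)
    (hP : ∀ x, P (P x) = P x) (hPK : ∀ x ∈ K, P x ∈ K)
    (hr : 600 * Module.finrank ℝ (LinearMap.ker P) ≤ d)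
    (hw : ∀ θ : E d, ∃ k ∈ K, 0 ≤ inner ℝ θ k ∧
      (2500 * Real.log d) ^ 2 * ∫ y in K, (inner ℝ θ (P y)) ^ 2 ≤
        volume.real K * (inner ℝ θ k) ^ 2) : Cov K (2 ^ d) := by
  obtain ⟨A, F, hF, hAP⟩ := PRJ_.coords P hP
  refine Img_.cov_image A 0 ?_
  obtain ⟨hK', hc', -⟩ := Img_.image_body A 0 hK hc ⟨0, h0⟩
  have himg : (fun x => (0 : E d) + A x) '' K = A '' K := by
    simp
  rw [himg] at hK' hc' ⊢
  have h0' : (0 : E d) ∈ interior (A '' K) := by
    have h1 := A.toHomeomorph.image_interior K
    have h2 : A '' interior K = interior (A '' K) := h1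
    rw [← h2]
    exact ⟨0, h0, map_zero A⟩
  refine hB d F (A '' K) hd (by rw [hF]; exact hr) hK' hc' h0' ?_ ?_
  · rintro _ ⟨x, hx, rfl⟩
    rw [← hAP]
    exact mem_image_of_mem _ (hPK x hx)
  · intro θ
    obtain ⟨k, hk, hk0, hk1⟩ := hw (ContinuousLinearMap.adjoint (A : E d →L[ℝ] E d) θ)
    have hadj : ∀ x : E d, inner ℝ (ContinuousLinearMap.adjoint (A : E d →L[ℝ] E d) θ) x =
        inner ℝ θ (A x) := by
      intro x
      rw [ContinuousLinearMap.adjoint_inner_left]
      rfl
    rw [hadj] at hk0 hk1
    refine ⟨A k, mem_image_of_mem _ hk, hk0, ?_⟩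
    set D : ℝ := |LinearMap.det ((A : E d →L[ℝ] E d) : E d →ₗ[ℝ] E d)| with hD
    have hvol : volume.real (A '' K) = D * volume.real K := by
      have h1 := Measure.addHaar_image_continuousLinearMap volume (A : E d →L[ℝ] E d) K
      have h2 : volume (A '' K) = ENNReal.ofReal D * volume K := h1
      rw [Measure.real, h2, ENNReal.toReal_mul, ENNReal.toReal_ofReal (abs_nonneg _)]
      rfl
    have hint : ∫ y in A '' K, (inner ℝ θ (mix F 0 y)) ^ 2 =
        D * ∫ y in K, (inner ℝ (ContinuousLinearMap.adjoint (A : E d →L[ℝ] E d) θ) (P y)) ^ 2 := by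
      have h1 := integral_image_eq_integral_abs_det_fderiv_smul volume hc.measurableSet
        (f := A) (f' := fun _ => (A : E d →L[ℝ] E d))
        (fun x _ => (A : E d →L[ℝ] E d).hasFDerivAt.hasFDerivWithinAt) A.injective.injOn
        (fun y => (inner ℝ θ (mix F 0 y)) ^ 2)
      rw [h1, ← integral_const_mul]
      refine integral_congr_ae (ae_of_all _ fun y => ?_)
      simp only [smul_eq_mul]
      rw [hadj, hAP]
    rw [hint, hvol]
    have hD0 : 0 ≤ D := abs_nonneg _
    have h3 := mul_le_mul_of_nonneg_left hk1 hD0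
    refine le_trans (le_of_eq ?_) (h3.trans (le_of_eq ?_))
    · ring
    · ring

end Pool.Agent.Ovl
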