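import Mathlib
import Pool.Agent.Ovl.Targets11
import Pool.Agent.Ovl.SWP

/-!
# Exchange of coordinates between two random points of a convex body with a retraction
-/

set_option autoImplicit false

open MeasureTheory Set Filter
open scoped Pointwise Topology ENNReal

namespace Pool.Agent.Ovl

open Pool.Agent.Rog (E SymBody)

open SWP_ in
theorem p_SWQ : T_SWQ := by
  intro n F K δ l hKc hKk hmix hδ hl hl1
  set V := volume.real K with hVd
  rcases eq_or_lt_of_le (measureReal_nonneg : 0 ≤ volume.real K) with h0 | hpos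
  · have : {y | y ∈ K ∧ volume.real {x | x ∈ K ∧ mix F y x ∈ K} <
        1 / 2 * δ ^ 2 * (l ^ F.card * (1 - l) ^ (n - F.card)) * V} = ∅ := by
      ext y
      simp only [mem_ofPred_eq, mem_empty_iff_false, iff_false, not_and, not_lt]
      intro _
      rw [hVd, ← h0, mul_zero]
      exact measureReal_nonneg
    rw [this, measureReal_empty]
    positivity
  have hKf : volume K ≠ ⊤ := hKk.measure_ne_top
  set K' := (spl F).symm ⁻¹' K with hK'
  have hKm : MeasurableSet K := hKk.measurableSet
  have hK'm : MeasurableSet K' := (spl F).symm.measurable hKm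
  have hpre : spl F ⁻¹' K' = K := by
    ext x
    simp [hK']
  have hvK : (volume.prod volume) K' = volume K := by
    rw [← vol_eq, hpre]
  set S0 : Set ({i // i ∈ F} → ℝ) := Prod.fst '' K' with hS0
  set T0 : Set ({i // ¬ i ∈ F} → ℝ) := {w | (0, w) ∈ K'} with hT0
  have hT0m : MeasurableSet T0 := (measurable_const.prodMk measurable_id) hK'm
  have hcont : Continuous (spl F) := by
    have h : (spl F : E n → _) =
      fun x => (fun i : {i // i ∈ F} => x i, fun i : {i // ¬ i ∈ F} => x i) := rfl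
    rw [h]
    fun_prop
  have hS0e : S0 = (fun x => (spl F x).1) '' K := by
    ext u
    constructor
    · rintro ⟨p, hp, rfl⟩
      exact ⟨(spl F).symm p, hp, by simp⟩
    · rintro ⟨x, hx, rfl⟩
      exact ⟨spl F x, by rw [hK', mem_preimage, MeasurableEquiv.symm_apply_apply]; exact hx, rfl⟩
  have hS0c : IsCompact S0 := by
    rw [hS0e]
    exact hKk.image (continuous_fst.comp hcont)
  have hS0m : MeasurableSet S0 := hS0c.measurableSet
  have hS0f : volume S0 ≠ ⊤ := hS0c.measure_ne_top
  have hT0f : volume T0 ≠ ⊤ := by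
    have hc : IsCompact ((fun x => (spl F x).2) '' K) :=
      hKk.image (continuous_snd.comp hcont)
    refine ne_top_of_le_ne_top hc.measure_ne_top (measure_mono ?_)
    intro u hu
    refine ⟨(spl F).symm (0, u), hu, ?_⟩
    simp
  have h1 : ∀ p ∈ K', p.1 ∈ S0 ∧ p.2 ∈ T0 := by
    intro p hp
    have hp' : (spl F).symm p ∈ K := hp
    have hb := hmix _ hp'
    rw [mem_symm, MeasurableEquiv.apply_symm_apply] at hb
    exact ⟨⟨p, hp, rfl⟩, hb⟩
  -- the lower bound for the volume
  have hc : ENNReal.ofReal (l ^ F.card * (1 - l) ^ (n - F.card)) * (volume S0 * volume T0) ≤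
      (volume.prod volume) K' := by
    have h1l : 0 < 1 - l := by linarith
    have hfib : ∀ u ∈ l • S0, ENNReal.ofReal ((1 - l) ^ (n - F.card)) * volume T0 ≤
        volume (Prod.mk u ⁻¹' K') := by
      rintro _ ⟨u0, ⟨⟨u1, w1⟩, hp, hp1⟩, rfl⟩
      simp only at hp1
      subst hp1
      have hT : volume ((fun w => l • w1 + w) '' ((1 - l) • T0)) =
          ENNReal.ofReal ((1 - l) ^ (n - F.card)) * volume T0 := by
        rw [image_add_left, measure_preimage_add, Measure.addHaar_smul,
          Module.finrank_fintype_fun_eq_card, Fintype.card_subtype_compl, Fintype.card_fin,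
          Fintype.card_coe, abs_of_pos (pow_pos h1l _)]
      rw [← hT]
      refine measure_mono ?_
      rintro _ ⟨_, ⟨w0, hw0, rfl⟩, rfl⟩
      have hu : (spl F).symm (u1, w1) ∈ K := hp
      have hw : (spl F).symm (0, w0) ∈ K := hw0
      have hcomb := hKc hu hw hl.le h1l.le (by ring)
      rw [mem_symm' F, spl_add, spl_smul, spl_smul, MeasurableEquiv.apply_symm_apply,
        MeasurableEquiv.apply_symm_apply] at hcomb
      have he : l • ((u1, w1) : ({i // i ∈ F} → ℝ) × ({i // ¬ i ∈ F} → ℝ)) +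
          (1 - l) • ((0, w0) : ({i // i ∈ F} → ℝ) × ({i // ¬ i ∈ F} → ℝ)) =
          (l • u1, l • w1 + (1 - l) • w0) := by
        refine Prod.ext ?_ ?_
        · simp only [Prod.smul_mk, Prod.mk_add_mk, smul_zero, add_zero]
        · simp only [Prod.smul_mk, Prod.mk_add_mk]
      rw [he] at hcomb
      exact hcomb
    have hlS : volume (l • S0) = ENNReal.ofReal (l ^ F.card) * volume S0 := by
      rw [Measure.addHaar_smul, Module.finrank_fintype_fun_eq_card, Fintype.card_coe,
        abs_of_pos (pow_pos hl _)]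
    rw [Measure.prod_apply hK'm]
    calc ENNReal.ofReal (l ^ F.card * (1 - l) ^ (n - F.card)) * (volume S0 * volume T0)
        = (ENNReal.ofReal ((1 - l) ^ (n - F.card)) * volume T0) * volume (l • S0) := by
          rw [hlS, ENNReal.ofReal_mul (by positivity)]
          ring
      _ = ∫⁻ u in l • S0, (ENNReal.ofReal ((1 - l) ^ (n - F.card)) * volume T0) := by
          rw [setLIntegral_const]
      _ ≤ ∫⁻ u in l • S0, volume (Prod.mk u ⁻¹' K') :=
          setLIntegral_mono' (hS0c.smul l).measurableSet hfib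
      _ ≤ ∫⁻ u, volume (Prod.mk u ⁻¹' K') := setLIntegral_le_lintegral _ _
  have hV0 : (volume.prod volume) K' ≠ 0 := by
    rw [hvK]
    intro h
    rw [Measure.real, h] at hpos
    simp at hpos
  have hmain := exch volume volume K' hK'm S0 T0 hS0m hT0m hS0f hT0f h1 (ENNReal.ofReal δ)
    (ENNReal.ofReal (l ^ F.card * (1 - l) ^ (n - F.card))) hV0 hc
  rw [hvK] at hmain
  have hVof : volume K = ENNReal.ofReal V := (ENNReal.ofReal_toReal hKf).symm
  have hset : {y | y ∈ K ∧ volume.real {x | x ∈ K ∧ mix F y x ∈ K} <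
        1 / 2 * δ ^ 2 * (l ^ F.card * (1 - l) ^ (n - F.card)) * V} =
      spl F ⁻¹' {p | p ∈ K' ∧ (volume.prod volume) {q | q ∈ K' ∧ (p.1, q.2) ∈ K'} <
        ENNReal.ofReal δ ^ 2 / 2 * ENNReal.ofReal (l ^ F.card * (1 - l) ^ (n - F.card)) *
          volume K} := by
    ext y
    have e1 : volume {x | x ∈ K ∧ mix F y x ∈ K} =
        (volume.prod volume) {q | q ∈ K' ∧ ((spl F y).1, q.2) ∈ K'} := by
      rw [← vol_eq]
      congr 1
      ext x
      rw [mem_ofPred_eq, mem_symm, mem_symm' F]
      rfl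
    have e2 : ENNReal.ofReal δ ^ 2 / 2 * ENNReal.ofReal (l ^ F.card * (1 - l) ^ (n - F.card)) *
        volume K = ENNReal.ofReal (1 / 2 * δ ^ 2 * (l ^ F.card * (1 - l) ^ (n - F.card)) * V) := by
      have hl' : 0 ≤ (1 - l) := by linarith
      generalize hL : l ^ F.card * (1 - l) ^ (n - F.card) = L
      have hL0 : 0 ≤ L := by
        rw [← hL]
        positivity
      rw [hVof, ENNReal.ofReal_mul (by positivity : (0:ℝ) ≤ 1 / 2 * δ ^ 2 * L),
        ENNReal.ofReal_mul (by positivity : (0:ℝ) ≤ 1 / 2 * δ ^ 2),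
        ENNReal.ofReal_mul (by positivity : (0:ℝ) ≤ 1 / 2), ENNReal.ofReal_pow hδ.le]
      congr 2
      rw [one_div, ENNReal.ofReal_inv_of_pos two_pos, ENNReal.ofReal_ofNat,
        mul_comm (2 : ℝ≥0∞)⁻¹, ← div_eq_mul_inv]
    have e3 : volume {x | x ∈ K ∧ mix F y x ∈ K} ≠ ⊤ :=
      ne_top_of_le_ne_top hKf (measure_mono fun x hx => hx.1)
    rw [e2, mem_preimage, mem_ofPred_eq, mem_ofPred_eq, mem_symm' F K y, ← e1,
      ENNReal.lt_ofReal_iff_toReal_lt e3]
    rfl
  rw [hset, Measure.real, vol_eq]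
  refine ENNReal.toReal_le_of_le_ofReal (by positivity) (hmain.trans (le_of_eq ?_))
  rw [hVof, ENNReal.ofReal_mul (by positivity), ENNReal.ofReal_mul (by norm_num),
    ENNReal.ofReal_ofNat]

end Pool.Agent.Ovl
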