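import Pool.Agent.Ovl.Targets5
import Pool.Agent.Ovl.LOSS

/-!
# Symmetric bodies: at most `2 ^ d` translates (job OVL-SYM2)
-/

set_option autoImplicit false

open MeasureTheory Set Filter
open scoped Pointwise Topology

namespace Pool.Agent.Ovl

open Pool.Agent.Rog (E SymBody)

theorem p_SYM2 (hS : T_SYM) : T_SYM2 := by
  intro d s K hd hs0 hs1 hK hesc
  have hd' : (200 : ℝ) ≤ d := by exact_mod_cast hd
  have hd0 : (0 : ℝ) < d := by linarith
  have he1 : Real.exp 1 < 2.7182818286 := Real.exp_one_lt_d9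
  have he2 : 2.7182818283 < Real.exp 1 := Real.exp_one_gt_d9
  have hl2 : Real.log 2 < 0.6931471808 := Real.log_two_lt_d9
  -- the logarithm
  obtain ⟨l, hl⟩ : ∃ l : ℝ, l = Real.log (8 * d + 2) := ⟨_, rfl⟩
  have h8 : (0 : ℝ) < 8 * d + 2 := by positivity
  have hl_up : l ≤ 10 * Real.log 2 + ((8 * d + 2) / 1024 - 1) := by
    have h1 := Real.log_le_sub_one_of_pos (x := (8 * d + 2) / 1024) (by positivity)
    rw [Real.log_div h8.ne' (by norm_num)] at h1
    have h2 : Real.log 1024 = 10 * Real.log 2 := by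
      rw [show (1024 : ℝ) = 2 ^ 10 by norm_num, Real.log_pow]
      norm_num
    rw [hl]
    linarith
  have hl_low : 1 ≤ l := by
    rw [hl, Real.le_log_iff_exp_le h8]
    linarith
  obtain ⟨Θ, hΘ⟩ : ∃ Θ : ℝ, Θ = 2 * Real.exp 1 * d * l := ⟨_, rfl⟩
  have hepos : 0 < Real.exp 1 := Real.exp_pos 1
  have hΘ1 : 1 ≤ Θ := by
    have h1 : (1 : ℝ) ≤ 2 * Real.exp 1 := by linarith
    have h2 : (1 : ℝ) ≤ 2 * Real.exp 1 * d := by nlinarith
    rw [hΘ]
    nlinarith
  have hkey : 8 * Real.exp 1 * l ≤ (d : ℝ) := by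
    have h1 : l ≤ 5.9335 + 0.0078125 * d := by
      linarith
    have h2 : 8 * Real.exp 1 * l ≤ 8 * 2.7182818286 * (5.9335 + 0.0078125 * d) := by
      refine mul_le_mul ?_ h1 (by linarith) (by norm_num)
      linarith
    linarith
  have hΘ2 : 4 * Θ ≤ (d : ℝ) ^ 2 := by
    have h1 := mul_le_mul_of_nonneg_left hkey hd0.le
    rw [hΘ]
    calc 4 * (2 * Real.exp 1 * d * l) = d * (8 * Real.exp 1 * l) := by ring
      _ ≤ d * (d : ℝ) := h1
      _ = (d : ℝ) ^ 2 := by ring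
  obtain ⟨ω, hω⟩ : ∃ ω : ℝ, ω = (d : ℝ) ^ 2 * Real.exp (-(s * d / 4)) := ⟨_, rfl⟩
  have hcond : 3 * Θ * Real.exp (-(s * d / 4)) ≤ ω := by
    rw [hω]
    exact mul_le_mul_of_nonneg_right (by linarith) (Real.exp_pos _).le
  have hKc : IsCompact K := hK.cpt
  have hset : {y | y ∈ K ∧ (1 - ω) * volume.real K < loss K (s • y)} =
      {y | y ∈ K ∧ volume.real {x | x ∈ K ∧ x + s • y ∈ K} <
        (d : ℝ) ^ 2 * Real.exp (-(s * d / 4)) * volume.real K} := by
    ext y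
    simp only [mem_setOf_eq]
    rw [LOSS_.loss_eq hKc, ← hω]
    constructor
    · rintro ⟨h2, h3⟩
      exact ⟨h2, by linarith⟩
    · rintro ⟨h2, h3⟩
      exact ⟨h2, by linarith⟩
  have htail : volume.real {y | y ∈ K ∧ (1 - ω) * volume.real K < loss K (s • y)} *
      (4 * Θ) ≤ volume.real K := by
    rw [hset]
    exact (mul_le_mul_of_nonneg_left hΘ2 measureReal_nonneg).trans hesc
  obtain ⟨T, hT, hTK⟩ := hS d Θ s ω K (by omega) hΘ1 hs0 hs1 hcond hK htail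
  refine ⟨T, hT.trans ?_, hTK⟩
  rw [← hl, hΘ]
  have hlpos : 0 < l := by linarith
  have h7 : Real.exp 1 * 2 ^ d / (2 * Real.exp 1 * d * l) * (d * l) = 2 ^ d / 2 := by
    field_simp
  rw [h7]
  have h8 : (2 : ℝ) ≤ 2 ^ d := by
    calc (2 : ℝ) = 2 ^ 1 := by norm_num
      _ ≤ 2 ^ d := pow_le_pow_right₀ (by norm_num) (by omega)
  linarith

end Pool.Agent.Ovl
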