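import Mathlib
import Pool.Agent.Ovl.Targets

/-!
# Hadwiger's covering problem: the general principle and bodies of small circumradius
-/

set_option autoImplicit false

open MeasureTheory Set Filter
open scoped Pointwise Topology

namespace Pool.Agent.Ovl

open Pool.Agent.Rog (E SymBody)

/-- The general principle: if a small set `S` captures most midpoints `(x + y) / 2`, `y ∈ K`, for
each `x ∈ K`, then few translates suffice. -/
def T_GEN : Prop := ∀ (d : ℕ) (Θ : ℝ) (K S : Set (E d)), 2 ≤ d → 1 ≤ Θ → Convex ℝ K →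
  IsCompact K → (interior K).Nonempty → MeasurableSet S → S ⊆ K →
  64 * Θ * volume.real S ≤ volume.real K →
  (∀ x ∈ K, 4 * volume.real {y | y ∈ K ∧ (1 / 2 : ℝ) • (x + y) ∉ S} ≤ volume.real K) →
  Cov K (1 + Real.exp 1 * 2 ^ d / Θ * (d * Real.log (8 * d + 2)))

/-- Bodies of small circumradius. -/
def T_RAD : Prop := ∀ (d : ℕ) (Θ σ r ρ R : ℝ) (K : Set (E d)), 2 ≤ d → 1 ≤ Θ → 0 < σ →
  0 ≤ r → 0 ≤ ρ → 0 < R → R ^ 2 + r ^ 2 + 8 * σ * R ≤ 4 * ρ ^ 2 → Convex ℝ K → IsCompact K →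
  (interior K).Nonempty → K ⊆ Metric.closedBall 0 R →
  (∀ θ : E d, ∫ y in K, (inner ℝ θ y) ^ 2 ≤ σ ^ 2 * ‖θ‖ ^ 2 * volume.real K) →
  8 * volume.real {y | y ∈ K ∧ r < ‖y‖} ≤ volume.real K →
  64 * Θ * volume.real {y | y ∈ K ∧ ‖y‖ ≤ ρ} ≤ volume.real K →
  Cov K (1 + Real.exp 1 * 2 ^ d / Θ * (d * Real.log (8 * d + 2)))

end Pool.Agent.Ovl
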