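import Mathlib
import Pool.Agent.Ovl.Targets
import Pool.Agent.Ovl.Targets6

/-!
# Hadwiger's covering problem and small translations: width form with exceptional directions
-/

set_option autoImplicit false

open MeasureTheory Set Filter
open scoped Pointwise Topology

namespace Pool.Agent.Ovl

open Pool.Agent.Rog (E SymBody)

/-- Width form with exceptional directions: `T` is a linear map with `T K ⊆ K`, the translations
by `(y - T y) / d` lose little volume on the average, and in all directions the width of `K` is at
least `2500 log d` standard deviations of `T y`. -/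
def T_WID3 : Prop := ∀ (d : ℕ) (T : E d →L[ℝ] E d) (K : Set (E d)), 400 ≤ d → Convex ℝ K →
  IsCompact K → (0 : E d) ∈ interior K → (∀ y ∈ K, T y ∈ K) →
  7000 * Real.log d ^ 2 * ∫ y in K, loss K ((1 / (d : ℝ)) • (y - T y)) ≤ volume.real K ^ 2 →
  (∀ θ : E d, ∃ k ∈ K, 0 ≤ inner ℝ θ k ∧
    (2500 * Real.log d) ^ 2 * ∫ y in K, (inner ℝ θ (T y)) ^ 2 ≤
      volume.real K * (inner ℝ θ k) ^ 2) → Cov K (2 ^ d)

end Pool.Agent.Ovl
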