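import Mathlib
import Pool.Agent.Ovl.ROB3
import Pool.Agent.Ovl.CORE2
import Pool.Agent.Ovl.COV
import Pool.Agent.Ovl.SYMB
import Pool.Agent.Ovl.LEV
import Pool.Agent.Ovl.LOSS
import Pool.Agent.Ovl.BMO
import Pool.Agent.Ovl.SWQ
import Pool.Agent.Ovl.HFQ
import Pool.Agent.Ovl.FPQ
import Pool.Agent.Ovl.LR
import Pool.Agent.Ovl.GAU
import Pool.Agent.Ovl.LCT
import Pool.Agent.Ovl.NUMQ
import Pool.Agent.Ovl.BLQ
import Pool.Agent.Ovl.PRJ
import Pool.Agent.HRL.EN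
import Pool.Agent.HRL.TR
import Pool.Agent.HRP.GRD
import Pool.Agent.Rog.BMI
import Pool.Agent.ShadowA.PLB

/-!
# Bodies with a linear projection into themselves: closed theorem
-/

set_option autoImplicit false

open MeasureTheory Set Filter
open scoped Pointwise Topology

namespace Pool.Agent.Ovl

theorem u_BMO : T_BMO := p_BMO p_LOSS Pool.Agent.Rog.p_BMI

theorem u_ROB3 : T_ROB3 :=
  p_ROB3 (p_COV p_SYMB Pool.Agent.HRP.p_GRD)
    (p_CORE2 p_LOSS (p_LEV p_LOSS Pool.Agent.Rog.p_BMI) Pool.Agent.HRL.p_EN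
      Pool.Agent.HRL.p_TR)

theorem u_BLQ : T_BLQ :=
  p_BLQ p_LOSS u_BMO (p_FPQ p_LOSS u_BMO p_SWQ p_HFQ) (p_LR p_LOSS) p_GSUB (p_GAU p_GSUB)
    (p_LCT Pool.Agent.ShadowA.p_PLB) u_ROB3 p_NUMQ

end Pool.Agent.Ovl
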